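import Pool.Agent.W559.Mg.V6
import Pool.Agent.W22.Jord559
import Pool.Agent.H920R2.Sig10

set_option autoImplicit false
set_option linter.unusedSectionVars false

open MvPolynomial AlgebraicGeometry CategoryTheory

universe u v w

namespace Pool.Agent.W559.Mg

section ext

variable {k : Type u} [Field k] {n : ℕ}

/-- The field of rational functions. -/
abbrev FL (k : Type u) [Field k] (n : ℕ) : Type u := FractionRing (MvPolynomial (Fin n) k)

/-- The inclusion of the polynomial ring. -/
noncomputable def gB (k : Type u) [Field k] (n : ℕ) : MvPolynomial (Fin n) k →ₐ[k] FL k n :=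
  IsScalarTower.toAlgHom k _ _

lemma gB_inj : Function.Injective (gB k n) := IsFractionRing.injective _ _

/-- The extension of an automorphism to the field of rational functions. -/
noncomputable def fe (M : Matrix (Fin n) (Fin n) k) (hM : Function.Injective (H920R2.linSub M)) :
    FL k n →ₐ[k] FL k n :=
  IsFractionRing.liftAlgHom (g := (gB k n).comp (H920R2.linSub M)) (gB_inj.comp hM)

lemma fe_gB (M : Matrix (Fin n) (Fin n) k) (hM : Function.Injective (H920R2.linSub M))
    (b : MvPolynomial (Fin n) k) : fe M hM (gB k n b) = gB k n (H920R2.linSub M b) :=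
  IsFractionRing.lift_algebraMap (gB_inj.comp hM) b

lemma linSub_inj (M : Matrix (Fin n) (Fin n) k) (q : ℕ) (hq : 0 < q) (hM : M ^ q = 1) :
    Function.Injective (H920R2.linSub M) := (H920R2.linE M q hq hM).injective

lemma fe_iter (M : Matrix (Fin n) (Fin n) k) (hM : Function.Injective (H920R2.linSub M)) (j : ℕ)
    (b : MvPolynomial (Fin n) k) :
    (fe M hM)^[j] (gB k n b) = gB k n (H920R2.linSub (M ^ j) b) := by
  induction j with
  | zero => rw [pow_zero, H920R2.linSub_one']; rfl
  | succ j ih =>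
    rw [Function.iterate_succ_apply', ih, fe_gB, pow_succ, ← H920R2.linSub_comp']
    rfl

lemma frac (a : FL k n) : ∃ b c : MvPolynomial (Fin n) k, gB k n c ≠ 0 ∧
    gB k n c * a = gB k n b := by
  obtain ⟨b, c, hc, hbc⟩ := IsFractionRing.div_surjective (A := MvPolynomial (Fin n) k) a
  have hc0 : gB k n c ≠ 0 := by
    intro h0
    have h1 := gB_inj (h0.trans (map_zero (gB k n)).symm)
    exact nonZeroDivisors.ne_zero hc h1
  refine ⟨b, c, hc0, ?_⟩
  rw [← hbc]
  change gB k n c * (gB k n b / gB k n c) = gB k n b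
  field_simp

/-- An endomorphism which is the identity on the polynomials is the identity. -/
lemma eq_of_gB {φ : FL k n →ₐ[k] FL k n} (h : ∀ b, φ (gB k n b) = gB k n b) (a : FL k n) :
    φ a = a := by
  obtain ⟨b, c, hc, hcb⟩ := frac a
  have h1 := congrArg φ hcb
  rw [map_mul, h, h, ← hcb] at h1
  exact mul_left_cancel₀ hc h1

/-- The linear map of a matrix. -/
noncomputable def vm (M : Matrix (Fin n) (Fin n) k) : (Fin n → k) →ₗ[k] (Fin n → k) :=
  M.vecMulLinear

lemma vm_mul (M N : Matrix (Fin n) (Fin n) k) : vm (M * N) = vm N * vm M := by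
  refine LinearMap.ext fun w => ?_
  change Matrix.vecMul w (M * N) = Matrix.vecMul (Matrix.vecMul w M) N
  rw [Matrix.vecMul_vecMul]

lemma vm_one : vm (1 : Matrix (Fin n) (Fin n) k) = 1 := by
  refine LinearMap.ext fun w => ?_
  change Matrix.vecMul w 1 = w
  rw [Matrix.vecMul_one]

lemma vm_pow (M : Matrix (Fin n) (Fin n) k) (j : ℕ) : vm (M ^ j) = vm M ^ j := by
  induction j with
  | zero => rw [pow_zero, pow_zero, vm_one]
  | succ j ih => rw [pow_succ, vm_mul, ih, pow_succ']

lemma vm_sub (M N : Matrix (Fin n) (Fin n) k) : vm (M - N) = vm M - vm N := by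
  refine LinearMap.ext fun w => ?_
  change Matrix.vecMul w (M - N) = Matrix.vecMul w M - Matrix.vecMul w N
  rw [Matrix.vecMul_sub]

lemma vm_inj {M N : Matrix (Fin n) (Fin n) k} (h : vm M = vm N) : M = N := by
  ext i j
  have h1 := congrFun (congrArg (fun f => f (Pi.single i 1)) h) j
  change Matrix.vecMul (Pi.single i 1) M j = Matrix.vecMul (Pi.single i 1) N j at h1
  rwa [Matrix.single_one_vecMul, Matrix.single_one_vecMul] at h1

lemma sub_one_pow {p : ℕ} (hp : p.Prime) (hpk : (p : k) = 0) (Γ : Matrix (Fin n) (Fin n) k) :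
    (Γ - 1) ^ (p * p) = Γ ^ (p * p) - 1 := by
  have : Fact p.Prime := ⟨hp⟩
  have hchar : CharP k p := (CharP.charP_iff_prime_eq_zero hp).2 hpk
  have h1 : (Polynomial.X - 1 : Polynomial k) ^ (p * p) = Polynomial.X ^ (p * p) - 1 := by
    rw [pow_mul, sub_pow_char, one_pow, sub_pow_char, one_pow, ← pow_mul]
  have h2 := congrArg (Polynomial.aeval Γ) h1
  simpa using h2

end ext

section atlas

variable {k : Type u} [Field k] {n : ℕ}

/-- The main theorem in terms of the decomposition of the matrix. -/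
theorem hasRes {p : ℕ} (hp : p.Prime) (hpk : (p : k) = 0) {m : ℕ} (hm : 0 < m) (hmk : (m : k) ≠ 0)
    {ω : k} (hω : IsPrimitiveRoot ω m) (M Γ η : Matrix (Fin n) (Fin n) k)
    (hMe : M = Γ * η) (hΓM : ∃ a, Γ = M ^ a) (hηM : ∃ b, η = M ^ b) (hΓ : Γ ^ (p * p) = 1)
    (hη : η ^ m = 1) (hηo : ∀ d, η ^ d = 1 → m ∣ d) {q : ℕ} (hq : 0 < q) (hMq : M ^ q = 1) :
    H920R2.HasResolution (X := Spec (CommRingCat.of (H920R2.linInv M)))
      (Spec.map (CommRingCat.ofHom (algebraMap k (H920R2.linInv M)))) := by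
  classical
  have hcΓη : Γ * η = η * Γ := by
    obtain ⟨a, rfl⟩ := hΓM
    obtain ⟨b, rfl⟩ := hηM
    rw [← pow_add, ← pow_add, add_comm]
  have hpp : 0 < p * p := Nat.mul_pos hp.pos hp.pos
  have iΓ := linSub_inj Γ (p * p) hpp hΓ
  have iη := linSub_inj η m hm hη
  -- linear algebra
  set N := vm (Γ - 1) with hN
  set h := vm η with hh
  have hcomm : N * h = h * N := by
    rw [hN, hh, ← vm_mul, ← vm_mul, sub_mul, mul_sub, one_mul, mul_one, hcΓη]
  have hN0 : N ^ (p * p) = 0 := by
    rw [hN, ← vm_pow, sub_one_pow hp hpk, hΓ, sub_self]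
    refine LinearMap.ext fun w => ?_
    change Matrix.vecMul w 0 = 0
    rw [Matrix.vecMul_zero]
  have hhm : h ^ m = 1 := by rw [hh, ← vm_pow, hη, vm_one]
  obtain ⟨β0, hβ0, l0, χ0, Y, hl, hY, hNY, Bs, hB⟩ :=
    Pool.Agent.W22.Jord559.main N h hcomm (p * p) hN0 m hmk ω hω hhm
  have hNh : ∀ (i : ℕ) w, h ((N ^ i) w) = (N ^ i) (h w) := by
    intro i
    induction i with
    | zero => exact fun w => rfl
    | succ i ih =>
      intro w
      have h1 : ∀ w, h (N w) = N (h w) := fun w => (congrArg (fun f => f w) hcomm).symm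
      rw [pow_succ', Module.End.mul_apply, Module.End.mul_apply, h1, ih]
  -- the data
  let β : Type u := ULift.{u} β0
  have hβ : Finite β := inferInstance
  let l : β → ℕ := fun b => l0 b.down
  let χ : β → ℕ := fun b => χ0 b.down
  let y : β → ℕ → FL k n := fun b i => gB k n (H920R2.lf ((N ^ i) (Y b.down)))
  let γ := fe Γ iΓ
  let hK := fe η iη
  have hdl : ∀ w, dl γ (gB k n (H920R2.lf w)) = gB k n (H920R2.lf (N w)) := by
    intro w
    unfold dl
    change fe Γ iΓ (gB k n (H920R2.lf w)) - gB k n (H920R2.lf w) = _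
    rw [fe_gB, H920R2.linSub_lf', map_add, map_add, add_sub_cancel_left]
    rfl
  have hhK : ∀ w, hK (gB k n (H920R2.lf w)) = gB k n (H920R2.lf (h w)) := by
    intro w
    change fe η iη (gB k n (H920R2.lf w)) = _
    rw [fe_gB, H920R2.linSub_lf']
    congr 2
    change w + vm (η - 1) w = h w
    rw [vm_sub, vm_one, LinearMap.sub_apply, Module.End.one_apply, add_sub_cancel]
  have hy0 : ∀ b i, l b ≤ i → y b i = 0 := by
    intro b i hi
    obtain ⟨e, rfl⟩ := Nat.exists_eq_add_of_le hi
    change gB k n (H920R2.lf ((N ^ (l0 b.down + e)) (Y b.down))) = 0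
    rw [add_comm, pow_add, Module.End.mul_apply, hNY, map_zero, map_zero, map_zero]
  have hyd : ∀ b i, dl γ (y b i) = y b (i + 1) := by
    intro b i
    change dl γ (gB k n (H920R2.lf ((N ^ i) (Y b.down)))) = _
    rw [hdl, ← Module.End.mul_apply, ← pow_succ']
  have hyh : ∀ b i, hK (y b i) = algebraMap k (FL k n) (ω ^ χ b) * y b i := by
    intro b i
    change hK (gB k n (H920R2.lf ((N ^ i) (Y b.down)))) = _
    rw [hhK, hNh, hY, map_smul, map_smul, map_smul, Algebra.smul_def]
  have hBp : ∀ f, gB k n f ∈ Bp k y := by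
    have h1 : ∀ w, gB k n (H920R2.lf w) ∈ Bp k y := by
      intro w
      have h2 : Submodule.span k (Set.range Bs) ≤ (Subalgebra.toSubmodule (Bp k y)).comap
          ((gB k n).toLinearMap ∘ₗ H920R2.lf) := by
        rw [Submodule.span_le]
        rintro _ ⟨q, rfl⟩
        rw [hB]
        exact Algebra.subset_adjoin ⟨ULift.up q.1, q.2, rfl⟩
      exact h2 (by rw [Bs.span_eq]; trivial)
    intro f
    have h2 : f ∈ Algebra.adjoin k
        (Set.range (H920R2.lf : (Fin n → k) →ₗ[k] MvPolynomial (Fin n) k)) := by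
      rw [H920R2.adjoin_lf]; trivial
    have h3 : Algebra.adjoin k
        (Set.range (H920R2.lf : (Fin n → k) →ₗ[k] MvPolynomial (Fin n) k)) ≤
        (Bp k y).comap (gB k n) := by
      rw [Algebra.adjoin_le_iff]
      rintro _ ⟨w, rfl⟩
      exact h1 w
    exact h3 h2
  have hBp' : ∀ x ∈ Bp k y, ∃ f, gB k n f = x := by
    have h1 : Bp k y ≤ (gB k n).range := by
      unfold Bp
      rw [Algebra.adjoin_le_iff]
      rintro _ ⟨b, i, rfl⟩
      exact ⟨_, rfl⟩
    intro x hx
    obtain ⟨f, hf⟩ := h1 hx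
    exact ⟨f, hf⟩
  have hai : AlgebraicIndependent k fun q : Σ b, Fin (l b) => y q.1 q.2 := by
    have h1 : AlgebraicIndependent k fun q : Σ b, Fin (l0 b) =>
        gB k n (H920R2.lf (Bs q)) := by
      have hE : ∀ v, Bs.equivFun.symm (Pi.single v 1) = Bs v := by
        intro v
        rw [Module.Basis.equivFun_symm_apply, Finset.sum_eq_single v]
        · rw [Pi.single_eq_same, one_smul]
        · intro w _ hw
          rw [Pi.single_eq_of_ne hw, zero_smul]
        · intro h
          exact absurd (Finset.mem_univ v) h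
      have h2 : (aeval fun q : Σ b, Fin (l0 b) => gB k n (H920R2.lf (Bs q)) :
          MvPolynomial (Σ b, Fin (l0 b)) k →ₐ[k] FL k n) =
          (gB k n).comp (H920R2.pme Bs.equivFun.symm :
            MvPolynomial (Σ b, Fin (l0 b)) k →ₐ[k] MvPolynomial (Fin n) k) := by
        apply algHom_ext
        intro i
        rw [aeval_X]
        change gB k n (H920R2.lf (Bs i)) = gB k n (H920R2.pme Bs.equivFun.symm (X i))
        rw [H920R2.pme_apply, H920R2.pm_X]
        congr 2
        exact (hE i).symm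
      change Function.Injective (aeval fun q : Σ b, Fin (l0 b) => gB k n (H920R2.lf (Bs q)) :
          MvPolynomial (Σ b, Fin (l0 b)) k →ₐ[k] FL k n)
      rw [h2]
      exact gB_inj.comp (H920R2.pme Bs.equivFun.symm).injective
    have h2 := h1.comp (fun q : Σ b : β, Fin (l b) => (⟨q.1.down, q.2⟩ : Σ b, Fin (l0 b))) (by
      rintro ⟨⟨b⟩, i⟩ ⟨⟨b'⟩, i'⟩ h
      simp only [Sigma.mk.injEq] at h
      obtain ⟨rfl, h⟩ := h
      rw [eq_of_heq h])
    have h3 : (fun q : Σ b, Fin (l b) => y q.1 q.2) =
        (fun q : Σ b, Fin (l0 b) => gB k n (H920R2.lf (Bs q))) ∘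
        (fun q : Σ b : β, Fin (l b) => (⟨q.1.down, q.2⟩ : Σ b, Fin (l0 b))) := by
      funext q
      change gB k n (H920R2.lf ((N ^ (q.2 : ℕ)) (Y q.1.down))) =
        gB k n (H920R2.lf (Bs ⟨q.1.down, q.2⟩))
      rw [hB]
    rw [h3]
    exact h2
  have hgen : AddSubgroup.closure ({(m : ℤ)} ∪ Set.range fun b => (χ b : ℤ)) = ⊤ := by
    set P := AddSubgroup.closure ({(m : ℤ)} ∪ Set.range fun b => (χ b : ℤ)) with hP
    obtain ⟨a, ha⟩ := Int.subgroup_cyclic P
    have hdvd : ∀ c ∈ P, (a.natAbs : ℤ) ∣ c := by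
      intro c hc
      rw [ha, AddSubgroup.mem_closure_singleton] at hc
      obtain ⟨z, rfl⟩ := hc
      rw [Int.natAbs_dvd, smul_eq_mul]
      exact Dvd.intro_left z rfl
    have h1 : a.natAbs ∣ m := by
      exact_mod_cast hdvd _ (AddSubgroup.subset_closure (Or.inl rfl))
    have h2 : ∀ b, a.natAbs ∣ χ0 b := by
      intro b
      have h2 := hdvd (χ0 b : ℤ) (AddSubgroup.subset_closure (Or.inr ⟨ULift.up b, rfl⟩))
      exact Int.natCast_dvd_natCast.1 h2
    obtain ⟨e, he⟩ := h1
    have h3 : h ^ e = 1 := by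
      have hpw : ∀ (j : ℕ) b, (h ^ j) (Y b) = (ω ^ χ0 b) ^ j • Y b := by
        intro j b
        induction j with
        | zero => rw [pow_zero, pow_zero, one_smul]; rfl
        | succ j ih => rw [pow_succ', Module.End.mul_apply, ih, map_smul, hY, smul_smul,
            ← pow_succ]
      have hpw' : ∀ (j i : ℕ) w, (h ^ j) ((N ^ i) w) = (N ^ i) ((h ^ j) w) := by
        intro j i
        induction j with
        | zero => exact fun w => rfl
        | succ j ih => intro w; rw [pow_succ', Module.End.mul_apply, ih, hNh,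
            ← Module.End.mul_apply h, ← pow_succ']
      refine Bs.ext fun q => ?_
      rw [hB, hpw', hpw, Module.End.one_apply]
      obtain ⟨c, hc⟩ := h2 q.1
      have h4 : (ω ^ χ0 q.1) ^ e = 1 := by
        rw [hc, ← pow_mul]
        have : a.natAbs * c * e = m * c := by rw [he]; ring
        rw [this, pow_mul, hω.pow_eq_one, one_pow]
      rw [h4, one_smul]
    have h4 : η ^ e = 1 := by
      apply vm_inj
      rw [vm_pow, vm_one]
      exact h3
    have h5 := hηo e h4
    have he0 : 0 < e := by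
      rcases Nat.eq_zero_or_pos e with h0 | h0
      · rw [h0, mul_zero] at he; omega
      · exact h0
    have h6 := Nat.le_of_dvd he0 h5
    have h7 : a.natAbs = 1 := by
      have h8 : 0 < a.natAbs := by
        rcases Nat.eq_zero_or_pos a.natAbs with h0 | h0
        · rw [h0, zero_mul] at he; omega
        · exact h0
      by_contra hne
      have h9 : 2 ≤ a.natAbs := by omega
      nlinarith
    have h8 : (1 : ℤ) ∈ P := by
      rw [ha, AddSubgroup.mem_closure_singleton]
      rcases Int.natAbs_eq a with h9 | h9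
      · exact ⟨1, by rw [h9, h7]; rfl⟩
      · exact ⟨-1, by rw [h9, h7]; rfl⟩
    rw [eq_top_iff]
    rintro c -
    have h9 := P.zsmul_mem h8 c
    rwa [smul_eq_mul, mul_one] at h9
  have hgp : ∀ x : FL k n, γ^[p * p] x = x := by
    intro x
    have h1 : (γ ^ (p * p)) x = x := by
      apply eq_of_gB
      intro b
      rw [pow_app]
      change (fe Γ iΓ)^[p * p] (gB k n b) = gB k n b
      rw [fe_iter, hΓ, H920R2.linSub_one']
      rfl
    rwa [pow_app] at h1
  have D : LD γ hK p m ω l χ y :=
    { y0 := hy0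
      yd := hyd
      mp := fun b => (hl b.down).2
      mpos := fun b => (hl b.down).1
      yh := hyh
      ai := hai
      fr := fun a => by
        obtain ⟨b, c, hc, hcb⟩ := frac a
        exact ⟨_, _, hBp b, hBp c, hc, hcb⟩
      M0 := hm
      Mk := hmk
      om := hω
      gen := hgen
      gp := hgp }
  -- the ring of invariants
  let g : H920R2.linInv M →ₐ[k] FL k n := (gB k n).comp (H920R2.linInv M).val
  have hg : Function.Injective g := gB_inj.comp Subtype.val_injective
  have hMfix : ∀ b ∈ H920R2.linInv M, ∀ j, H920R2.linSub (M ^ j) b = b := by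
    intro b hb j
    have hb' : H920R2.linSub M b = b := hb
    induction j with
    | zero => rw [pow_zero, H920R2.linSub_one']; rfl
    | succ j ih =>
      rw [pow_succ, ← H920R2.linSub_comp']
      change H920R2.linSub M (H920R2.linSub (M ^ j) b) = b
      rw [ih, hb']
  have I : IV g γ hK y :=
    { mem := fun a => by
        refine ⟨hBp _, ?_, ?_⟩
        · change fe Γ iΓ (gB k n a.1) = gB k n a.1
          obtain ⟨j, hj⟩ := hΓM
          rw [fe_gB]
          have h1 := hMfix a.1 a.2 j
          rw [← hj] at h1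
          rw [h1]
        · change fe η iη (gB k n a.1) = gB k n a.1
          obtain ⟨j, hj⟩ := hηM
          rw [fe_gB]
          have h1 := hMfix a.1 a.2 j
          rw [← hj] at h1
          rw [h1]
      sur := fun x hx h1 h2 => by
        obtain ⟨b, rfl⟩ := hBp' x hx
        change fe Γ iΓ (gB k n b) = gB k n b at h1
        change fe η iη (gB k n b) = gB k n b at h2
        rw [fe_gB] at h1 h2
        have h3 := gB_inj h1
        have h4 := gB_inj h2
        refine ⟨⟨b, ?_⟩, rfl⟩
        change H920R2.linSub M b = b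
        rw [hMe, ← H920R2.linSub_comp']
        change H920R2.linSub η (H920R2.linSub Γ b) = b
        rw [h3, h4]
      val := fun V hV b i => by
        have hint := H920R2.isIntegral_fixedAlg (H920R2.linE M q hq hMq) q hq
          (H920R2.linE_p M q hq hMq)
        rw [H920R2.fixedAlg_linE] at hint
        obtain ⟨P, hP, hP0⟩ := hint.isIntegral (H920R2.lf ((N ^ i) (Y b.down)))
        have hb : IsIntegral V (y b i) := by
          let φ : H920R2.linInv M →+* V := g.toRingHom.codRestrict V.toSubring hV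
          refine ⟨P.map φ, hP.map φ, ?_⟩
          rw [Polynomial.eval₂_map]
          have h1 := congrArg (gB k n) hP0
          change (gB k n : MvPolynomial (Fin n) k →+* FL k n) _ = _ at h1
          rw [Polynomial.hom_eval₂, map_zero] at h1
          exact h1
        obtain ⟨z, hz⟩ := (IsIntegrallyClosed.isIntegral_iff (R := V) (K := FL k n)).1 hb
        rw [← hz]
        exact z.2 }
  -- the atlas
  have hfixall : ∀ e : ℕ, (∀ b i, γ^[e] (y b i) = y b i) → ∀ x : FL k n, γ^[e] x = x := by
    intro e he x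
    rw [← pow_app]
    refine eq_of_gB (fun b => ?_) x
    have h1 : Bp k y ≤ fx (γ ^ e) := by
      unfold Bp
      rw [Algebra.adjoin_le_iff]
      rintro _ ⟨b, i, rfl⟩
      rw [SetLike.mem_coe, mem_fx, pow_app]
      exact he b i
    exact h1 (hBp b)
  have hatlas : ∃ (T : Type u) (_ : Finite T) (E : ℕ) (C : T → Subalgebra k (ML (FL k n) G3))
      (H : T → FL k n), MA g E C H := by
    by_cases h2 : ∃ b, p < l b
    · exact D.ma_two I hp hpk h2
    · push Not at h2
      by_cases h1 : ∃ b, 1 < l b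
      · refine D.ma_one I hp hpk (hfixall p ?_) h1
        intro b i
        have h3 := dl_iter_p γ hp (cast_p (k := k) hpk) (y b i)
        rw [D.yit, D.y0 b (i + p) (by have := h2 b; omega)] at h3
        exact (sub_eq_zero.1 h3.symm)
      · push Not at h1
        refine D.ma_tame I ?_
        intro x
        refine hfixall 1 ?_ x
        intro b i
        change γ (y b i) = y b i
        rw [eq_add_dl, D.yd, D.y0 b (i + 1) (by have := h1 b; omega), add_zero]
  obtain ⟨T, hT, E, C, H, hMA⟩ := hatlas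
  exact hasResolution_three hg hMA

/-- Quotients by cyclic groups whose order is not divisible by the cube of the characteristic. -/
theorem hasRes' {p : ℕ} (hp : p.Prime) (hpk : (p : k) = 0) {m : ℕ} (hm : 0 < m)
    {ω : k} (hω : IsPrimitiveRoot ω m) (M : Matrix (Fin n) (Fin n) k)
    (hM : M ^ (p ^ 2 * m) = 1) :
    H920R2.HasResolution (X := Spec (CommRingCat.of (H920R2.linInv M)))
      (Spec.map (CommRingCat.ofHom (algebraMap k (H920R2.linInv M)))) := by
  have hchar : CharP k p := (CharP.charP_iff_prime_eq_zero hp).2 hpk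
  have : Fact p.Prime := ⟨hp⟩
  have hpm : ¬ p ∣ m := by
    rintro ⟨e, rfl⟩
    have he : 0 < e := by
      rcases Nat.eq_zero_or_pos e with h0 | h0
      · rw [h0, mul_zero] at hm; omega
      · exact h0
    have h1 : (ω ^ e - 1) ^ p = 0 := by
      rw [sub_pow_char, one_pow, ← pow_mul, mul_comm e p, hω.pow_eq_one, sub_self]
    have h2 : ω ^ e = 1 := sub_eq_zero.1 (pow_eq_zero_iff hp.ne_zero |>.1 h1)
    have h3 := Nat.le_of_dvd he (hω.dvd_of_pow_eq_one e h2)
    have := hp.two_le
    nlinarith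
  have hcop : Nat.Coprime (p ^ 2) m := Nat.Coprime.pow_left 2 ((Nat.Prime.coprime_iff_not_dvd hp).2 hpm)
  obtain ⟨e, he1, he2⟩ := Nat.chineseRemainder hcop 1 0
  obtain ⟨f, hf1, hf2⟩ := Nat.chineseRemainder hcop 0 1
  have hef : e + f ≡ 1 [MOD p ^ 2 * m] := by
    rw [← Nat.modEq_and_modEq_iff_modEq_mul hcop]
    exact ⟨he1.add hf1, he2.add hf2⟩
  obtain ⟨e', he'⟩ : m ∣ e := (Nat.modEq_zero_iff_dvd).1 he2
  obtain ⟨f', hf'⟩ : p ^ 2 ∣ f := (Nat.modEq_zero_iff_dvd).1 hf1
  have hΓ : (M ^ e) ^ (p * p) = 1 := by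
    rw [← pow_mul, he']
    have : m * e' * (p * p) = (p ^ 2 * m) * e' := by ring
    rw [this, pow_mul, hM, one_pow]
  have hη : (M ^ f) ^ m = 1 := by
    rw [← pow_mul, hf']
    have : p ^ 2 * f' * m = (p ^ 2 * m) * f' := by ring
    rw [this, pow_mul, hM, one_pow]
  have hMe : M = M ^ e * M ^ f := by
    rw [← pow_add, pow_eq_pow_of_modEq hef hM, pow_one]
  have hod : orderOf (M ^ f) ∣ m := orderOf_dvd_of_pow_eq_one hη
  obtain ⟨c, hc⟩ := hod
  have hω' : IsPrimitiveRoot (ω ^ c) (orderOf (M ^ f)) :=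
    hω.pow hm (by rw [mul_comm]; exact hc)
  have ho : 0 < orderOf (M ^ f) := by
    rcases Nat.eq_zero_or_pos (orderOf (M ^ f)) with h0 | h0
    · rw [h0, zero_mul] at hc; omega
    · exact h0
  have hok : ((orderOf (M ^ f) : ℕ) : k) ≠ 0 := by
    intro h0
    rw [CharP.cast_eq_zero_iff k p] at h0
    exact hpm (h0.trans ⟨c, hc⟩)
  exact hasRes hp hpk ho hok hω' M (M ^ e) (M ^ f) hMe ⟨e, rfl⟩ ⟨f, rfl⟩ hΓ (pow_orderOf_eq_one _)
    (fun d hd => orderOf_dvd_of_pow_eq_one hd) (q := p ^ 2 * m)
    (Nat.mul_pos (pow_pos hp.pos 2) hm) hM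

end atlas

end Pool.Agent.W559.Mg
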