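import Pool.Agent.W559.Mg.T4

set_option autoImplicit false
set_option linter.unusedSectionVars false

universe u v w

namespace Pool.Agent.W559.Mg

section level

variable {k A K : Type u} [Field k] [CommRing A] [IsDomain A] [Algebra k A] [Field K]
  [Algebra k K] {G : Type} [AddCommGroup G] {g : A →ₐ[k] K} {γ : K →ₐ[k] K} {E : ℕ} {T : Type u}
  {C : T → Subalgebra k (ML K G)} {H : T → K}

/-- One level of the construction: blowing up the fixed points of `σ`. -/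
theorem level_step [Finite T] (h : PA g (fx (gm G γ)) E C H) (τ : G →+ ℤ)
    {S : T → Subalgebra k (ML K G)} (hle : ∀ t, S t ≤ C t) (hgr : ∀ t, Gr (S t))
    (hneg : ∀ t m a, τ m ≤ 0 → mo m a ∈ C t ⊓ fx (gm G γ) → mo m a ∈ S t)
    (hgl : ∀ t t', ∀ f ∈ S t' ⊓ fx (gm G γ), ∃ n : ℕ, mo 0 (H t' / H t) ^ n * f ∈ S t)
    {p : ℕ} (hp : p.Prime) (hpk : (p : k) = 0) {σ : K →ₐ[k] K} {ν : G}
    (hcomm : ∀ x, γ (σ x) = σ (γ x)) (hfix : ∀ x, γ x = x → σ x = x)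
    (hγS : ∀ t, ∀ f ∈ S t, gm G γ f ∈ S t) (hDS : ∀ t, ∀ f ∈ S t, Dn ν σ f ∈ S t)
    (hs : ∀ t, mo (-ν) 1 ∈ S t) (hσp : ∀ t, ∀ f ∈ S t, (gm G σ)^[p] f = f)
    {N : ℕ} (hN : 0 < N) (hγN : ∀ t, ∀ f ∈ S t, (gm G γ)^[N] f = f)
    (X : T → Set (ML K G)) (hX : ∀ t, ∀ y ∈ X t, ∃ d a, y = mo d a)
    (hXS : ∀ t, Algebra.adjoin k (X t) = S t) (hfg : ∀ t, (S t).FG)
    (hH : ∀ t (Q : Ideal (S t)), Q.IsPrime → (∀ f : S t, (⟨Dn ν σ f, hDS t f f.2⟩ : S t) ∈ Q) →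
      ∀ d a, ∀ hda : mo d a ∈ S t, mo d a ∈ X t → 0 < τ d → (⟨mo d a, hda⟩ : S t) ∈ Q)
    (hpos : ∀ t, ∃ d a, a ≠ 0 ∧ 0 < τ d ∧ mo d a ∈ S t) :
    ∃ (J : T → Type u) (_ : ∀ t, Finite (J t)) (μ : ∀ t, J t → G) (x : ∀ t, J t → K)
      (φ : ∀ t, J t → G) (f : ∀ t, J t → K)
      (hm : ∀ t j, IsMark (S t) τ γ σ ν p (μ t j) (x t j) (φ t j) (f t j))
      (L N : ℕ) (u : (Σ t, J t) → K), (∀ t j, τ (μ t j) = L) ∧
      (∀ p, u p ≠ 0 ∧ mo (E • μ p.1 p.2) (u p) ∈ C p.1 ⊓ fx (gm G γ) ∧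
        mo (-(E • μ p.1 p.2)) (u p)⁻¹ ∈ C p.1 ⊓ fx (gm G γ)) ∧
      PA g (fx (gm G γ)) (E * L) (fun p : Σ t, J t => lc (S p.1) (mo (μ p.1 p.2) (x p.1 p.2))
        ((hm p.1 p.2).mem (hDS p.1))) (fun p => H p.1 ^ N * (x p.1 p.2 ^ E / u p)) := by
  classical
  choose I hI d c hc0 hcX hcS using fun t => exists_family (hfg t) (X t) (hX t) (hXS t)
  have hdS : ∀ t i, mo (d t i) (c t i) ∈ S t := fun t i => by
    rw [← hcS t]; exact Algebra.subset_adjoin ⟨i, rfl⟩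
  choose J hJ μ0 x0 φ0 f0 hm0 hrad0 using fun t => fin_cov hp hpk (hgr t) hcomm hfix (hγS t)
    (hDS t) (hs t) (hσp t) hN (hγN t) (d t) (c t) (hdS t)
    (fun Q hQ hQD i hi => hH t Q hQ hQD _ _ (hdS t i) (hcX t i) hi)
  have hfinT : Fintype T := Fintype.ofFinite T
  have hfinJ : ∀ t, Fintype (J t) := fun t => Fintype.ofFinite _
  -- equal degrees
  let e : ∀ t, J t → ℕ := fun t j => (τ (μ0 t j)).toNat
  have he : ∀ t j, ((e t j : ℕ) : ℤ) = τ (μ0 t j) := fun t j =>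
    Int.toNat_of_nonneg (hm0 t j).po.le
  have he0 : ∀ t j, 0 < e t j := fun t j => by
    have h1 := he t j
    have h2 := (hm0 t j).po
    omega
  let L : ℕ := ∏ t, ∏ j, e t j
  have hL0 : 0 < L := Finset.prod_pos fun t _ => Finset.prod_pos fun j _ => he0 t j
  have hLd : ∀ t j, e t j ∣ L := fun t j =>
    (Finset.dvd_prod_of_mem (e t) (Finset.mem_univ j)).trans
      (Finset.dvd_prod_of_mem (fun t => ∏ j, e t j) (Finset.mem_univ t))
  let q : ∀ t, J t → ℕ := fun t j => L / e t j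
  have hq : ∀ t j, e t j * q t j = L := fun t j => Nat.mul_div_cancel' (hLd t j)
  have hq0 : ∀ t j, q t j - 1 + 1 = q t j := fun t j => by
    have h1 := hq t j
    have : q t j ≠ 0 := by
      intro h0
      rw [h0, mul_zero] at h1
      omega
    omega
  let μ : ∀ t, J t → G := fun t j => q t j • μ0 t j
  let x : ∀ t, J t → K := fun t j => x0 t j ^ q t j
  have hm : ∀ t j, IsMark (S t) τ γ σ ν p (μ t j) (x t j) ((q t j - 1) • μ0 t j + φ0 t j)
      (x0 t j ^ (q t j - 1) * f0 t j) := by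
    intro t j
    have h1 := (hm0 t j).pow hfix (hDS t) (q t j - 1)
    rw [hq0] at h1
    exact h1
  have hμ : ∀ t j, τ (μ t j) = L := by
    intro t j
    change τ (q t j • μ0 t j) = L
    rw [map_nsmul, nsmul_eq_mul, ← he, mul_comm]
    exact_mod_cast hq t j
  have hmem : ∀ t j, mo (μ t j) (x t j) ∈ S t := fun t j => (hm t j).mem (hDS t)
  have hrad : ∀ t i, 0 < τ (d t i) → (⟨mo (d t i) (c t i), hdS t i⟩ : S t) ∈
      (Ideal.span (Set.range fun j => (⟨mo (μ t j) (x t j), hmem t j⟩ : S t))).radical := by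
    intro t i hi
    have h1 := rad_pow (fun j => (⟨mo (μ0 t j) (x0 t j), (hm0 t j).mem (hDS t)⟩ : S t)) (q t)
      (hrad0 t i hi)
    have h2 : (fun j => (⟨mo (μ0 t j) (x0 t j), (hm0 t j).mem (hDS t)⟩ : S t) ^ q t j) =
        fun j => (⟨mo (μ t j) (x t j), hmem t j⟩ : S t) := by
      funext j
      apply Subtype.ext
      exact mo_pow _ _ _
    rwa [h2] at h1
  have hexp : ∀ t i, 0 < τ (d t i) → ∃ (n : ℕ) (s : J t → ML K G), (∀ j, s j ∈ S t) ∧
      mo (d t i) (c t i) ^ n = ∑ᶠ j, s j * mo (μ t j) (x t j) := fun t i hi =>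
    rad_expand (hmem t) (hdS t i) (hrad t i hi)
  have hJne : ∀ t, Nonempty (J t) := by
    intro t
    obtain ⟨d', a', ha', hd', hS'⟩ := hpos t
    obtain ⟨i, hi⟩ := exists_pos_gen (k := k) τ (d t) (c t) ha' hd' (by rw [hcS t]; exact hS')
    by_contra hcon
    rw [not_nonempty_iff] at hcon
    obtain ⟨n, s, -, hs'⟩ := hexp t i hi
    rw [finsum_of_isEmpty, mo_pow] at hs'
    exact mo_ne_zero (pow_ne_zero n (hc0 t i)) hs'
  have hfxS : ∀ t j, mo (μ t j) (x t j) ∈ S t ⊓ fx (gm G γ) := fun t j =>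
    ⟨hmem t j, (hm t j).gfix⟩
  obtain ⟨N', u, hu, hpa⟩ := modif h τ hle (fun t => gr_inf (hgr t) (gr_fx γ)) hneg hgl x μ hL0
    (fun t j => (hm t j).ne) hfxS hμ
    (by
      intro t V E' ψ' hN'
      have := hJne t
      exact nrm_adjust hN' (hle t) τ (d t) (c t) (hc0 t) (hcS t) (x t) (μ t)
        (fun j => (hm t j).ne) (hmem t) (fun j => by rw [hμ]; exact_mod_cast hL0) (hexp t))
  exact ⟨J, hJ, μ, x, _, _, hm, L, N', u, hμ, hu, hpa⟩

/-- The final atlas. -/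
theorem ma_of_pa (h : PA g (fx (gm G γ)) E C H)
    (hsm : ∀ t, Algebra.Smooth k ↥(C t ⊓ fx (gm G γ))) :
    MA g E (fun t => C t ⊓ fx (gm G γ)) H := by
  refine ⟨{ H0 := h.H0
            hA := h.hA
            gr := fun t => by rw [inf_top_eq]; exact h.gr t
            aa := fun t a => ⟨h.aa t a, trivial⟩
            Fi := fun _ _ _ _ => trivial
            rt := fun t t' => ⟨h.rt t t', trivial⟩
            gl := ?_
            dn := fun t x hx => h.dn t x hx.1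
            cv := ?_
            E0 := h.E0
            un := fun t => by rw [inf_top_eq]; exact h.un t
            gen := fun t => by rw [inf_top_eq]; exact h.gen t }, hsm⟩
  · intro t t' f hf
    obtain ⟨n, hn⟩ := h.gl t t' f hf.1
    refine ⟨n, hn, ?_⟩
    exact (fx (gm G γ)).mul_mem ((fx (gm G γ)).pow_mem (h.rt t t').2 n) hf.1.2
  · intro V hV
    obtain ⟨t, E', ψ, hN⟩ := h.cv V hV
    exact ⟨t, E', ψ, hN.mono inf_le_left⟩

end level

end Pool.Agent.W559.Mg
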