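import Pool.Agent.H920R2.Gn5

set_option autoImplicit false
set_option linter.unusedSectionVars false

universe u v w

namespace Pool.Agent.W559.Mg

/-- The group algebra of a commutative group of degrees over a field. -/
abbrev ML (K : Type u) [Field K] (M : Type v) [AddCommGroup M] : Type (max u v) :=
  AddMonoidAlgebra K M

/-- The homogeneous element of degree `m` with coefficient `a`. -/
noncomputable def mo {K : Type u} [Field K] {M : Type v} [AddCommGroup M] (m : M) (a : K) :
    ML K M := AddMonoidAlgebra.single m a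

section basic

variable {k K : Type u} [Field k] [Field K] [Algebra k K] {M : Type v} [AddCommGroup M]

lemma coeff_mo [DecidableEq M] (d e : M) (a : K) : (mo d a).coeff e = if d = e then a else 0 := by
  unfold mo
  rw [AddMonoidAlgebra.coeff_single, Finsupp.single_apply]

lemma coeff_mo_same (d : M) (a : K) : (mo d a).coeff d = a := by
  classical
  rw [coeff_mo, if_pos rfl]

lemma coeff_mo_ne {d e : M} (h : d ≠ e) (a : K) : (mo d a).coeff e = 0 := by
  classical
  rw [coeff_mo, if_neg h]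

lemma mo_mul (d e : M) (a b : K) : mo d a * mo e b = mo (d + e) (a * b) :=
  AddMonoidAlgebra.single_mul_single _ _ _ _

lemma mo_add (d : M) (a b : K) : mo d (a + b) = mo d a + mo d b := by
  unfold mo; exact AddMonoidAlgebra.single_add _ _ _

lemma mo_zero (d : M) : mo d (0 : K) = 0 := by
  unfold mo; exact AddMonoidAlgebra.single_zero _

lemma mo_neg (d : M) (a : K) : mo d (-a) = -mo d a := by
  rw [eq_neg_iff_add_eq_zero, ← mo_add, neg_add_cancel, mo_zero]

lemma mo_sub (d : M) (a b : K) : mo d (a - b) = mo d a - mo d b := by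
  rw [sub_eq_add_neg, mo_add, mo_neg, sub_eq_add_neg]

lemma mo_one : mo (0 : M) (1 : K) = 1 := rfl

lemma mo_pow (d : M) (a : K) (n : ℕ) : mo d a ^ n = mo (n • d) (a ^ n) := by
  unfold mo
  rw [AddMonoidAlgebra.single_pow]

lemma mo_inj {d : M} {a b : K} (h : mo d a = mo d b) : a = b := by
  have := congrArg (fun f => f.coeff d) h
  simpa [coeff_mo_same] using this

lemma mo_ne_zero {d : M} {a : K} (ha : a ≠ 0) : mo d a ≠ 0 := by
  intro h
  rw [← mo_zero d] at h
  exact ha (mo_inj h)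

lemma algebraMap_ML (r : k) : algebraMap k (ML K M) r = mo 0 (algebraMap k K r) := rfl

lemma smul_mo (r : k) (d : M) (a : K) : r • mo d a = mo d (r • a) := by
  rw [Algebra.smul_def, algebraMap_ML, mo_mul, zero_add, Algebra.smul_def]

lemma mo_inv {d : M} {a : K} (ha : a ≠ 0) : mo d a * mo (-d) a⁻¹ = 1 := by
  rw [mo_mul, add_neg_cancel, mul_inv_cancel₀ ha, mo_one]

lemma isUnit_mo {d : M} {a : K} (ha : a ≠ 0) : IsUnit (mo d a) :=
  IsUnit.of_mul_eq_one _ (mo_inv ha)

lemma eq_sum_mo (f : ML K M) : f = ∑ d ∈ f.coeff.support, mo d (f.coeff d) := by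
  conv_lhs => rw [← AddMonoidAlgebra.sum_coeff_single f]
  rfl

lemma coeff_mo_mul (d : M) (a : K) (f : ML K M) (e : M) :
    (mo d a * f).coeff e = a * f.coeff (e - d) := by
  unfold mo
  exact AddMonoidAlgebra.coeff_single_mul_eq_mul_coeff _ (by
    intro m' _
    constructor
    · intro h; rw [← h]; abel
    · intro h; rw [h]; abel)

lemma coeff_add' (f g : ML K M) (e : M) : (f + g).coeff e = f.coeff e + g.coeff e := by
  rw [AddMonoidAlgebra.coeff_add, Finsupp.add_apply]

lemma coeff_sub' (f g : ML K M) (e : M) : (f - g).coeff e = f.coeff e - g.coeff e := by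
  rw [AddMonoidAlgebra.coeff_sub, Finsupp.sub_apply]

lemma coeff_zero' (e : M) : (0 : ML K M).coeff e = 0 := rfl

lemma coeff_smul' (r : k) (f : ML K M) (e : M) : (r • f).coeff e = r • f.coeff e := by
  rw [AddMonoidAlgebra.coeff_smul, Finsupp.smul_apply]

lemma coeff_sum' {ι : Type w} (s : Finset ι) (f : ι → ML K M) (e : M) :
    (∑ i ∈ s, f i).coeff e = ∑ i ∈ s, (f i).coeff e := by
  rw [AddMonoidAlgebra.coeff_sum, Finsupp.finsetSum_apply]

lemma coeff_mul_sum (f g : ML K M) (e : M) :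
    (f * g).coeff e = ∑ a ∈ f.coeff.support, f.coeff a * g.coeff (e - a) := by
  conv_lhs => rw [eq_sum_mo f, Finset.sum_mul]
  rw [coeff_sum']
  exact Finset.sum_congr rfl fun a _ => coeff_mo_mul _ _ _ _

lemma ml_ext {f g : ML K M} (h : ∀ m, f.coeff m = g.coeff m) : f = g := by
  apply AddMonoidAlgebra.coeff_injective
  ext m
  exact h m

/-- A subalgebra is graded if it contains the homogeneous components of its elements. -/
def Gr (C : Subalgebra k (ML K M)) : Prop := ∀ f ∈ C, ∀ d, mo d (f.coeff d) ∈ C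

lemma mem_of_comp (C : Subalgebra k (ML K M)) {f : ML K M} (h : ∀ d, mo d (f.coeff d) ∈ C) :
    f ∈ C := by
  rw [eq_sum_mo f]
  exact C.sum_mem fun d _ => h d

lemma gr_inf {C C' : Subalgebra k (ML K M)} (h : Gr C) (h' : Gr C') : Gr (C ⊓ C') :=
  fun f hf d => ⟨h f hf.1 d, h' f hf.2 d⟩

lemma gr_of_span (C : Subalgebra k (ML K M))
    (h : ∀ f ∈ C, f ∈ Submodule.span k {g | g ∈ C ∧ ∃ d a, g = mo d a}) : Gr C := by
  classical
  intro f hf d
  have hf' := h f hf
  clear hf
  induction hf' using Submodule.span_induction with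
  | mem g hg =>
    obtain ⟨hg, e, a, rfl⟩ := hg
    rw [coeff_mo]
    split_ifs with h1
    · rw [← h1]; exact hg
    · rw [mo_zero]; exact C.zero_mem
  | zero =>
    rw [coeff_zero', mo_zero]
    exact C.zero_mem
  | add x y _ _ hx hy =>
    rw [coeff_add', mo_add]
    exact C.add_mem hx hy
  | smul r x _ hx =>
    rw [coeff_smul', ← smul_mo]
    exact C.smul_mem hx r

lemma gr_adjoin (S : Set (ML K M)) (hS : ∀ s ∈ S, ∃ d a, s = mo d a) :
    Gr (Algebra.adjoin k S) := by
  apply gr_of_span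
  intro f hf
  set C := Algebra.adjoin k S with hC
  set N := Submodule.span k {g | g ∈ C ∧ ∃ d a, g = mo d a} with hM
  have hmul : ∀ x ∈ N, ∀ y ∈ N, x * y ∈ N := by
    intro x hx y hy
    induction hx using Submodule.span_induction with
    | mem g hg =>
      obtain ⟨hg, e, a, rfl⟩ := hg
      induction hy using Submodule.span_induction with
      | mem g' hg' =>
        obtain ⟨hg', e', a', rfl⟩ := hg'
        exact Submodule.subset_span ⟨C.mul_mem hg hg', _, _, mo_mul _ _ _ _⟩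
      | zero => rw [mul_zero]; exact N.zero_mem
      | add x y _ _ hx hy => rw [mul_add]; exact N.add_mem hx hy
      | smul r x _ hx => rw [mul_smul_comm]; exact N.smul_mem r hx
    | zero => rw [zero_mul]; exact N.zero_mem
    | add x y _ _ hx hy => rw [add_mul]; exact N.add_mem hx hy
    | smul r x _ hx => rw [smul_mul_assoc]; exact N.smul_mem r hx
  induction hf using Algebra.adjoin_induction with
  | mem x hx => exact Submodule.subset_span ⟨Algebra.subset_adjoin hx, hS x hx⟩
  | algebraMap r =>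
    exact Submodule.subset_span ⟨C.algebraMap_mem r, 0, _, algebraMap_ML r⟩
  | add x y _ _ hx hy => exact N.add_mem hx hy
  | mul x y _ _ hx hy => exact hmul x hx y hy

/-- The part of degree zero. -/
noncomputable def zr (k K : Type u) (M : Type v) [Field k] [Field K] [Algebra k K]
    [AddCommGroup M] : K →ₐ[k] ML K M where
  toFun := mo 0
  map_one' := mo_one
  map_mul' x y := by rw [mo_mul, add_zero]
  map_zero' := mo_zero 0
  map_add' := mo_add 0
  commutes' r := (algebraMap_ML r).symm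

end basic

section loc

variable {k : Type u} {D : Type v} [CommRing k] [CommRing D] [Algebra k D]

/-- The localization of a subalgebra. -/
def lc (C : Subalgebra k D) (x : D) (hx : x ∈ C) : Subalgebra k D where
  carrier := {f | ∃ n : ℕ, x ^ n * f ∈ C}
  mul_mem' := by
    rintro f g ⟨n, hn⟩ ⟨m, hm⟩
    refine ⟨n + m, ?_⟩
    have : x ^ (n + m) * (f * g) = (x ^ n * f) * (x ^ m * g) := by ring
    rw [this]
    exact C.mul_mem hn hm
  add_mem' := by
    rintro f g ⟨n, hn⟩ ⟨m, hm⟩
    refine ⟨n + m, ?_⟩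
    have : x ^ (n + m) * (f + g) = x ^ m * (x ^ n * f) + x ^ n * (x ^ m * g) := by ring
    rw [this]
    exact C.add_mem (C.mul_mem (C.pow_mem hx _) hn) (C.mul_mem (C.pow_mem hx _) hm)
  algebraMap_mem' r := ⟨0, by rw [pow_zero, one_mul]; exact C.algebraMap_mem r⟩

lemma mem_lc {C : Subalgebra k D} {x : D} {hx : x ∈ C} {f : D} :
    f ∈ lc C x hx ↔ ∃ n : ℕ, x ^ n * f ∈ C := Iff.rfl

lemma le_lc (C : Subalgebra k D) (x : D) (hx : x ∈ C) : C ≤ lc C x hx :=
  fun f hf => ⟨0, by rw [pow_zero, one_mul]; exact hf⟩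

lemma inv_mem_lc (C : Subalgebra k D) (x y : D) (hx : x ∈ C) (h : x * y = 1) :
    y ∈ lc C x hx := ⟨1, by rw [pow_one, h]; exact C.one_mem⟩

/-- Universal property of the localization, for algebras containing the inverse. -/
lemma lc_le {C C' : Subalgebra k D} {x y : D} (hx : x ∈ C) (h : x * y = 1) (hC : C ≤ C')
    (hy : y ∈ C') : lc C x hx ≤ C' := by
  rintro f ⟨n, hn⟩
  have h1 : f = y ^ n * (x ^ n * f) := by
    rw [← mul_assoc, ← mul_pow, mul_comm y, h, one_pow, one_mul]
  rw [h1]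
  exact C'.mul_mem (C'.pow_mem hy n) (hC hn)

lemma lc_mono {C C' : Subalgebra k D} {x : D} (hx : x ∈ C) (hx' : x ∈ C') (hC : C ≤ C') :
    lc C x hx ≤ lc C' x hx' := by
  rintro f ⟨n, hn⟩
  exact ⟨n, hC hn⟩

end loc

section smooth

variable {k : Type u} {D : Type u} [Field k] [CommRing D] [Algebra k D]

/-- The localization of a subalgebra is a localization. -/
lemma isLoc_lc (C : Subalgebra k D) {x : D} (hx : x ∈ C) (hu : IsUnit x) :
    letI : Algebra C (lc C x hx) := (Subalgebra.inclusion (le_lc C x hx)).toRingHom.toAlgebra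
    IsLocalization.Away (⟨x, hx⟩ : C) (lc C x hx) := by
  obtain ⟨y, hy⟩ := hu.exists_right_inv
  have hle := le_lc C x hx
  let _ : Algebra C (lc C x hx) := (Subalgebra.inclusion hle).toRingHom.toAlgebra
  have hmap : ∀ s : C, ((algebraMap C (lc C x hx) s : lc C x hx) : D) = s := fun s => rfl
  refine IsLocalization.Away.mk (⟨x, hx⟩ : C) ?_ ?_ ?_
  · refine IsUnit.of_mul_eq_one ⟨y, inv_mem_lc C x y hx hy⟩ ?_
    apply Subtype.ext
    exact hy
  · rintro ⟨f, n, hn⟩
    refine ⟨n, ⟨x ^ n * f, hn⟩, ?_⟩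
    apply Subtype.ext
    change f * (algebraMap C (lc C x hx) (⟨x, hx⟩ : C) : D) ^ n = x ^ n * f
    rw [hmap, mul_comm]
  · intro a b hab
    refine ⟨0, ?_⟩
    have h3 : ((algebraMap C (lc C x hx) a : lc C x hx) : D) =
      ((algebraMap C (lc C x hx) b : lc C x hx) : D) := congrArg Subtype.val hab
    rw [hmap, hmap] at h3
    rw [Subtype.ext h3]

lemma smooth_lc {C : Subalgebra k D} (hC : Algebra.Smooth k C) {x : D} (hx : x ∈ C)
    (hu : IsUnit x) : Algebra.Smooth k (lc C x hx) := by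
  let _ : Algebra C (lc C x hx) := (Subalgebra.inclusion (le_lc C x hx)).toRingHom.toAlgebra
  have _ : IsScalarTower k C (lc C x hx) := IsScalarTower.of_algebraMap_eq fun r => rfl
  have hloc := isLoc_lc C hx hu
  have h2 : Algebra.Smooth C (lc C x hx) := Algebra.Smooth.of_isLocalization_Away (⟨x, hx⟩ : C)
  exact Algebra.Smooth.comp k C (lc C x hx)

/-- Smoothness is local. -/
theorem smooth_of_lc (R : Subalgebra k D)
    (h : ∀ Q : Ideal R, Q.IsPrime → ∃ (x : D) (hx : x ∈ R), IsUnit x ∧ (⟨x, hx⟩ : R) ∉ Q ∧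
      Algebra.Smooth k (lc R x hx)) : Algebra.Smooth k R := by
  classical
  let s : Set R := {x | IsUnit (x : D) ∧ Algebra.Smooth k (lc R x x.2)}
  have hs : Ideal.span s = ⊤ := by
    by_contra hcon
    obtain ⟨Q, hQ, hle⟩ := Ideal.exists_le_maximal _ hcon
    obtain ⟨x, hx, hu, hnQ, hsm⟩ := h Q hQ.isPrime
    exact hnQ (hle (Ideal.subset_span ⟨hu, hsm⟩))
  have key := RingHom.Smooth.ofLocalizationSpanTarget (algebraMap k R) s hs (by
    rintro ⟨r, hu, hsm⟩
    rw [← IsScalarTower.algebraMap_eq]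
    let _ : Algebra R (lc R (r : D) r.2) :=
      (Subalgebra.inclusion (le_lc R (r : D) r.2)).toRingHom.toAlgebra
    have _ : IsScalarTower k R (lc R (r : D) r.2) := IsScalarTower.of_algebraMap_eq fun r => rfl
    have hloc : IsLocalization.Away r (lc R (r : D) r.2) := isLoc_lc R r.2 hu
    let e : lc R (r : D) r.2 ≃ₐ[R] Localization.Away r :=
      IsLocalization.algEquiv (Submonoid.powers r) _ _
    have h1 : Algebra.Smooth k (Localization.Away r) :=
      Algebra.Smooth.of_equiv (e.restrictScalars k)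
    exact RingHom.smooth_algebraMap.2 h1)
  exact RingHom.smooth_algebraMap.1 key

end smooth

section grlc

variable {k K : Type u} [Field k] [Field K] [Algebra k K] {M : Type v} [AddCommGroup M]

lemma gr_lc {C : Subalgebra k (ML K M)} (hC : Gr C) {d : M} {a : K}
    (hx : mo d a ∈ C) : Gr (lc C (mo d a) hx) := by
  rintro f ⟨n, hn⟩ e
  refine ⟨n, ?_⟩
  have h1 := hC _ hn (n • d + e)
  have h2 : mo d a ^ n * mo e (f.coeff e) = mo (n • d + e) ((mo d a ^ n * f).coeff (n • d + e)) := by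
    rw [mo_pow, mo_mul, coeff_mo_mul, add_sub_cancel_left]
  rw [h2]
  exact h1

variable {V : ValuationSubring K}

/-- A graded subalgebra is bounded with respect to a valuation. -/
def Nrm (V : ValuationSubring K) (E : ℕ) (ψ : M → V.ValueGroup) (C : Subalgebra k (ML K M)) :
    Prop :=
  0 < E ∧ (∀ m, ψ m ≠ 0) ∧ (∀ m m', ψ (m + m') = ψ m * ψ m') ∧
    ∀ f ∈ C, ∀ m, V.valuation (f.coeff m) ^ E ≤ ψ m

lemma Nrm.mono {E : ℕ} {ψ : M → V.ValueGroup} {C C' : Subalgebra k (ML K M)}
    (h : Nrm V E ψ C) (hle : C' ≤ C) : Nrm V E ψ C' :=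
  ⟨h.1, h.2.1, h.2.2.1, fun f hf => h.2.2.2 f (hle hf)⟩

lemma nrm_add {E : ℕ} (hE : 0 < E) {a b : K} {c : V.ValueGroup} (ha : V.valuation a ^ E ≤ c)
    (hb : V.valuation b ^ E ≤ c) : V.valuation (a + b) ^ E ≤ c := by
  rcases V.valuation.map_add' a b with h | h
  · exact (pow_le_pow_left' h _).trans ha
  · exact (pow_le_pow_left' h _).trans hb

lemma nrm_sum {E : ℕ} (hE : 0 < E) {ι : Type w} (s : Finset ι) (f : ι → K) {c : V.ValueGroup}
    (h : ∀ i ∈ s, V.valuation (f i) ^ E ≤ c) : V.valuation (∑ i ∈ s, f i) ^ E ≤ c := by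
  classical
  induction s using Finset.induction_on with
  | empty =>
    rw [Finset.sum_empty, map_zero, zero_pow hE.ne']
    exact zero_le
  | insert i s hi ih =>
    rw [Finset.sum_insert hi]
    exact nrm_add hE (h i (Finset.mem_insert_self i s))
      (ih fun j hj => h j (Finset.mem_insert_of_mem hj))

/-- The subalgebra of the elements which are bounded by a norm. -/
def nrmAlg (V : ValuationSubring K) (E : ℕ) (hE : 0 < E) (ψ : M → V.ValueGroup)
    (hψ : ∀ m m', ψ (m + m') = ψ m * ψ m') (hψ0 : ψ 0 = 1) (hk : ∀ r : k, algebraMap k K r ∈ V) :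
    Subalgebra k (ML K M) where
  carrier := {f | ∀ m, V.valuation (f.coeff m) ^ E ≤ ψ m}
  mul_mem' := by
    intro f g hf hg m
    rw [coeff_mul_sum]
    refine nrm_sum hE _ _ fun a _ => ?_
    rw [map_mul, mul_pow]
    have h1 : ψ m = ψ a * ψ (m - a) := by rw [← hψ, add_sub_cancel]
    rw [h1]
    exact mul_le_mul' (hf a) (hg _)
  add_mem' := by
    intro f g hf hg m
    rw [coeff_add']
    exact nrm_add hE (hf m) (hg m)
  algebraMap_mem' := by
    classical
    intro r m
    rw [algebraMap_ML, coeff_mo]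
    split_ifs with h
    · rw [← h, hψ0]
      exact pow_le_one' ((V.valuation_le_one_iff _).2 (hk r)) _
    · rw [map_zero, zero_pow hE.ne']
      exact zero_le

lemma psi_zero {ψ : M → V.ValueGroup} (h0 : ∀ m, ψ m ≠ 0)
    (hψ : ∀ m m', ψ (m + m') = ψ m * ψ m') : ψ 0 = 1 := by
  have h1 := hψ 0 0
  rw [add_zero] at h1
  have h2 := h0 0
  exact (mul_eq_left₀ h2).1 h1.symm

/-- The norm of a set of homogeneous generators. -/
lemma nrm_adjoin {E : ℕ} (hE : 0 < E) {ψ : M → V.ValueGroup} (h0 : ∀ m, ψ m ≠ 0)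
    (hψ : ∀ m m', ψ (m + m') = ψ m * ψ m') (hk : ∀ r : k, algebraMap k K r ∈ V)
    (S : Set (ML K M)) (hS : ∀ f ∈ S, ∀ m, V.valuation (f.coeff m) ^ E ≤ ψ m) :
    Nrm V E ψ (Algebra.adjoin k S) := by
  refine ⟨hE, h0, hψ, ?_⟩
  have h1 : Algebra.adjoin k S ≤ nrmAlg V E hE ψ hψ (psi_zero h0 hψ) hk := by
    rw [Algebra.adjoin_le_iff]
    exact hS
  exact fun f hf => h1 hf

lemma nrm_mo {E : ℕ} (hE : 0 < E) {ψ : M → V.ValueGroup} {m : M} {a : K}
    (h : V.valuation a ^ E ≤ ψ m) (m' : M) : V.valuation ((mo m a).coeff m') ^ E ≤ ψ m' := by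
  classical
  rw [coeff_mo]
  split_ifs with h1
  · rw [← h1]; exact h
  · rw [map_zero, zero_pow hE.ne']
    exact zero_le

lemma Nrm.alg {E : ℕ} {ψ : M → V.ValueGroup} {C : Subalgebra k (ML K M)} (h : Nrm V E ψ C)
    (r : k) : algebraMap k K r ∈ V := by
  have h1 := h.2.2.2 _ (C.algebraMap_mem r) 0
  rw [algebraMap_ML, coeff_mo_same, psi_zero h.2.1 h.2.2.1] at h1
  rw [← V.valuation_le_one_iff]
  exact (pow_le_one_iff_of_nonneg zero_le h.1.ne').1 h1

lemma Nrm.mo {E : ℕ} {ψ : M → V.ValueGroup} {C : Subalgebra k (ML K M)} (h : Nrm V E ψ C)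
    {m : M} {a : K} (hm : mo m a ∈ C) : V.valuation a ^ E ≤ ψ m := by
  have h1 := h.2.2.2 _ hm m
  rwa [coeff_mo_same] at h1

/-- Localization at an element of norm one. -/
lemma nrm_lc {E : ℕ} {ψ : M → V.ValueGroup} {C : Subalgebra k (ML K M)} (h : Nrm V E ψ C)
    {m : M} {a : K} (hx : mo m a ∈ C) (h1 : V.valuation a ^ E = ψ m) :
    Nrm V E ψ (lc C (mo m a) hx) := by
  refine ⟨h.1, h.2.1, h.2.2.1, ?_⟩
  rintro f ⟨n, hn⟩ e
  have h2 := h.2.2.2 _ hn (n • m + e)
  rw [mo_pow, coeff_mo_mul, add_sub_cancel_left, map_mul, map_pow, mul_pow, ← pow_mul,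
    mul_comm n, pow_mul, h1] at h2
  have h3 : ψ (n • m + e) = ψ m ^ n * ψ e := by
    rw [h.2.2.1]
    congr 1
    clear h2 hn
    induction n with
    | zero => rw [zero_smul, pow_zero, psi_zero h.2.1 h.2.2.1]
    | succ n ih => rw [succ_nsmul, h.2.2.1, ih, pow_succ]
  rw [h3] at h2
  have h4 : 0 < ψ m ^ n := zero_lt_iff.2 (pow_ne_zero _ (h.2.1 m))
  exact le_of_mul_le_mul_left h2 h4

end grlc

end Pool.Agent.W559.Mg
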