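import Pool.Agent.W559.Mg.A1

set_option autoImplicit false
set_option linter.unusedSectionVars false

open TensorProduct

universe u v w

namespace Pool.Agent.W559.Mg

section ext

variable {k : Type u} {D : Type u} [Field k] [CommRing D] [Algebra k D]

/-- Derivations extend to localizations. -/
theorem exists_der_lc {C : Subalgebra k D} {x : D} (hx : x ∈ C) (hu : IsUnit x)
    (E : Derivation k C C) : ∃ E' : Derivation k (lc C x hx) (lc C x hx),
      ∀ c : C, ((E' ⟨c, le_lc C x hx c.2⟩ : lc C x hx) : D) = E c := by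
  have hle := le_lc C x hx
  let T := lc C x hx
  let _ : Algebra C T := (Subalgebra.inclusion hle).toRingHom.toAlgebra
  have _ : IsScalarTower k C T := IsScalarTower.of_algebraMap_eq fun r => rfl
  let x' : C := ⟨x, hx⟩
  have hloc : IsLocalization.Away x' T := isLoc_lc C hx hu
  have hfe : Algebra.FormallyEtale C T :=
    Algebra.FormallyEtale.of_isLocalization (Submonoid.powers x')
  let l0 : Ω[C⁄k] →ₗ[C] T := (Algebra.linearMap C T) ∘ₗ E.liftKaehlerDifferential
  let l : T ⊗[C] Ω[C⁄k] →ₗ[T] T := LinearMap.liftBaseChange T l0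
  let e := KaehlerDifferential.tensorKaehlerEquivOfFormallyEtale k C T
  refine ⟨(l ∘ₗ e.symm.toLinearMap).compDer (KaehlerDifferential.D k T), fun c => ?_⟩
  have h1 : (⟨c, le_lc C x hx c.2⟩ : T) = algebraMap C T c := rfl
  have h2 : ((l ∘ₗ e.symm.toLinearMap).compDer (KaehlerDifferential.D k T))
      (algebraMap C T c) = algebraMap C T (E c) := by
    change l (e.symm (KaehlerDifferential.D k T (algebraMap C T c))) = _
    rw [KaehlerDifferential.tensorKaehlerEquivOfFormallyEtale_symm_D_algebraMap,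
      LinearMap.liftBaseChange_tmul, one_smul]
    change algebraMap C T (E.liftKaehlerDifferential (KaehlerDifferential.D k C c)) = _
    rw [Derivation.liftKaehlerDifferential_comp_D]
  rw [h1, h2]
  rfl

end ext

section mk

variable {k K : Type u} [Field k] [Field K] [Algebra k K] {G : Type} [AddCommGroup G]
  {C : Subalgebra k (ML K G)} (hgr : Gr C)

/-- Homogeneous component. -/
noncomputable def cp (d : G) (x : C) : C := ⟨mo d ((x : ML K G).coeff d), hgr _ x.2 d⟩

lemma cp_add (d : G) (x y : C) : cp hgr d (x + y) = cp hgr d x + cp hgr d y := by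
  apply Subtype.ext
  change mo d (((x : ML K G) + (y : ML K G)).coeff d) = mo d _ + mo d _
  rw [coeff_add', mo_add]

lemma cp_smul (d : G) (r : k) (x : C) : cp hgr d (r • x) = r • cp hgr d x := by
  apply Subtype.ext
  change mo d ((r • (x : ML K G)).coeff d) = r • mo d ((x : ML K G).coeff d)
  rw [smul_mo, coeff_smul']

lemma cp_zero (d : G) : cp hgr d 0 = 0 := by
  apply Subtype.ext
  change mo d ((0 : ML K G).coeff d) = 0
  rw [coeff_zero', mo_zero]

lemma cp_self (d : G) (x : C) : cp hgr d (cp hgr d x) = cp hgr d x := by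
  apply Subtype.ext
  change mo d ((mo d ((x : ML K G).coeff d)).coeff d) = mo d ((x : ML K G).coeff d)
  rw [coeff_mo_same]

lemma cp_ne {d e : G} (h : d ≠ e) (x : C) : cp hgr e (cp hgr d x) = 0 := by
  apply Subtype.ext
  change mo e ((mo d ((x : ML K G).coeff d)).coeff e) = 0
  rw [coeff_mo_ne h, mo_zero]

lemma cp_sum (x : C) : x = ∑ d ∈ (x : ML K G).coeff.support, cp hgr d x := by
  apply Subtype.ext
  conv_lhs => rw [eq_sum_mo (x : ML K G)]
  rw [AddSubmonoidClass.coe_finsetSum]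
  rfl

lemma cp_eq_zero {x : C} {d : G} (h : d ∉ (x : ML K G).coeff.support) : cp hgr d x = 0 := by
  apply Subtype.ext
  change mo d ((x : ML K G).coeff d) = 0
  rw [Finsupp.notMem_support_iff.1 h, mo_zero]

lemma cp_mul (d m : G) (x z : C) : cp hgr (d + m) (cp hgr d x * z) = cp hgr d x * cp hgr m z := by
  apply Subtype.ext
  change mo (d + m) ((mo d ((x : ML K G).coeff d) * (z : ML K G)).coeff (d + m)) =
    mo d ((x : ML K G).coeff d) * mo m ((z : ML K G).coeff m)
  rw [coeff_mo_mul, mo_mul, add_sub_cancel_left]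

lemma eq_mk_of_cp {d : G} {x : C} (h : cp hgr d x = x) :
    x = ⟨mo d ((x : ML K G).coeff d), hgr _ x.2 d⟩ := h.symm

/-- Induction principle for additive predicates. -/
lemma gr_ind {P : C → Prop} (h0 : P 0) (hadd : ∀ x y, P x → P y → P (x + y))
    (hhom : ∀ d x, cp hgr d x = x → P x) (x : C) : P x := by
  classical
  rw [cp_sum hgr x]
  have h1 : ∀ s : Finset G, P (∑ d ∈ s, cp hgr d x) := by
    intro s
    induction s using Finset.induction_on with
    | empty => rw [Finset.sum_empty]; exact h0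
    | insert d s hd ih =>
      rw [Finset.sum_insert hd]
      exact hadd _ _ (hhom d _ (cp_self hgr d x)) ih
  exact h1 _

variable {N : Type u} [AddCommGroup N] [Module C N] [Module k N] [IsScalarTower k C N]
  (e : G → C → N) (he0 : ∀ d, e d 0 = 0) (hadd : ∀ d x y, e d (x + y) = e d x + e d y)
  (hsmul : ∀ d (r : k) x, e d (r • x) = r • e d x)
  (hmul : ∀ d d' x y, cp hgr d x = x → cp hgr d' y = y →
    e (d + d') (x * y) = x • e d' y + y • e d x)

include he0 in
lemma mk_sum (x : C) (s : Finset G) (hs : (x : ML K G).coeff.support ⊆ s) :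
    ∑ d ∈ (x : ML K G).coeff.support, e d (cp hgr d x) = ∑ d ∈ s, e d (cp hgr d x) := by
  refine Finset.sum_subset hs fun d _ hd => ?_
  rw [cp_eq_zero hgr hd, he0]

include hadd hsmul he0 hmul in
/-- Construction of derivations from a prescription on homogeneous elements. -/
theorem exists_mkDer : ∃ D : Derivation k C N, ∀ d x, cp hgr d x = x → D x = e d x := by
  classical
  let D0 : C → N := fun x => ∑ d ∈ (x : ML K G).coeff.support, e d (cp hgr d x)
  have hD0 : ∀ (x : C) (s : Finset G), (x : ML K G).coeff.support ⊆ s →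
      D0 x = ∑ d ∈ s, e d (cp hgr d x) := fun x s hs => mk_sum hgr e he0 x s hs
  have hDadd : ∀ x y, D0 (x + y) = D0 x + D0 y := by
    intro x y
    let s := ((x + y : C) : ML K G).coeff.support ∪ ((x : ML K G).coeff.support ∪
      (y : ML K G).coeff.support)
    rw [hD0 (x + y) s Finset.subset_union_left,
      hD0 x s (Finset.subset_union_left.trans Finset.subset_union_right),
      hD0 y s (Finset.subset_union_right.trans Finset.subset_union_right),
      ← Finset.sum_add_distrib]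
    refine Finset.sum_congr rfl fun d _ => ?_
    rw [cp_add, hadd]
  have hDsmul : ∀ (r : k) x, D0 (r • x) = r • D0 x := by
    intro r x
    let s := ((r • x : C) : ML K G).coeff.support ∪ (x : ML K G).coeff.support
    rw [hD0 (r • x) s Finset.subset_union_left, hD0 x s Finset.subset_union_right,
      Finset.smul_sum]
    refine Finset.sum_congr rfl fun d _ => ?_
    rw [cp_smul, hsmul]
  have hDhom : ∀ d x, cp hgr d x = x → D0 x = e d x := by
    intro d x hx
    rw [hD0 x ((x : ML K G).coeff.support ∪ {d}) Finset.subset_union_left,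
      Finset.sum_eq_single d]
    · rw [hx]
    · intro b _ hb
      rw [← hx, cp_ne hgr (Ne.symm hb), he0]
    · intro h
      exact absurd (Finset.mem_union_right _ (Finset.mem_singleton_self d)) h
  have hD00 : D0 0 = 0 := by
    rw [hDhom 0 0 (cp_zero hgr 0), he0]
  have hleib : ∀ x y, D0 (x * y) = x • D0 y + y • D0 x := by
    intro x
    refine gr_ind hgr (P := fun x => ∀ y, D0 (x * y) = x • D0 y + y • D0 x) ?_ ?_ ?_ x
    · intro y; rw [zero_mul, hD00, zero_smul, smul_zero, add_zero]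
    · intro x x' hx hx' y
      rw [add_mul, hDadd, hx, hx', hDadd, add_smul, smul_add]
      abel
    · intro d x hx y
      refine gr_ind hgr (P := fun y => D0 (x * y) = x • D0 y + y • D0 x) ?_ ?_ ?_ y
      · rw [mul_zero, hD00, zero_smul, smul_zero, add_zero]
      · intro y y' hy hy'
        rw [mul_add, hDadd, hy, hy', hDadd, add_smul, smul_add]
        abel
      · intro d' y hy
        have h1 : cp hgr (d + d') (x * y) = x * y := by
          have h2 := cp_mul hgr d d' x y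
          rwa [hx, hy] at h2
        rw [hDhom _ _ h1, hDhom _ _ hx, hDhom _ _ hy]
        exact hmul d d' x y hx hy
  let D1 : C →ₗ[k] N :=
    { toFun := D0
      map_add' := hDadd
      map_smul' := hDsmul }
  exact ⟨Derivation.mk' D1 hleib, hDhom⟩

end mk

section good

variable {k K : Type u} [Field k] [Field K] [Algebra k K] {G : Type} [AddCommGroup G]

/-- There is a unit whose degree is positive and at most `ρ` in the direction `τ`. -/
def Bd (τ : G →+ ℤ) (ρ : ℕ) (C : Subalgebra k (ML K G)) : Prop :=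
  ∃ (m : G) (r : ℕ), τ m = r ∧ 0 < r ∧ r ≤ ρ ∧ ∃ u : K, u ≠ 0 ∧ mo m u ∈ C ∧ mo (-m) u⁻¹ ∈ C

/-- There are units in all the degrees divisible by `E`. -/
def Un (E : ℕ) (C : Subalgebra k (ML K G)) : Prop :=
  ∀ m : G, ∃ u : K, u ≠ 0 ∧ mo (E • m) u ∈ C ∧ mo (-(E • m)) u⁻¹ ∈ C

/-- The subalgebra contains a unit of positive degree at most `ρ` and there is a vector field
which multiplies it by one. -/
def GoodU (τ : G →+ ℤ) (ρ : ℕ) (C : Subalgebra k (ML K G)) : Prop :=
  ∃ (m : G) (r : ℕ), τ m = r ∧ 0 < r ∧ r ≤ ρ ∧ ∃ (v : K) (_ : v ≠ 0) (hv : mo m v ∈ C)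
    (_ : mo (-m) v⁻¹ ∈ C) (E : Derivation k C C), E ⟨mo m v, hv⟩ = ⟨mo m v, hv⟩

variable {C : Subalgebra k (ML K G)} (hgr : Gr C)

include hgr in
/-- Locally there is a unit whose degree is the order of the stabiliser and a vector field which
multiplies it by one. -/
theorem local_refine (hC : Algebra.Smooth k C) (τ : G →+ ℤ) {ρ E : ℕ} (hE : 0 < E) (hun : Un E C)
    (hbd : Bd τ ρ C) (Q : Ideal C) (hQ : Q.IsPrime) :
    ∃ (g : K) (hg : mo 0 g ∈ C), g ≠ 0 ∧ (⟨mo 0 g, hg⟩ : C) ∉ Q ∧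
      GoodU τ ρ (lc C (mo 0 g) hg) := by
  classical
  let S : G → Prop := fun i => ∃ (a : K) (h : mo i a ∈ C), (⟨mo i a, h⟩ : C) ∉ Q
  have hone : (1 : C) ∉ Q := fun h => hQ.ne_top ((Ideal.eq_top_iff_one Q).2 h)
  have hSadd : ∀ i j, S i → S j → S (i + j) := by
    rintro i j ⟨a, ha, ha'⟩ ⟨b, hb, hb'⟩
    refine ⟨a * b, ?_, ?_⟩
    · rw [← mo_mul]; exact C.mul_mem ha hb
    · intro h
      have h1 : (⟨mo i a, ha⟩ : C) * ⟨mo j b, hb⟩ ∈ Q := by
        have e : (⟨mo i a, ha⟩ : C) * ⟨mo j b, hb⟩ = ⟨mo (i + j) (a * b), by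
          rw [← mo_mul]; exact C.mul_mem ha hb⟩ := Subtype.ext (mo_mul _ _ _ _)
        rw [e]; exact h
      rcases hQ.mem_or_mem h1 with h2 | h2
      · exact ha' h2
      · exact hb' h2
  have hS0 : S 0 := by
    refine ⟨1, ?_, ?_⟩
    · rw [mo_one]; exact C.one_mem
    · intro h
      apply hone
      have e : (1 : C) = ⟨mo 0 1, by rw [mo_one]; exact C.one_mem⟩ := Subtype.ext mo_one.symm
      rw [e]; exact h
  have hSn : ∀ (n : ℕ) i, S i → S (n • i) := by
    intro n i hi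
    induction n with
    | zero => rw [zero_smul]; exact hS0
    | succ n ih => rw [succ_nsmul]; exact hSadd _ _ ih hi
  have hSu : ∀ (m : G) (u : K), u ≠ 0 → mo m u ∈ C → mo (-m) u⁻¹ ∈ C → S m ∧ S (-m) := by
    intro m u hu0 hu hu'
    have hunit : (⟨mo m u, hu⟩ : C) * ⟨mo (-m) u⁻¹, hu'⟩ = 1 := Subtype.ext (mo_inv hu0)
    exact ⟨⟨u, hu, fun h => hone (by rw [← hunit]; exact Q.mul_mem_right _ h)⟩,
      ⟨u⁻¹, hu', fun h => hone (by rw [← hunit]; exact Q.mul_mem_left _ h)⟩⟩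
  have hSneg : ∀ i, S i → S (-i) := by
    intro i hi
    obtain ⟨u, hu0, hu, hu'⟩ := hun i
    have h1 := hSadd _ _ (hSn (E - 1) i hi) (hSu _ u hu0 hu hu').2
    have e : (E - 1) • i + -(E • i) = -i := by
      obtain ⟨e, rfl⟩ : ∃ e, E = e + 1 := ⟨E - 1, by omega⟩
      rw [Nat.add_sub_cancel, succ_nsmul]
      abel
    rwa [e] at h1
  have hSz : ∀ (z : ℤ) i, S i → S (z • i) := by
    intro z i hi
    rcases le_or_gt 0 z with h | h
    · obtain ⟨n, rfl⟩ := Int.eq_ofNat_of_zero_le h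
      rw [natCast_zsmul]
      exact hSn n _ hi
    · obtain ⟨n, hn⟩ := Int.eq_ofNat_of_zero_le (a := -z) (by omega)
      have e : z • i = n • -i := by
        have h2 : z = -(n : ℤ) := by
          have : (n : ℤ) = -z := hn.symm
          omega
        rw [h2, neg_smul, natCast_zsmul, smul_neg]
      rw [e]
      exact hSn n _ (hSneg _ hi)
  obtain ⟨m0, r0, hm0, hr0, hr0ρ, u0, hu00, hu0, hu0'⟩ := hbd
  have hex : ∃ r : ℕ, 0 < r ∧ ∃ m, S m ∧ τ m = r := ⟨r0, hr0, m0, (hSu _ _ hu00 hu0 hu0').1, hm0⟩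
  let r := Nat.find hex
  obtain ⟨hr, m, hSm, hm⟩ : 0 < r ∧ ∃ m, S m ∧ τ m = r := Nat.find_spec hex
  have hmin : ∀ (n : ℕ) (i : G), 0 < n → S i → τ i = n → r ≤ n := fun n i hn hi hi' =>
    Nat.find_min' hex ⟨hn, i, hi, hi'⟩
  have hrρ : r ≤ ρ := (hmin r0 m0 hr0 (hSu _ _ hu00 hu0 hu0').1 hm0).trans hr0ρ
  have hr' : (0 : ℤ) < r := by exact_mod_cast hr
  have hSdvd : ∀ i, S i → (r : ℤ) ∣ τ i := by
    intro i hi
    have h1 := hSadd _ _ hi (hSz (-(τ i / r)) m hSm)
    have h2 : τ (i + -(τ i / r) • m) = τ i % r := by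
      rw [map_add, map_zsmul, hm, smul_eq_mul]
      have := Int.mul_ediv_add_emod (τ i) r
      linear_combination (-1 : ℤ) * this
    have h3 := Int.emod_nonneg (τ i) hr'.ne'
    have h4 := Int.emod_lt_of_pos (τ i) hr'
    obtain ⟨n, hn⟩ := Int.eq_ofNat_of_zero_le h3
    rw [hn] at h2 h4
    rcases Nat.eq_zero_or_pos n with h5 | h5
    · apply Int.dvd_of_emod_eq_zero
      rw [hn, h5]; rfl
    · have h6 := hmin n _ h5 h1 h2
      exfalso
      have : (n : ℤ) < r := h4
      omega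
  obtain ⟨v, hvC, hvQ⟩ := hSm
  obtain ⟨w, hwC, hwQ⟩ := hSneg _ ⟨v, hvC, hvQ⟩
  -- the Euler derivation modulo `Q`
  have hE' : ∃ E' : Derivation k C (C ⧸ Q), ∀ d x, cp hgr d x = x →
      E' x = (τ d / r : ℤ) • Ideal.Quotient.mk Q x := by
    refine exists_mkDer hgr (fun d x => (τ d / r : ℤ) • Ideal.Quotient.mk Q x) ?_ ?_ ?_ ?_
    · intro d
      rw [map_zero, smul_zero]
    · intro d x y
      rw [map_add, smul_add]
    · intro d c x
      have h1 : Ideal.Quotient.mk Q (c • x) = c • Ideal.Quotient.mk Q x := rfl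
      rw [h1, smul_comm]
    · intro d d' x y hx hy
      have e1 : ∀ (a b : C) (m : ℤ), a • (m • Ideal.Quotient.mk Q b) =
          m • (Ideal.Quotient.mk Q a * Ideal.Quotient.mk Q b) := by
        intro a b m
        rw [smul_comm]
        rfl
      change (τ (d + d') / r : ℤ) • Ideal.Quotient.mk Q (x * y) =
        x • ((τ d' / r : ℤ) • Ideal.Quotient.mk Q y) + y • ((τ d / r : ℤ) • Ideal.Quotient.mk Q x)
      rw [e1, e1, map_mul]
      by_cases hxQ : x ∈ Q
      · rw [Ideal.Quotient.eq_zero_iff_mem.2 hxQ, zero_mul, mul_zero, smul_zero, smul_zero,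
          smul_zero, add_zero]
      by_cases hyQ : y ∈ Q
      · rw [Ideal.Quotient.eq_zero_iff_mem.2 hyQ, zero_mul, mul_zero, smul_zero, smul_zero,
          smul_zero, add_zero]
      have hd : (r : ℤ) ∣ τ d := hSdvd d ⟨_, _, by rw [← eq_mk_of_cp hgr hx]; exact hxQ⟩
      rw [map_add, Int.add_ediv_of_dvd_left hd, add_smul, mul_comm (Ideal.Quotient.mk Q y),
        add_comm]
  obtain ⟨E', hE'⟩ := hE'
  have hfs : Algebra.FormallySmooth k C := hC.formallySmooth
  obtain ⟨E0, hE0⟩ := H920R2.exists_der Q E'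
  let vv : C := ⟨mo m v, hvC⟩
  have hcpv : cp hgr m vv = vv := by
    apply Subtype.ext
    change mo m ((mo m v).coeff m) = mo m v
    rw [coeff_mo_same]
  have hE0v : E0 vv ∉ Q := by
    intro h
    have h1 := hE0 vv
    rw [hE' _ _ hcpv, hm, Int.ediv_self hr'.ne', one_smul, Ideal.Quotient.eq_zero_iff_mem.2 h] at h1
    exact hvQ (Ideal.Quotient.eq_zero_iff_mem.1 h1.symm)
  obtain ⟨e, heQ⟩ : ∃ e, cp hgr e (E0 vv) ∉ Q := by
    by_contra hcon
    push Not at hcon
    apply hE0v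
    rw [cp_sum hgr (E0 vv)]
    exact Q.sum_mem fun d _ => hcon d
  let b : K := ((E0 vv : C) : ML K G).coeff e
  have hbC : mo e b ∈ C := hgr _ (E0 vv).2 e
  have hbQ : (⟨mo e b, hbC⟩ : C) ∉ Q := heQ
  have hne0 : ∀ (i : G) (a : K) (ha : mo i a ∈ C), (⟨mo i a, ha⟩ : C) ∉ Q → a ≠ 0 := by
    intro i a ha haQ h
    apply haQ
    have e1 : (⟨mo i a, ha⟩ : C) = 0 := by
      apply Subtype.ext
      change mo i a = 0
      rw [h, mo_zero]
    rw [e1]
    exact Q.zero_mem
  have hb0 : b ≠ 0 := hne0 _ _ _ hbQ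
  have hSe : S e := ⟨b, hbC, hbQ⟩
  obtain ⟨z, hzC, hzQ⟩ : S (-e) := hSneg _ hSe
  -- the homogeneous component of the derivation
  have hE1 : ∃ E1 : Derivation k C C, ∀ d x, cp hgr d x = x →
      E1 x = cp hgr (d + (e - m)) (E0 x) := by
    refine exists_mkDer hgr (fun d x => cp hgr (d + (e - m)) (E0 x)) ?_ ?_ ?_ ?_
    · intro d
      rw [map_zero, cp_zero]
    · intro d x y
      rw [map_add, cp_add]
    · intro d c x
      rw [Derivation.map_smul, cp_smul]
    · intro d d' x y hx hy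
      change cp hgr (d + d' + (e - m)) (E0 (x * y)) =
        x • cp hgr (d' + (e - m)) (E0 y) + y • cp hgr (d + (e - m)) (E0 x)
      rw [Derivation.leibniz, cp_add, smul_eq_mul, smul_eq_mul, smul_eq_mul, smul_eq_mul]
      have h1 := cp_mul hgr d (d' + (e - m)) x (E0 y)
      have h2 := cp_mul hgr d' (d + (e - m)) y (E0 x)
      rw [hx] at h1
      rw [hy] at h2
      have e1 : d + d' + (e - m) = d + (d' + (e - m)) := by abel
      have e2 : d + d' + (e - m) = d' + (d + (e - m)) := by abel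
      rw [← h1, ← h2, ← e1, ← e2]
  obtain ⟨E1, hE1⟩ := hE1
  have hE1v : E1 vv = ⟨mo e b, hbC⟩ := by
    rw [hE1 m vv hcpv]
    have e1 : m + (e - m) = e := by abel
    rw [e1]
    rfl
  have hv0 : v ≠ 0 := hne0 _ _ _ hvQ
  have hw0 : w ≠ 0 := hne0 _ _ _ hwQ
  have hz0 : z ≠ 0 := hne0 _ _ _ hzQ
  let g : K := v * w * (b * z)
  have hg0 : g ≠ 0 := mul_ne_zero (mul_ne_zero hv0 hw0) (mul_ne_zero hb0 hz0)
  have hgeq : mo 0 g = (mo m v * mo (-m) w) * (mo e b * mo (-e) z) := by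
    rw [mo_mul, mo_mul, mo_mul]
    congr 1
    abel
  have hgC : mo 0 g ∈ C := by
    rw [hgeq]
    exact C.mul_mem (C.mul_mem hvC hwC) (C.mul_mem hbC hzC)
  refine ⟨g, hgC, hg0, ?_, ?_⟩
  · intro h
    have h1 : ((⟨mo m v, hvC⟩ : C) * ⟨mo (-m) w, hwC⟩) * (⟨mo e b, hbC⟩ * ⟨mo (-e) z, hzC⟩) ∈ Q := by
      have e1 : ((⟨mo m v, hvC⟩ : C) * ⟨mo (-m) w, hwC⟩) * (⟨mo e b, hbC⟩ * ⟨mo (-e) z, hzC⟩) =
          ⟨mo 0 g, hgC⟩ := Subtype.ext hgeq.symm
      rw [e1]; exact h
    rcases hQ.mem_or_mem h1 with h2 | h2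
    · rcases hQ.mem_or_mem h2 with h3 | h3
      · exact hvQ h3
      · exact hwQ h3
    · rcases hQ.mem_or_mem h2 with h3 | h3
      · exact hbQ h3
      · exact hzQ h3
  · obtain ⟨E2, hE2⟩ := exists_der_lc hgC (isUnit_mo hg0) E1
    have hv1 : mo m v ∈ lc C (mo 0 g) hgC := le_lc _ _ _ hvC
    have hv2 : mo (-m) v⁻¹ ∈ lc C (mo 0 g) hgC := by
      refine ⟨1, ?_⟩
      have e1 : mo 0 g ^ 1 * mo (-m) v⁻¹ = mo (-m) w * (mo e b * mo (-e) z) := by
        rw [pow_one, mo_mul, mo_mul, mo_mul]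
        congr 1
        · abel
        · change v * w * (b * z) * v⁻¹ = _
          field_simp
      rw [e1]
      exact C.mul_mem hwC (C.mul_mem hbC hzC)
    have hb2 : mo (-e) b⁻¹ ∈ lc C (mo 0 g) hgC := by
      refine ⟨1, ?_⟩
      have e1 : mo 0 g ^ 1 * mo (-e) b⁻¹ = (mo m v * mo (-m) w) * mo (-e) z := by
        rw [pow_one, mo_mul, mo_mul, mo_mul]
        congr 1
        · abel
        · change v * w * (b * z) * b⁻¹ = _
          field_simp
      rw [e1]
      exact C.mul_mem (C.mul_mem hvC hwC) hzC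
    let T := lc C (mo 0 g) hgC
    refine ⟨m, r, hm, hr, hrρ, v, hv0, hv1, hv2,
      ((⟨mo m v, hv1⟩ : T) * ⟨mo (-e) b⁻¹, hb2⟩) • E2, ?_⟩
    apply Subtype.ext
    have h1 : (((((⟨mo m v, hv1⟩ : T) * ⟨mo (-e) b⁻¹, hb2⟩) • E2) ⟨mo m v, hv1⟩ : T) : ML K G) =
        (mo m v * mo (-e) b⁻¹) * ((E2 ⟨mo m v, hv1⟩ : T) : ML K G) := rfl
    rw [h1]
    have h2 := hE2 vv
    rw [hE1v] at h2
    have h3 : ((E2 ⟨mo m v, hv1⟩ : T) : ML K G) = mo e b := h2
    rw [h3, mul_assoc, mo_mul, neg_add_cancel, inv_mul_cancel₀ hb0, mo_one, mul_one]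

/-- Finitely many localizations which have a good unit cover. -/
theorem fin_refine (hgr : Gr C) (hC : Algebra.Smooth k C) (τ : G →+ ℤ) {ρ E : ℕ} (hE : 0 < E)
    (hun : Un E C) (hbd : Bd τ ρ C) :
    ∃ (m : ℕ) (g : Fin m → K) (hg : ∀ i, mo 0 (g i) ∈ C), (∀ i, g i ≠ 0) ∧
      (∀ i, GoodU τ ρ (lc C (mo 0 (g i)) (hg i))) ∧
      ∃ c : Fin m → K, (∀ i, mo 0 (c i) ∈ C) ∧ ∑ i, c i * g i = 1 := by
  classical
  let S : Set C := {x | ∃ (g : K) (hg : mo 0 g ∈ C), g ≠ 0 ∧ x = ⟨mo 0 g, hg⟩ ∧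
    GoodU τ ρ (lc C (mo 0 g) hg)}
  have hspan : Ideal.span S = ⊤ := by
    by_contra hcon
    obtain ⟨Q, hQ, hGQ⟩ := Ideal.exists_le_maximal _ hcon
    obtain ⟨g, hg, hg0, hgQ, hgood⟩ := local_refine hgr hC τ hE hun hbd Q hQ.isPrime
    exact hgQ (hGQ (Ideal.subset_span ⟨g, hg, hg0, rfl, hgood⟩))
  have h1 : (1 : C) ∈ Ideal.span S := by rw [hspan]; trivial
  obtain ⟨m, f, y, hsum⟩ := Submodule.mem_span_set'.1 h1
  choose g hg hg0 hgy hgood using fun i => (y i).2
  refine ⟨m, g, hg, hg0, hgood, fun i => ((f i : C) : ML K G).coeff 0,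
    fun i => hgr _ (f i).2 0, ?_⟩
  have h2 : (∑ i, ((f i : C) : ML K G) * mo 0 (g i)) = 1 := by
    have h3 := congrArg (fun z : C => (z : ML K G)) hsum
    simp only [AddSubmonoidClass.coe_finsetSum, smul_eq_mul, MulMemClass.coe_mul] at h3
    refine Eq.trans ?_ h3
    refine Finset.sum_congr rfl fun i _ => ?_
    rw [hgy i]
  have h4 := congrArg (fun z => z.coeff 0) h2
  have h5 : (∑ i, ((f i : C) : ML K G) * mo 0 (g i)).coeff 0 =
      ∑ i, ((f i : C) : ML K G).coeff 0 * g i := by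
    rw [coeff_sum']
    refine Finset.sum_congr rfl fun i _ => ?_
    rw [mul_comm, coeff_mo_mul, sub_zero, mul_comm]
  rw [h5, ← mo_one, coeff_mo_same] at h4
  exact h4

end good

end Pool.Agent.W559.Mg
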