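import Pool.Agent.W559.Mg.A2

set_option autoImplicit false
set_option linter.unusedSectionVars false

universe u v w

namespace Pool.Agent.W559.Mg

section low

variable {k K : Type u} [Field k] [Field K] [Algebra k K] {G : Type} [AddCommGroup G]

/-- The subalgebra generated by the homogeneous elements of degree less than `ρ` in the
direction `τ`. -/
noncomputable def lo (τ : G →+ ℤ) (C : Subalgebra k (ML K G)) (ρ : ℕ) : Subalgebra k (ML K G) :=
  Algebra.adjoin k {f | f ∈ C ∧ ∃ (d : G) (a : K), τ d < ρ ∧ f = mo d a}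

lemma lo_le (τ : G →+ ℤ) (C : Subalgebra k (ML K G)) (ρ : ℕ) : lo τ C ρ ≤ C := by
  unfold lo
  rw [Algebra.adjoin_le_iff]
  exact fun f hf => hf.1

lemma mem_lo {τ : G →+ ℤ} {C : Subalgebra k (ML K G)} {ρ : ℕ} {d : G} {a : K} (h : mo d a ∈ C)
    (hd : τ d < ρ) : mo d a ∈ lo τ C ρ := Algebra.subset_adjoin ⟨h, d, a, hd, rfl⟩

lemma gr_lo (τ : G →+ ℤ) (C : Subalgebra k (ML K G)) (ρ : ℕ) : Gr (lo τ C ρ) :=
  gr_adjoin _ fun _ hs => ⟨_, _, hs.2.choose_spec.choose_spec.2⟩

end low

section emb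

variable {k K : Type u} [Field k] [Field K] [Algebra k K] {G : Type} [AddCommGroup G]
  [IsDomain (ML K G)]

open H920R2 (LP hm)

/-- The fraction field of the group algebra. -/
abbrev FM (K : Type u) [Field K] (G : Type) [AddCommGroup G] [IsDomain (ML K G)] : Type u :=
  FractionRing (ML K G)

/-- The monomials as elements of the Laurent polynomial ring over a field. -/
noncomputable def mF (K : Type u) [Field K] (G : Type) [AddCommGroup G] [IsDomain (ML K G)] :
    Multiplicative (ℤ × G) →* LP (FM K G) where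
  toFun m := hm m.toAdd.1 (algebraMap (ML K G) (FM K G) (mo m.toAdd.2 1))
  map_one' := by
    change hm 0 (algebraMap (ML K G) (FM K G) (mo 0 1)) = 1
    rw [mo_one, map_one]
    rfl
  map_mul' a b := by
    change hm (a.toAdd.1 + b.toAdd.1) (algebraMap (ML K G) (FM K G)
      (mo (a.toAdd.2 + b.toAdd.2) 1)) = _
    rw [H920R2.hm_mul, ← map_mul, mo_mul, one_mul]

/-- The embedding into the Laurent polynomial ring over a field. -/
noncomputable def emb (k : Type u) {K : Type u} [Field k] [Field K] [Algebra k K] {G : Type}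
    [AddCommGroup G] [IsDomain (ML K G)] : ML K (ℤ × G) →ₐ[k] LP (FM K G) :=
  (AddMonoidAlgebra.lift K (LP (FM K G)) (ℤ × G) (mF K G)).restrictScalars k

lemma emb_mo (d : ℤ) (μ : G) (a : K) : emb k (mo (d, μ) a) =
    hm d (algebraMap (ML K G) (FM K G) (mo μ a)) := by
  unfold emb mo
  rw [AlgHom.restrictScalars_apply, AddMonoidAlgebra.lift_single]
  change a • hm d (algebraMap (ML K G) (FM K G) (mo μ 1)) = _
  rw [Algebra.smul_def]
  have h1 : algebraMap K (LP (FM K G)) a = hm 0 (algebraMap (ML K G) (FM K G) (mo 0 a)) := rfl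
  rw [h1, H920R2.hm_mul, ← map_mul, mo_mul, zero_add, zero_add, mul_one]
  rfl

/-- The part of an element whose first degree is `d`. -/
noncomputable def slc (d : ℤ) (f : ML K (ℤ × G)) : ML K G :=
  ∑ m ∈ f.coeff.support, if m.1 = d then mo m.2 (f.coeff m) else 0

lemma coeff_slc (d : ℤ) (f : ML K (ℤ × G)) (μ : G) : (slc d f).coeff μ = f.coeff (d, μ) := by
  classical
  unfold slc
  rw [coeff_sum', Finset.sum_eq_single (d, μ)]
  · rw [if_pos rfl, coeff_mo_same]
  · rintro ⟨d', μ'⟩ _ hne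
    split_ifs with h
    · change d' = d at h
      subst h
      refine coeff_mo_ne ?_ _
      rintro rfl
      exact hne rfl
    · exact coeff_zero' _
  · intro h
    rw [if_pos rfl, coeff_mo_same]
    exact Finsupp.notMem_support_iff.1 h

lemma coeff_emb (f : ML K (ℤ × G)) (d : ℤ) : (emb k f).coeff d =
    algebraMap (ML K G) (FM K G) (slc d f) := by
  classical
  conv_lhs => rw [eq_sum_mo f, map_sum]
  rw [AddMonoidAlgebra.coeff_sum, Finsupp.finsetSum_apply]
  unfold slc
  rw [map_sum]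
  refine Finset.sum_congr rfl fun m _ => ?_
  rw [emb_mo, H920R2.coeff_hm]
  split_ifs
  · rfl
  · rw [map_zero]

lemma emb_injective : Function.Injective (emb k : ML K (ℤ × G) →ₐ[k] LP (FM K G)) := by
  rw [injective_iff_map_eq_zero]
  intro f hf
  apply ml_ext
  rintro ⟨d, μ⟩
  rw [← coeff_slc]
  have h1 := coeff_emb (k := k) f d
  rw [hf] at h1
  have h2 : slc d f = 0 := by
    apply IsFractionRing.injective (ML K G) (FM K G)
    rw [← h1, map_zero]
    rfl
  rw [h2, coeff_zero', coeff_zero']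

/-- The part of first degree `d`, as an element of the big ring. -/
lemma emb_part (f : ML K (ℤ × G)) (d : ℤ) :
    emb k (∑ m ∈ f.coeff.support, if m.1 = d then mo m (f.coeff m) else 0) =
      hm d ((emb k f).coeff d) := by
  classical
  rw [coeff_emb, map_sum]
  unfold slc
  rw [map_sum, H920R2.hm_sum]
  refine Finset.sum_congr rfl fun m _ => ?_
  by_cases h : m.1 = d
  · rw [if_pos h, if_pos h]
    obtain ⟨d', μ⟩ := m
    change d' = d at h
    subst h
    exact emb_mo _ _ _
  · rw [if_neg h, if_neg h, map_zero, map_zero, H920R2.hm_zero]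

variable {C : Subalgebra k (ML K (ℤ × G))} (hgr : Gr C)

lemma mem_map_emb {x : ML K (ℤ × G)} : emb k x ∈ C.map (emb k) ↔ x ∈ C := by
  constructor
  · rintro ⟨y, hy, hxy⟩
    have : y = x := emb_injective hxy
    exact this ▸ hy
  · exact fun h => ⟨x, h, rfl⟩

include hgr in
lemma part_mem {f : ML K (ℤ × G)} (hf : f ∈ C) (d : ℤ) :
    (∑ m ∈ f.coeff.support, if m.1 = d then mo m (f.coeff m) else 0) ∈ C := by
  refine C.sum_mem fun m _ => ?_
  split_ifs
  · exact hgr _ hf m
  · exact C.zero_mem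

include hgr in
lemma gr_map_emb : H920R2.Gr (C.map (emb k)) := by
  rintro _ ⟨f, hf, rfl⟩ d
  exact ⟨_, part_mem hgr hf d, emb_part (k := k) f d⟩

/-- The first projection. -/
def fs (G : Type) [AddCommGroup G] : ℤ × G →+ ℤ := AddMonoidHom.fst ℤ G

include hgr in
lemma lo_map_emb (ρ : ℕ) : (lo (fs G) C ρ).map (emb k) = H920R2.low (C.map (emb k)) ρ := by
  apply le_antisymm
  · unfold lo
    rw [AlgHom.map_adjoin, Algebra.adjoin_le_iff]
    rintro _ ⟨_, ⟨hf, ⟨d, μ⟩, a, hd, rfl⟩, rfl⟩
    exact Algebra.subset_adjoin ⟨(mem_map_emb (k := k)).2 hf, d, _, hd, emb_mo d μ a⟩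
  · unfold H920R2.low
    rw [Algebra.adjoin_le_iff]
    rintro _ ⟨⟨f, hf, hfe⟩, d, a, hd, rfl⟩
    change _ ∈ (lo (fs G) C ρ).map (emb k)
    have h1 := emb_part (k := k) f d
    have hfe' : emb k f = hm d a := hfe
    rw [hfe', H920R2.coeff_hm_same] at h1
    rw [← h1]
    refine ⟨_, ?_, rfl⟩
    refine Subalgebra.sum_mem _ fun m _ => ?_
    split_ifs with h
    · refine mem_lo (hgr _ hf m) ?_
      change m.1 < _
      rw [h]
      exact hd
    · exact Subalgebra.zero_mem _

/-- Transport of derivations along isomorphisms. -/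
lemma exists_der_map {k A B : Type u} [CommRing k] [CommRing A] [CommRing B] [Algebra k A]
    [Algebra k B] (e : A ≃ₐ[k] B) (E : Derivation k A A) :
    ∃ E' : Derivation k B B, ∀ a, E' (e a) = e (E a) := by
  let l : B →ₗ[k] B := e.toLinearMap ∘ₗ E.toLinearMap ∘ₗ e.symm.toLinearMap
  have hl : ∀ b, l b = e (E (e.symm b)) := fun b => rfl
  refine ⟨Derivation.mk' l ?_, ?_⟩
  · intro a b
    rw [hl, hl, hl, map_mul, Derivation.leibniz, map_add, smul_eq_mul, smul_eq_mul, map_mul,
      map_mul, AlgEquiv.apply_symm_apply, AlgEquiv.apply_symm_apply]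
    rfl
  · intro a
    change l (e a) = _
    rw [hl, AlgEquiv.symm_apply_apply]

include hgr in
/-- The subalgebra generated by the elements of low degree is smooth. -/
theorem smooth_lo (hC : Algebra.Smooth k C) {ρ : ℕ} (hG : GoodU (fs G) ρ C) :
    Algebra.Smooth k (lo (fs G) C ρ) := by
  obtain ⟨⟨d, μ⟩, r, hr, hr0, hrρ, v, hv0, hv, hv', E, hE⟩ := hG
  have hd : d = r := hr
  subst hd
  let e : C ≃ₐ[k] C.map (emb k) := C.equivMapOfInjective _ emb_injective
  have he : ∀ x : C, ((e x : C.map (emb k)) : LP (FM K G)) = emb k (x : ML K (ℤ × G)) :=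
    fun x => rfl
  obtain ⟨E', hE'⟩ := exists_der_map e E
  have hsm : Algebra.Smooth k (C.map (emb k)) := Algebra.Smooth.of_equiv e
  set u : FM K G := algebraMap (ML K G) (FM K G) (mo μ v) with hu
  have hu0 : u ≠ 0 := by
    intro h
    apply mo_ne_zero (d := μ) hv0
    apply IsFractionRing.injective (ML K G) (FM K G)
    rw [← hu, h, map_zero]
  have hui : u⁻¹ = algebraMap (ML K G) (FM K G) (mo (-μ) v⁻¹) := by
    apply inv_eq_of_mul_eq_one_right
    rw [hu, ← map_mul, mo_inv hv0, map_one]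
  have h1 : emb k (mo ((r : ℤ), μ) v) = hm r u := emb_mo _ _ _
  have h2 : emb k (mo (-((r : ℤ), μ)) v⁻¹) = hm (-r) u⁻¹ := by
    rw [hui]; exact emb_mo _ _ _
  have hm1 : hm r u ∈ C.map (emb k) := by rw [← h1]; exact mem_map_emb.2 hv
  have hm2 : hm (-r) u⁻¹ ∈ C.map (emb k) := by rw [← h2]; exact mem_map_emb.2 hv'
  have h3 : (⟨hm r u, hm1⟩ : C.map (emb k)) = e ⟨mo ((r : ℤ), μ) v, hv⟩ := by
    apply Subtype.ext
    rw [he]
    exact h1.symm
  have key := H920R2.smooth_low_good hsm (gr_map_emb hgr) hr0 hrρ hu0 hm1 hm2 E' (by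
    rw [h3, hE', hE])
  rw [← lo_map_emb hgr] at key
  exact Algebra.Smooth.of_equiv
    ((lo (fs G) C ρ).equivMapOfInjective _ emb_injective).symm

end emb

end Pool.Agent.W559.Mg
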