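import Pool.Agent.W559.Mg.A4

set_option autoImplicit false
set_option linter.unusedSectionVars false

universe u v w

namespace Pool.Agent.W559.Mg

section fin

variable {k : Type u} {D : Type v} [CommRing k] [CommRing D] [Algebra k D]

lemma exists_fin_of_mem_adjoin (X : Set D) {f : D} (hf : f ∈ Algebra.adjoin k X) :
    ∃ Y : Finset D, (Y : Set D) ⊆ X ∧ f ∈ Algebra.adjoin k (Y : Set D) := by
  classical
  induction hf using Algebra.adjoin_induction with
  | mem x hx =>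
    exact ⟨{x}, by simpa using hx, Algebra.subset_adjoin (by simp)⟩
  | algebraMap r => exact ⟨∅, by simp, Subalgebra.algebraMap_mem _ r⟩
  | add x y _ _ hx hy =>
    obtain ⟨Y, hY, h1⟩ := hx
    obtain ⟨Z, hZ, h2⟩ := hy
    refine ⟨Y ∪ Z, by simp [hY, hZ], ?_⟩
    exact Subalgebra.add_mem _ (Algebra.adjoin_mono (by simp) h1) (Algebra.adjoin_mono (by simp) h2)
  | mul x y _ _ hx hy =>
    obtain ⟨Y, hY, h1⟩ := hx
    obtain ⟨Z, hZ, h2⟩ := hy
    refine ⟨Y ∪ Z, by simp [hY, hZ], ?_⟩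
    exact Subalgebra.mul_mem _ (Algebra.adjoin_mono (by simp) h1) (Algebra.adjoin_mono (by simp) h2)

/-- A finitely generated subalgebra is generated by finitely many of any given generators. -/
lemma exists_fin_adjoin (X : Set D) (h : (Algebra.adjoin k X).FG) :
    ∃ Y : Finset D, (Y : Set D) ⊆ X ∧ Algebra.adjoin k (Y : Set D) = Algebra.adjoin k X := by
  classical
  obtain ⟨s, hs⟩ := h
  have h1 : ∀ t : Finset D, (∀ x ∈ t, x ∈ Algebra.adjoin k X) →
      ∃ Y : Finset D, (Y : Set D) ⊆ X ∧ ∀ x ∈ t, x ∈ Algebra.adjoin k (Y : Set D) := by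
    intro t
    induction t using Finset.induction_on with
    | empty => exact fun _ => ⟨∅, by simp, by simp⟩
    | insert x t hx ih =>
      intro h
      obtain ⟨Y, hY, h2⟩ := ih fun y hy => h y (Finset.mem_insert_of_mem hy)
      obtain ⟨Z, hZ, h3⟩ := exists_fin_of_mem_adjoin X (h x (Finset.mem_insert_self _ _))
      refine ⟨Y ∪ Z, by simp [hY, hZ], ?_⟩
      intro y hy
      rcases Finset.mem_insert.1 hy with rfl | hy
      · exact Algebra.adjoin_mono (by simp) h3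
      · exact Algebra.adjoin_mono (by simp) (h2 y hy)
  obtain ⟨Y, hY, h2⟩ := h1 s (by
    intro x hx
    rw [← hs]
    exact Algebra.subset_adjoin hx)
  refine ⟨Y, hY, le_antisymm (Algebra.adjoin_mono hY) ?_⟩
  rw [← hs, Algebra.adjoin_le_iff]
  exact fun x hx => h2 x hx

end fin

section gens

variable {k K : Type u} [Field k] [Field K] [Algebra k K] {G : Type} [AddCommGroup G]

/-- Generation by the homogeneous elements. -/
lemma adjoin_hom {S : Subalgebra k (ML K G)} (hgr : Gr S) :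
    Algebra.adjoin k {f | f ∈ S ∧ ∃ (d : G) (a : K), f = mo d a} = S := by
  apply le_antisymm
  · rw [Algebra.adjoin_le_iff]
    exact fun f hf => hf.1
  · intro f hf
    apply mem_of_comp
    intro d
    exact Algebra.subset_adjoin ⟨hgr f hf d, d, _, rfl⟩

/-- A family of nonzero homogeneous generators. -/
lemma exists_family {S : Subalgebra k (ML K G)} (hS : S.FG) (X : Set (ML K G))
    (hX : ∀ f ∈ X, ∃ (d : G) (a : K), f = mo d a) (hXS : Algebra.adjoin k X = S) :
    ∃ (I : Type u) (_ : Finite I) (d : I → G) (c : I → K), (∀ i, c i ≠ 0) ∧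
      (∀ i, mo (d i) (c i) ∈ X) ∧ Algebra.adjoin k (Set.range fun i => mo (d i) (c i)) = S := by
  classical
  rw [← hXS] at hS
  obtain ⟨Y, hY, h1⟩ := exists_fin_adjoin X hS
  choose d a hda using hX
  let I := {y : ML K G // ∃ h : y ∈ Y, a y (hY h) ≠ 0}
  have hfin : Finite I := by
    have : Finite {y // y ∈ Y} := inferInstance
    exact Finite.of_injective (fun i : I => (⟨i.1, i.2.choose⟩ : {y // y ∈ Y}))
      (fun i j h => Subtype.ext (congrArg (fun z => z.1) h))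
  refine ⟨I, hfin, fun i => d i.1 (hY i.2.choose), fun i => a i.1 (hY i.2.choose),
    fun i => i.2.choose_spec, fun i => ?_, ?_⟩
  · rw [← hda i.1 (hY i.2.choose)]
    exact hY i.2.choose
  · rw [← hXS, ← h1]
    apply le_antisymm
    · rw [Algebra.adjoin_le_iff]
      rintro _ ⟨i, rfl⟩
      change mo (d i.1 (hY i.2.choose)) (a i.1 (hY i.2.choose)) ∈ _
      rw [← hda i.1 (hY i.2.choose)]
      exact Algebra.subset_adjoin i.2.choose
    · rw [Algebra.adjoin_le_iff]
      intro y hy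
      by_cases h0 : a y (hY hy) = 0
      · have := hda y (hY hy)
        rw [h0, mo_zero] at this
        rw [this]
        exact Subalgebra.zero_mem _
      · refine Algebra.subset_adjoin ⟨⟨y, hy, h0⟩, ?_⟩
        exact (hda y (hY hy)).symm

/-- The elements whose degrees are not positive. -/
def npAlg (k K : Type u) [Field k] [Field K] [Algebra k K] {G : Type} [AddCommGroup G]
    (τ : G →+ ℤ) : Subalgebra k (ML K G) where
  carrier := {f | ∀ m, 0 < τ m → f.coeff m = 0}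
  mul_mem' := by
    intro f g hf hg m hm
    rw [coeff_mul_sum]
    refine Finset.sum_eq_zero fun a _ => ?_
    by_cases ha : 0 < τ a
    · rw [hf a ha, zero_mul]
    · rw [hg (m - a) (by rw [map_sub]; omega), mul_zero]
  add_mem' := by
    intro f g hf hg m hm
    rw [coeff_add', hf m hm, hg m hm, add_zero]
  algebraMap_mem' := by
    intro r m hm
    rw [algebraMap_ML]
    refine coeff_mo_ne ?_ _
    rintro rfl
    rw [map_zero] at hm
    exact absurd hm (lt_irrefl 0)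

lemma exists_pos_gen (τ : G →+ ℤ) {I : Type u} (d : I → G) (c : I → K) {m : G} {a : K}
    (ha : a ≠ 0) (hm : 0 < τ m)
    (h : mo m a ∈ Algebra.adjoin k (Set.range fun i => mo (d i) (c i))) : ∃ i, 0 < τ (d i) := by
  by_contra hcon
  push Not at hcon
  have h1 : Algebra.adjoin k (Set.range fun i => mo (d i) (c i)) ≤ npAlg k K τ := by
    rw [Algebra.adjoin_le_iff]
    rintro _ ⟨i, rfl⟩ m' hm'
    refine coeff_mo_ne ?_ _
    rintro rfl
    exact absurd hm' (not_lt.2 (hcon i))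
  have h2 := h1 h m hm
  rw [coeff_mo_same] at h2
  exact ha h2

end gens

section adjust

variable {k K : Type u} [Field k] [Field K] [Algebra k K] {G : Type} [AddCommGroup G]

lemma psi_nsmul {V : ValuationSubring K} {ψ : G → V.ValueGroup} (h0 : ∀ m, ψ m ≠ 0)
    (hψ : ∀ m m', ψ (m + m') = ψ m * ψ m') (n : ℕ) (m : G) : ψ (n • m) = ψ m ^ n := by
  induction n with
  | zero => rw [zero_smul, pow_zero, psi_zero h0 hψ]
  | succ n ih => rw [succ_nsmul, hψ, ih, pow_succ]

/-- Adjustment of a norm: the norm is changed in the direction `τ` so that one of the markers has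
norm one. -/
theorem nrm_adjust {V : ValuationSubring K} {E' : ℕ} {ψ' : G → V.ValueGroup}
    {C S : Subalgebra k (ML K G)} (hC : Nrm V E' ψ' C) (hle : S ≤ C) (τ : G →+ ℤ)
    {I : Type u} [Finite I] (d : I → G) (c : I → K) (hc : ∀ i, c i ≠ 0)
    (hI : Algebra.adjoin k (Set.range fun i => mo (d i) (c i)) = S)
    {J : Type u} [Finite J] [Nonempty J] (x : J → K) (μ : J → G)
    (hx : ∀ j, x j ≠ 0) (hxS : ∀ j, mo (μ j) (x j) ∈ S) (hμ : ∀ j, 0 < τ (μ j))
    (hrad : ∀ i, 0 < τ (d i) → ∃ (n : ℕ) (s : J → ML K G), (∀ j, s j ∈ S) ∧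
      mo (d i) (c i) ^ n = ∑ᶠ j, s j * mo (μ j) (x j)) :
    ∃ j E'' ψ'', Nrm V E'' ψ'' S ∧ V.valuation (x j) ^ E'' = ψ'' (μ j) := by
  classical
  have hfinI : Fintype I := Fintype.ofFinite I
  have hfinJ : Fintype J := Fintype.ofFinite J
  obtain ⟨hE', h0', hψ', hb'⟩ := hC
  set v := V.valuation with hv
  have hci : ∀ i, v (c i) ^ E' ≤ ψ' (d i) := fun i =>
    Nrm.mo ⟨hE', h0', hψ', hb'⟩ (hle (by rw [← hI]; exact Algebra.subset_adjoin ⟨i, rfl⟩))
  have hvc : ∀ i, v (c i) ≠ 0 := fun i => (Valuation.ne_zero_iff v).2 (hc i)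
  let P : Finset I := Finset.univ.filter fun i => 0 < τ (d i)
  have hPmem : ∀ i, i ∈ P ↔ 0 < τ (d i) := fun i => by
    simp [P]
  let t : I → ℕ := fun i => (τ (d i)).toNat
  have ht : ∀ i ∈ P, ((t i : ℕ) : ℤ) = τ (d i) := fun i hi =>
    Int.toNat_of_nonneg ((hPmem i).1 hi).le
  have ht0 : ∀ i ∈ P, 0 < t i := fun i hi => by
    have h1 := ht i hi
    have h2 := (hPmem i).1 hi
    omega
  let M : ℕ := ∏ i ∈ P, t i
  have hM0 : 0 < M := Finset.prod_pos ht0
  have hMd : ∀ i ∈ P, t i * (M / t i) = M := fun i hi =>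
    Nat.mul_div_cancel' (Finset.dvd_prod_of_mem t hi)
  let ν : I → V.ValueGroup := fun i => v (c i) ^ E' / ψ' (d i)
  have hν1 : ∀ i, ν i ≤ 1 := fun i => by
    change v (c i) ^ E' / ψ' (d i) ≤ 1
    exact div_le_one_of_le₀ (hci i) zero_le
  have hν0 : ∀ i, ν i ≠ 0 := fun i => div_ne_zero (pow_ne_zero _ (hvc i)) (h0' _)
  have hPne : P.Nonempty := by
    obtain ⟨j⟩ := (inferInstance : Nonempty J)
    obtain ⟨i, hi⟩ := exists_pos_gen (k := k) τ d c (hx j) (hμ j) (by rw [hI]; exact hxS j)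
    exact ⟨i, (hPmem i).2 hi⟩
  obtain ⟨i0, hi0, hmax⟩ := Finset.exists_max_image P (fun i => ν i ^ (M / t i)) hPne
  let γ : V.ValueGroup := ν i0 ^ (M / t i0)
  have hγ0 : γ ≠ 0 := pow_ne_zero _ (hν0 i0)
  have hγ1 : γ ≤ 1 := pow_le_one' (hν1 i0) _
  let ψ : G → V.ValueGroup := fun m => ψ' m ^ M * γ ^ (τ m)
  have hψ0 : ∀ m, ψ m ≠ 0 := fun m => mul_ne_zero (pow_ne_zero _ (h0' m)) (zpow_ne_zero _ hγ0)
  have hψm : ∀ m m', ψ (m + m') = ψ m * ψ m' := by
    intro m m'
    change ψ' (m + m') ^ M * γ ^ (τ (m + m')) = ψ' m ^ M * γ ^ (τ m) * (ψ' m' ^ M * γ ^ (τ m'))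
    rw [hψ', map_add, zpow_add₀ hγ0, mul_pow]
    exact mul_mul_mul_comm _ _ _ _
  have hcψ : ∀ i, v (c i) ^ (E' * M) ≤ ψ (d i) := by
    intro i
    by_cases hi : 0 < τ (d i)
    · have hiP := (hPmem i).2 hi
      have h1 : v (c i) ^ E' = ν i * ψ' (d i) := (div_mul_cancel₀ _ (h0' _)).symm
      rw [pow_mul, h1, mul_pow, mul_comm]
      refine mul_le_mul' le_rfl ?_
      rw [← ht i hiP, zpow_natCast]
      have h2 := pow_le_pow_left' (hmax i hiP) (t i)
      have h3 : (ν i ^ (M / t i)) ^ t i = ν i ^ M := by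
        rw [← pow_mul, mul_comm, hMd i hiP]
      rw [h3] at h2
      exact h2
    · have h1 : 1 ≤ γ ^ (τ (d i)) := by
        obtain ⟨n, hn⟩ := Int.eq_ofNat_of_zero_le (a := -τ (d i)) (by omega)
        have h2 : τ (d i) = -(n : ℤ) := by
          have h3 : -τ (d i) = (n : ℤ) := hn
          omega
        rw [h2, zpow_neg, zpow_natCast]
        exact (one_le_inv₀ (zero_lt_iff.2 (pow_ne_zero _ hγ0))).2 (pow_le_one' hγ1 _)
      have h2 : v (c i) ^ (E' * M) ≤ ψ' (d i) ^ M := by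
        rw [pow_mul]
        exact pow_le_pow_left' (hci i) M
      calc v (c i) ^ (E' * M) ≤ ψ' (d i) ^ M := h2
        _ = ψ' (d i) ^ M * 1 := (mul_one _).symm
        _ ≤ ψ' (d i) ^ M * γ ^ (τ (d i)) := mul_le_mul' le_rfl h1
  have hEM : 0 < E' * M := Nat.mul_pos hE' hM0
  have hNS : Nrm V (E' * M) ψ S := by
    rw [← hI]
    refine nrm_adjoin hEM hψ0 hψm (Nrm.alg ⟨hE', h0', hψ', hb'⟩) _ ?_
    rintro _ ⟨i, rfl⟩ m
    exact nrm_mo hEM (hcψ i) m
  have hi0eq : v (c i0) ^ (E' * M) = ψ (d i0) := by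
    have h1 : v (c i0) ^ E' = ν i0 * ψ' (d i0) := (div_mul_cancel₀ _ (h0' _)).symm
    rw [pow_mul, h1, mul_pow, mul_comm]
    change ψ' (d i0) ^ M * ν i0 ^ M = ψ' (d i0) ^ M * γ ^ (τ (d i0))
    rw [← ht i0 hi0, zpow_natCast]
    change _ = _ * (ν i0 ^ (M / t i0)) ^ t i0
    rw [← pow_mul, mul_comm (M / t i0), hMd i0 hi0]
  by_contra hcon
  push Not at hcon
  have hlt : ∀ j, v (x j) ^ (E' * M) < ψ (μ j) := fun j =>
    lt_of_le_of_ne (hNS.mo (hxS j)) (hcon j _ _ hNS)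
  obtain ⟨n, s, hs, hsum⟩ := hrad i0 ((hPmem i0).1 hi0)
  rw [finsum_eq_sum_of_fintype] at hsum
  have h1 : c i0 ^ n = ∑ j, x j * (s j).coeff (n • d i0 - μ j) := by
    have h2 := congrArg (fun f => f.coeff (n • d i0)) hsum
    rw [mo_pow, coeff_mo_same, coeff_sum'] at h2
    rw [h2]
    refine Finset.sum_congr rfl fun j _ => ?_
    rw [mul_comm, coeff_mo_mul]
  have h2 : v (c i0 ^ n) ^ (E' * M) = ψ (n • d i0) := by
    rw [map_pow, pow_right_comm, hi0eq, psi_nsmul hψ0 hψm]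
  have h3 : ∀ j, v (x j * (s j).coeff (n • d i0 - μ j)) ^ (E' * M) < ψ (n • d i0) := by
    intro j
    rw [map_mul, mul_pow]
    have h4 : ψ (n • d i0) = ψ (μ j) * ψ (n • d i0 - μ j) := by
      rw [← hψm, add_sub_cancel]
    rw [h4]
    calc v (x j) ^ (E' * M) * v ((s j).coeff (n • d i0 - μ j)) ^ (E' * M)
        ≤ v (x j) ^ (E' * M) * ψ (n • d i0 - μ j) := mul_le_mul' le_rfl (hNS.2.2.2 _ (hs j) _)
      _ < ψ (μ j) * ψ (n • d i0 - μ j) :=
        mul_lt_mul_of_pos_right (hlt j) (zero_lt_iff.2 (hψ0 _))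
  obtain ⟨j0, hj0⟩ := Finite.exists_max fun j : J => v (x j * (s j).coeff (n • d i0 - μ j))
  have h4 : v (c i0 ^ n) ≤ v (x j0 * (s j0).coeff (n • d i0 - μ j0)) := by
    rw [h1]
    exact v.map_sum_le fun j _ => hj0 j
  have h5 := pow_le_pow_left' h4 (E' * M)
  rw [h2] at h5
  exact absurd (h3 j0) (not_lt.2 h5)

end adjust

end Pool.Agent.W559.Mg
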