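import Pool.Agent.W559.Mg.A5

set_option autoImplicit false
set_option linter.unusedSectionVars false

universe u v w

namespace Pool.Agent.W559.Mg

section smlo

variable {k K : Type u} [Field k] [Field K] [Algebra k K] {G : Type} [AddCommGroup G]

/-- The low part of a localization in degree zero. -/
lemma lc_lo {C : Subalgebra k (ML K G)} (τ : G →+ ℤ) {ρ : ℕ} (hρ : 0 < ρ) {a : K} (ha0 : a ≠ 0)
    (ha : mo 0 a ∈ C) (hal : mo 0 a ∈ lo τ C ρ) :
    lc (lo τ C ρ) (mo 0 a) hal = lo τ (lc C (mo 0 a) ha) ρ := by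
  have hinv : (mo 0 a : ML K G) * mo 0 a⁻¹ = 1 := by
    rw [mo_mul, add_zero, mul_inv_cancel₀ ha0, mo_one]
  apply le_antisymm
  · refine lc_le (y := mo 0 a⁻¹) hal hinv ?_ ?_
    · conv_lhs => unfold lo
      rw [Algebra.adjoin_le_iff]
      rintro _ ⟨hf, d, b, hd, rfl⟩
      exact mem_lo (le_lc _ _ _ hf) hd
    · exact mem_lo (inv_mem_lc _ _ _ _ hinv) (by rw [map_zero]; exact_mod_cast hρ)
  · conv_lhs => unfold lo
    rw [Algebra.adjoin_le_iff]
    rintro _ ⟨⟨n, hn⟩, d, b, hd, rfl⟩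
    refine ⟨n, ?_⟩
    rw [mo_pow, mo_mul, smul_zero, zero_add] at hn ⊢
    exact mem_lo hn hd

/-- The subalgebra generated by the elements of low degree is smooth. -/
theorem smooth_lo' [IsDomain (ML K G)] {C : Subalgebra k (ML K (ℤ × G))} (hgr : Gr C)
    (hC : Algebra.Smooth k C) {ρ E : ℕ} (hρ : 0 < ρ) (hE : 0 < E) (hun : Un E C)
    (hbd : Bd (fs G) ρ C) : Algebra.Smooth k (lo (fs G) C ρ) := by
  obtain ⟨m, γ, hγ, hγ0, hgood, c, hc, hsum⟩ := fin_refine hgr hC (fs G) hE hun hbd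
  have h0 : ∀ a : K, mo 0 a ∈ C → mo 0 a ∈ lo (fs G) C ρ := fun a ha =>
    mem_lo ha (by rw [map_zero]; exact_mod_cast hρ)
  refine smooth_of_lc _ fun Q hQ => ?_
  obtain ⟨i, hi⟩ : ∃ i, (⟨mo 0 (γ i), h0 _ (hγ i)⟩ : lo (fs G) C ρ) ∉ Q := by
    by_contra hcon
    push Not at hcon
    apply hQ.ne_top
    rw [Ideal.eq_top_iff_one]
    have h1 : (1 : lo (fs G) C ρ) = ∑ i, (⟨mo 0 (c i), h0 _ (hc i)⟩ : lo (fs G) C ρ) *
        ⟨mo 0 (γ i), h0 _ (hγ i)⟩ := by
      apply Subtype.ext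
      rw [AddSubmonoidClass.coe_finsetSum]
      change (1 : ML K (ℤ × G)) = ∑ i, mo 0 (c i) * mo 0 (γ i)
      rw [← mo_one, ← hsum]
      have h2 : ∀ s : Finset (Fin m), mo (0 : ℤ × G) (∑ i ∈ s, c i * γ i) =
          ∑ i ∈ s, mo 0 (c i) * mo 0 (γ i) := by
        intro s
        induction s using Finset.induction_on with
        | empty => rw [Finset.sum_empty, Finset.sum_empty, mo_zero]
        | insert i s hi ih =>
          rw [Finset.sum_insert hi, Finset.sum_insert hi, mo_add, ih, mo_mul, add_zero]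
      exact h2 _
    rw [h1]
    exact Q.sum_mem fun i _ => Q.mul_mem_left _ (hcon i)
  refine ⟨mo 0 (γ i), h0 _ (hγ i), isUnit_mo (hγ0 i), hi, ?_⟩
  rw [lc_lo (fs G) hρ (hγ0 i) (hγ i)]
  exact smooth_lo (gr_lc hgr (hγ i)) (smooth_lc hC (hγ i) (isUnit_mo (hγ0 i))) (hgood i)

end smlo

section ma

variable {k A K : Type u} [Field k] [CommRing A] [IsDomain A] [Algebra k A] [Field K]
  [Algebra k K] {G : Type} [AddCommGroup G]

/-- A smooth atlas. -/
structure MA (g : A →ₐ[k] K) (E : ℕ) {T : Type u} (C : T → Subalgebra k (ML K G)) (H : T → K) :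
    Prop where
  pa : PA g ⊤ E C H
  sm : ∀ t, Algebra.Smooth k (C t)

variable {g : A →ₐ[k] K} {E : ℕ} {T : Type u} {C : T → Subalgebra k (ML K G)} {H : T → K}

lemma MA.gr' (h : MA g E C H) (t : T) : Gr (C t) := by
  have h1 := h.pa.gr t
  rwa [inf_top_eq] at h1

lemma MA.un' (h : MA g E C H) (t : T) : Un E (C t) := by
  have h1 := h.pa.un t
  rwa [inf_top_eq] at h1

end ma

section low

variable {k A K : Type u} [Field k] [CommRing A] [IsDomain A] [Algebra k A] [Field K]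
  [Algebra k K] {G : Type} [AddCommGroup G] {g : A →ₐ[k] K} {E : ℕ} {T : Type u}
  {C : T → Subalgebra k (ML K (ℤ × G))} {H : T → K}

/-- There is an element whose degree is positive and less than `ρ`. -/
lemma exists_low_elt {C : Subalgebra k (ML K (ℤ × G))} {ρ : ℕ} (hρ : 2 ≤ ρ)
    (hbd : Bd (fs G) ρ C)
    (hgen : AddSubgroup.closure {m : ℤ × G | ∃ a : K, a ≠ 0 ∧ mo m a ∈ C} = ⊤) :
    ∃ (m : ℤ × G) (a : K), a ≠ 0 ∧ mo m a ∈ C ∧ 0 < fs G m ∧ fs G m < ρ := by
  obtain ⟨m0, r, hr, hr0, hrρ, u, hu0, hu, hu'⟩ := hbd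
  by_cases h : r < ρ
  · exact ⟨m0, u, hu0, hu, by rw [hr]; exact_mod_cast hr0, by rw [hr]; exact_mod_cast h⟩
  · have hrρ' : r = ρ := by omega
    subst hrρ'
    obtain ⟨m, ⟨a, ha0, ha⟩, hm⟩ : ∃ m ∈ {m : ℤ × G | ∃ a : K, a ≠ 0 ∧ mo m a ∈ C},
        ¬ ((r : ℤ) ∣ fs G m) := by
      by_contra hcon
      push Not at hcon
      have h1 : AddSubgroup.closure {m : ℤ × G | ∃ a : K, a ≠ 0 ∧ mo m a ∈ C} ≤
          (AddSubgroup.zmultiples (r : ℤ)).comap (fs G) := by
        rw [AddSubgroup.closure_le]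
        intro m hm
        change fs G m ∈ AddSubgroup.zmultiples (r : ℤ)
        rw [Int.mem_zmultiples_iff]
        exact hcon m hm
      rw [hgen] at h1
      have h2 : ((1 : ℤ), (0 : G)) ∈ (AddSubgroup.zmultiples (r : ℤ)).comap (fs G) :=
        h1 (AddSubgroup.mem_top _)
      change (1 : ℤ) ∈ AddSubgroup.zmultiples (r : ℤ) at h2
      rw [Int.mem_zmultiples_iff] at h2
      have h3 : (r : ℤ) ≤ 1 := Int.le_of_dvd one_pos h2
      have h4 : (2 : ℤ) ≤ r := by exact_mod_cast hρ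
      omega
    have hr' : (0 : ℤ) < r := by exact_mod_cast hr0
    refine ⟨m + (-(fs G m / r)) • m0, a * u ^ (-(fs G m / r)), mul_ne_zero ha0
      (zpow_ne_zero _ hu0), ?_, ?_, ?_⟩
    · rw [← mo_mul]
      exact C.mul_mem ha (zpow_mem' hu hu' _)
    · have h1 : fs G (m + (-(fs G m / r)) • m0) = fs G m % r := by
        rw [map_add, map_zsmul, hr, smul_eq_mul]
        have := Int.mul_ediv_add_emod (fs G m) r
        linear_combination (-1 : ℤ) * this
      rw [h1]
      have h2 := Int.emod_nonneg (fs G m) hr'.ne'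
      rcases h2.lt_or_eq with h3 | h3
      · exact h3
      · exact absurd (Int.dvd_of_emod_eq_zero h3.symm) hm
    · have h1 : fs G (m + (-(fs G m / r)) • m0) = fs G m % r := by
        rw [map_add, map_zsmul, hr, smul_eq_mul]
        have := Int.mul_ediv_add_emod (fs G m) r
        linear_combination (-1 : ℤ) * this
      rw [h1]
      exact Int.emod_lt_of_pos _ hr'

/-- Lowering the degrees of the units. -/
theorem lower_step [IsDomain (ML K G)] [Finite T] {ρ : ℕ} (hρ : 2 ≤ ρ) (h : MA g E C H)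
    (hbd : ∀ t, Bd (fs G) ρ (C t)) :
    ∃ (T' : Type u) (_ : Finite T') (E' : ℕ) (C' : T' → Subalgebra k (ML K (ℤ × G))) (H' : T' → K),
      MA g E' C' H' ∧ ∀ t, Bd (fs G) (ρ - 1) (C' t) := by
  classical
  have hρ0 : (0 : ℤ) < ρ := by exact_mod_cast (by omega : 0 < ρ)
  let S : T → Subalgebra k (ML K (ℤ × G)) := fun t => lo (fs G) (C t) ρ
  have hsm : ∀ t, Algebra.Smooth k (S t) := fun t =>
    smooth_lo' (h.gr' t) (h.sm t) (by omega) h.pa.E0 (h.un' t) (hbd t)
  have hfg : ∀ t, (S t).FG := fun t => by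
    have h1 := hsm t
    have h2 : Algebra.FiniteType k (S t) := inferInstance
    exact (Subalgebra.fg_iff_finiteType _).2 h2
  choose I hI d c hc0 hcX hcS using fun t => exists_family (hfg t)
    {f | f ∈ C t ∧ ∃ (d : ℤ × G) (a : K), fs G d < ρ ∧ f = mo d a}
    (fun f hf => ⟨_, _, hf.2.choose_spec.choose_spec.2⟩) rfl
  have hcC : ∀ t i, mo (d t i) (c t i) ∈ C t ∧ fs G (d t i) < ρ := by
    intro t i
    obtain ⟨h1, d', a', h2, h3⟩ := hcX t i
    refine ⟨h1, ?_⟩
    by_contra hcon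
    have h4 : d t i ≠ d' := by
      rintro h5
      rw [h5] at hcon
      exact hcon h2
    have h5 := congrArg (fun f => f.coeff (d t i)) h3
    rw [coeff_mo_same, coeff_mo_ne h4.symm] at h5
    exact hc0 t i h5
  let J : T → Type u := fun t => {i : I t // 0 < fs G (d t i)}
  have hJ : ∀ t, Finite (J t) := fun t => inferInstance
  let L : ℕ := ρ.factorial
  have hL0 : 0 < L := Nat.factorial_pos ρ
  let e : ∀ t, J t → ℕ := fun t j => (fs G (d t j.1)).toNat
  have he : ∀ t j, ((e t j : ℕ) : ℤ) = fs G (d t j.1) := fun t j =>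
    Int.toNat_of_nonneg j.2.le
  have he0 : ∀ t j, 0 < e t j := fun t j => by
    have h1 := he t j
    have h2 := j.2
    omega
  have heρ : ∀ t j, e t j < ρ := fun t j => by
    have h1 := he t j
    have h2 := (hcC t j.1).2
    omega
  have heL : ∀ t j, e t j * (L / e t j) = L := fun t j =>
    Nat.mul_div_cancel' (Nat.dvd_factorial (he0 t j) (heρ t j).le)
  let x : ∀ t, J t → K := fun t j => c t j.1 ^ (L / e t j)
  let μ : ∀ t, J t → ℤ × G := fun t j => (L / e t j) • d t j.1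
  have hxμ : ∀ t j, mo (μ t j) (x t j) = mo (d t j.1) (c t j.1) ^ (L / e t j) := fun t j =>
    (mo_pow _ _ _).symm
  have hx0 : ∀ t j, x t j ≠ 0 := fun t j => pow_ne_zero _ (hc0 t _)
  have hcl : ∀ t i, mo (d t i) (c t i) ∈ S t := fun t i => mem_lo (hcC t i).1 (hcC t i).2
  have hxS : ∀ t j, mo (μ t j) (x t j) ∈ S t ⊓ ⊤ := by
    intro t j
    rw [inf_top_eq, hxμ]
    exact (S t).pow_mem (hcl t _) _
  have hμ : ∀ t j, fs G (μ t j) = L := by
    intro t j
    change fs G ((L / e t j) • d t j.1) = L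
    rw [map_nsmul, nsmul_eq_mul, ← he, mul_comm]
    exact_mod_cast heL t j
  have hJne : ∀ t, Nonempty (J t) := by
    intro t
    have hg := h.pa.gen t
    rw [inf_top_eq] at hg
    obtain ⟨m, a, ha0, ha, hm, hmρ⟩ := exists_low_elt hρ (hbd t) hg
    obtain ⟨i, hi⟩ := exists_pos_gen (k := k) (fs G) (d t) (c t) ha0 hm (by
      rw [hcS t]; exact mem_lo ha hmρ)
    exact ⟨⟨i, hi⟩⟩
  obtain ⟨N, u, hu, hpa⟩ := modif h.pa (fs G) (S := S) (fun t => lo_le _ _ _)
    (fun t => by rw [inf_top_eq]; exact gr_lo _ _ _)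
    (fun t m a hm ha => mem_lo ha.1 (lt_of_le_of_lt hm hρ0))
    (by
      intro t t' f hf
      have h0 : mo 0 (H t' / H t) ∈ S t := mem_lo (h.pa.rt t t').1 (by rw [map_zero]; exact hρ0)
      have h1 : S t' ≤ lc (S t) (mo 0 (H t' / H t)) h0 := by
        change lo (fs G) (C t') ρ ≤ _
        conv_lhs => unfold lo
        rw [Algebra.adjoin_le_iff]
        rintro _ ⟨hf, e, a, he, rfl⟩
        obtain ⟨n, hn⟩ := h.pa.gl t t' _ ⟨hf, trivial⟩
        refine ⟨n, ?_⟩
        rw [mo_pow, mo_mul, smul_zero, zero_add] at hn ⊢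
        exact mem_lo hn he
      exact h1 hf.1)
    x μ hL0 hx0 hxS hμ
    (by
      intro t V E' ψ' hN
      have := hJne t
      refine nrm_adjust hN (lo_le _ _ _) (fs G) (d t) (c t) (hc0 t) (hcS t) (x t) (μ t) (hx0 t)
        (fun j => (hxS t j).1) (fun j => by rw [hμ]; exact_mod_cast hL0) ?_
      intro i hi
      have : Fintype (J t) := Fintype.ofFinite _
      refine ⟨L / e t ⟨i, hi⟩, fun j => if j = ⟨i, hi⟩ then 1 else 0, ?_, ?_⟩
      · intro j
        by_cases hj : j = ⟨i, hi⟩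
        · simp only [hj, if_true]
          exact (S t).one_mem
        · simp only [hj, if_false]
          exact (S t).zero_mem
      · rw [finsum_eq_sum_of_fintype, Finset.sum_eq_single ⟨i, hi⟩]
        · simp only [if_true]
          rw [one_mul, hxμ]
        · intro j _ hj
          simp only [hj, if_false]
          rw [zero_mul]
        · intro h
          exact absurd (Finset.mem_univ _) h)
  refine ⟨Σ t, J t, inferInstance, E * L, _, _, ⟨hpa, ?_⟩, ?_⟩
  · intro p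
    exact smooth_lc (hsm p.1) _ (isUnit_mo (hx0 _ _))
  · intro p
    have hXm : mo (d p.1 p.2.1) (c p.1 p.2.1) ∈ S p.1 := hcl p.1 p.2.1
    refine ⟨d p.1 p.2.1, e p.1 p.2, (he p.1 p.2).symm, he0 _ _, by have := heρ p.1 p.2; omega,
      c p.1 p.2.1, hc0 _ _, le_lc _ _ _ hXm, 1, ?_⟩
    rw [pow_one, hxμ]
    obtain ⟨n, hn⟩ : ∃ n, L / e p.1 p.2 = n + 1 := by
      refine Nat.exists_eq_succ_of_ne_zero ?_
      intro h0
      have := heL p.1 p.2
      rw [h0, mul_zero] at this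
      omega
    rw [hn, pow_succ, mul_assoc, mo_inv (hc0 _ _), mul_one]
    exact (S p.1).pow_mem hXm n

/-- Lowering the degrees of the units to one. -/
theorem lower_all [IsDomain (ML K G)] (ρ : ℕ) : ∀ {T : Type u} [Finite T] {E : ℕ}
    {C : T → Subalgebra k (ML K (ℤ × G))} {H : T → K}, MA g E C H → (∀ t, Bd (fs G) ρ (C t)) →
    ∃ (T' : Type u) (_ : Finite T') (E' : ℕ) (C' : T' → Subalgebra k (ML K (ℤ × G))) (H' : T' → K),
      MA g E' C' H' ∧ ∀ t, Bd (fs G) 1 (C' t) := by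
  induction ρ with
  | zero =>
    intro T _ E C H h hbd
    refine ⟨T, inferInstance, E, C, H, h, fun t => ?_⟩
    obtain ⟨m, r, h1, h2, h3, h4⟩ := hbd t
    omega
  | succ ρ ih =>
    intro T _ E C H h hbd
    by_cases hρ : ρ = 0
    · subst hρ
      exact ⟨T, inferInstance, E, C, H, h, hbd⟩
    · obtain ⟨T', hT', E', C', H', h', hbd'⟩ := lower_step (by omega) h hbd
      exact ih h' hbd'

/-- The units of an atlas. -/
lemma MA.bd (h : MA g E C H) (t : T) : Bd (fs G) E (C t) := by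
  obtain ⟨u, hu0, hu, hu'⟩ := h.un' t (1, 0)
  refine ⟨E • (1, 0), E, ?_, h.pa.E0, le_rfl, u, hu0, hu, hu'⟩
  rw [map_nsmul, nsmul_eq_mul]
  change (E : ℤ) * 1 = E
  rw [mul_one]

end low

end Pool.Agent.W559.Mg
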