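import Pool.Agent.W559.Mg.A6

set_option autoImplicit false
set_option linter.unusedSectionVars false

open AlgebraicGeometry CategoryTheory

universe u v w

namespace Pool.Agent.W559.Mg

section drop

variable {k K : Type u} [Field k] [Field K] [Algebra k K] {G : Type} [AddCommGroup G]

/-- The monomials of first degree zero. -/
noncomputable def incM (K : Type u) [Field K] (G : Type) [AddCommGroup G] :
    Multiplicative G →* ML K (ℤ × G) where
  toFun m := mo (0, m.toAdd) 1
  map_one' := rfl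
  map_mul' a b := by
    rw [mo_mul, one_mul]
    rfl

/-- The elements of first degree zero. -/
noncomputable def inc (k : Type u) {K : Type u} [Field k] [Field K] [Algebra k K] {G : Type}
    [AddCommGroup G] : ML K G →ₐ[k] ML K (ℤ × G) :=
  (AddMonoidAlgebra.lift K (ML K (ℤ × G)) G (incM K G)).restrictScalars k

lemma inc_mo (μ : G) (a : K) : inc k (mo μ a) = mo (0, μ) a := by
  unfold inc
  conv_lhs => unfold mo
  rw [AlgHom.restrictScalars_apply, AddMonoidAlgebra.lift_single]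
  change a • mo (0, μ) 1 = _
  rw [Algebra.smul_def]
  have h1 : algebraMap K (ML K (ℤ × G)) a = mo 0 a := rfl
  rw [h1, mo_mul, zero_add, mul_one]

/-- The monomials, evaluated at a unit. -/
noncomputable def retM (u : Kˣ) (l : G) : Multiplicative (ℤ × G) →* ML K G where
  toFun m := mo (m.toAdd.2 - m.toAdd.1 • l) ((u ^ (-m.toAdd.1) : Kˣ) : K)
  map_one' := by
    change mo ((0 : G) - (0 : ℤ) • l) ((u ^ (-(0 : ℤ)) : Kˣ) : K) = 1
    rw [zero_smul, sub_zero, neg_zero, zpow_zero]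
    rfl
  map_mul' a b := by
    rw [mo_mul]
    congr 1
    · change a.toAdd.2 + b.toAdd.2 - (a.toAdd.1 + b.toAdd.1) • l = _
      rw [add_smul]; abel
    · change ((u ^ (-(a.toAdd.1 + b.toAdd.1)) : Kˣ) : K) = _
      rw [neg_add, zpow_add, Units.val_mul]

/-- The retraction onto the elements of first degree zero given by a unit of first degree one. -/
noncomputable def ret (k : Type u) {K : Type u} [Field k] [Field K] [Algebra k K] {G : Type}
    [AddCommGroup G] (u : Kˣ) (l : G) : ML K (ℤ × G) →ₐ[k] ML K G :=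
  (AddMonoidAlgebra.lift K (ML K G) (ℤ × G) (retM u l)).restrictScalars k

lemma ret_mo (u : Kˣ) (l : G) (d : ℤ) (μ : G) (a : K) :
    ret k u l (mo (d, μ) a) = mo (μ - d • l) (a * ((u ^ (-d) : Kˣ) : K)) := by
  unfold ret
  conv_lhs => unfold mo
  rw [AlgHom.restrictScalars_apply, AddMonoidAlgebra.lift_single]
  change a • mo (μ - d • l) ((u ^ (-d) : Kˣ) : K) = _
  rw [Algebra.smul_def]
  have h1 : algebraMap K (ML K G) a = mo 0 a := rfl
  rw [h1, mo_mul, zero_add]

lemma ret_inc (u : Kˣ) (l : G) (f : ML K G) : ret k u l (inc k f) = f := by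
  rw [eq_sum_mo f, map_sum, map_sum]
  refine Finset.sum_congr rfl fun m _ => ?_
  rw [inc_mo, ret_mo, zero_smul, sub_zero, neg_zero, zpow_zero, Units.val_one, mul_one]

/-- The elements of first degree zero of a subalgebra. -/
noncomputable def dz (C : Subalgebra k (ML K (ℤ × G))) : Subalgebra k (ML K G) := C.comap (inc k)

lemma mem_dz {C : Subalgebra k (ML K (ℤ × G))} {f : ML K G} : f ∈ dz C ↔ inc k f ∈ C := Iff.rfl

lemma mo_mem_dz {C : Subalgebra k (ML K (ℤ × G))} {μ : G} {a : K} :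
    mo μ a ∈ dz C ↔ mo (0, μ) a ∈ C := by
  rw [mem_dz, inc_mo]

lemma coeff_inc (f : ML K G) (μ : G) : (inc k f).coeff (0, μ) = f.coeff μ := by
  classical
  conv_lhs => rw [eq_sum_mo f, map_sum, coeff_sum']
  conv_rhs => rw [eq_sum_mo f, coeff_sum']
  refine Finset.sum_congr rfl fun m _ => ?_
  rw [inc_mo, coeff_mo, coeff_mo]
  congr 1
  rw [Prod.mk.injEq, eq_self_iff_true, true_and]

lemma gr_dz {C : Subalgebra k (ML K (ℤ × G))} (hC : Gr C) : Gr (dz C) := by
  intro f hf μ
  rw [mo_mem_dz, ← coeff_inc (k := k)]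
  exact hC _ hf _

lemma ret_mem {C : Subalgebra k (ML K (ℤ × G))} (hC : Gr C) (u : Kˣ) (l : G)
    (hu : mo (1, l) (u : K) ∈ C) (hu' : mo (-(1, l)) (u : K)⁻¹ ∈ C) {f : ML K (ℤ × G)}
    (hf : f ∈ C) : ret k u l f ∈ dz C := by
  rw [eq_sum_mo f, map_sum]
  refine Subalgebra.sum_mem _ fun m _ => ?_
  obtain ⟨d, μ⟩ := m
  rw [ret_mo, mo_mem_dz]
  have h1 := C.mul_mem (hC f hf (d, μ)) (zpow_mem' hu hu' (-d))
  rw [mo_mul] at h1
  have h2 : (d, μ) + -d • ((1 : ℤ), l) = (0, μ - d • l) := by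
    ext
    · simp
    · simp [sub_eq_add_neg]
  rw [h2] at h1
  rw [Units.val_zpow_eq_zpow_val]
  exact h1

lemma smooth_dz {C : Subalgebra k (ML K (ℤ × G))} (hC : Gr C) (hs : Algebra.Smooth k C) (u : Kˣ)
    (l : G) (hu : mo (1, l) (u : K) ∈ C) (hu' : mo (-(1, l)) (u : K)⁻¹ ∈ C) :
    Algebra.Smooth k (dz C) := by
  let r : C →ₐ[k] dz C := ((ret k u l).comp C.val).codRestrict (dz C)
    fun f => ret_mem hC u l hu hu' f.2
  let i : dz C →ₐ[k] C := ((inc k).comp (dz C).val).codRestrict C fun x => x.2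
  have hri : ∀ a, r (i a) = a := by
    intro a
    apply Subtype.ext
    exact ret_inc (k := k) u l _
  have h1 : Algebra.FormallySmooth k (dz C) := H920R2.formallySmooth_retract i r hri
  have h2 : Algebra.FiniteType k (dz C) :=
    Algebra.FiniteType.of_surjective r fun a => ⟨i a, hri a⟩
  have h3 : Algebra.FinitePresentation k (dz C) := Algebra.FinitePresentation.of_finiteType.1 h2
  exact ⟨h1, h3⟩

variable {A : Type u} [CommRing A] [IsDomain A] [Algebra k A] {g : A →ₐ[k] K} {E : ℕ}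
  {T : Type u} {C : T → Subalgebra k (ML K (ℤ × G))} {H : T → K}

/-- Removal of the first direction. -/
theorem MA.drop (h : MA g E C H) (hbd : ∀ t, Bd (fs G) 1 (C t)) :
    MA g E (fun t => dz (C t)) H := by
  have hunit : ∀ t, ∃ (u : Kˣ) (l : G), mo (1, l) (u : K) ∈ C t ∧
      mo (-(1, l)) (u : K)⁻¹ ∈ C t := by
    intro t
    obtain ⟨⟨d, l⟩, r, h1, h2, h3, u, hu0, hu, hu'⟩ := hbd t
    have hr : r = 1 := by omega
    subst hr
    have hd : d = 1 := h1
    subst hd
    exact ⟨Units.mk0 u hu0, l, hu, hu'⟩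
  choose u l hu hu' using hunit
  have hdz : ∀ t, dz (C t) ⊓ (⊤ : Subalgebra k (ML K G)) = dz (C t) := fun t => inf_top_eq _
  refine ⟨{ H0 := h.pa.H0
            hA := h.pa.hA
            gr := ?_
            aa := ?_
            Fi := ?_
            rt := ?_
            gl := ?_
            dn := ?_
            cv := ?_
            E0 := h.pa.E0
            un := ?_
            gen := ?_ }, fun t => smooth_dz (h.gr' t) (h.sm t) (u t) (l t) (hu t) (hu' t)⟩
  · intro t
    rw [hdz]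
    exact gr_dz (h.gr' t)
  · intro t a
    exact ⟨mo_mem_dz.2 (h.pa.aa t a).1, trivial⟩
  · intro _ _ _ _
    trivial
  · intro t t'
    exact ⟨mo_mem_dz.2 (h.pa.rt t t').1, trivial⟩
  · intro t t' f hf
    obtain ⟨n, hn⟩ := h.pa.gl t t' _ ⟨mem_dz.1 hf.1, trivial⟩
    refine ⟨n, ?_⟩
    rw [mem_dz, map_mul, map_pow, inc_mo]
    exact hn
  · intro t x hx
    exact h.pa.dn t x ⟨mo_mem_dz.1 hx.1, trivial⟩
  · intro V hV
    obtain ⟨t, E', ψ, hN⟩ := h.pa.cv V hV
    refine ⟨t, E', fun m => ψ (0, m), hN.1, fun m => hN.2.1 _, fun m m' => ?_, fun f hf m => ?_⟩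
    · rw [← hN.2.2.1]
      rfl
    · rw [← coeff_inc (k := k)]
      exact hN.2.2.2 _ (mem_dz.1 hf) _
  · intro t m
    rw [hdz]
    obtain ⟨w, hw0, hw, hw'⟩ := h.un' t (0, m)
    refine ⟨w, hw0, mo_mem_dz.2 ?_, mo_mem_dz.2 ?_⟩
    · have e1 : E • ((0 : ℤ), m) = (0, E • m) := by simp
      rwa [e1] at hw
    · have e1 : -(E • ((0 : ℤ), m)) = (0, -(E • m)) := by simp
      rwa [e1] at hw'
  · intro t
    have h1 := h.pa.gen t
    rw [inf_top_eq] at h1
    rw [hdz]
    let π : ℤ × G →+ G := AddMonoidHom.snd ℤ G -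
      (zmultiplesHom G (l t)).comp (AddMonoidHom.fst ℤ G)
    have hπ : ∀ d μ, π (d, μ) = μ - d • l t := fun d μ => rfl
    have h2 : AddSubgroup.closure {m : ℤ × G | ∃ a : K, a ≠ 0 ∧ mo m a ∈ C t} ≤
        (AddSubgroup.closure {m : G | ∃ a : K, a ≠ 0 ∧ mo m a ∈ dz (C t)}).comap π := by
      rw [AddSubgroup.closure_le]
      rintro ⟨d, μ⟩ ⟨a, ha0, ha⟩
      apply AddSubgroup.subset_closure
      refine ⟨a * ((u t ^ (-d) : Kˣ) : K), mul_ne_zero ha0 (Units.ne_zero _), ?_⟩
      rw [hπ, ← ret_mo (k := k)]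
      exact ret_mem (h.gr' t) (u t) (l t) (hu t) (hu' t) ha
    rw [h1] at h2
    rw [eq_top_iff]
    intro m _
    have h3 : ((0 : ℤ), m) ∈ (⊤ : AddSubgroup (ℤ × G)) := AddSubgroup.mem_top _
    have h4 := h2 h3
    rw [AddSubgroup.mem_comap, hπ, zero_smul, sub_zero] at h4
    exact h4

end drop

section step

variable {k A K : Type u} [Field k] [CommRing A] [IsDomain A] [Algebra k A] [Field K]
  [Algebra k K] {G : Type} [AddCommGroup G] {g : A →ₐ[k] K}

/-- Removal of a direction. -/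
theorem ma_step [IsDomain (ML K G)] {T : Type u} [Finite T] {E : ℕ}
    {C : T → Subalgebra k (ML K (ℤ × G))} {H : T → K} (h : MA g E C H) :
    ∃ (T' : Type u) (_ : Finite T') (E' : ℕ) (C' : T' → Subalgebra k (ML K G)) (H' : T' → K),
      MA g E' C' H' := by
  obtain ⟨T', hT', E', C', H', h', hbd⟩ := lower_all E h h.bd
  exact ⟨T', hT', E', _, H', h'.drop hbd⟩

end step

section base

variable {k A K : Type u} [Field k] [CommRing A] [IsDomain A] [Algebra k A] [Field K]
  [Algebra k K] {g : A →ₐ[k] K} (hg : Function.Injective g)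

/-- The part of degree zero. -/
noncomputable def d0 {G : Type} [AddCommGroup G] (C : Subalgebra k (ML K G)) : Subalgebra k K :=
  C.comap (zr k K G)

lemma mem_d0 {G : Type} [AddCommGroup G] {C : Subalgebra k (ML K G)} {x : K} :
    x ∈ d0 C ↔ mo 0 x ∈ C := Iff.rfl

lemma smooth_d0 {C : Subalgebra k (ML K Unit)} (hC : Algebra.Smooth k C) :
    Algebra.Smooth k (d0 C) := by
  have hmo : ∀ f : ML K Unit, mo 0 (f.coeff 0) = f := by
    intro f
    apply ml_ext
    intro m
    have hm : m = 0 := rfl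
    subst hm
    rw [coeff_mo_same]
  let φ : d0 C →ₐ[k] C := ((zr k K Unit).comp (d0 C).val).codRestrict C fun x => x.2
  have hinj : Function.Injective φ := by
    intro x y hxy
    apply Subtype.ext
    have h1 := congrArg (fun z : C => (z : ML K Unit)) hxy
    exact mo_inj h1
  have hsur : Function.Surjective φ := by
    rintro ⟨f, hf⟩
    refine ⟨⟨f.coeff 0, ?_⟩, ?_⟩
    · rw [mem_d0, hmo]
      exact hf
    · apply Subtype.ext
      exact hmo f
  exact Algebra.Smooth.of_equiv (AlgEquiv.ofBijective φ ⟨hinj, hsur⟩).symm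

include hg in
/-- An atlas without gradings gives a resolution. -/
theorem hasResolution_base {T : Type u} [Finite T] {E : ℕ} {C : T → Subalgebra k (ML K Unit)}
    {H : T → K} (h : MA g E C H) : H920R2.HasResolution (X := Spec (CommRingCat.of A))
      (Spec.map (CommRingCat.ofHom (algebraMap k A))) := by
  classical
  have : Fintype T := Fintype.ofFinite T
  have hsm : ∀ t, Algebra.Smooth k (d0 (C t)) := fun t => smooth_d0 (h.sm t)
  have hfg : ∀ t, ∃ G : Finset K, Algebra.adjoin k (G : Set K) = d0 (C t) := by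
    intro t
    have h1 := hsm t
    have h2 : Algebra.FiniteType k (d0 (C t)) := inferInstance
    obtain ⟨G, hG⟩ := (Subalgebra.fg_iff_finiteType _).2 h2
    exact ⟨G, hG⟩
  choose G hG using hfg
  have hGm : ∀ t, ∀ x ∈ G t, mo 0 x ∈ C t := by
    intro t x hx
    have : x ∈ d0 (C t) := by rw [← hG t]; exact Algebra.subset_adjoin hx
    exact this
  have hrt : ∀ t t', mo 0 (H t' / H t) ∈ C t := fun t t' => (h.pa.rt t t').1
  -- a common exponent
  have h1 : ∀ p : (Σ t, {x // x ∈ G t}), ∃ n : ℕ, (∃ a, H p.1 ^ n * p.2.1 = g a) ∧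
      ∀ t, mo 0 ((H p.1 / H t) ^ n * p.2.1) ∈ C t := by
    rintro ⟨t, x, hx⟩
    obtain ⟨n, a, ha⟩ := h.pa.dn t x ⟨hGm t x hx, trivial⟩
    choose m hm' using fun t' => h.pa.gl t' t _ ⟨hGm t x hx, trivial⟩
    obtain ⟨b, hb⟩ := h.pa.hA t
    refine ⟨n + Finset.univ.sup m, ⟨b ^ (Finset.univ.sup m) * a, ?_⟩, ?_⟩
    · rw [map_mul, map_pow, ← ha, ← hb]; ring
    · intro t'
      have h2 : m t' ≤ Finset.univ.sup m := Finset.le_sup (Finset.mem_univ t')
      obtain ⟨e, he⟩ := Nat.exists_eq_add_of_le h2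
      have h3 : (mo 0 ((H t / H t') ^ (n + Finset.univ.sup m) * x) : ML K Unit) =
          mo 0 (H t / H t') ^ (n + e) * (mo 0 (H t / H t') ^ m t' * mo 0 x) := by
        rw [mo_pow, mo_pow, mo_mul, mo_mul, he]
        congr 1
        ring
      rw [h3]
      exact (C t').mul_mem ((C t').pow_mem (hrt t' t) _) (hm' t')
  choose N hN1 hN2 using h1
  let M : ℕ := Finset.univ.sup N
  have hNM : ∀ p, N p ≤ M := fun p => Finset.le_sup (Finset.mem_univ p)
  choose b hb using h.pa.hA
  have h2 : ∀ p : (Σ t, {x // x ∈ G t}), ∃ a, H p.1 ^ M * p.2.1 = g a := by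
    intro p
    obtain ⟨a, ha⟩ := hN1 p
    obtain ⟨e, he⟩ := Nat.exists_eq_add_of_le (hNM p)
    refine ⟨b p.1 ^ e * a, ?_⟩
    rw [map_mul, map_pow, ← ha, ← hb, he]; ring
  choose a ha using h2
  let z : T ⊕ (Σ t, {x // x ∈ G t}) → A := Sum.elim (fun t => b t ^ M) a
  have hz : ∀ t i, mo 0 (g (z i) / g (z (Sum.inl t))) ∈ C t := by
    intro t i
    have e0 : g (z (Sum.inl t)) = H t ^ M := by
      change g (b t ^ M) = _
      rw [map_pow, ← hb]
    rw [e0]
    rcases i with t' | p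
    · have e1 : g (z (Sum.inl t')) = H t' ^ M := by
        change g (b t' ^ M) = _
        rw [map_pow, ← hb]
      have e2 : (mo 0 (H t' ^ M / H t ^ M) : ML K Unit) = mo 0 (H t' / H t) ^ M := by
        rw [mo_pow, smul_zero, div_pow]
      rw [e1, e2]
      exact (C t).pow_mem (hrt t t') M
    · have e1 : g (z (Sum.inr p)) = H p.1 ^ M * p.2.1 := (ha p).symm
      obtain ⟨e, he⟩ := Nat.exists_eq_add_of_le (hNM p)
      have e2 : (mo 0 (H p.1 ^ M * p.2.1 / H t ^ M) : ML K Unit) =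
          mo 0 (H p.1 / H t) ^ e * mo 0 ((H p.1 / H t) ^ N p * p.2.1) := by
        rw [mo_pow, mo_mul, he]
        congr 1
        rw [← mul_assoc, ← pow_add, div_pow, add_comm]
        ring
      rw [e1, e2]
      exact (C t).mul_mem ((C t).pow_mem (hrt t p.1) _) (hN2 p t)
  have hz0 : ∀ t, z (Sum.inl t) ≠ 0 := by
    intro t h0
    have e0 : g (z (Sum.inl t)) = H t ^ M := by
      change g (b t ^ M) = _
      rw [map_pow, ← hb]
    rw [h0, map_zero] at e0
    exact pow_ne_zero M (h.pa.H0 t) e0.symm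
  refine H920R2.hasResolution_of_charts' g hg z (Set.range Sum.inl) ?_ ?_
  · intro V hV
    obtain ⟨t, E', ψ, ht⟩ := h.pa.cv V hV
    refine ⟨Sum.inl t, ⟨t, rfl⟩, hz0 t, fun i => ?_⟩
    have h3 := ht.mo (hz t i)
    rw [psi_zero ht.2.1 ht.2.2.1] at h3
    rw [← V.valuation_le_one_iff]
    exact (pow_le_one_iff_of_nonneg zero_le ht.1.ne').1 h3
  · rintro _ ⟨t, rfl⟩ -
    refine ⟨d0 (C t), hsm t, fun a => (h.pa.aa t a).1, fun i => hz t i, ?_⟩
    rw [← hG t, Algebra.adjoin_le_iff]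
    intro x hx
    apply Algebra.subset_adjoin
    right
    refine ⟨Sum.inr ⟨t, x, hx⟩, ?_⟩
    have e0 : g (z (Sum.inl t)) = H t ^ M := by
      change g (b t ^ M) = _
      rw [map_pow, ← hb]
    have e1 : g (z (Sum.inr ⟨t, x, hx⟩)) = H t ^ M * x := (ha ⟨t, x, hx⟩).symm
    change g (z (Sum.inr ⟨t, x, hx⟩)) / g (z (Sum.inl t)) = x
    rw [e0, e1]
    have := pow_ne_zero M (h.pa.H0 t)
    field_simp

include hg in
/-- An atlas with three gradings gives a resolution. -/
theorem hasResolution_three {T : Type u} [Finite T] {E : ℕ}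
    {C : T → Subalgebra k (ML K (ℤ × (ℤ × (ℤ × Unit))))} {H : T → K} (h : MA g E C H) :
    H920R2.HasResolution (X := Spec (CommRingCat.of A))
      (Spec.map (CommRingCat.ofHom (algebraMap k A))) := by
  obtain ⟨T1, hT1, E1, C1, H1, h1⟩ := ma_step h
  obtain ⟨T2, hT2, E2, C2, H2, h2⟩ := ma_step h1
  obtain ⟨T3, hT3, E3, C3, H3, h3⟩ := ma_step h2
  exact hasResolution_base hg h3

end base

end Pool.Agent.W559.Mg
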