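import Pool.Agent.W559.Mg.A7
import Pool.Agent.H920R2.Sig3

set_option autoImplicit false
set_option linter.unusedSectionVars false

universe u v w

namespace Pool.Agent.W559.Mg

section fx

variable {k : Type u} {D : Type v} [CommRing k] [CommRing D] [Algebra k D] (γ : D →ₐ[k] D)

/-- The fixed subalgebra. -/
def fx : Subalgebra k D := AlgHom.equalizer γ (AlgHom.id k D)

variable {γ} in
lemma mem_fx {x : D} : x ∈ fx γ ↔ γ x = x := Iff.rfl

/-- The difference operator. -/
def dl (x : D) : D := γ x - x

lemma eq_add_dl (x : D) : γ x = x + dl γ x := by unfold dl; ring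

lemma dl_add (x y : D) : dl γ (x + y) = dl γ x + dl γ y := by
  unfold dl; rw [map_add]; ring

lemma dl_sub (x y : D) : dl γ (x - y) = dl γ x - dl γ y := by
  unfold dl; rw [map_sub]; ring

lemma dl_zero : dl γ 0 = 0 := by unfold dl; rw [map_zero, sub_zero]

lemma dl_mul (x y : D) : dl γ (x * y) = dl γ x * y + x * dl γ y + dl γ x * dl γ y := by
  unfold dl; rw [map_mul]; ring

lemma dl_algebraMap (r : k) : dl γ (algebraMap k D r) = 0 := by
  unfold dl; rw [AlgHom.commutes, sub_self]

lemma dl_fx_mul {x : D} (hx : x ∈ fx γ) (y : D) : dl γ (x * y) = x * dl γ y := by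
  unfold dl; rw [map_mul, mem_fx.1 hx]; ring

lemma dl_iter_zero (n : ℕ) : (dl γ)^[n] 0 = 0 := by
  induction n with
  | zero => rfl
  | succ n ih => rw [Function.iterate_succ_apply, dl_zero, ih]

lemma dl_iter_add (n : ℕ) (x y : D) : (dl γ)^[n] (x + y) = (dl γ)^[n] x + (dl γ)^[n] y := by
  induction n generalizing x y with
  | zero => rfl
  | succ n ih => rw [Function.iterate_succ_apply, Function.iterate_succ_apply,
      Function.iterate_succ_apply, dl_add, ih]

lemma dl_iter_sub (n : ℕ) (x y : D) : (dl γ)^[n] (x - y) = (dl γ)^[n] x - (dl γ)^[n] y := by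
  induction n generalizing x y with
  | zero => rfl
  | succ n ih => rw [Function.iterate_succ_apply, Function.iterate_succ_apply,
      Function.iterate_succ_apply, dl_sub, ih]

lemma dl_iter_fx_mul {x : D} (hx : x ∈ fx γ) (n : ℕ) (y : D) :
    (dl γ)^[n] (x * y) = x * (dl γ)^[n] y := by
  induction n generalizing y with
  | zero => rfl
  | succ n ih => rw [Function.iterate_succ_apply, Function.iterate_succ_apply,
      dl_fx_mul γ hx, ih]

/-- The `p`-th power of the difference operator in characteristic `p`. -/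
lemma dl_iter_p {p : ℕ} (hp : p.Prime) (hpD : (p : D) = 0) (x : D) :
    (dl γ)^[p] x = γ^[p] x - x := by
  have h0 : ((p : ℕ) : ZMod p) = 0 := by simp
  have : Fact p.Prime := ⟨hp⟩
  -- binomial formula
  have key : ∀ n (x : D), (dl γ)^[n] x =
      ∑ i ∈ Finset.range (n + 1), ((-1) ^ (n + i) * (n.choose i : D)) * γ^[i] x := by
    intro n
    induction n with
    | zero => intro x; simp
    | succ n ih =>
      intro x
      rw [Function.iterate_succ_apply', ih]
      have h1 : dl γ (∑ i ∈ Finset.range (n + 1), ((-1) ^ (n + i) * (n.choose i : D)) *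
          γ^[i] x) = ∑ i ∈ Finset.range (n + 1), (((-1) ^ (n + i) * (n.choose i : D)) *
          γ^[i + 1] x) - ∑ i ∈ Finset.range (n + 1), (((-1) ^ (n + i) * (n.choose i : D)) *
          γ^[i] x) := by
        unfold dl
        rw [map_sum]
        congr 1
        refine Finset.sum_congr rfl fun i _ => ?_
        rw [map_mul, map_mul, map_pow, map_neg, map_one, map_natCast,
          Function.iterate_succ_apply']
      rw [h1]
      have h2 : ∑ i ∈ Finset.range (n + 1), (((-1) ^ (n + i) * (n.choose i : D)) *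
          γ^[i] x) = ∑ i ∈ Finset.range (n + 1), (((-1) ^ (n + (i + 1)) *
            (n.choose (i + 1) : D)) * γ^[i + 1] x) + (-1) ^ n * x := by
        rw [Finset.sum_range_succ', Finset.sum_range_succ _ n]
        simp
      have h3 : ∑ i ∈ Finset.range (n + 1 + 1), (((-1) ^ (n + 1 + i) *
            ((n + 1).choose i : D)) * γ^[i] x) = ∑ i ∈ Finset.range (n + 1),
            (((-1) ^ (n + 1 + (i + 1)) * ((n + 1).choose (i + 1) : D)) * γ^[i + 1] x) +
            (-1) ^ (n + 1) * x := by
        rw [Finset.sum_range_succ']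
        simp
      rw [h2, h3, ← sub_sub, ← Finset.sum_sub_distrib]
      have h4 : ∀ i ∈ Finset.range (n + 1), ((-1) ^ (n + i) * (n.choose i : D)) *
          γ^[i + 1] x - ((-1) ^ (n + (i + 1)) * (n.choose (i + 1) : D)) * γ^[i + 1] x =
          ((-1) ^ (n + 1 + (i + 1)) * ((n + 1).choose (i + 1) : D)) * γ^[i + 1] x := by
        intro i _
        rw [Nat.choose_succ_succ]
        push_cast
        ring
      rw [Finset.sum_congr rfl h4]
      ring
  rw [key, Finset.sum_range_succ, Finset.sum_eq_single_of_mem 0 (by simp [hp.pos])]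
  · rw [Nat.choose_self, Nat.choose_zero_right, Nat.cast_one, mul_one, mul_one, add_zero]
    have h1 : (-1 : D) ^ (p + p) = 1 := by
      rw [← two_mul, pow_mul]; simp
    rw [h1, one_mul]
    have h2 : (-1 : D) ^ p = -1 := by
      rcases hp.eq_two_or_odd' with h | h
      · subst h
        have h3 : (2 : D) = 0 := by exact_mod_cast hpD
        have h4 : (-1 : D) ^ 2 = 1 := by ring
        rw [h4]
        have h5 : (1 : D) + 1 = 0 := by rw [one_add_one_eq_two, h3]
        exact eq_neg_of_add_eq_zero_left h5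
      · exact h.neg_one_pow
    rw [h2]
    have h3 : γ^[0] x = x := rfl
    rw [h3]
    ring
  · intro i hi hi0
    have hip : i < p := Finset.mem_range.1 hi
    obtain ⟨c, hc⟩ := hp.dvd_choose_self hi0 hip
    rw [hc]
    push_cast
    rw [hpD]
    ring

end fx

section tf

variable {R : Type u} [CommRing R] (σ : R →+* R) (s : R)
  (hreg : ∀ a b, s * a = s * b → a = b) (hσs : σ s = s) (D : R → R)
  (hD : ∀ a, σ a = a + s * D a)

include hreg hD in
lemma D_add (f g : R) : D (f + g) = D f + D g := by
  apply hreg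
  have h1 := hD (f + g)
  rw [map_add, hD f, hD g] at h1
  linear_combination -h1

include hreg hD in
lemma D_mul (f g : R) : D (f * g) = D f * g + f * D g + s * D f * D g := by
  apply hreg
  have h1 := hD (f * g)
  rw [map_mul, hD f, hD g] at h1
  linear_combination -h1

include hreg hD in
lemma D_one : D 1 = 0 := by
  apply hreg
  have h1 := hD 1
  rw [map_one] at h1
  linear_combination -h1

include hreg hD hσs in
lemma D_s : D s = 0 := by
  apply hreg
  have h1 := hD s
  rw [hσs] at h1
  linear_combination -h1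

include hreg hD in
lemma D_iter_add' (n : ℕ) (f g : R) : D^[n] (f + g) = D^[n] f + D^[n] g := by
  induction n generalizing f g with
  | zero => rfl
  | succ n ih => rw [Function.iterate_succ_apply, Function.iterate_succ_apply,
      Function.iterate_succ_apply, D_add σ s hreg D hD, ih]

include hreg hD in
lemma D_iter_zero' (n : ℕ) : D^[n] 0 = 0 := by
  have h1 := D_iter_add' σ s hreg D hD n 0 0
  rw [add_zero] at h1
  exact left_eq_add.1 h1

/-- The largest stable ideal contained in a given ideal. -/
def stI (Q : Ideal R) : Ideal R where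
  carrier := {a | ∀ j, D^[j] a ∈ Q}
  add_mem' := by
    intro a b ha hb j
    rw [D_iter_add' σ s hreg D hD]
    exact Q.add_mem (ha j) (hb j)
  zero_mem' := by
    intro j
    rw [D_iter_zero' σ s hreg D hD]
    exact Q.zero_mem
  smul_mem' := by
    have key : ∀ j (a b : R), (∀ j, D^[j] a ∈ Q) → D^[j] (b * a) ∈ Q := by
      intro j
      induction j with
      | zero => exact fun a b ha => Q.mul_mem_left _ (ha 0)
      | succ j ih =>
        intro a b ha
        have ha' : ∀ j, D^[j] (D a) ∈ Q := fun j => by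
          rw [← Function.iterate_succ_apply]; exact ha (j + 1)
        rw [Function.iterate_succ_apply, D_mul σ s hreg D hD, D_iter_add' σ s hreg D hD,
          D_iter_add' σ s hreg D hD]
        exact Q.add_mem (Q.add_mem (ih _ _ ha) (ih _ _ ha')) (ih _ _ ha')
    intro b a ha j
    exact key j a b ha

include hreg hσs hD in
/-- If the difference quotients do not all vanish at a prime, then the traces do not all vanish
at this prime. -/
theorem exists_trace {p : ℕ} (hp : p.Prime) (hpR : (p : R) = 0) (hDp : ∀ a, D^[p] a = 0)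
    (Q : Ideal R) (hQ : Q.IsPrime) (c : R) (hc : D c ∉ Q) : ∃ f, D^[p - 1] f ∉ Q := by
  classical
  have hDp' : ∀ n a, p ≤ n → D^[n] a = 0 := by
    intro n a hn
    obtain ⟨e, rfl⟩ := Nat.exists_eq_add_of_le hn
    rw [Function.iterate_add_apply, hDp]
  let j := Nat.findGreatest (fun j => D^[j] c ∉ Q) p
  have hj1 : 1 ≤ j := Nat.le_findGreatest hp.one_lt.le hc
  have hj2 : D^[j] c ∉ Q := Nat.findGreatest_spec (P := fun j => D^[j] c ∉ Q) hp.one_lt.le hc
  have hj3 : ∀ i, j < i → D^[i] c ∈ Q := by
    intro i hi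
    by_cases hip : i ≤ p
    · by_contra hcon
      exact absurd (Nat.le_findGreatest (P := fun j => D^[j] c ∉ Q) hip hcon) (by omega)
    · rw [hDp' i c (by omega)]
      exact Q.zero_mem
  obtain ⟨e, he⟩ := Nat.exists_eq_add_of_le' hj1
  let q := D^[e] c
  let y := D^[j] c
  have hq : D q = y := by
    change D (D^[e] c) = D^[j] c
    rw [he, Function.iterate_succ_apply']
  let I := stI σ s hreg D hD Q
  have hI : ∀ f ∈ I, D f ∈ I := by
    intro f hf i
    rw [← Function.iterate_succ_apply]
    exact hf (i + 1)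
  have hy : D y ∈ I := by
    intro i
    change D^[i] (D (D^[j] c)) ∈ Q
    rw [← Function.iterate_succ_apply' D, ← Function.iterate_add_apply]
    exact hj3 _ (by omega)
  have key := H920R2.D_iter_pow s D (D_add σ s hreg D hD) (D_mul σ s hreg D hD) I hI q y hq hy
    (D_s σ s hreg hσs D hD) (D_one σ s hreg D hD) (p - 1)
  refine ⟨q ^ (p - 1), fun h => ?_⟩
  have h1 : ((p - 1).factorial : R) * y ^ (p - 1) ∈ Q := by
    have h2 : D^[p - 1] (q ^ (p - 1)) - ((p - 1).factorial : R) * y ^ (p - 1) ∈ Q := key 0
    have h3 := Q.sub_mem h h2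
    rwa [sub_sub_cancel] at h3
  have hcop : IsCoprime (((p - 1).factorial : ℕ) : ℤ) (p : ℤ) := by
    rw [Nat.isCoprime_iff_coprime]
    exact (Nat.coprime_comm.1 ((Nat.Prime.coprime_iff_not_dvd hp).2
      (fun h => absurd ((Nat.Prime.dvd_factorial hp).1 h) (by have := hp.pos; omega))))
  obtain ⟨a, b, hab⟩ := hcop
  have h2 : (a : R) * ((p - 1).factorial : R) = 1 := by
    have h3 := congrArg (fun z : ℤ => (z : R)) hab
    push_cast at h3
    rw [hpR, mul_zero, add_zero] at h3
    exact h3
  have h3 : y ^ (p - 1) ∈ Q := by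
    have h4 := Q.mul_mem_left (a : R) h1
    rwa [← mul_assoc, h2, one_mul] at h4
  exact hj2 (hQ.mem_of_pow_mem _ h3)

end tf

section smfix

variable {k D : Type u} [Field k] [CommRing D] [IsDomain D] [Algebra k D]

/-- Smoothness of the ring of invariants, when there is a function `b` with `γ b - b = s`. -/
theorem smooth_fix (γ : D →ₐ[k] D) {p : ℕ} (hp : p.Prime) (hpk : (p : k) = 0)
    (R : Subalgebra k D) (hst : ∀ x ∈ R, γ x ∈ R) (hγ : ∀ x ∈ R, γ^[p] x = x) (s : D)
    (hs0 : s ≠ 0) (hsγ : γ s = s) (hD : ∀ c ∈ R, ∃ c' ∈ R, γ c - c = s * c') (b : D)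
    (hb : b ∈ R) (hbs : γ b - b = s) (hR : Algebra.Smooth k R) :
    Algebra.Smooth k ↥(R ⊓ fx γ) := by
  have hit : ∀ (n : ℕ), ∀ x ∈ R, γ^[n] x ∈ R := by
    intro n
    induction n with
    | zero => exact fun x hx => hx
    | succ n ih =>
      intro x hx
      rw [Function.iterate_succ_apply']
      exact hst _ (ih x hx)
  have hp1 : p - 1 + 1 = p := Nat.sub_add_cancel hp.one_lt.le
  let f : R →ₐ[k] R := (γ.comp R.val).codRestrict R fun x => hst x.1 x.2
  have hf : ∀ (n : ℕ) (x : R), ((f^[n] x : R) : D) = γ^[n] (x : D) := by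
    intro n
    induction n with
    | zero => exact fun x => rfl
    | succ n ih =>
      intro x
      rw [Function.iterate_succ_apply', Function.iterate_succ_apply', ← ih]
      rfl
  have hfp : ∀ x : R, f^[p] x = x := fun x => Subtype.ext (by rw [hf]; exact hγ x.1 x.2)
  have hbij : Function.Bijective f := by
    constructor
    · intro x y hxy
      rw [← hfp x, ← hfp y, ← hp1, Function.iterate_succ_apply, Function.iterate_succ_apply, hxy]
    · intro x
      refine ⟨f^[p - 1] x, ?_⟩
      rw [← Function.iterate_succ_apply' f, Nat.succ_eq_add_one, hp1, hfp]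
  let e : R ≃ₐ[k] R := AlgEquiv.ofBijective f hbij
  have he : ∀ x : R, e x = f x := fun x => rfl
  let F := FractionRing R
  let ι : R →ₐ[k] F := IsScalarTower.toAlgHom k R F
  have hι : Function.Injective ι := IsFractionRing.injective R F
  let τF : F ≃ₐ[k] F := IsFractionRing.fieldEquivOfAlgEquiv k F F e
  have hτF : ∀ x, τF (ι x) = ι (f x) := fun x =>
    IsFractionRing.fieldEquivOfAlgEquiv_algebraMap k F F e x
  have hτFn : ∀ (m : ℕ) x, τF^[m] (ι x) = ι (f^[m] x) := by
    intro m
    induction m with
    | zero => intro x; rfl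
    | succ m ih => intro x; rw [Function.iterate_succ_apply, hτF, ih, Function.iterate_succ_apply]
  have hτFid : ∀ x, τF^[p] x = x := by
    intro x
    obtain ⟨a, c, -, rfl⟩ := IsFractionRing.div_surjective (A := R) x
    have h3 : ∀ (m : ℕ) (y z : F), τF^[m] (y / z) = τF^[m] y / τF^[m] z := by
      intro m
      induction m with
      | zero => intro y z; rfl
      | succ m ih => intro y z; rw [Function.iterate_succ_apply, map_div₀, ih,
          Function.iterate_succ_apply, Function.iterate_succ_apply]
    have h4 : ∀ y : R, τF^[p] (algebraMap R F y) = algebraMap R F y := by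
      intro y
      have h5 := hτFn p y
      rw [hfp] at h5
      exact h5
    rw [h3, h4, h4]
  let T : Subalgebra k F := ι.range
  have hTsm : Algebra.Smooth k T := Algebra.Smooth.of_equiv (AlgEquiv.ofInjective ι hι)
  have hsR : s ∈ R := by rw [← hbs]; exact R.sub_mem (hst b hb) hb
  let s' : R := ⟨s, hsR⟩
  let b' : R := ⟨b, hb⟩
  have hs'0 : s' ≠ 0 := fun h => hs0 (congrArg Subtype.val h)
  have hιs : ι s' ≠ 0 := fun h => hs'0 (hι (by rw [h, map_zero]))
  have hfb : ∀ j, f^[j] b' = b' + j * s' := by
    intro j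
    induction j with
    | zero => simp
    | succ j ih =>
      rw [Function.iterate_succ_apply', ih, map_add, map_mul, map_natCast]
      have h1 : f b' = b' + s' := Subtype.ext (by
        change γ b = b + s
        linear_combination hbs)
      have h2 : f s' = s' := Subtype.ext hsγ
      rw [h1, h2]
      push_cast
      ring
  have hjk : ∀ j, 0 < j → j < p → (j : k) ≠ 0 := by
    intro j hj hjp h
    have hchar : CharP k p := (CharP.charP_iff_prime_eq_zero hp).2 hpk
    rw [CharP.cast_eq_zero_iff k p] at h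
    exact absurd (Nat.le_of_dvd hj h) (by omega)
  have hjF : ∀ j, 0 < j → j < p → (j : F) ≠ 0 := by
    intro j hj hjp h
    apply hjk j hj hjp
    apply (algebraMap k F).injective
    rw [map_natCast, map_zero]
    exact h
  have key : Algebra.Smooth k ↥(T ⊓ H920R2.fixedAlg τF) := by
    refine H920R2.smooth_fixed τF p hp.pos hτFid T ?_ (ι b') ⟨b', rfl⟩ ?_ ?_ hTsm
    · rintro _ ⟨x, rfl⟩
      exact ⟨f x, (hτF x).symm⟩
    · rintro _ ⟨c, rfl⟩
      obtain ⟨c', hc', h3⟩ := hD c.1 c.2
      refine ⟨⟨c', hc'⟩, ?_⟩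
      change ι ⟨c', hc'⟩ = (τF (ι c) - ι c) / (τF (ι b') - ι b')
      have h4 : τF (ι b') - ι b' = ι s' := by
        rw [hτF, ← map_sub]
        congr 1
        exact Subtype.ext hbs
      rw [h4, eq_div_iff hιs, hτF, ← map_sub, ← map_mul]
      congr 1
      apply Subtype.ext
      change c' * s = γ c.1 - c.1
      rw [h3, mul_comm]
    · intro j hj hjp
      have h4 : τF^[j] (ι b') - ι b' = j * ι s' := by
        rw [hτFn, hfb, map_add, map_mul, map_natCast]
        ring
      have h5 : τF (ι b') - ι b' = ι s' := by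
        rw [hτF, ← map_sub]
        congr 1
        exact Subtype.ext hbs
      constructor
      · intro h
        rw [h, sub_self] at h4
        exact mul_ne_zero (hjF j hj hjp) hιs h4.symm
      · refine ⟨algebraMap k R (j : k)⁻¹, ?_⟩
        change ι (algebraMap k R (j : k)⁻¹) = _
        rw [h4, h5, AlgHom.commutes, map_inv₀, map_natCast]
        have := hjF j hj hjp
        rw [eq_div_iff (mul_ne_zero this hιs), ← mul_assoc, inv_mul_cancel₀ this, one_mul]
  have hmap : ((R ⊓ fx γ).comap R.val).map ι = T ⊓ H920R2.fixedAlg τF := by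
    apply le_antisymm
    · rintro _ ⟨x, hx, rfl⟩
      refine ⟨⟨x, rfl⟩, ?_⟩
      change _ ∈ H920R2.fixedAlg τF
      rw [H920R2.mem_fixedAlg]
      change τF (ι x) = ι x
      rw [hτF]
      congr 1
      exact Subtype.ext hx.2
    · rintro _ ⟨⟨x, rfl⟩, hx'⟩
      refine ⟨x, ⟨x.2, ?_⟩, rfl⟩
      have h1 := H920R2.mem_fixedAlg.1 hx'
      change τF (ι x) = ι x at h1
      rw [hτF] at h1
      exact congrArg Subtype.val (hι h1)
  have e1 := (((R ⊓ fx γ).comap R.val).equivMapOfInjective ι hι).symm
  rw [hmap] at e1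
  have h6 : Algebra.Smooth k ((R ⊓ fx γ).comap R.val) := Algebra.Smooth.of_equiv e1
  have h7 : ((R ⊓ fx γ).comap R.val).map R.val = R ⊓ fx γ := by
    apply le_antisymm
    · rintro _ ⟨x, hx, rfl⟩
      exact hx
    · rintro x hx
      exact ⟨⟨x, hx.1⟩, hx, rfl⟩
  have e2 := ((R ⊓ fx γ).comap R.val).equivMapOfInjective R.val Subtype.val_injective
  rw [h7] at e2
  exact Algebra.Smooth.of_equiv e2

end smfix

end Pool.Agent.W559.Mg
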