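import Pool.Agent.W559.Mg.T1

set_option autoImplicit false
set_option linter.unusedSectionVars false

universe u v w

namespace Pool.Agent.W559.Mg

section gm

variable {k K : Type u} [Field k] [Field K] [Algebra k K] {G : Type} [AddCommGroup G]
  (γ : K →ₐ[k] K)

/-- The action on the coefficients. -/
noncomputable def gm {k K : Type u} [Field k] [Field K] [Algebra k K] (G : Type) [AddCommGroup G]
    (γ : K →ₐ[k] K) : ML K G →ₐ[k] ML K G := AddMonoidAlgebra.mapAlgHom G γ

lemma gm_mo (d : G) (a : K) : gm G γ (mo d a) = mo d (γ a) :=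
  AddMonoidAlgebra.mapAlgHom_single γ d a

lemma gm_coeff (f : ML K G) (d : G) : (gm G γ f).coeff d = γ (f.coeff d) :=
  AddMonoidAlgebra.coeff_mapAlgHom γ f d

lemma dl_mo (d : G) (a : K) : dl (gm G γ) (mo d a) = mo d (dl γ a) := by
  unfold dl
  rw [gm_mo, mo_sub]

lemma dl_coeff (f : ML K G) (d : G) : (dl (gm G γ) f).coeff d = dl γ (f.coeff d) := by
  unfold dl
  rw [coeff_sub', gm_coeff]

lemma gr_fx : Gr (fx (gm G γ)) := by
  intro f hf d
  rw [mem_fx] at hf ⊢
  rw [gm_mo, ← gm_coeff, hf]

lemma gm_iter_mo (n : ℕ) (d : G) (a : K) : (gm G γ)^[n] (mo d a) = mo d (γ^[n] a) := by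
  induction n with
  | zero => rfl
  | succ n ih => rw [Function.iterate_succ_apply', ih, gm_mo, Function.iterate_succ_apply']

/-- The difference operator of degree `ν`. -/
noncomputable def Dn (ν : G) (γ : K →ₐ[k] K) (f : ML K G) : ML K G := mo ν 1 * dl (gm G γ) f

variable (ν : G)

lemma Dn_mo (d : G) (a : K) : Dn ν γ (mo d a) = mo (ν + d) (dl γ a) := by
  unfold Dn
  rw [dl_mo, mo_mul, one_mul]

lemma Dn_iter_mo (n : ℕ) (d : G) (a : K) :
    (Dn ν γ)^[n] (mo d a) = mo (n • ν + d) ((dl γ)^[n] a) := by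
  induction n with
  | zero => rw [zero_smul, zero_add]; rfl
  | succ n ih =>
    rw [Function.iterate_succ_apply', ih, Dn_mo, Function.iterate_succ_apply']
    congr 1
    rw [succ_nsmul]; abel

lemma Dn_coeff (f : ML K G) (d : G) : (Dn ν γ f).coeff (ν + d) = dl γ (f.coeff d) := by
  unfold Dn
  rw [coeff_mo_mul, one_mul, add_sub_cancel_left, dl_coeff]

lemma Dn_iter_coeff (n : ℕ) (f : ML K G) (d : G) :
    ((Dn ν γ)^[n] f).coeff (n • ν + d) = (dl γ)^[n] (f.coeff d) := by
  induction n with
  | zero => rw [zero_smul, zero_add]; rfl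
  | succ n ih =>
    have e : (n + 1) • ν + d = ν + (n • ν + d) := by rw [succ_nsmul]; abel
    rw [Function.iterate_succ_apply', Function.iterate_succ_apply', e, Dn_coeff, ih]

lemma gm_eq_Dn (f : ML K G) : gm G γ f = f + mo (-ν) 1 * Dn ν γ f := by
  unfold Dn
  rw [← mul_assoc, mo_mul, neg_add_cancel, one_mul, mo_one, one_mul, ← eq_add_dl]

lemma gm_iter_coeff (n : ℕ) (f : ML K G) (d : G) :
    ((gm G γ)^[n] f).coeff d = γ^[n] (f.coeff d) := by
  induction n with
  | zero => rfl
  | succ n ih => rw [Function.iterate_succ_apply', gm_coeff, ih, Function.iterate_succ_apply']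

end gm

section esym

variable {R : Type u} [CommRing R]

/-- Elementary symmetric functions of the first `N` elements of a sequence. -/
def esym (N : ℕ) (y : ℕ → R) (l : ℕ) : R :=
  ∑ A ∈ (Finset.range N).powersetCard l, ∏ j ∈ A, y j

lemma esym_map {R' : Type v} [CommRing R'] (φ : R →+* R') (N : ℕ) (y : ℕ → R) (l : ℕ) :
    φ (∑ A ∈ (Finset.range N).powersetCard l, ∏ j ∈ A, y j) =
      ∑ A ∈ (Finset.range N).powersetCard l, ∏ j ∈ A, φ (y j) := by
  rw [map_sum]
  exact Finset.sum_congr rfl fun A _ => map_prod _ _ _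

lemma esym_shift (N : ℕ) (y : ℕ → R) (hy : y N = y 0) (l : ℕ) :
    esym N (fun j => y (j + 1)) l = esym N y l := by
  unfold esym
  rw [← Finset.esymm_map_val, ← Finset.esymm_map_val]
  congr 1
  have h1 : y 0 ::ₘ Multiset.map (fun j => y (j + 1)) (Finset.range N).val =
      Multiset.map y (Finset.range (N + 1)).val := by
    simp only [Finset.range_val]
    change y 0 ::ₘ Multiset.map (fun j => y (j + 1)) (List.range N) = Multiset.map y (List.range (N + 1))
    rw [List.range_succ_eq_map]
    simp only [Multiset.map_coe, List.map_cons, List.map_map, Multiset.cons_coe]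
    rfl
  have h2 : y 0 ::ₘ Multiset.map y (Finset.range N).val =
      Multiset.map y (Finset.range (N + 1)).val := by
    rw [Finset.range_val, Finset.range_val, Multiset.range_succ, Multiset.map_cons, hy]
  exact (Multiset.cons_inj_right (y 0)).1 (h1.trans h2.symm)

lemma esym_fix (φ : R →+* R) (N : ℕ) (y : ℕ → R) (h : ∀ j, φ (y j) = y (j + 1))
    (hy : y N = y 0) (l : ℕ) : φ (esym N y l) = esym N y l := by
  conv_rhs => rw [← esym_shift N y hy]
  unfold esym
  rw [esym_map]
  refine Finset.sum_congr rfl fun A _ => Finset.prod_congr rfl fun j _ => h j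

/-- If the elementary symmetric functions are in an ideal, so is a power of the first element. -/
lemma pow_mem_of_esym (N : ℕ) (hN : 0 < N) (y : ℕ → R) (Q : Ideal R)
    (h : ∀ l, 1 ≤ l → l ≤ N → esym N y l ∈ Q) : y 0 ^ N ∈ Q := by
  classical
  have h1 : ∏ j ∈ Finset.range N, (-(y j) + y 0) = 0 := by
    rw [Finset.prod_eq_zero (Finset.mem_range.2 hN)]
    rw [neg_add_cancel]
  rw [Finset.prod_add, Finset.sum_powerset, Finset.sum_range_succ'] at h1
  have h2 : ∑ A ∈ (Finset.range N).powersetCard 0, (∏ j ∈ A, -(y j)) *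
      ∏ j ∈ Finset.range N \ A, y 0 = y 0 ^ N := by
    rw [Finset.powersetCard_zero, Finset.sum_singleton, Finset.prod_empty, one_mul,
      Finset.sdiff_empty, Finset.prod_const, Finset.card_range]
  rw [h2] at h1
  have h3 : y 0 ^ N = -∑ l ∈ Finset.range (Finset.range N).card,
      ∑ A ∈ (Finset.range N).powersetCard (l + 1), (∏ j ∈ A, -(y j)) *
      ∏ j ∈ Finset.range N \ A, y 0 := (neg_eq_of_add_eq_zero_right h1).symm
  rw [h3]
  refine Q.neg_mem (Q.sum_mem fun l hl => ?_)
  rw [Finset.card_range, Finset.mem_range] at hl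
  have h4 : ∑ A ∈ (Finset.range N).powersetCard (l + 1), (∏ j ∈ A, -(y j)) *
      ∏ j ∈ Finset.range N \ A, y 0 = ((-1) ^ (l + 1) * y 0 ^ (N - (l + 1))) *
        esym N y (l + 1) := by
    unfold esym
    rw [Finset.mul_sum]
    refine Finset.sum_congr rfl fun A hA => ?_
    rw [Finset.mem_powersetCard] at hA
    rw [Finset.prod_neg, Finset.prod_const, Finset.card_sdiff_of_subset hA.1, hA.2,
      Finset.card_range]
    ring
  rw [h4]
  exact Q.mul_mem_left _ (h _ (by omega) (by omega))

end esym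

section esymo

variable {k K : Type u} [Field k] [Field K] [Algebra k K] {G : Type} [AddCommGroup G]

lemma mo_prod {ι : Type*} (s : Finset ι) (d : ι → G) (a : ι → K) :
    ∏ i ∈ s, mo (d i) (a i) = mo (∑ i ∈ s, d i) (∏ i ∈ s, a i) := by
  classical
  induction s using Finset.induction_on with
  | empty => rfl
  | insert i s hi ih => rw [Finset.prod_insert hi, Finset.sum_insert hi, Finset.prod_insert hi,
      ih, mo_mul]

lemma mo_sum {ι : Type*} (s : Finset ι) (d : G) (a : ι → K) :
    mo d (∑ i ∈ s, a i) = ∑ i ∈ s, mo d (a i) := by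
  classical
  induction s using Finset.induction_on with
  | empty => rw [Finset.sum_empty, Finset.sum_empty, mo_zero]
  | insert i s hi ih => rw [Finset.sum_insert hi, Finset.sum_insert hi, mo_add, ih]

lemma esym_mo (N : ℕ) (d : G) (c : ℕ → K) (l : ℕ) :
    esym N (fun j => mo d (c j)) l = mo (l • d) (esym N c l) := by
  unfold esym
  rw [mo_sum]
  refine Finset.sum_congr rfl fun A hA => ?_
  rw [mo_prod, Finset.sum_const, (Finset.mem_powersetCard.1 hA).2]

end esymo

end Pool.Agent.W559.Mg
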