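import Pool.Agent.W559.Mg.T2

set_option autoImplicit false
set_option linter.unusedSectionVars false

universe u v w

namespace Pool.Agent.W559.Mg

section cov

variable {k K : Type u} [Field k] [Field K] [Algebra k K] {G : Type} [AddCommGroup G]

/-- The markers: homogeneous elements of positive degree which are fixed by `γ` and which are
traces with respect to `σ`. -/
structure IsMark (S : Subalgebra k (ML K G)) (τ : G →+ ℤ) (γ σ : K →ₐ[k] K) (ν : G) (p : ℕ)
    (μ : G) (x : K) (φ : G) (f : K) : Prop where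
  ne : x ≠ 0
  fi : γ x = x
  po : 0 < τ μ
  me : mo φ f ∈ S
  eq : (Dn ν σ)^[p - 1] (mo φ f) = mo μ x

/-- Existence of markers. -/
theorem cov {p : ℕ} (hp : p.Prime) (hpk : (p : k) = 0) (S : Subalgebra k (ML K G)) (hgr : Gr S)
    (τ : G →+ ℤ) (γ σ : K →ₐ[k] K) (ν : G) (hcomm : ∀ x, γ (σ x) = σ (γ x))
    (hfix : ∀ x, γ x = x → σ x = x) (hγS : ∀ f ∈ S, gm G γ f ∈ S)
    (hDS : ∀ f ∈ S, Dn ν σ f ∈ S) (hs : mo (-ν) 1 ∈ S) (hσp : ∀ f ∈ S, (gm G σ)^[p] f = f)
    {N : ℕ} (hN : 0 < N) (hγN : ∀ f ∈ S, (gm G γ)^[N] f = f) (Y : Set (ML K G))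
    (hY : ∀ y ∈ Y, ∃ d c, y = mo d c ∧ 0 < τ d) (hYS : ∀ y ∈ Y, y ∈ S)
    (hH : ∀ Q : Ideal S, Q.IsPrime → (∀ f : S, (⟨Dn ν σ f, hDS f f.2⟩ : S) ∈ Q) →
      ∀ y, ∀ hy : y ∈ Y, (⟨y, hYS y hy⟩ : S) ∈ Q) (y : ML K G) (hy : y ∈ Y) :
    (⟨y, hYS y hy⟩ : S) ∈ (Ideal.span {z : S | ∃ μ x φ f, (z : ML K G) = mo μ x ∧
      IsMark S τ γ σ ν p μ x φ f}).radical := by
  classical
  have hp1 : p - 1 + 1 = p := Nat.sub_add_cancel hp.one_lt.le
  set I0 : Ideal S := Ideal.span {z : S | ∃ μ x φ f, (z : ML K G) = mo μ x ∧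
      IsMark S τ γ σ ν p μ x φ f} with hI0
  rw [Ideal.radical_eq_sInf, Submodule.mem_sInf]
  rintro Q ⟨hQ0, hQ⟩
  by_contra hyQ
  obtain ⟨d, c, hdc, hd⟩ := hY y hy
  -- the restricted maps
  let γS : S →ₐ[k] S := ((gm G γ).comp S.val).codRestrict S fun x => hγS x.1 x.2
  have hσS : ∀ f ∈ S, gm G σ f ∈ S := fun f hf => by
    rw [gm_eq_Dn σ ν]
    exact S.add_mem hf (S.mul_mem hs (hDS f hf))
  let σS : S →ₐ[k] S := ((gm G σ).comp S.val).codRestrict S fun x => hσS x.1 x.2
  let D : S → S := fun f => ⟨Dn ν σ f, hDS f f.2⟩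
  let s : S := ⟨mo (-ν) 1, hs⟩
  have hreg : ∀ a b : S, s * a = s * b → a = b := by
    intro a b hab
    have h1 := congrArg (fun z : S => mo ν 1 * (z : ML K G)) hab
    change mo ν 1 * (mo (-ν) 1 * (a : ML K G)) = mo ν 1 * (mo (-ν) 1 * (b : ML K G)) at h1
    rw [← mul_assoc, ← mul_assoc, mo_mul, add_neg_cancel, one_mul, mo_one, one_mul, one_mul] at h1
    exact Subtype.ext h1
  have hD : ∀ a : S, (σS : S →+* S) a = a + s * D a := fun a => Subtype.ext (gm_eq_Dn σ ν a)
  have hσs : (σS : S →+* S) s = s := Subtype.ext (by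
    change gm G σ (mo (-ν) 1) = mo (-ν) 1
    rw [gm_mo, map_one])
  have hpS : (p : S) = 0 := by
    have h1 : algebraMap k S (p : k) = (p : S) := map_natCast _ p
    rw [← h1, hpk, map_zero]
  have hpM : (p : ML K G) = 0 := by
    have h1 : algebraMap k (ML K G) (p : k) = (p : ML K G) := map_natCast _ p
    rw [← h1, hpk, map_zero]
  have hDit : ∀ n (a : S), ((D^[n] a : S) : ML K G) = (Dn ν σ)^[n] (a : ML K G) := by
    intro n a
    induction n with
    | zero => rfl
    | succ n ih => rw [Function.iterate_succ_apply', Function.iterate_succ_apply', ← ih]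
  have hDp : ∀ a, D^[p] a = 0 := by
    intro a
    apply Subtype.ext
    rw [hDit]
    apply ml_ext
    intro m
    have h1 := Dn_iter_coeff σ ν p (a : ML K G) (m - p • ν)
    rw [add_sub_cancel] at h1
    rw [h1]
    have h2 : (p : K) = 0 := by
      rw [← map_natCast (algebraMap k K), hpk, map_zero]
    rw [dl_iter_p σ hp h2, ← gm_iter_coeff, hσp _ a.2, sub_self]
    rfl
  have hD0 : D 0 = 0 := D_iter_zero' (σS : S →+* S) s hreg D hD 1
  have hDmul : ∀ a b : S, σS a = a → D (a * b) = a * D b := by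
    intro a b ha
    apply hreg
    have h1 := hD (a * b)
    have h2 := hD b
    change σS (a * b) = _ at h1
    change σS b = _ at h2
    rw [map_mul, ha, h2] at h1
    linear_combination -h1
  have hDmul' : ∀ n (a b : S), σS a = a → D^[n] (a * b) = a * D^[n] b := by
    intro n
    induction n with
    | zero => exact fun a b _ => rfl
    | succ n ih =>
      intro a b ha
      rw [Function.iterate_succ_apply, Function.iterate_succ_apply, hDmul a b ha, ih _ _ ha]
  -- elements of the form `D^[p-1] f` are fixed by `σ`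
  have hfixtr : ∀ a b : S, a = D^[p - 1] b → σS a = a := by
    intro a b hab
    have h1 := hD a
    rw [hab, ← Function.iterate_succ_apply' D, Nat.succ_eq_add_one, hp1, hDp, mul_zero,
      add_zero] at h1
    rw [hab]
    exact h1
  have hγD : ∀ a : S, γS (D a) = D (γS a) := by
    intro a
    apply Subtype.ext
    change gm G γ (Dn ν σ a) = Dn ν σ (gm G γ a)
    unfold Dn dl
    rw [map_mul, map_sub, gm_mo, map_one]
    congr 2
    apply ml_ext
    intro m
    rw [gm_coeff, gm_coeff, gm_coeff, gm_coeff, hcomm]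
  have hγDit : ∀ n (a : S), γS (D^[n] a) = D^[n] (γS a) := by
    intro n
    induction n with
    | zero => exact fun a => rfl
    | succ n ih =>
      intro a
      rw [Function.iterate_succ_apply, Function.iterate_succ_apply, ih, hγD]
  have hγSN : ∀ a : S, γS^[N] a = a := by
    intro a
    apply Subtype.ext
    have h1 : ∀ n (a : S), ((γS^[n] a : S) : ML K G) = (gm G γ)^[n] (a : ML K G) := by
      intro n
      induction n with
      | zero => exact fun a => rfl
      | succ n ih =>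
        intro a
        rw [Function.iterate_succ_apply', Function.iterate_succ_apply', ← ih]
        rfl
    rw [h1]
    exact hγN _ a.2
  have hγσ : ∀ a : S, γS a = a → σS a = a := by
    intro a ha
    apply Subtype.ext
    change gm G σ (a : ML K G) = a
    have h1 : gm G γ (a : ML K G) = a := congrArg Subtype.val ha
    apply ml_ext
    intro m
    rw [gm_coeff]
    apply hfix
    rw [← gm_coeff, h1]
  -- homogeneous elements
  let Hm : S → G → Prop := fun a m => ∃ b : K, (a : ML K G) = mo m b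
  have hγHm : ∀ n (a : S) m, Hm a m → Hm (γS^[n] a) m := by
    intro n
    induction n with
    | zero => exact fun a m h => h
    | succ n ih =>
      intro a m h
      rw [Function.iterate_succ_apply]
      apply ih
      obtain ⟨b, hb⟩ := h
      refine ⟨γ b, ?_⟩
      change gm G γ (a : ML K G) = _
      rw [hb, gm_mo]
  have hesym : ∀ (a : S) m, Hm a m → ∀ l, Hm (esym N (fun j => γS^[j] a) l) (l • m) := by
    intro a m h l
    choose b hb using fun j => hγHm j a m h
    refine ⟨esym N b l, ?_⟩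
    rw [← esym_mo]
    unfold esym
    rw [AddSubmonoidClass.coe_finsetSum]
    refine Finset.sum_congr rfl fun A _ => ?_
    rw [SubmonoidClass.coe_finsetProd]
    exact Finset.prod_congr rfl fun j _ => hb j
  have hesymfix : ∀ (a : S) l, γS (esym N (fun j => γS^[j] a) l) =
      esym N (fun j => γS^[j] a) l := by
    intro a l
    refine esym_fix (γS : S →+* S) N _ ?_ ?_ l
    · intro j
      exact (Function.iterate_succ_apply' γS j a).symm
    · exact hγSN a
  -- the first step: an invariant homogeneous element of positive degree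
  let y' : S := ⟨y, hYS y hy⟩
  obtain ⟨l, hl1, hlN, hlQ⟩ : ∃ l, 1 ≤ l ∧ l ≤ N ∧ esym N (fun j => γS^[j] y') l ∉ Q := by
    by_contra hcon
    push Not at hcon
    exact hyQ (hQ.mem_of_pow_mem _ (pow_mem_of_esym N hN (fun j => γS^[j] y') Q hcon))
  set e : S := esym N (fun j => γS^[j] y') l with he
  have heHm : Hm e (l • d) := hesym y' d ⟨c, hdc⟩ l
  have hefix : γS e = e := hesymfix y' l
  have hld : 0 < τ (l • d) := by
    rw [map_nsmul, nsmul_eq_mul]
    have : (0 : ℤ) < l := by exact_mod_cast hl1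
    positivity
  -- the second step: a trace
  obtain ⟨c0, hc0⟩ : ∃ c0 : S, D c0 ∉ Q := by
    by_contra hcon
    push Not at hcon
    exact hyQ (hH Q hQ hcon y hy)
  obtain ⟨f, hf⟩ := exists_trace (σS : S →+* S) s hreg hσs D hD hp hpS hDp Q hQ c0 hc0
  have hDadd : ∀ n (a b : S), D^[n] (a + b) = D^[n] a + D^[n] b :=
    D_iter_add' (σS : S →+* S) s hreg D hD
  obtain ⟨φ0, hφ0⟩ : ∃ φ0, D^[p - 1] (cp hgr φ0 f) ∉ Q := by
    by_contra hcon
    push Not at hcon
    apply hf
    have h1 : ∀ t : Finset G, D^[p - 1] (∑ m ∈ t, cp hgr m f) ∈ Q := by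
      intro t
      induction t using Finset.induction_on with
      | empty =>
        rw [Finset.sum_empty, D_iter_zero' (σS : S →+* S) s hreg D hD]
        exact Q.zero_mem
      | insert m t hm ih =>
        rw [Finset.sum_insert hm, hDadd]
        exact Q.add_mem (hcon m) ih
    rw [cp_sum hgr f]
    exact h1 _
  let f0 : S := cp hgr φ0 f
  let v : S := D^[p - 1] f0
  have hDHm : ∀ n (a : S) m, Hm a m → Hm (D^[n] a) (n • ν + m) := by
    intro n a m h
    obtain ⟨b, hb⟩ := h
    refine ⟨(dl σ)^[n] b, ?_⟩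
    rw [hDit, hb, Dn_iter_mo]
  have hf0Hm : Hm f0 φ0 := ⟨_, rfl⟩
  have hvHm : Hm v ((p - 1) • ν + φ0) := hDHm _ _ _ hf0Hm
  -- make the degree positive
  obtain ⟨M, hM⟩ : ∃ M : ℕ, 0 < τ (M • (l • d) + ((p - 1) • ν + φ0)) := by
    refine ⟨(1 - τ ((p - 1) • ν + φ0)).toNat, ?_⟩
    rw [map_add, map_nsmul, nsmul_eq_mul]
    have h1 := Int.self_le_toNat (1 - τ ((p - 1) • ν + φ0))
    have h2 : (0 : ℤ) ≤ ((1 - τ ((p - 1) • ν + φ0)).toNat : ℤ) := Int.natCast_nonneg _
    nlinarith
  let w : S := e ^ M * v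
  have hHmmul : ∀ (a b : S) m n, Hm a m → Hm b n → Hm (a * b) (m + n) := by
    rintro a b m n ⟨x, hx⟩ ⟨z, hz⟩
    refine ⟨x * z, ?_⟩
    rw [← mo_mul, ← hx, ← hz]
    rfl
  have hHmpow : ∀ (a : S) m (n : ℕ), Hm a m → Hm (a ^ n) (n • m) := by
    rintro a m n ⟨x, hx⟩
    refine ⟨x ^ n, ?_⟩
    rw [← mo_pow, ← hx]
    rfl
  have hwHm : Hm w (M • (l • d) + ((p - 1) • ν + φ0)) :=
    hHmmul _ _ _ _ (hHmpow _ _ _ heHm) hvHm
  have hwQ : w ∉ Q := by
    intro h
    rcases hQ.mem_or_mem h with h1 | h1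
    · exact hlQ (hQ.mem_of_pow_mem _ h1)
    · exact hφ0 h1
  have heσ : σS (e ^ M) = e ^ M := by
    rw [map_pow, hγσ e hefix]
  have hwtr : w = D^[p - 1] (e ^ M * f0) := (hDmul' _ _ _ heσ).symm
  -- the third step
  obtain ⟨l', hl'1, hl'N, hl'Q⟩ : ∃ l', 1 ≤ l' ∧ l' ≤ N ∧
      esym N (fun j => γS^[j] w) l' ∉ Q := by
    by_contra hcon
    push Not at hcon
    exact hwQ (hQ.mem_of_pow_mem _ (pow_mem_of_esym N hN (fun j => γS^[j] w) Q hcon))
  set ε : S := esym N (fun j => γS^[j] w) l' with hε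
  have hεHm : Hm ε (l' • (M • (l • d) + ((p - 1) • ν + φ0))) := hesym w _ hwHm l'
  have hεfix : γS ε = ε := hesymfix w l'
  have hwj : ∀ j, γS^[j] w = D^[p - 1] (γS^[j] (e ^ M * f0)) := by
    intro j
    induction j with
    | zero => exact hwtr
    | succ j ih => rw [Function.iterate_succ_apply', ih, hγDit, Function.iterate_succ_apply']
  have hεtr : ∃ b : S, ε = D^[p - 1] b := by
    have h1 : ∀ A ∈ (Finset.range N).powersetCard l', ∃ b : S,
        ∏ j ∈ A, γS^[j] w = D^[p - 1] b := by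
      intro A hA
      rw [Finset.mem_powersetCard] at hA
      have hAne : A.Nonempty := by
        rw [← Finset.card_pos, hA.2]
        exact hl'1
      obtain ⟨j0, hj0⟩ := hAne
      refine ⟨(∏ j ∈ A.erase j0, γS^[j] w) * γS^[j0] (e ^ M * f0), ?_⟩
      rw [hDmul', ← hwj, Finset.prod_erase_mul A _ hj0]
      rw [map_prod]
      exact Finset.prod_congr rfl fun j _ => hfixtr _ _ (hwj j)
    choose! b hb using h1
    refine ⟨∑ A ∈ (Finset.range N).powersetCard l', b A, ?_⟩
    have h2 : ∀ t : Finset (Finset ℕ), D^[p - 1] (∑ A ∈ t, b A) = ∑ A ∈ t, D^[p - 1] (b A) := by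
      intro t
      induction t using Finset.induction_on with
      | empty => rw [Finset.sum_empty, Finset.sum_empty, D_iter_zero' (σS : S →+* S) s hreg D hD]
      | insert m t hm ih => rw [Finset.sum_insert hm, Finset.sum_insert hm, hDadd, ih]
    rw [h2, hε]
    unfold esym
    exact Finset.sum_congr rfl fun A hA => hb A hA
  obtain ⟨b, hb⟩ := hεtr
  obtain ⟨x, hx⟩ := hεHm
  set μ : G := l' • (M • (l • d) + ((p - 1) • ν + φ0)) with hμ
  apply hl'Q
  apply hQ0
  apply Ideal.subset_span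
  refine ⟨μ, x, μ - (p - 1) • ν, ((b : ML K G)).coeff (μ - (p - 1) • ν), hx, ?_⟩
  refine { ne := ?_, fi := ?_, po := ?_, me := hgr _ b.2 _, eq := ?_ }
  · rintro rfl
    apply hl'Q
    have h1 : ε = 0 := Subtype.ext (by rw [hx, mo_zero]; rfl)
    rw [h1]
    exact Q.zero_mem
  · have h1 : gm G γ (ε : ML K G) = ε := congrArg Subtype.val hεfix
    rw [hx, gm_mo] at h1
    exact mo_inj h1
  · rw [hμ, map_nsmul, nsmul_eq_mul]
    have : (0 : ℤ) < l' := by exact_mod_cast hl'1
    positivity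
  · rw [Dn_iter_mo, add_sub_cancel]
    congr 1
    rw [← Dn_iter_coeff σ ν, add_sub_cancel, ← hDit, ← hb, hx, coeff_mo_same]

end cov

end Pool.Agent.W559.Mg
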