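import Pool.Agent.W559.Mg.T3

set_option autoImplicit false
set_option linter.unusedSectionVars false

universe u v w

namespace Pool.Agent.W559.Mg

section fincov

variable {R : Type v} [CommRing R]

/-- Finitely many elements which are in the radical of an ideal are in the radical of an ideal
generated by finitely many of the generators. -/
lemma fin_rad (X : Set R) {I : Type u} [Finite I] (y : I → R)
    (h : ∀ i, y i ∈ (Ideal.span X).radical) :
    ∃ (J : Type u) (_ : Finite J) (v : J → R), (∀ j, v j ∈ X) ∧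
      ∀ i, y i ∈ (Ideal.span (Set.range v)).radical := by
  classical
  choose n hn using h
  choose m f v hv using fun i => Submodule.mem_span_set'.1 (hn i)
  refine ⟨Σ i, ULift.{u} (Fin (m i)), inferInstance, fun p => (v p.1 p.2.down : R),
    fun p => (v p.1 p.2.down).2, fun i => ⟨n i, ?_⟩⟩
  rw [← hv i]
  refine Ideal.sum_mem _ fun j _ => ?_
  rw [smul_eq_mul]
  exact Ideal.mul_mem_left _ _ (Ideal.subset_span ⟨⟨i, ULift.up j⟩, rfl⟩)

/-- The radical of the ideal generated by powers. -/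
lemma rad_pow {J : Type w} (v : J → R) (q : J → ℕ) :
    (Ideal.span (Set.range v)).radical ≤ (Ideal.span (Set.range fun j => v j ^ q j)).radical := by
  have h1 : Ideal.span (Set.range v) ≤ (Ideal.span (Set.range fun j => v j ^ q j)).radical := by
    rw [Ideal.span_le]
    rintro _ ⟨j, rfl⟩
    exact ⟨q j, Ideal.subset_span ⟨j, rfl⟩⟩
  calc (Ideal.span (Set.range v)).radical
      ≤ (Ideal.span (Set.range fun j => v j ^ q j)).radical.radical := Ideal.radical_mono h1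
    _ = _ := Ideal.radical_idem _

end fincov

section mark

variable {k K : Type u} [Field k] [Field K] [Algebra k K] {G : Type} [AddCommGroup G]

lemma Dn_fx_mul (ν : G) (σ : K →ₐ[k] K) {a : ML K G} (ha : gm G σ a = a) (b : ML K G) :
    Dn ν σ (a * b) = a * Dn ν σ b := by
  unfold Dn
  rw [dl_fx_mul (gm G σ) ha]
  ring

lemma Dn_iter_fx_mul (ν : G) (σ : K →ₐ[k] K) {a : ML K G} (ha : gm G σ a = a) (n : ℕ)
    (b : ML K G) : (Dn ν σ)^[n] (a * b) = a * (Dn ν σ)^[n] b := by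
  induction n generalizing b with
  | zero => rfl
  | succ n ih => rw [Function.iterate_succ_apply, Function.iterate_succ_apply,
      Dn_fx_mul ν σ ha, ih]

variable {S : Subalgebra k (ML K G)} {τ : G →+ ℤ} {γ σ : K →ₐ[k] K} {ν : G} {p : ℕ}

lemma IsMark.mem {μ φ : G} {x f : K} (h : IsMark S τ γ σ ν p μ x φ f)
    (hDS : ∀ f ∈ S, Dn ν σ f ∈ S) : mo μ x ∈ S := by
  rw [← h.eq]
  have h1 : ∀ n, (Dn ν σ)^[n] (mo φ f) ∈ S := by
    intro n
    induction n with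
    | zero => exact h.me
    | succ n ih => rw [Function.iterate_succ_apply']; exact hDS _ ih
  exact h1 _

lemma IsMark.gfix {μ φ : G} {x f : K} (h : IsMark S τ γ σ ν p μ x φ f) :
    gm G γ (mo μ x) = mo μ x := by rw [gm_mo, h.fi]

lemma IsMark.pow {μ φ : G} {x f : K} (h : IsMark S τ γ σ ν p μ x φ f)
    (hfix : ∀ x, γ x = x → σ x = x) (hDS : ∀ f ∈ S, Dn ν σ f ∈ S) (n : ℕ) :
    IsMark S τ γ σ ν p ((n + 1) • μ) (x ^ (n + 1)) (n • μ + φ) (x ^ n * f) where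
  ne := pow_ne_zero _ h.ne
  fi := by rw [map_pow, h.fi]
  po := by
    rw [map_nsmul, nsmul_eq_mul]
    have := h.po
    positivity
  me := by
    rw [← mo_mul, ← mo_pow]
    exact S.mul_mem (S.pow_mem (h.mem hDS) _) h.me
  eq := by
    rw [← mo_mul, ← mo_pow, Dn_iter_fx_mul, h.eq, ← mo_pow, pow_succ]
    rw [map_pow, gm_mo, hfix _ h.fi]

/-- Enough markers. -/
theorem fin_cov (hp : p.Prime) (hpk : (p : k) = 0) (hgr : Gr S)
    (hcomm : ∀ x, γ (σ x) = σ (γ x))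
    (hfix : ∀ x, γ x = x → σ x = x) (hγS : ∀ f ∈ S, gm G γ f ∈ S)
    (hDS : ∀ f ∈ S, Dn ν σ f ∈ S) (hs : mo (-ν) 1 ∈ S) (hσp : ∀ f ∈ S, (gm G σ)^[p] f = f)
    {N : ℕ} (hN : 0 < N) (hγN : ∀ f ∈ S, (gm G γ)^[N] f = f) {I : Type u} [Finite I]
    (d : I → G) (c : I → K) (hdS : ∀ i, mo (d i) (c i) ∈ S)
    (hH : ∀ Q : Ideal S, Q.IsPrime → (∀ f : S, (⟨Dn ν σ f, hDS f f.2⟩ : S) ∈ Q) →
      ∀ i, 0 < τ (d i) → (⟨mo (d i) (c i), hdS i⟩ : S) ∈ Q) :
    ∃ (J : Type u) (_ : Finite J) (μ : J → G) (x : J → K) (φ : J → G) (f : J → K)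
      (hm : ∀ j, IsMark S τ γ σ ν p (μ j) (x j) (φ j) (f j)),
      ∀ i, 0 < τ (d i) → (⟨mo (d i) (c i), hdS i⟩ : S) ∈ (Ideal.span (Set.range fun j =>
        (⟨mo (μ j) (x j), (hm j).mem hDS⟩ : S))).radical := by
  let Y : Set (ML K G) := {y | ∃ i, 0 < τ (d i) ∧ y = mo (d i) (c i)}
  have hYS : ∀ y ∈ Y, y ∈ S := by
    rintro y ⟨i, -, rfl⟩
    exact hdS i
  have h1 := cov hp hpk S hgr τ γ σ ν hcomm hfix hγS hDS hs hσp hN hγN Y
    (by
      rintro y ⟨i, hi, rfl⟩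
      exact ⟨_, _, rfl, hi⟩) hYS
    (by
      rintro Q hQ hQD y ⟨i, hi, rfl⟩
      exact hH Q hQ hQD i hi)
  obtain ⟨J, hJ, v, hv, hrad⟩ := fin_rad {z : S | ∃ μ x φ f, (z : ML K G) = mo μ x ∧
    IsMark S τ γ σ ν p μ x φ f} (fun i : {i // 0 < τ (d i)} => (⟨mo (d i) (c i), hdS i⟩ : S))
    (fun i => h1 _ ⟨i.1, i.2, rfl⟩)
  choose μ x φ f hvx hm using hv
  refine ⟨J, hJ, μ, x, φ, f, hm, fun i hi => ?_⟩
  have h2 := hrad ⟨i, hi⟩
  have h3 : v = fun j => (⟨mo (μ j) (x j), (hm j).mem hDS⟩ : S) := by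
    funext j
    exact Subtype.ext (hvx j)
  rwa [h3] at h2

/-- Conversion of the radical membership. -/
lemma rad_expand {J : Type u} [Finite J] {μ : J → G} {x : J → K}
    (hx : ∀ j, mo (μ j) (x j) ∈ S) {d : G} {c : K} (hd : mo d c ∈ S)
    (h : (⟨mo d c, hd⟩ : S) ∈ (Ideal.span (Set.range fun j =>
        (⟨mo (μ j) (x j), hx j⟩ : S))).radical) :
    ∃ (n : ℕ) (s : J → ML K G), (∀ j, s j ∈ S) ∧
      mo d c ^ n = ∑ᶠ j, s j * mo (μ j) (x j) := by
  have : Fintype J := Fintype.ofFinite J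
  obtain ⟨n, hn⟩ := h
  rw [Ideal.mem_span_range_iff_exists_fun] at hn
  obtain ⟨s, hs⟩ := hn
  refine ⟨n, fun j => (s j : ML K G), fun j => (s j).2, ?_⟩
  rw [finsum_eq_sum_of_fintype]
  have h1 := congrArg (fun z : S => (z : ML K G)) hs
  simp only [AddSubmonoidClass.coe_finsetSum, MulMemClass.coe_mul, SubmonoidClass.coe_pow] at h1
  exact h1.symm

/-- The chart at a marker has smooth invariants. -/
theorem chart_smooth [IsDomain (ML K G)] (hp : p.Prime) (hpk : (p : k) = 0) {μ φ : G} {x f : K}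
    (h : IsMark S τ γ γ ν p μ x φ f) (hDS : ∀ f ∈ S, Dn ν γ f ∈ S) (hs : mo (-ν) 1 ∈ S)
    (hγp : ∀ f ∈ S, (gm G γ)^[p] f = f) (hS : Algebra.Smooth k S) :
    Algebra.Smooth k ↥(lc S (mo μ x) (h.mem hDS) ⊓ fx (gm G γ)) := by
  have hXi := mo_inv (d := μ) h.ne
  have hgX : ∀ n, gm G γ (mo μ x ^ n) = mo μ x ^ n := fun n => by rw [map_pow, h.gfix]
  have hDl : ∀ f ∈ lc S (mo μ x) (h.mem hDS), Dn ν γ f ∈ lc S (mo μ x) (h.mem hDS) := by
    rintro f ⟨n, hn⟩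
    refine ⟨n, ?_⟩
    rw [← Dn_fx_mul ν γ (hgX n)]
    exact hDS _ hn
  have hsl : mo (-ν) 1 ∈ lc S (mo μ x) (h.mem hDS) := le_lc _ _ _ hs
  refine smooth_fix (gm G γ) hp hpk (lc S (mo μ x) (h.mem hDS)) ?_ ?_ (mo (-ν) 1)
    (mo_ne_zero one_ne_zero) (by rw [gm_mo, map_one]) ?_
    ((Dn ν γ)^[p - 2] (mo φ f) * mo (-μ) x⁻¹) ?_ ?_ (smooth_lc hS _ (isUnit_mo h.ne))
  · intro f hf
    rw [gm_eq_Dn γ ν]
    exact Subalgebra.add_mem _ hf (Subalgebra.mul_mem _ hsl (hDl f hf))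
  · rintro f ⟨n, hn⟩
    have h1 := hγp _ hn
    have h2 : ∀ m (a : ML K G), (gm G γ)^[m] (mo μ x ^ n * a) = mo μ x ^ n * (gm G γ)^[m] a := by
      intro m
      induction m with
      | zero => exact fun a => rfl
      | succ m ih =>
        intro a
        rw [Function.iterate_succ_apply, Function.iterate_succ_apply, map_mul, hgX, ih]
    rw [h2] at h1
    exact mul_left_cancel₀ (pow_ne_zero n (mo_ne_zero h.ne)) h1
  · intro c hc
    refine ⟨Dn ν γ c, hDl c hc, ?_⟩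
    have h1 := gm_eq_Dn γ ν c
    rw [h1]
    ring
  · refine Subalgebra.mul_mem _ ?_ (inv_mem_lc _ _ _ _ hXi)
    have h1 : ∀ n, (Dn ν γ)^[n] (mo φ f) ∈ lc S (mo μ x) (h.mem hDS) := by
      intro n
      induction n with
      | zero => exact le_lc _ _ _ h.me
      | succ n ih => rw [Function.iterate_succ_apply']; exact hDl _ ih
    exact h1 _
  · have h1 := gm_eq_Dn γ ν ((Dn ν γ)^[p - 2] (mo φ f) * mo (-μ) x⁻¹)
    have hXi2 : gm G γ (mo (-μ) x⁻¹) = mo (-μ) x⁻¹ := by rw [gm_mo, map_inv₀, h.fi]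
    have h2 : p - 2 + 1 = p - 1 := by have := hp.two_le; omega
    rw [h1, mul_comm ((Dn ν γ)^[p - 2] (mo φ f)), Dn_fx_mul ν γ hXi2,
      ← Function.iterate_succ_apply' (Dn ν γ), Nat.succ_eq_add_one, h2, h.eq,
      mul_comm (mo (-μ) x⁻¹) (mo μ x), hXi, mul_one]
    ring

end mark

end Pool.Agent.W559.Mg
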