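import Pool.Agent.W559.Mg.T5

set_option autoImplicit false
set_option linter.unusedSectionVars false

open MvPolynomial Cardinal

universe u v w

namespace Pool.Agent.W559.Mg

section clo

variable {k : Type u} {D : Type u} [Field k] [CommRing D] [IsDomain D] [Algebra k D]

/-- A subalgebra which is algebraically closed in the ring. -/
def Acl (Z : Subalgebra k D) : Prop :=
  ∀ (P : Polynomial D) (b : D), P ≠ 0 → (∀ i, P.coeff i ∈ Z) → P.eval b = 0 → b ∈ Z

lemma Acl.of_mul {Z : Subalgebra k D} (h : Acl Z) {a b : D} (ha : a ∈ Z) (h0 : a ≠ 0)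
    (hab : a * b ∈ Z) : b ∈ Z := by
  refine h (Polynomial.C a * Polynomial.X - Polynomial.C (a * b)) b ?_ ?_ ?_
  · intro h1
    have h2 := congrArg (fun P => P.coeff 1) h1
    simp at h2
    exact h0 h2
  · intro i
    rw [Polynomial.coeff_sub, Polynomial.coeff_C_mul, Polynomial.coeff_X, Polynomial.coeff_C]
    refine Z.sub_mem (Z.mul_mem ha ?_) ?_
    · split_ifs
      · exact Z.one_mem
      · exact Z.zero_mem
    · split_ifs
      · exact hab
      · exact Z.zero_mem
  · simp

lemma Acl.of_inv {Z : Subalgebra k D} (h : Acl Z) {a b : D} (ha : a ∈ Z) (hab : a * b = 1) :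
    b ∈ Z := h.of_mul ha (fun h0 => by rw [h0, zero_mul] at hab; exact zero_ne_one hab)
      (by rw [hab]; exact Z.one_mem)

lemma Acl.of_pow {Z : Subalgebra k D} (h : Acl Z) {a : D} {n : ℕ} (hn : 0 < n)
    (ha : a ^ n ∈ Z) : a ∈ Z := by
  refine h (Polynomial.X ^ n - Polynomial.C (a ^ n)) a ?_ ?_ ?_
  · exact Polynomial.X_pow_sub_C_ne_zero hn _
  · intro i
    rw [Polynomial.coeff_sub, Polynomial.coeff_X_pow, Polynomial.coeff_C]
    refine Z.sub_mem ?_ ?_
    · split_ifs
      · exact Z.one_mem
      · exact Z.zero_mem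
    · split_ifs
      · exact ha
      · exact Z.zero_mem
  · simp

lemma Acl.of_artin {Z : Subalgebra k D} (h : Acl Z) {a u v : D} {n : ℕ} (hn : 1 < n)
    (hu : u ∈ Z) (hv : v ∈ Z) (ha : a ^ n - u * a = v) : a ∈ Z := by
  refine h (Polynomial.X ^ n - Polynomial.C u * Polynomial.X - Polynomial.C v) a ?_ ?_ ?_
  · intro h1
    have h2 := congrArg (fun P => P.coeff n) h1
    simp only [Polynomial.coeff_sub, Polynomial.coeff_X_pow_self, Polynomial.coeff_C_mul,
      Polynomial.coeff_X, Polynomial.coeff_C, Polynomial.coeff_zero] at h2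
    rw [if_neg (by omega), if_neg (by omega)] at h2
    simp at h2
  · intro i
    rw [Polynomial.coeff_sub, Polynomial.coeff_sub, Polynomial.coeff_X_pow,
      Polynomial.coeff_C_mul, Polynomial.coeff_X, Polynomial.coeff_C]
    refine Z.sub_mem (Z.sub_mem ?_ (Z.mul_mem hu ?_)) ?_
    · split_ifs
      · exact Z.one_mem
      · exact Z.zero_mem
    · split_ifs
      · exact Z.one_mem
      · exact Z.zero_mem
    · split_ifs
      · exact hv
      · exact Z.zero_mem
  · simp [ha]

/-- A criterion for algebraic extensions. -/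
lemma isAlgebraic_of_acl (B : Subalgebra k D)
    (h : ∀ Z : Subalgebra k D, Acl Z → B ≤ Z → Z = ⊤) : Algebra.IsAlgebraic B D := by
  have hdom : IsDomain B := inferInstance
  let Z' : Subalgebra B D := Subalgebra.algebraicClosure B D
  let Z : Subalgebra k D := Z'.restrictScalars k
  have hBZ : B ≤ Z := fun x hx => isAlgebraic_algebraMap (R := B) (A := D) ⟨x, hx⟩
  have hZ : Acl Z := by
    intro P b hP hc hb
    have halg : Algebra.IsAlgebraic B Z' := inferInstance
    have h1 : IsAlgebraic Z' b := by
      have h2 : ∃ P' : Polynomial Z', P'.map (algebraMap Z' D) = P := by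
        rw [← Polynomial.mem_lifts, Polynomial.lifts_iff_coeff_lifts]
        intro i
        exact ⟨⟨P.coeff i, hc i⟩, rfl⟩
      obtain ⟨P', hP'⟩ := h2
      refine ⟨P', ?_, ?_⟩
      · rintro rfl
        rw [Polynomial.map_zero] at hP'
        exact hP hP'.symm
      · rw [Polynomial.aeval_def, Polynomial.eval₂_eq_eval_map, hP', hb]
    exact h1.restrictScalars B
  have h3 := h Z hZ hBZ
  constructor
  intro x
  have h4 : x ∈ Z := by rw [h3]; trivial
  exact h4

/-- Smoothness of an algebra generated by few elements. -/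
theorem smooth_adjoin {I : Type u} [Finite I] (x : I → D) (hle : #I ≤ Algebra.trdeg k D)
    (h : ∀ Z : Subalgebra k D, Acl Z → (∀ i, x i ∈ Z) → Z = ⊤) :
    Algebra.Smooth k (Algebra.adjoin k (Set.range x)) := by
  have halg : Algebra.IsAlgebraic (Algebra.adjoin k (Set.range x)) D := by
    refine isAlgebraic_of_acl _ fun Z hZ hle => h Z hZ fun i => ?_
    exact hle (Algebra.subset_adjoin ⟨i, rfl⟩)
  have hb := Algebra.IsAlgebraic.isTranscendenceBasis_of_le_trdeg_of_finite k x hle
  have hai : AlgebraicIndependent k x := hb.1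
  have hsm : Algebra.Smooth k (MvPolynomial I k) := by
    constructor
    · infer_instance
    · infer_instance
  exact Algebra.Smooth.of_equiv hai.aevalEquiv

end clo

section tr

variable {k K : Type u} [Field k] [Field K] [Algebra k K] {G : Type} [AddCommGroup G]

/-- Independence of monomials. -/
lemma algInd_mono {ι : Type} (e : ι → G)
    (he : Function.Injective (Finsupp.liftAddHom (fun i => (multiplesHom G (e i))) :
      (ι →₀ ℕ) →+ G)) : AlgebraicIndependent K fun i => (mo (e i) 1 : ML K G) := by
  have h1 : (MvPolynomial.aeval fun i => (mo (e i) 1 : ML K G)) =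
      (AddMonoidAlgebra.mapDomainAlgHom K K (Finsupp.liftAddHom (fun i => (multiplesHom G (e i))) :
      (ι →₀ ℕ) →+ G) : MvPolynomial ι K →ₐ[K] ML K G) := by
    apply MvPolynomial.algHom_ext
    intro i
    rw [MvPolynomial.aeval_X]
    change mo (e i) 1 = AddMonoidAlgebra.mapDomain _ (AddMonoidAlgebra.single (Finsupp.single i 1) 1)
    rw [AddMonoidAlgebra.mapDomain_single]
    unfold mo
    congr 1
    simp
  rw [algebraicIndependent_iff_injective_aeval, h1]
  exact AddMonoidAlgebra.mapDomain_injective he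

end tr

end Pool.Agent.W559.Mg
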