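import Pool.Agent.W559.Mg.U1

set_option autoImplicit false
set_option linter.unusedSectionVars false

open MvPolynomial Cardinal

universe u v w

namespace Pool.Agent.W559.Mg

/-- The group of degrees. -/
abbrev G3 : Type := ℤ × (ℤ × (ℤ × Unit))

/-- A degree. -/
def dg (a b c : ℤ) : G3 := (a, b, c, ())

lemma dg_add (a b c a' b' c' : ℤ) : dg a b c + dg a' b' c' = dg (a + a') (b + b') (c + c') := rfl

lemma dg_neg (a b c : ℤ) : -dg a b c = dg (-a) (-b) (-c) := rfl

lemma dg_zero : dg 0 0 0 = 0 := rfl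

lemma dg_nsmul (n : ℕ) (a b c : ℤ) : n • dg a b c = dg (n * a) (n * b) (n * c) := by
  induction n with
  | zero => simp [dg_zero]
  | succ n ih =>
    rw [succ_nsmul, ih, dg_add]
    push_cast
    unfold dg
    ext <;> simp <;> ring

lemma eq_dg (m : G3) : m = dg m.1 m.2.1 m.2.2.1 := rfl

/-- The coordinates. -/
def co1 : G3 →+ ℤ := AddMonoidHom.fst ℤ _

/-- The coordinates. -/
def co2 : G3 →+ ℤ := (AddMonoidHom.fst ℤ _).comp (AddMonoidHom.snd ℤ _)

/-- The coordinates. -/
def co3 : G3 →+ ℤ := (AddMonoidHom.fst ℤ _).comp ((AddMonoidHom.snd ℤ _).comp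
  (AddMonoidHom.snd ℤ _))

lemma co1_dg (a b c : ℤ) : co1 (dg a b c) = a := rfl
lemma co2_dg (a b c : ℤ) : co2 (dg a b c) = b := rfl
lemma co3_dg (a b c : ℤ) : co3 (dg a b c) = c := rfl

section tr

variable {k K : Type u} [Field k] [Field K] [Algebra k K]

/-- The basic degrees. -/
def be : Fin 3 → G3 := ![dg 1 0 0, dg 0 1 0, dg 0 0 1]

lemma be_injective : Function.Injective
    (Finsupp.liftAddHom (fun i => (multiplesHom G3 (be i))) : (Fin 3 →₀ ℕ) →+ G3) := by
  have h : ∀ m : Fin 3 →₀ ℕ, (Finsupp.liftAddHom (fun i => (multiplesHom G3 (be i))) :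
      (Fin 3 →₀ ℕ) →+ G3) m = dg (m 0) (m 1) (m 2) := by
    intro m
    rw [Finsupp.liftAddHom_apply, Finsupp.sum_fintype _ _ (by simp)]
    rw [Fin.sum_univ_three]
    simp only [multiplesHom_apply, be, Matrix.cons_val_zero, Matrix.cons_val_one,
      Matrix.cons_val_two, Matrix.cons_val, dg_nsmul, dg_add]
    unfold dg
    ext <;> simp
  intro m m' hmm
  rw [h, h] at hmm
  have h1 := congrArg co1 hmm
  have h2 := congrArg co2 hmm
  have h3 := congrArg co3 hmm
  rw [co1_dg, co1_dg] at h1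
  rw [co2_dg, co2_dg] at h2
  rw [co3_dg, co3_dg] at h3
  ext i
  fin_cases i
  · exact_mod_cast h1
  · exact_mod_cast h2
  · exact_mod_cast h3

/-- Lower bound for the transcendence degree. -/
lemma trdeg_ML {I : Type u} (y : I → K) (hy : AlgebraicIndependent k y) :
    #I + 3 ≤ Algebra.trdeg k (ML K G3) := by
  have h1 : #I ≤ Algebra.trdeg k K := hy.cardinalMk_le_trdeg
  have h2 : (3 : Cardinal.{u}) ≤ Algebra.trdeg K (ML K G3) := by
    have h3 := (algInd_mono (K := K) be be_injective).lift_cardinalMk_le_trdeg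
    simpa using h3
  have h3 : Algebra.trdeg k K + Algebra.trdeg K (ML K G3) = Algebra.trdeg k (ML K G3) :=
    trdeg_add_eq k K
  rw [← h3]
  exact add_le_add h1 h2

end tr

end Pool.Agent.W559.Mg
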