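import Pool.Agent.W559.Mg.U2

set_option autoImplicit false
set_option linter.unusedSectionVars false

open MvPolynomial Cardinal

universe u v w

namespace Pool.Agent.W559.Mg

section EE

variable {k : Type u} {D : Type u} [Field k] [CommRing D] [Algebra k D] (γ : D →ₐ[k] D) (p : ℕ)
  (s : D)

/-- The variables. -/
noncomputable def th (i : ℕ) : MvPolynomial (Fin p) D :=
  if h : i < p then X ⟨i, h⟩ else if i = p then C s else 0

lemma th_X (i : Fin p) : th p s i = X i := by
  unfold th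
  rw [dif_pos i.2]

lemma th_p : th p s p = C s := by
  unfold th
  rw [dif_neg (lt_irrefl p), if_pos rfl]

lemma th_gt {i : ℕ} (h : p < i) : th p s i = 0 := by
  unfold th
  rw [dif_neg (by omega), if_neg (by omega)]

/-- The inclusion of the coefficients. -/
noncomputable def cc (k : Type u) {D : Type u} [Field k] [CommRing D] [Algebra k D] (p : ℕ) :
    D →ₐ[k] MvPolynomial (Fin p) D := IsScalarTower.toAlgHom k D (MvPolynomial (Fin p) D)

lemma cc_apply (a : D) : cc k p a = C a := rfl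

/-- The extension of the endomorphism. -/
noncomputable def ge : MvPolynomial (Fin p) D →ₐ[k] MvPolynomial (Fin p) D :=
  aevalTower ((cc k p).comp γ) fun i => th p s i + th p s (i + 1)

lemma ge_C (a : D) : ge γ p s (C a) = C (γ a) := by
  unfold ge
  rw [aevalTower_C]
  rfl

variable (hs : γ s = s)

include hs in
lemma ge_th (i : ℕ) : ge γ p s (th p s i) = th p s i + th p s (i + 1) := by
  rcases lt_trichotomy i p with h | h | h
  · have h1 := th_X p s ⟨i, h⟩
    change th p s i = X ⟨i, h⟩ at h1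
    conv_lhs => rw [h1]
    unfold ge
    rw [aevalTower_X]
  · subst h
    rw [th_p, th_gt _ _ (Nat.lt_succ_self i), ge_C, hs, add_zero]
  · rw [th_gt _ _ h, th_gt _ _ (by omega), map_zero, add_zero]

include hs in
lemma dl_ge_th (i : ℕ) : dl (ge γ p s) (th p s i) = th p s (i + 1) := by
  unfold dl
  rw [ge_th γ p s hs]
  ring

/-- The evaluation. -/
noncomputable def evt (t : D) : MvPolynomial (Fin p) D →ₐ[k] D :=
  aevalTower (AlgHom.id k D) fun i => (dl γ)^[i] t

lemma evt_C (t a : D) : evt γ p t (C a) = a := by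
  unfold evt
  rw [aevalTower_C]
  rfl

include hs in
lemma evt_th (t : D) (ht : (dl γ)^[p] t = s) (i : ℕ) : evt γ p t (th p s i) = (dl γ)^[i] t := by
  have h0 : dl γ s = 0 := by unfold dl; rw [hs, sub_self]
  rcases lt_trichotomy i p with h | h | h
  · have h1 := th_X p s ⟨i, h⟩
    change th p s i = X ⟨i, h⟩ at h1
    conv_lhs => rw [h1]
    unfold evt
    rw [aevalTower_X]
  · subst h
    rw [th_p, evt_C, ht]
  · rw [th_gt _ _ h, map_zero]
    obtain ⟨e, rfl⟩ := Nat.exists_eq_add_of_lt h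
    have h1 : p + e + 1 = e + (1 + p) := by ring
    rw [h1, Function.iterate_add_apply, Function.iterate_add_apply, ht]
    have h2 : (dl γ)^[1] s = 0 := h0
    rw [h2, dl_iter_zero]

include hs in
lemma evt_ge (t : D) (ht : (dl γ)^[p] t = s) (f : MvPolynomial (Fin p) D) :
    evt γ p t (ge γ p s f) = γ (evt γ p t f) := by
  induction f using MvPolynomial.induction_on with
  | C a => rw [ge_C, evt_C, evt_C]
  | add f g hf hg => rw [map_add, map_add, hf, hg, map_add, map_add]
  | mul_X f i hf =>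
    rw [map_mul, map_mul, hf, map_mul, map_mul, ← th_X p s i, ge_th γ p s hs, map_add,
      evt_th γ p s hs t ht, evt_th γ p s hs t ht]
    congr 1
    rw [Function.iterate_succ_apply', ← eq_add_dl]

end EE

section S2

variable {k : Type u} {D : Type u} [Field k] [CommRing D] [Algebra k D] (γ : D →ₐ[k] D) (p : ℕ)
  (T T' : D) (W : Subalgebra k D) (t : D)

/-- The algebra of the second level. -/
def S2 : Subalgebra k D :=
  Algebra.adjoin k ({T'} ∪ {f | ∃ w ∈ W, ∃ i : ℕ, f = (dl γ)^[i] w * T ^ (i * p)} ∪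
    {f | ∃ i : ℕ, i < p ∧ f = (dl γ)^[i + 1] t * T ^ (i * p + 1)})

lemma S2_T' : T' ∈ S2 γ p T T' W t := Algebra.subset_adjoin (Or.inl (Or.inl rfl))

lemma S2_w {w : D} (hw : w ∈ W) (i : ℕ) : (dl γ)^[i] w * T ^ (i * p) ∈ S2 γ p T T' W t :=
  Algebra.subset_adjoin (Or.inl (Or.inr ⟨w, hw, i, rfl⟩))

lemma S2_W {w : D} (hw : w ∈ W) : w ∈ S2 γ p T T' W t := by
  have h1 := S2_w γ p T T' W t hw 0
  rwa [zero_mul, pow_zero, mul_one] at h1

lemma S2_t {i : ℕ} (hi : i < p) : (dl γ)^[i + 1] t * T ^ (i * p + 1) ∈ S2 γ p T T' W t :=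
  Algebra.subset_adjoin (Or.inr ⟨i, hi, rfl⟩)

lemma S2_le {Z : Subalgebra k D} (h1 : T' ∈ Z)
    (h2 : ∀ w ∈ W, ∀ i : ℕ, (dl γ)^[i] w * T ^ (i * p) ∈ Z)
    (h3 : ∀ i : ℕ, i < p → (dl γ)^[i + 1] t * T ^ (i * p + 1) ∈ Z) : S2 γ p T T' W t ≤ Z := by
  unfold S2
  rw [Algebra.adjoin_le_iff]
  rintro f ((hf | ⟨w, hw, i, rfl⟩) | ⟨i, hi, rfl⟩)
  · rw [Set.mem_singleton_iff.1 hf]; exact h1
  · exact h2 w hw i
  · exact h3 i hi

variable (hT : T * T' = 1) (hγT : γ T = T)

include hT in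
lemma T_pow_sub {a b : ℕ} (h : b ≤ a) : T ^ b = T ^ a * T' ^ (a - b) := by
  obtain ⟨c, rfl⟩ := Nat.exists_eq_add_of_le h
  rw [Nat.add_sub_cancel_left, pow_add, mul_assoc, ← mul_pow, hT, one_pow, mul_one]

/-- Twisted derivations preserve an algebra if they preserve generators. -/
lemma stable_of_gens {Z : Subalgebra k D} (X : Set D) (hX : Algebra.adjoin k X = Z)
    (n : ℕ) (hT' : T' ∈ Z) (hT : T * T' = 1) (h : ∀ x ∈ X, T ^ n * dl γ x ∈ Z) :
    ∀ f ∈ Z, T ^ n * dl γ f ∈ Z := by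
  intro f hf
  rw [← hX] at hf
  induction hf using Algebra.adjoin_induction with
  | mem x hx => exact h x hx
  | algebraMap r => rw [dl_algebraMap, mul_zero]; exact Z.zero_mem
  | add x y _ _ hx hy => rw [dl_add, mul_add]; exact Z.add_mem hx hy
  | mul x y hx' hy' hx hy =>
    rw [hX] at hx' hy'
    have h1 : T ^ n * dl γ (x * y) = (T ^ n * dl γ x) * y + x * (T ^ n * dl γ y) +
        T' ^ n * ((T ^ n * dl γ x) * (T ^ n * dl γ y)) := by
      have h2 : T' ^ n * T ^ n = 1 := by rw [← mul_pow, mul_comm, hT, one_pow]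
      rw [dl_mul]
      linear_combination (-(T ^ n * dl γ x * dl γ y)) * h2
    rw [h1]
    exact Z.add_mem (Z.add_mem (Z.mul_mem hx hy') (Z.mul_mem hx' hy))
      (Z.mul_mem (Z.pow_mem hT' n) (Z.mul_mem hx hy))

include hT hγT in
/-- Stability of the algebra of the second level. -/
lemma S2_stable (ht : (dl γ)^[p + 1] t = 0) {f : D} (hf : f ∈ S2 γ p T T' W t) :
    T ^ p * dl γ f ∈ S2 γ p T T' W t := by
  have hTfx : ∀ n : ℕ, T ^ n ∈ fx γ := fun n => by rw [mem_fx, map_pow, hγT]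
  have hγT' : γ T' = T' := by
    have h1 : T * γ T' = 1 := by
      have h2 := congrArg γ hT
      rwa [map_mul, hγT, map_one] at h2
    calc γ T' = (T * T') * γ T' := by rw [hT, one_mul]
      _ = (T * γ T') * T' := by ring
      _ = T' := by rw [h1, one_mul]
  refine stable_of_gens γ T T' _ rfl p (S2_T' γ p T T' W t) hT ?_ f hf
  rintro x ((hx | ⟨w, hw, i, rfl⟩) | ⟨i, hi, rfl⟩)
  · rw [Set.mem_singleton_iff.1 hx]
    have : dl γ T' = 0 := by unfold dl; rw [hγT', sub_self]
    rw [this, mul_zero]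
    exact Subalgebra.zero_mem _
  · have h1 : T ^ p * dl γ ((dl γ)^[i] w * T ^ (i * p)) =
        (dl γ)^[i + 1] w * T ^ ((i + 1) * p) := by
      rw [mul_comm ((dl γ)^[i] w), dl_fx_mul γ (hTfx _), Function.iterate_succ_apply']
      ring
    rw [h1]
    exact S2_w γ p T T' W t hw (i + 1)
  · have h1 : T ^ p * dl γ ((dl γ)^[i + 1] t * T ^ (i * p + 1)) =
        (dl γ)^[i + 1 + 1] t * T ^ ((i + 1) * p + 1) := by
      rw [mul_comm ((dl γ)^[i + 1] t), dl_fx_mul γ (hTfx _),
        ← Function.iterate_succ_apply' (dl γ)]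
      generalize (dl γ)^[(i + 1).succ] t = a
      ring
    rw [h1]
    by_cases h2 : i + 1 < p
    · exact S2_t γ p T T' W t h2
    · have h3 : i + 1 = p := by omega
      rw [h3, ht, zero_mul]
      exact Subalgebra.zero_mem _

end S2

end Pool.Agent.W559.Mg
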