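import Pool.Agent.W559.Mg.U3

set_option autoImplicit false
set_option linter.unusedSectionVars false

open Cardinal

universe u v w

namespace Pool.Agent.W559.Mg

section pow

variable {k : Type u} {D : Type u} [Field k] [CommRing D] [Algebra k D] (γ : D →ₐ[k] D)

lemma pow_app (n : ℕ) (x : D) : (γ ^ n) x = γ^[n] x := by
  induction n with
  | zero => rfl
  | succ n ih => rw [Function.iterate_succ_apply', ← ih, pow_succ']; rfl

lemma mem_fx_pow {n : ℕ} {x : D} : x ∈ fx (γ ^ n) ↔ γ^[n] x = x := by
  rw [mem_fx, pow_app]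

lemma dl_iter_mem {Z : Subalgebra k D} (h : ∀ f ∈ Z, γ f ∈ Z) (n : ℕ) {f : D} (hf : f ∈ Z) :
    (dl γ)^[n] f ∈ Z := by
  induction n with
  | zero => exact hf
  | succ n ih =>
    rw [Function.iterate_succ_apply']
    exact Z.sub_mem (h _ ih) ih

lemma dl_pow_comm (n i : ℕ) (x : D) : (γ ^ n) ((dl γ)^[i] x) = (dl γ)^[i] ((γ ^ n) x) := by
  have h1 : ∀ (i n : ℕ) (x : D), γ^[n] ((dl γ)^[i] x) = (dl γ)^[i] (γ^[n] x) := by
    intro i
    induction i with
    | zero => exact fun n x => rfl
    | succ i ih =>
      intro n x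
      rw [Function.iterate_succ_apply, Function.iterate_succ_apply, ih]
      congr 1
      unfold dl
      have h2 : ∀ (n : ℕ) (a b : D), γ^[n] (a - b) = γ^[n] a - γ^[n] b := by
        intro n
        induction n with
        | zero => exact fun a b => rfl
        | succ n ih => intro a b; rw [Function.iterate_succ_apply, map_sub, ih,
          Function.iterate_succ_apply, Function.iterate_succ_apply]
      rw [h2, ← Function.iterate_succ_apply, Function.iterate_succ_apply']
  rw [pow_app, pow_app, h1]

end pow

section poly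

variable {k : Type u} {D : Type u} [Field k] [CommRing D] [IsDomain D] [Algebra k D]

/-- Polynomials in `θ` which are fixed by the translation are constant. -/
theorem fixed_poly {p : ℕ} (hp : p.Prime) (hpk : (p : k) = 0) (Γ : Subalgebra k D)
    (σ : D →ₐ[k] D) (hΓ : Γ ≤ fx σ) {θ s : D} (hs : s ∈ Γ) (hs0 : s ≠ 0)
    (hN : θ ^ p - s ^ (p - 1) * θ ∈ Γ) (hθ : σ θ = θ + s) {w : D}
    (hw : w ∈ Algebra.adjoin k ((Γ : Set D) ∪ {θ})) (hσw : σ w = w) : w ∈ Γ := by
  classical
  have h1 : w ∈ (Algebra.adjoin Γ {θ}).restrictScalars k := by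
    have h2 : Algebra.adjoin k ((Γ : Set D) ∪ {θ}) ≤ (Algebra.adjoin Γ {θ}).restrictScalars k := by
      rw [Algebra.adjoin_le_iff]
      rintro x (hx | hx)
      · exact (Algebra.adjoin Γ {θ}).algebraMap_mem ⟨x, hx⟩
      · exact Algebra.subset_adjoin hx
    exact h2 hw
  rw [Subalgebra.mem_restrictScalars, Algebra.adjoin_singleton_eq_range_aeval] at h1
  obtain ⟨f, hf⟩ := h1
  -- reduction
  let P : Polynomial Γ := Polynomial.X ^ p + (-(Polynomial.C (⟨s, hs⟩ : Γ) ^ (p - 1) *
    Polynomial.X) - Polynomial.C (⟨_, hN⟩ : Γ))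
  have hdeg : (-(Polynomial.C (⟨s, hs⟩ : Γ) ^ (p - 1) *
    Polynomial.X) - Polynomial.C (⟨_, hN⟩ : Γ)).degree < (p : WithBot ℕ) := by
    refine lt_of_le_of_lt (Polynomial.degree_sub_le _ _) (max_lt ?_ ?_)
    · rw [Polynomial.degree_neg, ← Polynomial.C_pow]
      refine lt_of_le_of_lt (Polynomial.degree_C_mul_X_le _) ?_
      exact_mod_cast hp.one_lt
    · refine lt_of_le_of_lt Polynomial.degree_C_le ?_
      exact_mod_cast hp.pos
  have hPm : P.Monic := Polynomial.monic_X_pow_add hdeg
  have hPθ : Polynomial.aeval θ P = 0 := by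
    simp only [P, map_add, map_sub, map_neg, map_mul, map_pow, Polynomial.aeval_X,
      Polynomial.aeval_C]
    change θ ^ p + (-(s ^ (p - 1) * θ) - (θ ^ p - s ^ (p - 1) * θ)) = 0
    ring
  let g := f %ₘ P
  have hg : Polynomial.aeval θ g = w := by
    rw [← hf]
    exact Polynomial.aeval_modByMonic_eq_self_of_root hPθ
  have hPnat : P.natDegree = p := Polynomial.natDegree_eq_of_degree_eq_some (by
    rw [Polynomial.degree_add_eq_left_of_degree_lt (by rwa [Polynomial.degree_X_pow]),
      Polynomial.degree_X_pow])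
  have hgdeg : g.natDegree < p := by
    by_cases h0 : g = 0
    · rw [h0, Polynomial.natDegree_zero]; exact hp.pos
    · have h2 := Polynomial.natDegree_modByMonic_lt f hPm (by
        intro h3
        rw [h3, Polynomial.natDegree_one] at hPnat
        exact hp.pos.ne hPnat)
      rwa [hPnat] at h2
  -- translation
  have hσθ : ∀ j : ℕ, (σ ^ j) θ = θ + j * s := by
    intro j
    induction j with
    | zero => simp
    | succ j ih =>
      rw [pow_succ']
      change σ ((σ ^ j) θ) = _
      rw [ih, map_add, map_mul, map_natCast, hθ, mem_fx.1 (hΓ hs)]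
      push_cast
      ring
  have hσw' : ∀ j : ℕ, (σ ^ j) w = w := by
    intro j
    induction j with
    | zero => rfl
    | succ j ih =>
      rw [pow_succ']
      change σ ((σ ^ j) w) = _
      rw [ih, hσw]
  have hσg : ∀ j : ℕ, Polynomial.aeval (θ + j * s) g = w := by
    intro j
    have h2 : (σ ^ j) (Polynomial.aeval θ g) = Polynomial.aeval ((σ ^ j) θ) g := by
      rw [Polynomial.aeval_def, Polynomial.aeval_def]
      rw [Polynomial.eval₂_eq_sum_range, Polynomial.eval₂_eq_sum_range, map_sum]
      refine Finset.sum_congr rfl fun i _ => ?_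
      rw [map_mul, map_pow]
      congr 1
      have h3 : ∀ j : ℕ, (σ ^ j) ((g.coeff i : Γ) : D) = g.coeff i := by
        intro j
        induction j with
        | zero => rfl
        | succ j ih =>
          rw [pow_succ']
          change σ ((σ ^ j) ((g.coeff i : Γ) : D)) = _
          rw [ih, mem_fx.1 (hΓ (g.coeff i).2)]
      exact h3 j
    rw [← hσθ, ← h2, hg, hσw']
  -- the polynomial is constant
  let q : Polynomial D := g.map (algebraMap Γ D) - Polynomial.C w
  have hq0 : q = 0 := by
    refine Polynomial.eq_zero_of_natDegree_lt_card_of_eval_eq_zero' q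
      ((Finset.range p).image fun j : ℕ => θ + j * s) ?_ ?_
    · intro x hx
      rw [Finset.mem_image] at hx
      obtain ⟨j, -, rfl⟩ := hx
      have h2 := hσg j
      rw [Polynomial.aeval_def, Polynomial.eval₂_eq_eval_map] at h2
      simp only [q, Polynomial.eval_sub, Polynomial.eval_C, h2, sub_self]
    · rw [Finset.card_image_of_injOn, Finset.card_range]
      · refine lt_of_le_of_lt (Polynomial.natDegree_sub_le _ _) (max_lt ?_ ?_)
        · exact lt_of_le_of_lt Polynomial.natDegree_map_le hgdeg
        · rw [Polynomial.natDegree_C]; exact hp.pos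
      · intro i hi j hj hij
        have h2 : ((i : D) - j) * s = 0 := by
          have h4 : θ + (i : D) * s = θ + (j : D) * s := hij
          linear_combination h4
        rcases mul_eq_zero.1 h2 with h3 | h3
        · have hchar : CharP k p := (CharP.charP_iff_prime_eq_zero hp).2 hpk
          have h4 : (i : k) = (j : k) := by
            apply (algebraMap k D).injective
            rw [map_natCast, map_natCast]
            exact sub_eq_zero.1 h3
          rw [CharP.cast_eq_iff_mod_eq k p] at h4
          rwa [Nat.mod_eq_of_lt (Finset.mem_range.1 hi),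
            Nat.mod_eq_of_lt (Finset.mem_range.1 hj)] at h4
        · exact absurd h3 hs0
  have h5 := congrArg (fun P => P.coeff 0) hq0
  simp only [q, Polynomial.coeff_sub, Polynomial.coeff_map, Polynomial.coeff_C_zero,
    Polynomial.coeff_zero] at h5
  have h6 : ((g.coeff 0 : Γ) : D) = w := sub_eq_zero.1 h5
  rw [← h6]
  exact (g.coeff 0).2

end poly

end Pool.Agent.W559.Mg
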