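import Pool.Agent.W559.Mg.U4

set_option autoImplicit false
set_option linter.unusedSectionVars false

open Cardinal

universe u v w

namespace Pool.Agent.W559.Mg

/-- Jordan data in a ring, with a sequence of auxiliary variables. -/
structure JT {k : Type u} {D : Type u} [Field k] [CommRing D] [Algebra k D] (γ : D →ₐ[k] D)
    (p : ℕ) (s T T' z z' : D) {β : Type u} (m : β → ℕ) (y : β → ℕ → D) (θ : ℕ → D) : Prop where
  gs : γ s = s
  gT : γ T = T
  gz : γ z = z
  TT : T * T' = 1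
  zz : z * z' = 1
  s0 : s ≠ 0
  y0 : ∀ b i, m b ≤ i → y b i = 0
  y1 : ∀ b i, (i + 1) % p ≠ 0 → dl γ (y b i) = y b (i + 1)
  y2 : ∀ b i, (i + 1) % p = 0 → dl γ (y b i) = s * y b (i + 1)
  mp : ∀ b, m b ≤ p * p
  t1 : ∀ i, dl γ (θ i) = θ (i + 1)
  tp : θ p = s

section bet

variable {k : Type u} {D : Type u} [Field k] [CommRing D] [Algebra k D]

/-- The binomial polynomials. -/
noncomputable def bet (k : Type u) {D : Type u} [Field k] [CommRing D] [Algebra k D] (s : D)
    (l : ℕ) (u : D) : D :=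
  algebraMap k D ((-1) ^ l * (l.factorial : k)⁻¹) * ∏ i ∈ Finset.range l, (u + i * s)

lemma bet_zero (s u : D) : bet k s 0 u = 1 := by
  unfold bet
  simp

lemma bet_succ {p : ℕ} (hp : p.Prime) (hpk : (p : k) = 0) (s u : D) {l : ℕ} (hl : l + 1 < p) :
    bet k s (l + 1) (u + s) + s * bet k s l (u + s) = bet k s (l + 1) u := by
  have hfac : ∀ n, n < p → (n.factorial : k) ≠ 0 := by
    intro n hn h
    have hchar : CharP k p := (CharP.charP_iff_prime_eq_zero hp).2 hpk
    rw [CharP.cast_eq_zero_iff k p, hp.dvd_factorial] at h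
    omega
  unfold bet
  set Pr0 := ∏ i ∈ Finset.range l, (u + s + i * s) with hPr0
  have h1 : ∏ i ∈ Finset.range (l + 1), (u + s + i * s) = Pr0 * (u + s + l * s) := by
    rw [Finset.prod_range_succ]
  have h2 : ∏ i ∈ Finset.range (l + 1), (u + i * s) = Pr0 * u := by
    rw [Finset.prod_range_succ']
    have h3 : ∏ i ∈ Finset.range l, (u + ((i + 1 : ℕ) : D) * s) = Pr0 := by
      refine Finset.prod_congr rfl fun i _ => ?_
      push_cast
      ring
    rw [h3]
    simp
  rw [h1, h2]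
  have h4 : (-1 : k) ^ l * (l.factorial : k)⁻¹ =
      -(l + 1) * ((-1) ^ (l + 1) * ((l + 1).factorial : k)⁻¹) := by
    have e1 := hfac l (by omega)
    have e2 := hfac (l + 1) hl
    have e3 : ((l + 1).factorial : k) = (l + 1) * (l.factorial : k) := by
      rw [Nat.factorial_succ]; push_cast; ring
    rw [e3] at e2 ⊢
    have e4 := left_ne_zero_of_mul e2
    field_simp
    ring
  have h5 : algebraMap k D (-(l + 1)) = -((l : D) + 1) := by
    rw [map_neg, map_add, map_natCast, map_one]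
  rw [h4, map_mul (algebraMap k D) (-((l : k) + 1)), h5]
  ring

lemma bet_sum {p : ℕ} (hp : p.Prime) (hpk : (p : k) = 0) (s u : D) (a : ℕ → D) (ha : a p = 0) :
    ∑ l ∈ Finset.range p, bet k s l (u + s) * (a l + s * a (l + 1)) =
      ∑ l ∈ Finset.range p, bet k s l u * a l := by
  obtain ⟨q, hq⟩ : ∃ q, p = q + 1 := ⟨p - 1, (Nat.sub_add_cancel hp.one_lt.le).symm⟩
  have h1 : ∑ l ∈ Finset.range p, bet k s l (u + s) * (a l + s * a (l + 1)) =
      ∑ l ∈ Finset.range p, bet k s l (u + s) * a l +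
        ∑ l ∈ Finset.range p, s * bet k s l (u + s) * a (l + 1) := by
    rw [← Finset.sum_add_distrib]
    exact Finset.sum_congr rfl fun l _ => by ring
  have h2 : ∑ l ∈ Finset.range p, bet k s l (u + s) * a l =
      ∑ l ∈ Finset.range q, bet k s (l + 1) (u + s) * a (l + 1) + a 0 := by
    rw [hq, Finset.sum_range_succ', bet_zero, one_mul]
  have h3 : ∑ l ∈ Finset.range p, s * bet k s l (u + s) * a (l + 1) =
      ∑ l ∈ Finset.range q, s * bet k s l (u + s) * a (l + 1) := by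
    rw [hq, Finset.sum_range_succ, ← hq, ha, mul_zero, add_zero]
  have h4 : ∑ l ∈ Finset.range p, bet k s l u * a l =
      ∑ l ∈ Finset.range q, bet k s (l + 1) u * a (l + 1) + a 0 := by
    rw [hq, Finset.sum_range_succ', bet_zero, one_mul]
  rw [h1, h2, h3, h4, add_right_comm, ← Finset.sum_add_distrib]
  congr 1
  refine Finset.sum_congr rfl fun l hl => ?_
  rw [← bet_succ hp hpk s u (by rw [Finset.mem_range] at hl; omega)]
  ring

end bet

section G

variable {k : Type u} {D : Type u} [Field k] [CommRing D] [Algebra k D] {γ : D →ₐ[k] D}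
  {p : ℕ} {s T T' z z' : D} {β : Type u} {m : β → ℕ} {y : β → ℕ → D} {θ : ℕ → D}

/-- The modified variables. -/
noncomputable def Yp (k : Type u) {D : Type u} [Field k] [CommRing D] [Algebra k D] (p : ℕ)
    (s : D) {β : Type u} (y : β → ℕ → D) (θ : ℕ → D) (b : β) (j : ℕ) : D :=
  ∑ l ∈ Finset.range p, bet k s l (θ 0) * y b ((j + l) * p)

/-- The explicit algebra. -/
noncomputable def Gg (γ : D →ₐ[k] D) (p : ℕ) (s T T' z z' : D) {β : Type u} (m : β → ℕ)
    (y : β → ℕ → D) (θ : ℕ → D) : Subalgebra k D :=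
  Algebra.adjoin k ({T', θ 0 ^ p - s ^ (p - 1) * θ 0, z, z'} ∪
    {f | ∃ i : ℕ, i < p ∧ f = θ (i + 1) * T ^ (i * p + 1)} ∪
    {f | ∃ b i, i < m b ∧ f = (dl γ)^[i % p] (Yp k p s y θ b (i / p)) * T ^ ((i % p) * p)})

variable (h : JT γ p s T T' z z' m y θ) (hp : p.Prime) (hpk : (p : k) = 0)

include hpk in
lemma cast_p : (p : D) = 0 := by
  have h1 : algebraMap k D (p : k) = (p : D) := map_natCast _ p
  rw [← h1, hpk, map_zero]

include h in
lemma JT.gT' : γ T' = T' := by
  have h1 : T * γ T' = 1 := by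
    have h2 := congrArg γ h.TT
    rwa [map_mul, h.gT, map_one] at h2
  calc γ T' = (T * T') * γ T' := by rw [h.TT, one_mul]
    _ = (T * γ T') * T' := by ring
    _ = T' := by rw [h1, one_mul]

include h in
lemma JT.gz' : γ z' = z' := by
  have h1 : z * γ z' = 1 := by
    have h2 := congrArg γ h.zz
    rwa [map_mul, h.gz, map_one] at h2
  calc γ z' = (z * z') * γ z' := by rw [h.zz, one_mul]
    _ = (z * γ z') * z' := by ring
    _ = z' := by rw [h1, one_mul]

include h in
lemma JT.tit (n i : ℕ) : (dl γ)^[n] (θ i) = θ (i + n) := by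
  induction n generalizing i with
  | zero => rfl
  | succ n ih =>
    rw [Function.iterate_succ_apply, h.t1, ih]
    congr 1
    ring

include h in
lemma JT.tgt {i : ℕ} (hi : p < i) : θ i = 0 := by
  obtain ⟨e, rfl⟩ := Nat.exists_eq_add_of_lt hi
  have h1 : θ (p + e + 1) = (dl γ)^[e] (dl γ (θ p)) := by
    rw [← Function.iterate_succ_apply, h.tit]
    congr 1
  rw [h1, h.tp]
  have h2 : dl γ s = 0 := by unfold dl; rw [h.gs, sub_self]
  rw [h2, dl_iter_zero]

include h in
lemma JT.yit (b : β) (j : ℕ) {r : ℕ} (hr : r < p) : (dl γ)^[r] (y b (j * p)) = y b (j * p + r) := by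
  induction r with
  | zero => rfl
  | succ r ih =>
    rw [Function.iterate_succ_apply', ih (by omega), h.y1]
    · rfl
    · have h1 : (j * p + r + 1) % p = r + 1 := by
        rw [add_assoc, add_comm, Nat.add_mul_mod_self_right, Nat.mod_eq_of_lt hr]
      omega

include h hp in
lemma JT.yitp (b : β) (j : ℕ) : (dl γ)^[p] (y b (j * p)) = s * y b ((j + 1) * p) := by
  obtain ⟨q, hq⟩ : ∃ q, p = q + 1 := ⟨p - 1, (Nat.sub_add_cancel hp.one_lt.le).symm⟩
  have h1 : (dl γ)^[p] (y b (j * p)) = dl γ ((dl γ)^[q] (y b (j * p))) := by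
    rw [← Function.iterate_succ_apply' (dl γ), Nat.succ_eq_add_one, ← hq]
  rw [h1, h.yit b j (by omega), h.y2]
  · congr 2
    rw [add_mul, one_mul]
    omega
  · have h2 : j * p + q + 1 = (j + 1) * p := by rw [add_mul, one_mul]; omega
    rw [h2, Nat.mul_mod_left]

include h hp hpk in
lemma JT.sy (b : β) (j : ℕ) : (γ ^ p) (y b (j * p)) = y b (j * p) + s * y b ((j + 1) * p) := by
  have h1 := dl_iter_p γ hp (cast_p (k := k) hpk) (y b (j * p))
  rw [h.yitp hp] at h1
  rw [pow_app]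
  linear_combination -h1

include h in
lemma JT.sps : (γ ^ p) s = s := by
  rw [pow_app, Function.iterate_fixed h.gs]

include h hp hpk in
lemma JT.st : (γ ^ p) (θ 0) = θ 0 + s := by
  have h1 := dl_iter_p γ hp (cast_p (k := k) hpk) (θ 0)
  rw [h.tit, zero_add, h.tp] at h1
  rw [pow_app]
  linear_combination -h1

include h hp hpk in
/-- The modified variables are invariant. -/
lemma JT.sYp (b : β) (j : ℕ) : (γ ^ p) (Yp k p s y θ b j) = Yp k p s y θ b j := by
  unfold Yp
  rw [map_sum]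
  have h1 : ∀ l ∈ Finset.range p, (γ ^ p) (bet k s l (θ 0) * y b ((j + l) * p)) =
      bet k s l (θ 0 + s) * (y b ((j + l) * p) + s * y b ((j + (l + 1)) * p)) := by
    intro l _
    rw [map_mul, h.sy hp hpk]
    congr 1
    unfold bet
    rw [map_mul, AlgHom.commutes, map_prod]
    congr 1
    refine Finset.prod_congr rfl fun i _ => ?_
    rw [map_add, map_mul, map_natCast, h.st hp hpk, h.sps]
  rw [Finset.sum_congr rfl h1]
  exact bet_sum hp hpk s (θ 0) (fun l => y b ((j + l) * p)) (h.y0 _ _ ((h.mp b).trans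
    (Nat.mul_le_mul_right p (Nat.le_add_left p j))))

include h hp in
lemma JT.Yp_zero (b : β) (j r : ℕ) (hr : r < p) (hm : m b ≤ j * p + r) :
    (dl γ)^[r] (Yp k p s y θ b j) = 0 := by
  have h1 : Yp k p s y θ b j = y b (j * p) := by
    unfold Yp
    rw [Finset.sum_eq_single 0]
    · rw [bet_zero, one_mul, add_zero]
    · intro l _ hl
      rw [h.y0, mul_zero]
      have h2 : (j + 1) * p ≤ (j + l) * p := Nat.mul_le_mul_right p (by omega)
      have h3 : (j + 1) * p = j * p + p := by ring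
      omega
    · intro h2
      exact absurd (Finset.mem_range.2 hp.pos) h2
  rw [h1, h.yit b j hr, h.y0 _ _ hm]

include h hp hpk in
lemma JT.Zmem (b : β) (j r : ℕ) :
    (dl γ)^[r] (Yp k p s y θ b j) * T ^ (r * p) ∈ Gg γ p s T T' z z' m y θ := by
  by_cases hr : r < p
  · by_cases hm : j * p + r < m b
    · refine Algebra.subset_adjoin (Or.inr ⟨b, j * p + r, hm, ?_⟩)
      have h1 : (j * p + r) % p = r := by
        rw [add_comm, Nat.add_mul_mod_self_right, Nat.mod_eq_of_lt hr]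
      have h2 : (j * p + r) / p = j := by
        rw [add_comm, Nat.add_mul_div_right _ _ hp.pos, Nat.div_eq_of_lt hr, zero_add]
      rw [h1, h2]
    · rw [h.Yp_zero hp b j r hr (by omega), zero_mul]
      exact Subalgebra.zero_mem _
  · obtain ⟨e, rfl⟩ := Nat.exists_eq_add_of_le (Nat.le_of_not_lt hr)
    rw [add_comm p e, Function.iterate_add_apply, dl_iter_p γ hp (cast_p (k := k) hpk), ← pow_app,
      h.sYp hp hpk, sub_self, dl_iter_zero, zero_mul]
    exact Subalgebra.zero_mem _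

lemma Gg_T' : T' ∈ Gg γ p s T T' z z' m y θ :=
  Algebra.subset_adjoin (Or.inl (Or.inl (Or.inl rfl)))

lemma Gg_N : θ 0 ^ p - s ^ (p - 1) * θ 0 ∈ Gg γ p s T T' z z' m y θ :=
  Algebra.subset_adjoin (Or.inl (Or.inl (Or.inr (Or.inl rfl))))

lemma Gg_z : z ∈ Gg γ p s T T' z z' m y θ :=
  Algebra.subset_adjoin (Or.inl (Or.inl (Or.inr (Or.inr (Or.inl rfl)))))

lemma Gg_z' : z' ∈ Gg γ p s T T' z z' m y θ :=
  Algebra.subset_adjoin (Or.inl (Or.inl (Or.inr (Or.inr (Or.inr rfl)))))

lemma Gg_t {i : ℕ} (hi : i < p) : θ (i + 1) * T ^ (i * p + 1) ∈ Gg γ p s T T' z z' m y θ :=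
  Algebra.subset_adjoin (Or.inl (Or.inr ⟨i, hi, rfl⟩))

include h in
lemma JT.Tmul {a : D} {n l : ℕ} (hl : l ≤ n) (ha : a * T ^ n ∈ Gg γ p s T T' z z' m y θ) :
    a * T ^ l ∈ Gg γ p s T T' z z' m y θ := by
  have h1 : a * T ^ l = (a * T ^ n) * T' ^ (n - l) := by
    rw [T_pow_sub T T' h.TT hl]
    ring
  rw [h1]
  exact Subalgebra.mul_mem _ ha (Subalgebra.pow_mem _ Gg_T' _)

include h in
lemma JT.tmem {i : ℕ} (hi : i < p) : θ (i + 1) ∈ Gg γ p s T T' z z' m y θ := by
  have h1 := h.Tmul (l := 0) (Nat.zero_le _) (Gg_t hi)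
  rwa [pow_zero, mul_one] at h1

include h hp in
lemma JT.smem : s ∈ Gg γ p s T T' z z' m y θ := by
  have h1 := h.tmem (show p - 1 < p by have := hp.pos; omega)
  rwa [Nat.sub_add_cancel hp.one_lt.le, h.tp] at h1

include h hp in
lemma JT.sTmem : s * T ∈ Gg γ p s T T' z z' m y θ := by
  have h1 := Gg_t (γ := γ) (s := s) (T := T) (T' := T') (z := z) (z' := z') (m := m) (y := y)
    (θ := θ) (show p - 1 < p by have := hp.pos; omega)
  rw [Nat.sub_add_cancel hp.one_lt.le, h.tp] at h1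
  have h2 := h.Tmul (l := 1) (Nat.le_add_left 1 _) h1
  rwa [pow_one] at h2

include h hp hpk in
/-- Stability of the explicit algebra. -/
lemma JT.stable {f : D} (hf : f ∈ Gg γ p s T T' z z' m y θ) :
    T ^ p * dl γ f ∈ Gg γ p s T T' z z' m y θ := by
  have hTfx : ∀ n : ℕ, T ^ n ∈ fx γ := fun n => by rw [mem_fx, map_pow, h.gT]
  have hpD := cast_p (D := D) (k := k) hpk
  have : Fact p.Prime := ⟨hp⟩
  refine stable_of_gens γ T T' _ rfl p Gg_T' h.TT ?_ f hf
  rintro x (((hx | hx | hx | hx) | ⟨i, hi, rfl⟩) | ⟨b, i, hi, rfl⟩)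
  · rw [hx]
    have : dl γ T' = 0 := by unfold dl; rw [h.gT', sub_self]
    rw [this, mul_zero]
    exact Subalgebra.zero_mem _
  · rw [hx]
    have h1 : dl γ (θ 0 ^ p - s ^ (p - 1) * θ 0) = θ 1 ^ p - s ^ (p - 1) * θ 1 := by
      have h2 : γ (θ 0) = θ 0 + θ 1 := by
        rw [eq_add_dl, h.t1]
      unfold dl
      rw [map_sub, map_pow, map_mul, map_pow, h2, h.gs]
      have h3 : (θ 0 + θ 1) ^ p = θ 0 ^ p + θ 1 ^ p := by
        rcases subsingleton_or_nontrivial D with hs | hn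
        · exact Subsingleton.elim _ _
        · have hchar : CharP D p := (CharP.charP_iff_prime_eq_zero hp).2 hpD
          rw [add_pow_char]
      rw [h3]
      ring
    have h2 : T ^ p * dl γ (θ 0 ^ p - s ^ (p - 1) * θ 0) =
        (θ 1 * T) ^ p - (s * T) ^ (p - 1) * (θ 1 * T) := by
      have h3 : T ^ p = T ^ (p - 1) * T := by
        rw [← pow_succ, Nat.sub_add_cancel hp.one_lt.le]
      rw [h1, mul_pow, mul_pow]
      linear_combination (-s ^ (p - 1) * θ 1) * h3
    rw [h2]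
    have h3 : θ 1 * T ∈ Gg γ p s T T' z z' m y θ := by
      have h4 := Gg_t (γ := γ) (s := s) (T := T) (T' := T') (z := z) (z' := z') (m := m) (y := y)
        (θ := θ) (i := 0) hp.pos
      rwa [zero_mul, zero_add, pow_one] at h4
    exact Subalgebra.sub_mem _ (Subalgebra.pow_mem _ h3 _)
      (Subalgebra.mul_mem _ (Subalgebra.pow_mem _ (h.sTmem hp) _) h3)
  · rw [hx]
    have : dl γ z = 0 := by unfold dl; rw [h.gz, sub_self]
    rw [this, mul_zero]
    exact Subalgebra.zero_mem _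
  · rw [Set.mem_singleton_iff.1 hx]
    have : dl γ z' = 0 := by unfold dl; rw [h.gz', sub_self]
    rw [this, mul_zero]
    exact Subalgebra.zero_mem _
  · have h1 : T ^ p * dl γ (θ (i + 1) * T ^ (i * p + 1)) =
        θ (i + 1 + 1) * T ^ ((i + 1) * p + 1) := by
      rw [mul_comm (θ (i + 1)), dl_fx_mul γ (hTfx _), h.t1]
      ring
    rw [h1]
    by_cases h2 : i + 1 < p
    · exact Gg_t h2
    · rw [h.tgt (i := i + 1 + 1) (by omega), zero_mul]
      exact Subalgebra.zero_mem _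
  · have h1 : T ^ p * dl γ ((dl γ)^[i % p] (Yp k p s y θ b (i / p)) * T ^ ((i % p) * p)) =
        (dl γ)^[i % p + 1] (Yp k p s y θ b (i / p)) * T ^ ((i % p + 1) * p) := by
      rw [mul_comm ((dl γ)^[i % p] _), dl_fx_mul γ (hTfx _), ← Function.iterate_succ_apply' (dl γ)]
      generalize (dl γ)^[(i % p).succ] (Yp k p s y θ b (i / p)) = a
      ring
    rw [h1]
    exact h.Zmem hp hpk b _ _

include h hp hpk in
lemma JT.iter {f : D} (hf : f ∈ Gg γ p s T T' z z' m y θ) (i : ℕ) :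
    (dl γ)^[i] f * T ^ (i * p) ∈ Gg γ p s T T' z z' m y θ := by
  have hTfx : ∀ n : ℕ, T ^ n ∈ fx γ := fun n => by rw [mem_fx, map_pow, h.gT]
  induction i with
  | zero => rwa [zero_mul, pow_zero, mul_one]
  | succ i ih =>
    have h1 := h.stable hp hpk ih
    rw [mul_comm ((dl γ)^[i] f), dl_fx_mul γ (hTfx _), ← Function.iterate_succ_apply' (dl γ)] at h1
    have h2 : (dl γ)^[i + 1] f * T ^ ((i + 1) * p) =
        T ^ p * (T ^ (i * p) * (dl γ)^[i.succ] f) := by
      rw [← Nat.succ_eq_add_one]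
      generalize (dl γ)^[i.succ] f = a
      have : i.succ * p = p + i * p := by rw [Nat.succ_mul]; ring
      rw [this, pow_add]
      ring
    rw [h2]
    exact h1

include h hp hpk in
lemma JT.gmem {f : D} (hf : f ∈ Gg γ p s T T' z z' m y θ) :
    γ f ∈ Gg γ p s T T' z z' m y θ := by
  have h1 := h.stable hp hpk hf
  have h2 : γ f = f + (T ^ p * dl γ f) * T' ^ p := by
    have h3 : T ^ p * T' ^ p = 1 := by rw [← mul_pow, h.TT, one_pow]
    rw [eq_add_dl]
    linear_combination (-(dl γ f)) * h3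
  rw [h2]
  exact Subalgebra.add_mem _ hf (Subalgebra.mul_mem _ h1 (Subalgebra.pow_mem _ Gg_T' _))

include h hp hpk in
/-- The explicit algebra is fixed by `γ ^ p`. -/
lemma JT.le_fx : Gg γ p s T T' z z' m y θ ≤ fx (γ ^ p) := by
  have hpD := cast_p (D := D) (k := k) hpk
  have : Fact p.Prime := ⟨hp⟩
  have hfix : ∀ x, γ x = x → (γ ^ p) x = x := fun x hx => by
    rw [pow_app, Function.iterate_fixed hx]
  unfold Gg
  rw [Algebra.adjoin_le_iff]
  rintro x (((hx | hx | hx | hx) | ⟨i, hi, rfl⟩) | ⟨b, i, hi, rfl⟩)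
  · rw [hx]
    exact hfix _ h.gT'
  · rw [hx, SetLike.mem_coe, mem_fx]
    rw [map_sub, map_pow, map_mul, map_pow, h.st hp hpk, h.sps]
    have h3 : (θ 0 + s) ^ p = θ 0 ^ p + s ^ p := by
      rcases subsingleton_or_nontrivial D with hs | hn
      · exact Subsingleton.elim _ _
      · have hchar : CharP D p := (CharP.charP_iff_prime_eq_zero hp).2 hpD
        rw [add_pow_char]
    have h4 : s ^ p = s ^ (p - 1) * s := by
      rw [← pow_succ, Nat.sub_add_cancel hp.one_lt.le]
    rw [h3, h4]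
    ring
  · rw [hx]
    exact hfix _ h.gz
  · rw [Set.mem_singleton_iff.1 hx]
    exact hfix _ h.gz'
  · rw [SetLike.mem_coe, mem_fx]
    have h1 : (γ ^ p) (θ (i + 1)) = θ (i + 1) := by
      have h2 := dl_iter_p γ hp hpD (θ (i + 1))
      rw [h.tit, h.tgt (by omega)] at h2
      rw [pow_app]
      linear_combination -h2
    rw [map_mul, h1, hfix _ (by rw [map_pow, h.gT])]
  · rw [SetLike.mem_coe, mem_fx]
    rw [map_mul, dl_pow_comm, h.sYp hp hpk, hfix _ (by rw [map_pow, h.gT])]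

/-- The base algebra. -/
def R0p (s z z' : D) (y : β → ℕ → D) (θ : ℕ → D) : Subalgebra k D :=
  Algebra.adjoin k ({s, z, z'} ∪ {f | ∃ b i, f = y b i} ∪ {f | ∃ i, f = θ i})

include h hp hpk in
lemma JT.R0_le : R0p s z z' y θ ≤
    Algebra.adjoin k ((Gg γ p s T T' z z' m y θ : Set D) ∪ {θ 0}) := by
  set Γ := Gg γ p s T T' z z' m y θ with hΓ
  set Γθ := Algebra.adjoin k ((Γ : Set D) ∪ {θ 0}) with hΓθ
  have hle : Γ ≤ Γθ := fun x hx => Algebra.subset_adjoin (Or.inl hx)
  have h0 : θ 0 ∈ Γθ := Algebra.subset_adjoin (Or.inr rfl)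
  have hs : s ∈ Γθ := hle (h.smem hp)
  have hγ : ∀ f ∈ Γθ, γ f ∈ Γθ := by
    have h1 : Γθ ≤ Γθ.comap γ := by
      conv_lhs => rw [hΓθ]
      rw [Algebra.adjoin_le_iff]
      rintro f (hf | hf)
      · exact hle (h.gmem hp hpk hf)
      · rw [Set.mem_singleton_iff.1 hf]
        change γ (θ 0) ∈ Γθ
        rw [eq_add_dl, h.t1]
        exact Γθ.add_mem h0 (hle (h.tmem hp.pos))
    exact fun f hf => h1 hf
  have hbet : ∀ l, bet k s l (θ 0) ∈ Γθ := by
    intro l
    unfold bet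
    refine Γθ.mul_mem (Γθ.algebraMap_mem _) (Γθ.prod_mem fun i _ => ?_)
    exact Γθ.add_mem h0 (Γθ.mul_mem (Γθ.natCast_mem i) hs)
  have hy : ∀ (b : β) (n j : ℕ), m b ≤ (j + n) * p → y b (j * p) ∈ Γθ := by
    intro b n
    induction n with
    | zero =>
      intro j hj
      rw [add_zero] at hj
      rw [h.y0 _ _ hj]
      exact Γθ.zero_mem
    | succ n ih =>
      intro j hj
      have h1 : Yp k p s y θ b j ∈ Γθ := by
        have h2 := h.Zmem hp hpk b j 0
        rw [zero_mul, pow_zero, mul_one] at h2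
        exact hle h2
      obtain ⟨q, hq⟩ : ∃ q, p = q + 1 := ⟨p - 1, (Nat.sub_add_cancel hp.one_lt.le).symm⟩
      have h2 : y b (j * p) = Yp k p s y θ b j -
          ∑ l ∈ Finset.range q, bet k s (l + 1) (θ 0) * y b ((j + (l + 1)) * p) := by
        unfold Yp
        conv_rhs => rw [show Finset.range p = Finset.range (q + 1) by rw [hq]]
        rw [Finset.sum_range_succ', bet_zero, one_mul, add_zero]
        ring
      rw [h2]
      refine Γθ.sub_mem h1 (Γθ.sum_mem fun l _ => Γθ.mul_mem (hbet _) (ih _ (hj.trans ?_)))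
      exact Nat.mul_le_mul_right p (by omega)
  unfold R0p
  rw [Algebra.adjoin_le_iff]
  rintro f (((hf | hf | hf) | ⟨b, i, rfl⟩) | ⟨i, rfl⟩)
  · rw [hf]; exact hs
  · rw [hf]; exact hle Gg_z
  · rw [Set.mem_singleton_iff.1 hf]; exact hle Gg_z'
  · have h1 : i = (i / p) * p + i % p := by
      rw [mul_comm]; exact (Nat.div_add_mod i p).symm
    rw [h1, ← h.yit b _ (Nat.mod_lt _ hp.pos)]
    refine dl_iter_mem γ hγ _ (hy b (m b) _ ?_)
    calc m b ≤ m b * p := Nat.le_mul_of_pos_right _ hp.pos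
      _ ≤ (i / p + m b) * p := Nat.mul_le_mul_right p (Nat.le_add_left _ _)
  · rcases lt_trichotomy i p with hi | hi | hi
    · rcases Nat.eq_zero_or_pos i with h1 | h1
      · rw [h1]; exact h0
      · obtain ⟨e, rfl⟩ := Nat.exists_eq_add_of_le' h1
        exact hle (h.tmem (by omega))
    · rw [hi, h.tp]; exact hs
    · rw [h.tgt hi]; exact Γθ.zero_mem

include h hp hpk in
/-- The two descriptions of the algebra agree. -/
theorem JT.S2_eq [IsDomain D] : S2 γ p T T' (R0p s z z' y θ ⊓ fx (γ ^ p)) (θ 0) =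
    Gg γ p s T T' z z' m y θ := by
  have hW : R0p s z z' y θ ⊓ fx (γ ^ p) ≤ Gg γ p s T T' z z' m y θ := by
    intro w hw
    exact fixed_poly hp hpk (Gg γ p s T T' z z' m y θ) (γ ^ p) (h.le_fx hp hpk) (h.smem hp)
      h.s0 Gg_N (h.st hp hpk) (h.R0_le hp hpk hw.1) hw.2
  have hs : s ∈ R0p (k := k) s z z' y θ :=
    Algebra.subset_adjoin (Or.inl (Or.inl (Or.inl rfl)))
  have hθ : ∀ i, θ i ∈ R0p (k := k) s z z' y θ := fun i => Algebra.subset_adjoin (Or.inr ⟨i, rfl⟩)
  have hy : ∀ b i, y b i ∈ R0p (k := k) s z z' y θ := fun b i =>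
    Algebra.subset_adjoin (Or.inl (Or.inr ⟨b, i, rfl⟩))
  have hfx := h.le_fx hp hpk
  apply le_antisymm
  · refine S2_le γ p T T' _ _ Gg_T' ?_ ?_
    · intro w hw i
      exact h.iter hp hpk (hW hw) i
    · intro i hi
      rw [h.tit, zero_add]
      exact Gg_t hi
  · conv_lhs => unfold Gg
    rw [Algebra.adjoin_le_iff]
    rintro x (((hx | hx | hx | hx) | ⟨i, hi, rfl⟩) | ⟨b, i, hi, rfl⟩)
    · rw [hx]
      exact S2_T' γ p T T' _ _
    · rw [hx]
      refine S2_W γ p T T' _ _ ⟨?_, hfx Gg_N⟩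
      exact Subalgebra.sub_mem _ (Subalgebra.pow_mem _ (hθ 0) _)
        (Subalgebra.mul_mem _ (Subalgebra.pow_mem _ hs _) (hθ 0))
    · rw [hx]
      exact S2_W γ p T T' _ _ ⟨Algebra.subset_adjoin (Or.inl (Or.inl (Or.inr (Or.inl rfl)))),
        hfx Gg_z⟩
    · rw [Set.mem_singleton_iff.1 hx]
      exact S2_W γ p T T' _ _ ⟨Algebra.subset_adjoin (Or.inl (Or.inl (Or.inr (Or.inr rfl)))),
        hfx Gg_z'⟩
    · have h1 : θ (i + 1) = (dl γ)^[i + 1] (θ 0) := by rw [h.tit, zero_add]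
      rw [h1]
      exact S2_t γ p T T' _ _ hi
    · refine S2_w γ p T T' (R0p s z z' y θ ⊓ fx (γ ^ p)) (θ 0) ⟨?_, ?_⟩ _
      · unfold Yp
        refine Subalgebra.sum_mem _ fun l _ => Subalgebra.mul_mem _ ?_ (hy _ _)
        unfold bet
        refine Subalgebra.mul_mem _ (Subalgebra.algebraMap_mem _ _) (Subalgebra.prod_mem _ fun i _ => ?_)
        exact Subalgebra.add_mem _ (hθ 0) (Subalgebra.mul_mem _ (Subalgebra.natCast_mem _ i) hs)
      · exact h.sYp hp hpk _ _

end G

end Pool.Agent.W559.Mg
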