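import Pool.Agent.W559.Mg.U5

set_option autoImplicit false
set_option linter.unusedSectionVars false

open Cardinal MvPolynomial

universe u v w

namespace Pool.Agent.W559.Mg

section G

variable {k : Type u} {D : Type u} [Field k] [CommRing D] [Algebra k D] {γ : D →ₐ[k] D}
  {p : ℕ} {s T T' z z' : D} {β : Type u} {m : β → ℕ} {y : β → ℕ → D} {θ : ℕ → D}
  (h : JT γ p s T T' z z' m y θ) (hp : p.Prime) (hpk : (p : k) = 0)

include h hp hpk in
/-- Smoothness of the explicit algebra. -/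
theorem JT.smooth [IsDomain D] [Finite β]
    (hcard : #(Σ b, Fin (m b)) + (3 + p : ℕ) ≤ Algebra.trdeg k D)
    (hcl : ∀ Z : Subalgebra k D, Acl Z → s ∈ Z → T' ∈ Z → z ∈ Z → (∀ i, θ i ∈ Z) →
      (∀ b i, y b i ∈ Z) → Z = ⊤) :
    Algebra.Smooth k (Gg γ p s T T' z z' m y θ) := by
  let x1 : Fin 3 ⊕ Fin p → D := Sum.elim ![T', θ 0 ^ p - s ^ (p - 1) * θ 0, z]
    fun i => θ (i + 1) * T ^ ((i : ℕ) * p + 1)
  let x : ULift.{u} (Fin 3 ⊕ Fin p) ⊕ (Σ b, Fin (m b)) → D := Sum.elim (fun i => x1 i.down)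
    fun q => (dl γ)^[q.2 % p] (Yp k p s y θ q.1 (q.2 / p)) * T ^ (((q.2 : ℕ) % p) * p)
  have hsm : Algebra.Smooth k (Algebra.adjoin k (Set.range x)) := by
    refine smooth_adjoin x ?_ ?_
    · rw [Cardinal.mk_sum, lift_id, lift_id, mk_uLift, Cardinal.mk_sum]
      simp only [mk_fin, lift_natCast, lift_add]
      rw [add_comm]
      convert hcard using 2
      push_cast
      simp
    · intro Z hZ hx
      have hT' : T' ∈ Z := hx (Sum.inl ⟨Sum.inl 0⟩)
      have hN : θ 0 ^ p - s ^ (p - 1) * θ 0 ∈ Z := hx (Sum.inl ⟨Sum.inl 1⟩)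
      have hz : z ∈ Z := hx (Sum.inl ⟨Sum.inl 2⟩)
      have hth : ∀ i, i < p → θ (i + 1) * T ^ (i * p + 1) ∈ Z := fun i hi =>
        hx (Sum.inl ⟨Sum.inr ⟨i, hi⟩⟩)
      have hZz : ∀ b i, i < m b →
          (dl γ)^[i % p] (Yp k p s y θ b (i / p)) * T ^ ((i % p) * p) ∈ Z := fun b i hi =>
        hx (Sum.inr ⟨b, ⟨i, hi⟩⟩)
      have hz' : z' ∈ Z := hZ.of_inv hz h.zz
      have hth' : ∀ i, i < p → θ (i + 1) ∈ Z := by
        intro i hi
        have h1 := Z.mul_mem (hth i hi) (Z.pow_mem hT' (i * p + 1))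
        rwa [mul_assoc, ← mul_pow, h.TT, one_pow, mul_one] at h1
      have hs : s ∈ Z := by
        have h1 := hth' (p - 1) (by have := hp.pos; omega)
        rwa [Nat.sub_add_cancel hp.one_lt.le, h.tp] at h1
      have h0 : θ 0 ∈ Z := hZ.of_artin hp.one_lt (Z.pow_mem hs (p - 1)) hN rfl
      have hGg : Gg γ p s T T' z z' m y θ ≤ Z := by
        unfold Gg
        rw [Algebra.adjoin_le_iff]
        rintro f (((hf | hf | hf | hf) | ⟨i, hi, rfl⟩) | ⟨b, i, hi, rfl⟩)
        · rw [hf]; exact hT'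
        · rw [hf]; exact hN
        · rw [hf]; exact hz
        · rw [Set.mem_singleton_iff.1 hf]; exact hz'
        · exact hth i hi
        · exact hZz b i hi
      have hR : R0p s z z' y θ ≤ Z := by
        refine (h.R0_le hp hpk).trans ?_
        rw [Algebra.adjoin_le_iff]
        rintro f (hf | hf)
        · exact hGg hf
        · rw [Set.mem_singleton_iff.1 hf]; exact h0
      refine hcl Z hZ hs hT' hz (fun i => hR (Algebra.subset_adjoin (Or.inr ⟨i, rfl⟩)))
        (fun b i => hR (Algebra.subset_adjoin (Or.inl (Or.inr ⟨b, i, rfl⟩))))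
  have hz0 : z ∈ Algebra.adjoin k (Set.range x) :=
    Algebra.subset_adjoin ⟨Sum.inl ⟨Sum.inl 2⟩, rfl⟩
  have heq : lc (Algebra.adjoin k (Set.range x)) z hz0 = Gg γ p s T T' z z' m y θ := by
    apply le_antisymm
    · refine lc_le hz0 h.zz ?_ Gg_z'
      rw [Algebra.adjoin_le_iff]
      rintro _ ⟨(⟨i | i⟩ | ⟨b, i⟩), rfl⟩
      · fin_cases i
        · exact Gg_T'
        · exact Gg_N
        · exact Gg_z
      · exact Gg_t i.2
      · exact Algebra.subset_adjoin (Or.inr ⟨b, i, i.2, rfl⟩)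
    · conv_lhs => unfold Gg
      rw [Algebra.adjoin_le_iff]
      have hle := le_lc (Algebra.adjoin k (Set.range x)) z hz0
      rintro f (((hf | hf | hf | hf) | ⟨i, hi, rfl⟩) | ⟨b, i, hi, rfl⟩)
      · rw [hf]; exact hle (Algebra.subset_adjoin ⟨Sum.inl ⟨Sum.inl 0⟩, rfl⟩)
      · rw [hf]; exact hle (Algebra.subset_adjoin ⟨Sum.inl ⟨Sum.inl 1⟩, rfl⟩)
      · rw [hf]; exact hle (Algebra.subset_adjoin ⟨Sum.inl ⟨Sum.inl 2⟩, rfl⟩)
      · rw [Set.mem_singleton_iff.1 hf]
        exact inv_mem_lc _ _ _ _ h.zz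
      · exact hle (Algebra.subset_adjoin ⟨Sum.inl ⟨Sum.inr ⟨i, hi⟩⟩, rfl⟩)
      · exact hle (Algebra.subset_adjoin ⟨Sum.inr ⟨b, ⟨i, hi⟩⟩, rfl⟩)
  rw [← heq]
  exact smooth_lc hsm hz0 (IsUnit.of_mul_eq_one z' h.zz)

end G

/-- Jordan data in a ring. -/
structure JD {k : Type u} {D : Type u} [Field k] [CommRing D] [Algebra k D] (γ : D →ₐ[k] D)
    (p : ℕ) (s T T' z z' : D) {β : Type u} (m : β → ℕ) (y : β → ℕ → D) : Prop where
  gs : γ s = s
  gT : γ T = T
  gz : γ z = z
  TT : T * T' = 1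
  zz : z * z' = 1
  s0 : s ≠ 0
  y0 : ∀ b i, m b ≤ i → y b i = 0
  y1 : ∀ b i, (i + 1) % p ≠ 0 → dl γ (y b i) = y b (i + 1)
  y2 : ∀ b i, (i + 1) % p = 0 → dl γ (y b i) = s * y b (i + 1)
  mp : ∀ b, m b ≤ p * p

section E

variable {k : Type u} {D : Type u} [Field k] [CommRing D] [Algebra k D] {γ : D →ₐ[k] D}
  {p : ℕ} {s T T' z z' : D} {β : Type u} {m : β → ℕ} {y : β → ℕ → D}
  (h : JD γ p s T T' z z' m y) (hp : p.Prime) (hpk : (p : k) = 0)

lemma dl_ge_C (a : D) : dl (ge γ p s) (C a) = C (dl γ a) := by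
  unfold dl
  rw [ge_C, map_sub]

include h in
/-- The data in the polynomial ring. -/
lemma JD.toJT : JT (ge γ p s) p (C s) (C T) (C T') (C z) (C z') m (fun b i => C (y b i))
    (th p s) where
  gs := by rw [ge_C, h.gs]
  gT := by rw [ge_C, h.gT]
  gz := by rw [ge_C, h.gz]
  TT := by rw [← map_mul, h.TT, map_one]
  zz := by rw [← map_mul, h.zz, map_one]
  s0 := fun h0 => h.s0 (by rwa [map_eq_zero_iff C (C_injective _ _)] at h0)
  y0 := fun b i hi => by rw [h.y0 b i hi, map_zero]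
  y1 := fun b i hi => by rw [dl_ge_C, h.y1 b i hi]
  y2 := fun b i hi => by rw [dl_ge_C, h.y2 b i hi, map_mul]
  mp := h.mp
  t1 := fun i => dl_ge_th γ p s h.gs i
  tp := th_p p s

include h hp hpk in
/-- Smoothness of the universal algebra of the second level. -/
theorem JD.smooth_univ [IsDomain D] [Finite β]
    (hcard : #(Σ b, Fin (m b)) + 3 ≤ Algebra.trdeg k D)
    (hcl : ∀ Z : Subalgebra k D, Acl Z → s ∈ Z → T' ∈ Z → z ∈ Z →
      (∀ b i, y b i ∈ Z) → Z = ⊤) :
    Algebra.Smooth k (S2 (ge γ p s) p (C T) (C T')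
      (R0p (C s) (C z) (C z') (fun b i => C (y b i)) (th p s) ⊓ fx ((ge γ p s) ^ p))
      (th p s 0)) := by
  rw [h.toJT.S2_eq hp hpk]
  refine h.toJT.smooth hp hpk ?_ ?_
  · have h1 : Algebra.trdeg k D + Algebra.trdeg D (MvPolynomial (Fin p) D) =
        Algebra.trdeg k (MvPolynomial (Fin p) D) := trdeg_add_eq k D
    have h2 : Algebra.trdeg D (MvPolynomial (Fin p) D) = p := by
      rw [MvPolynomial.trdeg_of_isDomain]
      simp
    rw [← h1, h2]
    push_cast
    rw [← add_assoc]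
    exact add_le_add hcard le_rfl
  · intro Z hZ hs hT' hz hθ hy
    have h1 : Z.comap (cc k p) = ⊤ := by
      refine hcl _ ?_ hs hT' hz hy
      intro P b hP hc hb
      refine hZ (P.map (C : D →+* MvPolynomial (Fin p) D)) (C b) ?_ ?_ ?_
      · intro h0
        apply hP
        apply Polynomial.map_injective _ (C_injective (Fin p) D)
        rw [h0, Polynomial.map_zero]
      · intro i
        rw [Polynomial.coeff_map]
        exact hc i
      · rw [Polynomial.eval_map, Polynomial.eval₂_at_apply, hb, map_zero]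
    rw [eq_top_iff]
    rintro f -
    induction f using MvPolynomial.induction_on with
    | C a =>
      have h2 : a ∈ Z.comap (cc k p) := by rw [h1]; trivial
      exact h2
    | add f g hf hg => exact Z.add_mem hf hg
    | mul_X f i hf =>
      refine Z.mul_mem hf ?_
      rw [← th_X p s i]
      exact hθ i

/-- The base algebra. -/
def R0 (s z z' : D) (y : β → ℕ → D) : Subalgebra k D :=
  Algebra.adjoin k ({s, z, z'} ∪ {f | ∃ b i, f = y b i})

include h hp hpk in
/-- Smoothness of the algebra of the second level. -/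
theorem JD.smooth_S2 [IsDomain D] [Finite β]
    (hcard : #(Σ b, Fin (m b)) + 3 ≤ Algebra.trdeg k D)
    (hcl : ∀ Z : Subalgebra k D, Acl Z → s ∈ Z → T' ∈ Z → z ∈ Z →
      (∀ b i, y b i ∈ Z) → Z = ⊤) {x x' t : D} (hx : x ∈ R0 (k := k) s z z' y) (hγx : γ x = x)
    (hxx : x * x' = 1) (ht : t ∈ lc (R0 (k := k) s z z' y) x hx) (hts : (γ ^ p) t = t + s) :
    Algebra.Smooth k (S2 γ p T T' (lc (R0 (k := k) s z z' y) x hx ⊓ fx (γ ^ p)) t) := by
  have hpD := cast_p (D := D) (k := k) hpk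
  have hpE := cast_p (D := MvPolynomial (Fin p) D) (k := k) hpk
  set R := R0 (k := k) s z z' y with hR
  set W := lc R x hx ⊓ fx (γ ^ p) with hW
  set Rp := R0p (k := k) (C s : MvPolynomial (Fin p) D) (C z) (C z') (fun b i => C (y b i))
    (th p s) with hRp
  set Wp := Rp ⊓ fx ((ge γ p s) ^ p) with hWp
  set Sp := S2 (ge γ p s) p (C T) (C T') Wp (th p s 0) with hSp
  have hsm : Algebra.Smooth k Sp := h.smooth_univ hp hpk hcard hcl
  have hγx' : γ x' = x' := by
    have h1 : x * γ x' = 1 := by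
      have h2 := congrArg γ hxx
      rwa [map_mul, hγx, map_one] at h2
    calc γ x' = (x * x') * γ x' := by rw [hxx, one_mul]
      _ = (x * γ x') * x' := by ring
      _ = x' := by rw [h1, one_mul]
  have htp : (dl γ)^[p] t = s := by
    rw [dl_iter_p γ hp hpD, ← pow_app, hts]
    ring
  have hge : ∀ n (a : D), (ge γ p s)^[n] (C a) = C (γ^[n] a) := by
    intro n
    induction n with
    | zero => exact fun a => rfl
    | succ n ih => intro a; rw [Function.iterate_succ_apply', ih, ge_C,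
        Function.iterate_succ_apply']
  have hdlge : ∀ n (a : D), (dl (ge γ p s))^[n] (C a) = C ((dl γ)^[n] a) := by
    intro n
    induction n with
    | zero => exact fun a => rfl
    | succ n ih => intro a; rw [Function.iterate_succ_apply', ih, dl_ge_C,
        Function.iterate_succ_apply']
  -- the coefficients
  have hCR : ∀ f ∈ R, C f ∈ Rp := by
    have h1 : R ≤ Rp.comap (cc k p) := by
      rw [hR]
      unfold R0
      rw [Algebra.adjoin_le_iff]
      rintro f ((hf | hf | hf) | ⟨b, i, rfl⟩)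
      · rw [hf]; exact Algebra.subset_adjoin (Or.inl (Or.inl (Or.inl rfl)))
      · rw [hf]; exact Algebra.subset_adjoin (Or.inl (Or.inl (Or.inr (Or.inl rfl))))
      · rw [Set.mem_singleton_iff.1 hf]
        exact Algebra.subset_adjoin (Or.inl (Or.inl (Or.inr (Or.inr rfl))))
      · exact Algebra.subset_adjoin (Or.inl (Or.inr ⟨b, i, rfl⟩))
    exact fun f hf => h1 hf
  have hfxC : ∀ f : D, γ f = f → C f ∈ fx ((ge γ p s) ^ p) := by
    intro f hf
    rw [mem_fx, pow_app, Function.iterate_fixed]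
    rw [ge_C, hf]
  have hX : C x ∈ Sp := S2_W _ p _ _ Wp _ ⟨hCR x hx, hfxC x hγx⟩
  have hXX : (C x : MvPolynomial (Fin p) D) * C x' = 1 := by rw [← map_mul, hxx, map_one]
  have hSpx : Algebra.Smooth k (lc Sp (C x) hX) :=
    smooth_lc hsm hX (IsUnit.of_mul_eq_one (C x') hXX)
  -- general elements of the big localisation
  have hbig : ∀ f : MvPolynomial (Fin p) D, (∃ n : ℕ, C x ^ n * f ∈ Rp) →
      f ∈ fx ((ge γ p s) ^ p) → ∀ i : ℕ,
        (dl (ge γ p s))^[i] f * C T ^ (i * p) ∈ lc Sp (C x) hX := by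
    rintro f ⟨n, hn⟩ hf i
    refine ⟨n, ?_⟩
    have h1 : (C x ^ n : MvPolynomial (Fin p) D) ∈ fx (ge γ p s) := by
      rw [mem_fx, map_pow, ge_C, hγx]
    rw [← mul_assoc, ← dl_iter_fx_mul _ h1]
    refine S2_w _ p _ _ Wp _ ⟨hn, ?_⟩ i
    exact Subalgebra.mul_mem _ (Subalgebra.pow_mem _ (hfxC x hγx) n) hf
  -- the inclusion
  have hincl : ∀ f ∈ S2 γ p T T' W t, cc k p f ∈ lc Sp (C x) hX := by
    have h1 : S2 γ p T T' W t ≤ (lc Sp (C x) hX).comap (cc k p) := by
      refine S2_le γ p T T' _ _ ?_ ?_ ?_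
      · exact le_lc Sp (C x) hX (S2_T' _ p _ _ _ _)
      · rintro w ⟨⟨n, hn⟩, hw⟩ i
        change C ((dl γ)^[i] w * T ^ (i * p)) ∈ lc Sp (C x) hX
        rw [map_mul, map_pow, ← hdlge]
        refine hbig _ ⟨n, ?_⟩ ?_ i
        · rw [← map_pow, ← map_mul]
          exact hCR _ hn
        · rw [mem_fx, pow_app, hge, ← pow_app, mem_fx.1 hw]
      · intro i hi
        change C ((dl γ)^[i + 1] t * T ^ (i * p + 1)) ∈ lc Sp (C x) hX
        have h2 : (dl (ge γ p s))^[i + 1] (C t - th p s 0) * C T ^ ((i + 1) * p) ∈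
            lc Sp (C x) hX := by
          refine hbig _ ?_ ?_ (i + 1)
          · obtain ⟨n, hn⟩ := ht
            refine ⟨n, ?_⟩
            rw [mul_sub, ← map_pow, ← map_mul]
            refine Subalgebra.sub_mem _ (hCR _ hn) (Subalgebra.mul_mem _ ?_ ?_)
            · rw [map_pow]
              exact Subalgebra.pow_mem _ (hCR _ hx) n
            · exact Algebra.subset_adjoin (Or.inr ⟨0, rfl⟩)
          · rw [mem_fx, map_sub, h.toJT.st hp hpk, pow_app, hge, ← pow_app, hts, map_add]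
            ring
        have h3 : (dl (ge γ p s))^[i + 1] (th p s 0) * C T ^ (i * p + 1) ∈ lc Sp (C x) hX :=
          le_lc Sp (C x) hX (S2_t _ p _ _ _ _ hi)
        have h4 : C ((dl γ)^[i + 1] t * T ^ (i * p + 1)) =
            (dl (ge γ p s))^[i + 1] (th p s 0) * C T ^ (i * p + 1) +
            ((dl (ge γ p s))^[i + 1] (C t - th p s 0) * C T ^ ((i + 1) * p)) *
              C T' ^ ((i + 1) * p - (i * p + 1)) := by
          have h5 : i * p + 1 ≤ (i + 1) * p := by
            have := hp.pos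
            rw [add_mul, one_mul]
            omega
          have h6 := T_pow_sub (C T) (C T') h.toJT.TT h5
          rw [map_mul, map_pow, h6, dl_iter_sub, hdlge]
          ring
        rw [h4]
        exact Subalgebra.add_mem _ h3 (Subalgebra.mul_mem _ h2
          (Subalgebra.pow_mem _ (le_lc Sp (C x) hX (S2_T' _ p _ _ _ _)) _))
    exact fun f hf => h1 hf
  -- the retraction
  let ev := evt γ p t
  have hevθ : ∀ i, ev (th p s i) = (dl γ)^[i] t := fun i => evt_th γ p s h.gs t htp i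
  have hev : ∀ f, ev (ge γ p s f) = γ (ev f) := evt_ge γ p s h.gs t htp
  have hevit : ∀ n f, ev ((ge γ p s)^[n] f) = γ^[n] (ev f) := by
    intro n
    induction n with
    | zero => exact fun a => rfl
    | succ n ih => intro a; rw [Function.iterate_succ_apply', hev, ih,
        Function.iterate_succ_apply']
  have hevdl : ∀ n f, ev ((dl (ge γ p s))^[n] f) = (dl γ)^[n] (ev f) := by
    intro n
    induction n with
    | zero => exact fun a => rfl
    | succ n ih =>
      intro a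
      rw [Function.iterate_succ_apply', Function.iterate_succ_apply', ← ih]
      unfold dl
      rw [map_sub, hev]
  have hγR : ∀ f ∈ R, γ f ∈ R := by
    have h1 : R ≤ R.comap γ := by
      conv_lhs => rw [hR]
      unfold R0
      rw [Algebra.adjoin_le_iff]
      have hs : s ∈ R := Algebra.subset_adjoin (Or.inl (Or.inl rfl))
      have hz : z ∈ R := Algebra.subset_adjoin (Or.inl (Or.inr (Or.inl rfl)))
      have hz' : z' ∈ R := Algebra.subset_adjoin (Or.inl (Or.inr (Or.inr rfl)))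
      have hy : ∀ b i, y b i ∈ R := fun b i => Algebra.subset_adjoin (Or.inr ⟨b, i, rfl⟩)
      have hgz' : γ z' = z' := by
        have h1 : z * γ z' = 1 := by
          have h2 := congrArg γ h.zz
          rwa [map_mul, h.gz, map_one] at h2
        calc γ z' = (z * z') * γ z' := by rw [h.zz, one_mul]
          _ = (z * γ z') * z' := by ring
          _ = z' := by rw [h1, one_mul]
      rintro f ((hf | hf | hf) | ⟨b, i, rfl⟩)
      · rw [hf]; change γ s ∈ R; rw [h.gs]; exact hs
      · rw [hf]; change γ z ∈ R; rw [h.gz]; exact hz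
      · rw [Set.mem_singleton_iff.1 hf]; change γ z' ∈ R; rw [hgz']; exact hz'
      · change γ (y b i) ∈ R
        rw [eq_add_dl]
        refine R.add_mem (hy b i) ?_
        by_cases hi : (i + 1) % p = 0
        · rw [h.y2 b i hi]; exact R.mul_mem hs (hy _ _)
        · rw [h.y1 b i hi]; exact hy _ _
    exact fun f hf => h1 hf
  have hγlc : ∀ f ∈ lc R x hx, γ f ∈ lc R x hx := by
    rintro f ⟨n, hn⟩
    refine ⟨n, ?_⟩
    have h1 := hγR _ hn
    rwa [map_mul, map_pow, hγx] at h1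
  have hevRp : ∀ f ∈ Rp, ev f ∈ lc R x hx := by
    have h1 : Rp ≤ (lc R x hx).comap ev := by
      rw [hRp]
      unfold R0p
      rw [Algebra.adjoin_le_iff]
      have hle := le_lc R x hx
      rintro f (((hf | hf | hf) | ⟨b, i, rfl⟩) | ⟨i, rfl⟩)
      · rw [hf]; change ev (C s) ∈ lc R x hx; rw [evt_C]
        exact hle (Algebra.subset_adjoin (Or.inl (Or.inl rfl)))
      · rw [hf]; change ev (C z) ∈ lc R x hx; rw [evt_C]
        exact hle (Algebra.subset_adjoin (Or.inl (Or.inr (Or.inl rfl))))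
      · rw [Set.mem_singleton_iff.1 hf]; change ev (C z') ∈ lc R x hx; rw [evt_C]
        exact hle (Algebra.subset_adjoin (Or.inl (Or.inr (Or.inr rfl))))
      · change ev (C (y b i)) ∈ lc R x hx; rw [evt_C]
        exact hle (Algebra.subset_adjoin (Or.inr ⟨b, i, rfl⟩))
      · change ev (th p s i) ∈ lc R x hx
        rw [hevθ]
        exact dl_iter_mem γ hγlc i ht
    exact fun f hf => h1 hf
  have hxW : x' ∈ W := by
    refine ⟨inv_mem_lc _ _ _ _ hxx, ?_⟩
    rw [SetLike.mem_coe, mem_fx, pow_app, Function.iterate_fixed hγx']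
  have hret : ∀ f ∈ lc Sp (C x) hX, ev f ∈ S2 γ p T T' W t := by
    have h1 : Sp ≤ (S2 γ p T T' W t).comap ev := by
      refine S2_le _ p _ _ _ _ ?_ ?_ ?_
      · change ev (C T') ∈ S2 γ p T T' W t
        rw [evt_C]
        exact S2_T' γ p T T' W t
      · rintro w ⟨hw1, hw2⟩ i
        change ev ((dl (ge γ p s))^[i] w * C T ^ (i * p)) ∈ S2 γ p T T' W t
        rw [map_mul, map_pow, evt_C, hevdl]
        refine S2_w γ p T T' W t ⟨hevRp w hw1, ?_⟩ i
        rw [SetLike.mem_coe, mem_fx] at hw2 ⊢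
        rw [pow_app, ← hevit, ← pow_app, hw2]
      · intro i hi
        change ev ((dl (ge γ p s))^[i + 1] (th p s 0) * C T ^ (i * p + 1)) ∈ S2 γ p T T' W t
        rw [map_mul, map_pow, evt_C, hevdl, hevθ]
        exact S2_t γ p T T' W t hi
    rintro f ⟨n, hn⟩
    have h2 := h1 hn
    change ev (C x ^ n * f) ∈ S2 γ p T T' W t at h2
    rw [map_mul, map_pow, evt_C] at h2
    have h3 : ev f = x' ^ n * (x ^ n * ev f) := by
      rw [← mul_assoc, ← mul_pow, mul_comm x', hxx, one_pow, one_mul]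
    rw [h3]
    exact Subalgebra.mul_mem _ (Subalgebra.pow_mem _ (S2_W γ p T T' W t hxW) n) h2
  let i : S2 γ p T T' W t →ₐ[k] lc Sp (C x) hX :=
    ((cc k p).comp (S2 γ p T T' W t).val).codRestrict _ fun f => hincl f.1 f.2
  let r : lc Sp (C x) hX →ₐ[k] S2 γ p T T' W t :=
    (ev.comp (lc Sp (C x) hX).val).codRestrict _ fun f => hret f.1 f.2
  have hri : ∀ a, r (i a) = a := by
    intro a
    apply Subtype.ext
    exact evt_C γ p t _
  have h1 : Algebra.FormallySmooth k (S2 γ p T T' W t) := H920R2.formallySmooth_retract i r hri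
  have h2 : Algebra.FiniteType k (S2 γ p T T' W t) :=
    Algebra.FiniteType.of_surjective r fun a => ⟨i a, hri a⟩
  have h3 : Algebra.FinitePresentation k (S2 γ p T T' W t) :=
    Algebra.FinitePresentation.of_finiteType.1 h2
  exact ⟨h1, h3⟩

end E

end Pool.Agent.W559.Mg
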