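import Pool.Agent.W559.Mg.U6

set_option autoImplicit false
set_option linter.unusedSectionVars false

open Cardinal

universe u v w

namespace Pool.Agent.W559.Mg

/-- Linear data: a family of Jordan chains of eigenvectors. -/
structure LD {k K : Type u} [Field k] [Field K] [Algebra k K] (γ h : K →ₐ[k] K) (p M : ℕ) (ω : k)
    {β : Type u} (m χ : β → ℕ) (y : β → ℕ → K) : Prop where
  y0 : ∀ b i, m b ≤ i → y b i = 0
  yd : ∀ b i, dl γ (y b i) = y b (i + 1)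
  mp : ∀ b, m b ≤ p * p
  mpos : ∀ b, 0 < m b
  yh : ∀ b i, h (y b i) = algebraMap k K (ω ^ χ b) * y b i
  ai : AlgebraicIndependent k fun q : Σ b, Fin (m b) => y q.1 q.2
  fr : ∀ a : K, ∃ b c, b ∈ Algebra.adjoin k {f | ∃ b i, f = y b i} ∧
    c ∈ Algebra.adjoin k {f | ∃ b i, f = y b i} ∧ c ≠ 0 ∧ c * a = b
  M0 : 0 < M
  Mk : (M : k) ≠ 0
  om : IsPrimitiveRoot ω M
  gen : AddSubgroup.closure ({(M : ℤ)} ∪ Set.range fun b => (χ b : ℤ)) = ⊤
  gp : ∀ x : K, γ^[p * p] x = x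

section base

variable {k K : Type u} [Field k] [Field K] [Algebra k K]

/-- The polynomial algebra. -/
def Bp (k : Type u) {K : Type u} [Field k] [Field K] [Algebra k K] {β : Type u} (y : β → ℕ → K) :
    Subalgebra k K := Algebra.adjoin k {f | ∃ b i, f = y b i}

lemma mo_dg_inj {d d' : G3} {a a' : K} (h : mo d a = mo d' a') (ha : a ≠ 0) : d = d' ∧ a = a' := by
  classical
  have h1 : d = d' := by
    by_contra hne
    have h2 := congrArg (fun f => f.coeff d) h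
    rw [coeff_mo_same, coeff_mo_ne (Ne.symm hne)] at h2
    exact ha h2
  subst h1
  exact ⟨rfl, mo_inj h⟩

variable {γ h : K →ₐ[k] K} {p M : ℕ} {ω : k} {β : Type u} {m χ : β → ℕ} {y : β → ℕ → K}
  (D : LD γ h p M ω m χ y)

include D in
lemma LD.ne {b : β} {i : ℕ} (hi : i < m b) : y b i ≠ 0 := D.ai.ne_zero ⟨b, ⟨i, hi⟩⟩

include D in
lemma LD.yit (b : β) (i n : ℕ) : (dl γ)^[n] (y b i) = y b (i + n) := by
  induction n generalizing i with
  | zero => rfl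
  | succ n ih =>
    rw [Function.iterate_succ_apply, D.yd, ih]
    congr 1
    ring

/-- A homogeneous generator. -/
noncomputable def yl (w : ℕ → ℤ) (χ : β → ℕ) (y : β → ℕ → K) (b : β) (i : ℕ) : ML K G3 :=
  mo (dg (w i) 0 (χ b)) (y b i)

/-- Closure property. -/
lemma acl_top (w : ℕ → ℤ) (D : LD γ h p M ω m χ y) (Z : Subalgebra k (ML K G3)) (hZ : Acl Z)
    (hs : mo (dg (-1) 0 0) 1 ∈ Z) (hT : mo (dg 0 (-1) 0) 1 ∈ Z) (hz : mo (dg 0 0 M) 1 ∈ Z)
    (hy : ∀ b i, yl w χ y b i ∈ Z) : Z = ⊤ := by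
  have h1 : mo (dg 1 0 0) 1 ∈ Z := hZ.of_inv hs (by
    rw [mo_mul, dg_add, one_mul]; rfl)
  have h2 : mo (dg 0 1 0) 1 ∈ Z := hZ.of_inv hT (by
    rw [mo_mul, dg_add, one_mul]; rfl)
  have h3 : mo (dg 0 0 1) 1 ∈ Z := by
    refine hZ.of_pow D.M0 ?_
    rw [mo_pow, one_pow, dg_nsmul, mul_zero, mul_one]
    exact hz
  have h4 : mo (dg 0 0 (-1)) 1 ∈ Z := hZ.of_inv h3 (by
    rw [mo_mul, dg_add, one_mul]; rfl)
  have hi : ∀ (d : G3), mo d 1 ∈ Z → mo (-d) 1 ∈ Z → ∀ n : ℤ, mo (n • d) 1 ∈ Z := by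
    intro d hd hd' n
    have h5 := zpow_mem' (u := (1 : K)) hd (by rwa [inv_one]) n
    rwa [one_zpow] at h5
  have hall : ∀ a b c : ℤ, mo (dg a b c) 1 ∈ Z := by
    intro a b c
    have e1 := hi _ h1 hs a
    have e2 := hi _ h2 hT b
    have e3 := hi _ h3 h4 c
    have e4 := Z.mul_mem (Z.mul_mem e1 e2) e3
    rw [mo_mul, mo_mul, one_mul, one_mul] at e4
    have e5 : a • dg 1 0 0 + b • dg 0 1 0 + c • dg 0 0 1 = dg a b c := by
      unfold dg
      ext <;> simp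
    rwa [e5] at e4
  have hy0 : ∀ b i, mo 0 (y b i) ∈ Z := by
    intro b i
    have e1 := Z.mul_mem (hy b i) (hall (-(w i)) 0 (-(χ b)))
    unfold yl at e1
    rw [mo_mul, mul_one, dg_add, add_neg_cancel, add_neg_cancel] at e1
    exact e1
  have hB : ∀ x ∈ Bp k y, mo 0 x ∈ Z := by
    intro x hx
    have e1 : Bp k y ≤ Z.comap (zr k K G3) := by
      unfold Bp
      rw [Algebra.adjoin_le_iff]
      rintro _ ⟨b, i, rfl⟩
      exact hy0 b i
    exact e1 hx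
  have hK : ∀ x : K, mo 0 x ∈ Z := by
    intro x
    obtain ⟨b, c, hb, hc, hc0, hcb⟩ := D.fr x
    refine hZ.of_mul (hB c hc) (mo_ne_zero hc0) ?_
    rw [mo_mul, add_zero, hcb]
    exact hB b hb
  rw [eq_top_iff]
  rintro f -
  apply mem_of_comp
  intro d
  have e1 := Z.mul_mem (hall d.1 d.2.1 d.2.2.1) (hK (f.coeff d))
  rw [mo_mul, one_mul, add_zero] at e1
  exact e1

include D in
lemma LD.card : #(Σ b, Fin (m b)) + 3 ≤ Algebra.trdeg k (ML K G3) :=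
  trdeg_ML (fun q : Σ b, Fin (m b) => y q.1 q.2) D.ai

/-- Smoothness of the basic algebras. -/
lemma smooth_basic (w : ℕ → ℤ) (D : LD γ h p M ω m χ y) [Finite β] :
    Algebra.Smooth k (Algebra.adjoin k
      ({mo (dg (-1) 0 0) 1, mo (dg 0 (-1) 0) 1, mo (dg 0 0 M) 1} ∪
        {f | ∃ b i, f = yl w χ y b i})) := by
  let x1 : Fin 3 → ML K G3 := ![mo (dg (-1) 0 0) 1, mo (dg 0 (-1) 0) 1, mo (dg 0 0 M) 1]
  let x : ULift.{u} (Fin 3) ⊕ (Σ b, Fin (m b)) → ML K G3 := Sum.elim (fun i => x1 i.down)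
    fun q => yl w χ y q.1 q.2
  have heq : Algebra.adjoin k (Set.range x) = Algebra.adjoin k
      ({mo (dg (-1) 0 0) 1, mo (dg 0 (-1) 0) 1, mo (dg 0 0 M) 1} ∪
        {f | ∃ b i, f = yl w χ y b i}) := by
    apply le_antisymm
    · rw [Algebra.adjoin_le_iff]
      rintro _ ⟨(⟨i⟩ | ⟨b, i⟩), rfl⟩
      · fin_cases i
        · exact Algebra.subset_adjoin (Or.inl (Or.inl rfl))
        · exact Algebra.subset_adjoin (Or.inl (Or.inr (Or.inl rfl)))
        · exact Algebra.subset_adjoin (Or.inl (Or.inr (Or.inr rfl)))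
      · exact Algebra.subset_adjoin (Or.inr ⟨b, i, rfl⟩)
    · rw [Algebra.adjoin_le_iff]
      rintro f ((hf | hf | hf) | ⟨b, i, rfl⟩)
      · rw [hf]; exact Algebra.subset_adjoin ⟨Sum.inl ⟨0⟩, rfl⟩
      · rw [hf]; exact Algebra.subset_adjoin ⟨Sum.inl ⟨1⟩, rfl⟩
      · rw [Set.mem_singleton_iff.1 hf]; exact Algebra.subset_adjoin ⟨Sum.inl ⟨2⟩, rfl⟩
      · by_cases hi : i < m b
        · exact Algebra.subset_adjoin ⟨Sum.inr ⟨b, ⟨i, hi⟩⟩, rfl⟩
        · unfold yl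
          rw [D.y0 b i (by omega), mo_zero]
          exact Subalgebra.zero_mem _
  rw [← heq]
  refine smooth_adjoin x ?_ ?_
  · rw [Cardinal.mk_sum, lift_id, lift_id, mk_uLift]
    simp only [mk_fin, lift_natCast]
    rw [add_comm]
    exact D.card
  · intro Z hZ hx
    refine acl_top w D Z hZ (hx (Sum.inl ⟨0⟩)) (hx (Sum.inl ⟨1⟩)) (hx (Sum.inl ⟨2⟩)) ?_
    intro b i
    by_cases hi : i < m b
    · exact hx (Sum.inr ⟨b, ⟨i, hi⟩⟩)
    · unfold yl
      rw [D.y0 b i (by omega), mo_zero]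
      exact Subalgebra.zero_mem _

end base

end Pool.Agent.W559.Mg
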