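import Pool.Agent.W559.Mg.V1

set_option autoImplicit false
set_option linter.unusedSectionVars false

open Cardinal

universe u v w

namespace Pool.Agent.W559.Mg

section hom

variable {k K : Type u} [Field k] [Field K] [Algebra k K]

/-- Change of degrees. -/
noncomputable def chd (k : Type u) {K : Type u} [Field k] [Field K] [Algebra k K]
    (δ : G3 →+ G3) : ML K G3 →ₐ[k] ML K G3 :=
  (AddMonoidAlgebra.mapDomainAlgHom K K δ).restrictScalars k

lemma chd_mo (δ : G3 →+ G3) (d : G3) (a : K) : chd k δ (mo d a) = mo (δ d) a := by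
  change AddMonoidAlgebra.mapDomain δ (AddMonoidAlgebra.single d a) = _
  rw [AddMonoidAlgebra.mapDomain_single]
  rfl

/-- The augmentation. -/
noncomputable def aug (k : Type u) {K : Type u} [Field k] [Field K] [Algebra k K] :
    ML K G3 →ₐ[k] K :=
  (AddMonoidAlgebra.lift K K G3 1).restrictScalars k

lemma aug_mo (d : G3) (a : K) : aug k (mo d a) = a := by
  change (AddMonoidAlgebra.lift K K G3 1) (AddMonoidAlgebra.single d a) = a
  rw [AddMonoidAlgebra.lift_single]
  simp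

/-- Forget the first coordinate. -/
def fo1 : G3 →+ G3 where
  toFun d := dg 0 d.2.1 d.2.2.1
  map_zero' := rfl
  map_add' a b := by unfold dg; ext <;> simp

/-- Forget the second coordinate. -/
def fo2 : G3 →+ G3 where
  toFun d := dg d.1 0 d.2.2.1
  map_zero' := rfl
  map_add' a b := by unfold dg; ext <;> simp

lemma fo1_dg (a b c : ℤ) : fo1 (dg a b c) = dg 0 b c := rfl
lemma fo2_dg (a b c : ℤ) : fo2 (dg a b c) = dg a 0 c := rfl

end hom

section level0

variable {k K : Type u} [Field k] [Field K] [Algebra k K]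
  {γ h : K →ₐ[k] K} {p M : ℕ} {ω : k} {β : Type u} {m χ : β → ℕ} {y : β → ℕ → K}
  (D : LD γ h p M ω m χ y)

/-- The algebra of level zero. -/
noncomputable def C0 (k : Type u) {K : Type u} [Field k] [Field K] [Algebra k K] (M : ℕ)
    {β : Type u} (χ : β → ℕ) (y : β → ℕ → K) : Subalgebra k (ML K G3) :=
  Algebra.adjoin k ({f | ∃ a b c : ℤ, f = mo (dg a b (M * c)) 1} ∪
    {f | ∃ b i, f = yl (fun _ => 0) χ y b i})

lemma C0_mo (a b c : ℤ) : mo (dg a b (M * c)) 1 ∈ C0 k M χ y :=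
  Algebra.subset_adjoin (Or.inl ⟨a, b, c, rfl⟩)

lemma C0_y (b : β) (i : ℕ) : yl (fun _ => 0) χ y b i ∈ C0 k M χ y :=
  Algebra.subset_adjoin (Or.inr ⟨b, i, rfl⟩)

lemma gr_C0 : Gr (C0 k M χ y) := by
  refine gr_adjoin _ ?_
  rintro f (⟨a, b, c, rfl⟩ | ⟨b, i, rfl⟩)
  · exact ⟨_, _, rfl⟩
  · exact ⟨_, _, rfl⟩

/-- The weights. -/
def wtAlg (h : K →ₐ[k] K) (ω : k) (hω : ω ≠ 0) (y : β → ℕ → K) : Subalgebra k (ML K G3) where
  carrier := {f | ∀ d, f.coeff d ∈ Bp k y ∧ h (f.coeff d) = algebraMap k K (ω ^ (co3 d)) * f.coeff d}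
  mul_mem' := by
    intro f g hf hg d
    rw [coeff_mul_sum]
    refine ⟨Subalgebra.sum_mem _ fun a _ => Subalgebra.mul_mem _ (hf a).1 (hg _).1, ?_⟩
    rw [map_sum, Finset.mul_sum]
    refine Finset.sum_congr rfl fun a _ => ?_
    rw [map_mul, (hf a).2, (hg (d - a)).2]
    have h1 : ω ^ (co3 d) = ω ^ (co3 a) * ω ^ (co3 (d - a)) := by
      rw [← zpow_add₀ hω, ← map_add, add_sub_cancel]
    rw [h1, map_mul]
    ring
  add_mem' := by
    intro f g hf hg d
    rw [coeff_add']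
    refine ⟨Subalgebra.add_mem _ (hf d).1 (hg d).1, ?_⟩
    rw [map_add, (hf d).2, (hg d).2]
    ring
  algebraMap_mem' := by
    classical
    intro r d
    rw [algebraMap_ML, coeff_mo]
    split_ifs with hd
    · rw [← hd]
      refine ⟨Subalgebra.algebraMap_mem _ _, ?_⟩
      rw [AlgHom.commutes, map_zero, zpow_zero, map_one, one_mul]
    · refine ⟨Subalgebra.zero_mem _, ?_⟩
      rw [map_zero, mul_zero]

lemma wt_mo (h : K →ₐ[k] K) (ω : k) (hω : ω ≠ 0) (y : β → ℕ → K) {d : G3} {a : K}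
    (ha : a ∈ Bp k y) (hha : h a = algebraMap k K (ω ^ (co3 d)) * a) :
    mo d a ∈ wtAlg h ω hω y := by
  classical
  intro d'
  rw [coeff_mo]
  split_ifs with hd
  · rw [← hd]; exact ⟨ha, hha⟩
  · refine ⟨Subalgebra.zero_mem _, ?_⟩
    rw [map_zero, mul_zero]

include D in
lemma LD.om0 : ω ≠ 0 := D.om.ne_zero (by have := D.M0; omega)

include D in
lemma LD.C0_le : C0 k M χ y ≤ wtAlg h ω D.om0 y := by
  unfold C0
  rw [Algebra.adjoin_le_iff]
  rintro f (⟨a, b, c, rfl⟩ | ⟨b, i, rfl⟩)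
  · refine wt_mo h ω D.om0 y (Subalgebra.one_mem _) ?_
    rw [co3_dg, map_one, zpow_mul, zpow_natCast, D.om.pow_eq_one, one_zpow, map_one, mul_one]
  · refine wt_mo h ω D.om0 y (Algebra.subset_adjoin ⟨b, i, rfl⟩) ?_
    rw [co3_dg, zpow_natCast, D.yh]

include D in
lemma LD.C0_coeff {d : G3} {a : K} (ha : mo d a ∈ C0 k M χ y) :
    a ∈ Bp k y ∧ h a = algebraMap k K (ω ^ (co3 d)) * a := by
  have h1 := D.C0_le ha d
  rwa [coeff_mo_same] at h1

include D in
lemma LD.sum_om (c : ℤ) : ∑ j ∈ Finset.range M, ω ^ ((j : ℤ) * c) =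
    if (M : ℤ) ∣ c then (M : k) else 0 := by
  split_ifs with hc
  · obtain ⟨e, rfl⟩ := hc
    rw [Finset.sum_congr rfl (g := fun _ => (1 : k))]
    · simp
    · intro j _
      have : (j : ℤ) * (M * e) = M * (j * e) := by ring
      rw [this, zpow_mul, zpow_natCast, D.om.pow_eq_one, one_zpow]
  · have h1 : ω ^ c ≠ 1 := by
      intro h1
      exact hc ((D.om.zpow_eq_one_iff_dvd c).1 h1)
    have h2 : ∑ j ∈ Finset.range M, ω ^ ((j : ℤ) * c) = ∑ j ∈ Finset.range M, (ω ^ c) ^ j := by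
      refine Finset.sum_congr rfl fun j _ => ?_
      rw [mul_comm, zpow_mul, zpow_natCast]
    rw [h2]
    have h3 := mul_neg_geom_sum (ω ^ c) M
    have h4 : (ω ^ c) ^ M = 1 := by
      rw [← zpow_natCast, ← zpow_mul, mul_comm, zpow_mul, zpow_natCast, D.om.pow_eq_one, one_zpow]
    rw [h4, sub_self] at h3
    exact (mul_eq_zero.1 h3).resolve_left (sub_ne_zero.2 (Ne.symm h1))

include D in
/-- Invariant elements belong to the algebra of level zero. -/
lemma LD.mem_C0 {x : K} (hx : x ∈ Bp k y) (hhx : h x = x) : mo 0 x ∈ C0 k M χ y := by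
  classical
  -- lift of `x`
  obtain ⟨f, hf, hfx⟩ : ∃ f ∈ C0 k M χ y, aug k f = x := by
    have h1 : Bp k y ≤ (C0 k M χ y).map (aug k) := by
      unfold Bp
      rw [Algebra.adjoin_le_iff]
      rintro _ ⟨b, i, rfl⟩
      exact ⟨_, C0_y b i, aug_mo (k := k) _ _⟩
    obtain ⟨f, hf, hfx⟩ := h1 hx
    exact ⟨f, hf, hfx⟩
  have hfw := D.C0_le hf
  have hsum : x = ∑ d ∈ f.coeff.support, f.coeff d := by
    rw [← hfx]
    conv_lhs => rw [eq_sum_mo f, map_sum]
    exact Finset.sum_congr rfl fun d _ => aug_mo (k := k) _ _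
  have hit : ∀ j : ℕ, h^[j] x = x := fun j => Function.iterate_fixed hhx j
  have hitf : ∀ (j : ℕ) d, h^[j] (f.coeff d) = algebraMap k K (ω ^ ((j : ℤ) * co3 d)) *
      f.coeff d := by
    intro j d
    induction j with
    | zero => simp
    | succ j ih =>
      rw [Function.iterate_succ_apply', ih, map_mul, AlgHom.commutes, (hfw d).2, ← mul_assoc,
        ← map_mul, ← zpow_add₀ D.om0]
      congr 3
      push_cast
      ring
  have hitx : ∀ j : ℕ, x = ∑ d ∈ f.coeff.support, algebraMap k K (ω ^ ((j : ℤ) * co3 d)) *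
      f.coeff d := by
    intro j
    have h1 : ∀ (j : ℕ) (s : Finset G3), h^[j] (∑ d ∈ s, f.coeff d) =
        ∑ d ∈ s, h^[j] (f.coeff d) := by
      intro j s
      induction j with
      | zero => rfl
      | succ j ih => rw [Function.iterate_succ_apply', ih, map_sum]; exact
          Finset.sum_congr rfl fun d _ => (Function.iterate_succ_apply' _ _ _).symm
    rw [← hit j]
    conv_lhs => rw [hsum]
    rw [h1]
    exact Finset.sum_congr rfl fun d _ => hitf j d
  have hMx : (M : K) * x = (M : K) * ∑ d ∈ f.coeff.support,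
      if (M : ℤ) ∣ co3 d then f.coeff d else 0 := by
    have h1 : (M : K) * x = ∑ j ∈ Finset.range M, x := by
      rw [Finset.sum_const, Finset.card_range, nsmul_eq_mul]
    rw [h1, Finset.sum_congr rfl fun j _ => hitx j, Finset.sum_comm, Finset.mul_sum]
    refine Finset.sum_congr rfl fun d _ => ?_
    rw [← Finset.sum_mul, ← map_sum, D.sum_om]
    split_ifs
    · rw [map_natCast]
    · rw [map_zero, zero_mul, mul_zero]
  have hMK : (M : K) ≠ 0 := by
    intro h0
    apply D.Mk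
    apply (algebraMap k K).injective
    rw [map_natCast, map_zero, h0]
  have hx' := mul_left_cancel₀ hMK hMx
  rw [hx', mo_sum]
  refine Subalgebra.sum_mem _ fun d _ => ?_
  split_ifs with hd
  · obtain ⟨e, he⟩ := hd
    have h1 := (C0 k M χ y).mul_mem (gr_C0 f hf d) (C0_mo (-d.1) (-d.2.1) (-e))
    rw [mo_mul, mul_one] at h1
    have h2 : d + dg (-d.1) (-d.2.1) (M * -e) = 0 := by
      have h3 : d.2.2.1 = M * e := he
      unfold dg
      ext <;> simp
      rw [h3]; ring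
    rwa [h2] at h1
  · rw [mo_zero]; exact Subalgebra.zero_mem _

end level0

section pa0

variable {k A K : Type u} [Field k] [CommRing A] [IsDomain A] [Algebra k A] [Field K]
  [Algebra k K] {g : A →ₐ[k] K} {γ h : K →ₐ[k] K} {p M : ℕ} {ω : k} {β : Type u} {m χ : β → ℕ}
  {y : β → ℕ → K} (D : LD γ h p M ω m χ y)

/-- The ring of invariants. -/
structure IV (g : A →ₐ[k] K) (γ h : K →ₐ[k] K) (y : β → ℕ → K) : Prop where
  mem : ∀ a, g a ∈ Bp k y ∧ γ (g a) = g a ∧ h (g a) = g a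
  sur : ∀ x ∈ Bp k y, γ x = x → h x = x → ∃ a, g a = x
  val : ∀ V : ValuationSubring K, (∀ a, g a ∈ V) → ∀ b i, y b i ∈ V

include D in
/-- The atlas of level zero. -/
theorem LD.pa0 (I : IV g γ h y) : PA g (fx (gm G3 γ)) M (fun _ : PUnit.{u + 1} => C0 k M χ y)
    (fun _ => 1) where
  H0 := fun _ => one_ne_zero
  hA := fun _ => ⟨1, (map_one g).symm⟩
  gr := fun _ => gr_inf gr_C0 (gr_fx γ)
  aa := fun _ a => ⟨D.mem_C0 (I.mem a).1 (I.mem a).2.2, by
    rw [SetLike.mem_coe, mem_fx, gm_mo, (I.mem a).2.1]⟩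
  Fi := fun d a ha hd => by
    rw [mem_fx, gm_mo] at hd ⊢
    rw [map_inv₀, mo_inj hd]
  rt := fun _ _ => by
    rw [div_one, mo_one]
    exact Subalgebra.one_mem _
  gl := fun _ _ f hf => ⟨0, by rw [pow_zero, one_mul]; exact hf.1⟩
  dn := fun _ x hx => by
    have h1 := D.C0_coeff hx.1
    have h2 := hx.2
    rw [SetLike.mem_coe, mem_fx, gm_mo] at h2
    obtain ⟨a, ha⟩ := I.sur x h1.1 (mo_inj h2) (by
      have h3 := h1.2
      rwa [map_zero, zpow_zero, map_one, one_mul] at h3)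
    exact ⟨0, a, by rw [pow_zero, one_mul, ha]⟩
  cv := fun V hV => by
    refine ⟨PUnit.unit, 1, fun _ => 1, ?_⟩
    refine nrm_adjoin one_pos (fun _ => one_ne_zero) (fun _ _ => (one_mul 1).symm) ?_ _ ?_
    · intro r
      have h1 := hV (algebraMap k A r)
      rwa [AlgHom.commutes] at h1
    · rintro f (⟨a, b, c, rfl⟩ | ⟨b, i, rfl⟩) d
      · refine nrm_mo (ψ := fun _ => 1) one_pos ?_ d
        rw [map_one, one_pow]
      · refine nrm_mo (ψ := fun _ => 1) one_pos ?_ d
        rw [pow_one]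
        exact (V.valuation_le_one_iff _).2 (I.val V hV b i)
  E0 := D.M0
  un := fun _ d => by
    refine ⟨1, one_ne_zero, ⟨?_, ?_⟩, ⟨?_, ?_⟩⟩
    · rw [eq_dg d, dg_nsmul]
      exact C0_mo _ _ _
    · rw [SetLike.mem_coe, mem_fx, gm_mo, map_one]
    · rw [eq_dg d, dg_nsmul, dg_neg, inv_one, ← mul_neg (M : ℤ) d.2.2.1]
      exact C0_mo _ _ _
    · rw [SetLike.mem_coe, mem_fx, gm_mo, inv_one, map_one]
  gen := fun _ => by
    set P := AddSubgroup.closure {d : G3 | ∃ a : K, a ≠ 0 ∧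
      mo d a ∈ C0 k M χ y ⊓ fx (gm G3 γ)} with hP
    have hmo : ∀ a b c : ℤ, dg a b (M * c) ∈ P := fun a b c =>
      AddSubgroup.subset_closure ⟨1, one_ne_zero, C0_mo a b c, by
        rw [SetLike.mem_coe, mem_fx, gm_mo, map_one]⟩
    have hy : ∀ b, dg 0 0 (χ b) ∈ P := by
      intro b
      have hb := D.mpos b
      refine AddSubgroup.subset_closure ⟨y b (m b - 1), D.ne (by omega), C0_y b _, ?_⟩
      rw [SetLike.mem_coe, mem_fx, gm_mo, eq_add_dl, D.yd, D.y0 b (m b - 1 + 1) (by omega), add_zero]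
    have h1 : AddSubgroup.closure ({(M : ℤ)} ∪ Set.range fun b => (χ b : ℤ)) ≤
        P.comap (AddMonoidHom.mk' (fun c : ℤ => dg 0 0 c) (fun a b => by
          unfold dg; ext <;> simp)) := by
      rw [AddSubgroup.closure_le]
      rintro c (hc | ⟨b, rfl⟩)
      · rw [Set.mem_singleton_iff.1 hc]
        have h2 := hmo 0 0 1
        rw [mul_one] at h2
        exact h2
      · exact hy b
    rw [D.gen] at h1
    have h2 : dg 0 0 1 ∈ P := h1 (AddSubgroup.mem_top (1 : ℤ))
    have h3 := hmo 1 0 0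
    have h4 := hmo 0 1 0
    rw [mul_zero] at h3 h4
    rw [eq_top_iff]
    rintro d -
    have h5 : d = d.1 • dg 1 0 0 + d.2.1 • dg 0 1 0 + d.2.2.1 • dg 0 0 1 := by
      unfold dg
      ext <;> simp
    rw [h5]
    exact P.add_mem (P.add_mem (P.zsmul_mem h3 _) (P.zsmul_mem h4 _)) (P.zsmul_mem h2 _)

end pa0

end Pool.Agent.W559.Mg
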