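import Pool.Agent.W559.Mg.V2

set_option autoImplicit false
set_option linter.unusedSectionVars false

open Cardinal

universe u v w

namespace Pool.Agent.W559.Mg

section lev

variable {k K : Type u} [Field k] [Field K] [Algebra k K]
  {γ h : K →ₐ[k] K} {p M : ℕ} {ω : k} {β : Type u} {m χ : β → ℕ} {y : β → ℕ → K}
  (D : LD γ h p M ω m χ y)

/-- The generators of the algebra of the first level. -/
def X1 (k : Type u) {K : Type u} [Field k] [Field K] [Algebra k K] (M : ℕ) (w : ℕ → ℤ)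
    {β : Type u} (χ : β → ℕ) (y : β → ℕ → K) : Set (ML K G3) :=
  ({mo (dg (-1) 0 0) 1, mo (dg 0 0 M) 1, mo (dg 0 0 (-M)) 1} ∪ {f | ∃ b i, f = yl w χ y b i}) ∪
    {mo (dg 0 1 0) 1, mo (dg 0 (-1) 0) 1}

/-- The algebra of the first level. -/
noncomputable def R1 (k : Type u) {K : Type u} [Field k] [Field K] [Algebra k K] (M : ℕ)
    (w : ℕ → ℤ) {β : Type u} (χ : β → ℕ) (y : β → ℕ → K) : Subalgebra k (ML K G3) :=
  Algebra.adjoin k (X1 k M w χ y)

variable (w : ℕ → ℤ)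

lemma R1_s : mo (dg (-1) 0 0) 1 ∈ R1 k M w χ y :=
  Algebra.subset_adjoin (Or.inl (Or.inl (Or.inl rfl)))

lemma R1_z : mo (dg 0 0 M) 1 ∈ R1 k M w χ y :=
  Algebra.subset_adjoin (Or.inl (Or.inl (Or.inr (Or.inl rfl))))

lemma R1_z' : mo (dg 0 0 (-M)) 1 ∈ R1 k M w χ y :=
  Algebra.subset_adjoin (Or.inl (Or.inl (Or.inr (Or.inr rfl))))

lemma R1_y (b : β) (i : ℕ) : yl w χ y b i ∈ R1 k M w χ y :=
  Algebra.subset_adjoin (Or.inl (Or.inr ⟨b, i, rfl⟩))

lemma R1_T : mo (dg 0 1 0) 1 ∈ R1 k M w χ y := Algebra.subset_adjoin (Or.inr (Or.inl rfl))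

lemma R1_T' : mo (dg 0 (-1) 0) 1 ∈ R1 k M w χ y := Algebra.subset_adjoin (Or.inr (Or.inr rfl))

lemma X1_hom : ∀ f ∈ X1 k M w χ y, ∃ d a, f = mo d a := by
  rintro f (((hf | hf | hf) | ⟨b, i, rfl⟩) | (hf | hf))
  · exact ⟨_, _, hf⟩
  · exact ⟨_, _, hf⟩
  · exact ⟨_, _, hf⟩
  · exact ⟨_, _, rfl⟩
  · exact ⟨_, _, hf⟩
  · exact ⟨_, _, hf⟩

lemma gr_R1 : Gr (R1 k M w χ y) := gr_adjoin _ (X1_hom w)

include D in
lemma LD.fg_R1 [Finite β] : (R1 k M w χ y).FG := by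
  rw [Subalgebra.fg_def]
  refine ⟨X1 k M w χ y, ?_, rfl⟩
  have h1 : {f | ∃ b i, f = yl w χ y b i}.Finite := by
    have h2 : {f | ∃ b i, f = yl w χ y b i} ⊆
        Set.range (fun q : Σ b, Fin (m b) => yl w χ y q.1 q.2) ∪ {0} := by
      rintro _ ⟨b, i, rfl⟩
      by_cases hi : i < m b
      · exact Or.inl ⟨⟨b, ⟨i, hi⟩⟩, rfl⟩
      · right
        unfold yl
        rw [D.y0 b i (by omega), mo_zero]
        rfl
    exact ((Set.finite_range _).union (Set.finite_singleton 0)).subset h2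
  exact (((Set.finite_singleton _).insert _).insert _ |>.union h1).union
    ((Set.finite_singleton _).insert _)

/-- The degrees of the generators. -/
lemma R1_le_C0 : R1 k M w χ y ≤ C0 k M χ y := by
  unfold R1
  rw [Algebra.adjoin_le_iff]
  have hm : ∀ a b c : ℤ, mo (dg a b (M * c)) 1 ∈ C0 k M χ y := C0_mo
  rintro f (((hf | hf | hf) | ⟨b, i, rfl⟩) | (hf | hf))
  · rw [hf]
    have h1 := hm (-1) 0 0
    rwa [mul_zero] at h1
  · rw [hf]
    have h1 := hm 0 0 1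
    rwa [mul_one] at h1
  · rw [Set.mem_singleton_iff.1 hf]
    have h1 := hm 0 0 (-1)
    rwa [mul_neg, mul_one] at h1
  · have h1 := (C0 k M χ y).mul_mem (hm (w i) 0 0) (C0_y b i)
    unfold yl at h1
    rw [mo_mul, one_mul, dg_add, mul_zero, add_zero, zero_add, zero_add] at h1
    exact h1
  · rw [hf]
    have h1 := hm 0 1 0
    rwa [mul_zero] at h1
  · rw [Set.mem_singleton_iff.1 hf]
    have h1 := hm 0 (-1) 0
    rwa [mul_zero] at h1

lemma R1_pow_T (n : ℤ) : mo (dg 0 n 0) 1 ∈ R1 k M w χ y := by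
  have h1 := zpow_mem' (u := (1 : K)) (R1_T (k := k) (M := M) (χ := χ) (y := y) w)
    (by rw [dg_neg, inv_one]; exact R1_T' w) n
  rw [one_zpow] at h1
  have h2 : n • dg 0 1 0 = dg 0 n 0 := by
    unfold dg; ext <;> simp
  rwa [h2] at h1

lemma R1_pow_s (n : ℕ) : mo (dg (-n) 0 0) 1 ∈ R1 k M w χ y := by
  have h1 := (R1 k M w χ y).pow_mem (R1_s w) n
  rw [mo_pow, one_pow, dg_nsmul, mul_neg, mul_one, mul_zero] at h1
  exact h1

lemma R1_pow_z (c : ℤ) : mo (dg 0 0 (M * c)) 1 ∈ R1 k M w χ y := by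
  have h1 := zpow_mem' (u := (1 : K)) (R1_z (k := k) (M := M) (χ := χ) (y := y) w)
    (by rw [dg_neg, inv_one]; exact R1_z' w) c
  rw [one_zpow] at h1
  have h2 : c • dg 0 0 M = dg 0 0 (M * c) := by
    unfold dg; ext <;> simp [mul_comm]
  rwa [h2] at h1

/-- The part of nonpositive first degree. -/
lemma R1_neg (hw : ∀ i, 0 ≤ w i) {d : G3} {a : K} (hd : co1 d ≤ 0) (ha : mo d a ∈ C0 k M χ y) :
    mo d a ∈ R1 k M w χ y := by
  have h1 : C0 k M χ y ≤ (R1 k M w χ y).comap (chd k fo1) := by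
    unfold C0
    rw [Algebra.adjoin_le_iff]
    rintro f (⟨a, b, c, rfl⟩ | ⟨b, i, rfl⟩)
    · change chd k fo1 _ ∈ R1 k M w χ y
      rw [chd_mo, fo1_dg]
      have h2 := (R1 k M w χ y).mul_mem (R1_pow_T w b) (R1_pow_z w c)
      rwa [mo_mul, one_mul, dg_add, add_zero, add_zero, zero_add] at h2
    · change chd k fo1 (yl _ χ y b i) ∈ R1 k M w χ y
      unfold yl
      rw [chd_mo, fo1_dg]
      obtain ⟨n, hn⟩ := Int.eq_ofNat_of_zero_le (hw i)
      have h2 := (R1 k M w χ y).mul_mem (R1_pow_s w n) (R1_y w b i)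
      unfold yl at h2
      rw [mo_mul, one_mul, dg_add, hn, add_zero, zero_add] at h2
      have h3 : (-(n : ℤ) + ((n : ℕ) : ℤ)) = 0 := by ring
      rw [h3] at h2
      exact h2
  have h2 := h1 ha
  change chd k fo1 (mo d a) ∈ R1 k M w χ y at h2
  rw [chd_mo] at h2
  obtain ⟨n, hn⟩ := Int.eq_ofNat_of_zero_le (a := -co1 d) (by omega)
  have h3 := (R1 k M w χ y).mul_mem (R1_pow_s w n) h2
  rw [mo_mul, one_mul] at h3
  have h4 : dg (-n) 0 0 + fo1 d = d := by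
    have h5 : d.1 = -(n : ℤ) := by
      have h6 : -co1 d = (n : ℤ) := hn
      have h7 : co1 d = d.1 := rfl
      omega
    change (-(n : ℤ) + 0, 0 + d.2.1, 0 + d.2.2.1, ()) = d
    rw [zero_add, zero_add, add_zero, ← h5]
  rwa [h4] at h3

end lev

section stab

variable {k K : Type u} [Field k] [Field K] [Algebra k K] {G : Type} [AddCommGroup G]

/-- Stability under the difference operator. -/
lemma Dn_stable {S : Subalgebra k (ML K G)} (X : Set (ML K G)) (hX : Algebra.adjoin k X = S)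
    (ν : G) (σ : K →ₐ[k] K) (hs : mo (-ν) 1 ∈ S) (h : ∀ x ∈ X, Dn ν σ x ∈ S) :
    ∀ f ∈ S, Dn ν σ f ∈ S := by
  have h1 : ∀ f : ML K G, mo ν 1 ^ 1 * dl (gm G σ) f = Dn ν σ f := fun f => by
    rw [pow_one]; rfl
  intro f hf
  rw [← h1]
  refine stable_of_gens (gm G σ) (mo ν 1) (mo (-ν) 1) X hX 1 hs ?_ ?_ f hf
  · rw [mo_mul, add_neg_cancel, one_mul, mo_one]
  · intro x hx
    rw [h1]
    exact h x hx

lemma gm_pow (σ : K →ₐ[k] K) (n : ℕ) (f : ML K G) : gm G (σ ^ n) f = (gm G σ ^ n) f := by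
  apply ml_ext
  intro d
  rw [gm_coeff, pow_app, pow_app, gm_iter_coeff]

end stab

end Pool.Agent.W559.Mg
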