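import Pool.Agent.W559.Mg.V3

set_option autoImplicit false
set_option linter.unusedSectionVars false

open Cardinal

universe u v w

namespace Pool.Agent.W559.Mg

section sm

variable {k K : Type u} [Field k] [Field K] [Algebra k K]
  {γ h : K →ₐ[k] K} {p M : ℕ} {ω : k} {β : Type u} {m χ : β → ℕ} {y : β → ℕ → K}
  (D : LD γ h p M ω m χ y)

include D in
/-- Smoothness of the algebra of level zero. -/
lemma LD.smooth_C0 [Finite β] : Algebra.Smooth k (C0 k M χ y) := by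
  set B0 : Subalgebra k (ML K G3) := Algebra.adjoin k
      ({mo (dg (-1) 0 0) 1, mo (dg 0 (-1) 0) 1, mo (dg 0 0 M) 1} ∪
        {f | ∃ b i, f = yl (fun _ => 0) χ y b i}) with hB0
  have hsm : Algebra.Smooth k B0 := smooth_basic _ D
  have hs : mo (dg (-1) 0 0) 1 ∈ B0 := Algebra.subset_adjoin (Or.inl (Or.inl rfl))
  have hT : mo (dg 0 (-1) 0) 1 ∈ B0 := Algebra.subset_adjoin (Or.inl (Or.inr (Or.inl rfl)))
  have hz : mo (dg 0 0 M) 1 ∈ B0 := Algebra.subset_adjoin (Or.inl (Or.inr (Or.inr rfl)))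
  have hx : mo (dg (-1) (-1) M) 1 ∈ B0 := by
    have h1 := B0.mul_mem (B0.mul_mem hs hT) hz
    rw [mo_mul, mo_mul, one_mul, one_mul] at h1
    have h2 : dg (-1) 0 0 + dg 0 (-1) 0 + dg 0 0 (M : ℤ) = dg (-1) (-1) M := by
      unfold dg; ext <;> simp
    rwa [h2] at h1
  have hinv : (mo (dg (-1) (-1) M) 1 : ML K G3) * mo (dg 1 1 (-M)) 1 = 1 := by
    rw [mo_mul, one_mul, dg_add, add_neg_cancel]
    rfl
  have heq : lc B0 (mo (dg (-1) (-1) M) 1) hx = C0 k M χ y := by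
    apply le_antisymm
    · refine lc_le hx hinv ?_ ?_
      · rw [hB0, Algebra.adjoin_le_iff]
        rintro f ((hf | hf | hf) | ⟨b, i, rfl⟩)
        · rw [hf]
          have h1 := C0_mo (k := k) (M := M) (χ := χ) (y := y) (-1) 0 0
          rwa [mul_zero] at h1
        · rw [hf]
          have h1 := C0_mo (k := k) (M := M) (χ := χ) (y := y) 0 (-1) 0
          rwa [mul_zero] at h1
        · rw [Set.mem_singleton_iff.1 hf]
          have h1 := C0_mo (k := k) (M := M) (χ := χ) (y := y) 0 0 1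
          rwa [mul_one] at h1
        · exact C0_y b i
      · have h1 := C0_mo (k := k) (M := M) (χ := χ) (y := y) 1 1 (-1)
        rwa [mul_neg, mul_one] at h1
    · have hle := le_lc B0 (mo (dg (-1) (-1) M) 1) hx
      have hi := inv_mem_lc B0 _ _ hx hinv
      set Z := lc B0 (mo (dg (-1) (-1) M) 1) hx with hZ
      have hs' : mo (-dg (-1) 0 0) (1 : K)⁻¹ ∈ Z := by
        have h1 := Z.mul_mem (Z.mul_mem hi (hle hT)) (hle hz)
        rw [mo_mul, mo_mul, one_mul, one_mul] at h1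
        have h2 : dg 1 1 (-(M : ℤ)) + dg 0 (-1) 0 + dg 0 0 (M : ℤ) = -dg (-1) 0 0 := by
          unfold dg; ext <;> simp
        rw [inv_one, ← h2]
        exact h1
      have hT' : mo (-dg 0 (-1) 0) (1 : K)⁻¹ ∈ Z := by
        have h1 := Z.mul_mem (Z.mul_mem hi (hle hs)) (hle hz)
        rw [mo_mul, mo_mul, one_mul, one_mul] at h1
        have h2 : dg 1 1 (-(M : ℤ)) + dg (-1) 0 0 + dg 0 0 (M : ℤ) = -dg 0 (-1) 0 := by
          unfold dg; ext <;> simp
        rw [inv_one, ← h2]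
        exact h1
      have hz' : mo (-dg 0 0 M) (1 : K)⁻¹ ∈ Z := by
        have h1 := Z.mul_mem (Z.mul_mem hi (hle hs)) (hle hT)
        rw [mo_mul, mo_mul, one_mul, one_mul] at h1
        have h2 : dg 1 1 (-(M : ℤ)) + dg (-1) 0 0 + dg 0 (-1) 0 = -dg 0 0 (M : ℤ) := by
          unfold dg; ext <;> simp
        rw [inv_one, ← h2]
        exact h1
      conv_lhs => unfold C0
      rw [Algebra.adjoin_le_iff]
      rintro f (⟨a, b, c, rfl⟩ | ⟨b, i, rfl⟩)
      · have h1 := zpow_mem' (hle hs) hs' (-a)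
        have h2 := zpow_mem' (hle hT) hT' (-b)
        have h3 := zpow_mem' (hle hz) hz' c
        have h4 := Z.mul_mem (Z.mul_mem h1 h2) h3
        rw [mo_mul, mo_mul, one_zpow, one_zpow, one_zpow, one_mul, one_mul] at h4
        have h5 : -a • dg (-1) 0 0 + -b • dg 0 (-1) 0 + c • dg 0 0 M = dg a b (M * c) := by
          unfold dg; ext <;> simp [mul_comm]
        rwa [h5] at h4
      · exact hle (Algebra.subset_adjoin (Or.inr ⟨b, i, rfl⟩))
  rw [← heq]
  exact smooth_lc hsm hx (IsUnit.of_mul_eq_one _ hinv)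

include D in
/-- Smoothness of the algebra of the first level. -/
lemma LD.smooth_R1 [Finite β] (w : ℕ → ℤ) : Algebra.Smooth k (R1 k M w χ y) := by
  set B0 : Subalgebra k (ML K G3) := Algebra.adjoin k
      ({mo (dg (-1) 0 0) 1, mo (dg 0 (-1) 0) 1, mo (dg 0 0 M) 1} ∪
        {f | ∃ b i, f = yl w χ y b i}) with hB0
  have hsm : Algebra.Smooth k B0 := smooth_basic _ D
  have hs : mo (dg (-1) 0 0) 1 ∈ B0 := Algebra.subset_adjoin (Or.inl (Or.inl rfl))
  have hT : mo (dg 0 (-1) 0) 1 ∈ B0 := Algebra.subset_adjoin (Or.inl (Or.inr (Or.inl rfl)))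
  have hz : mo (dg 0 0 M) 1 ∈ B0 := Algebra.subset_adjoin (Or.inl (Or.inr (Or.inr rfl)))
  have hx : mo (dg 0 (-1) M) 1 ∈ B0 := by
    have h1 := B0.mul_mem hT hz
    rwa [mo_mul, one_mul, dg_add, add_zero, zero_add, add_zero] at h1
  have hinv : (mo (dg 0 (-1) M) 1 : ML K G3) * mo (dg 0 1 (-M)) 1 = 1 := by
    rw [mo_mul, one_mul, dg_add, add_neg_cancel]
    rfl
  have heq : lc B0 (mo (dg 0 (-1) M) 1) hx = R1 k M w χ y := by
    apply le_antisymm
    · refine lc_le hx hinv ?_ ?_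
      · rw [hB0, Algebra.adjoin_le_iff]
        rintro f ((hf | hf | hf) | ⟨b, i, rfl⟩)
        · rw [hf]; exact R1_s w
        · rw [hf]; exact R1_T' w
        · rw [Set.mem_singleton_iff.1 hf]; exact R1_z w
        · exact R1_y w b i
      · have h1 := (R1 k M w χ y).mul_mem (R1_T w) (R1_z' w)
        rwa [mo_mul, one_mul, dg_add, add_zero, zero_add, add_zero] at h1
    · have hle := le_lc B0 (mo (dg 0 (-1) M) 1) hx
      have hi := inv_mem_lc B0 _ _ hx hinv
      set Z := lc B0 (mo (dg 0 (-1) M) 1) hx with hZ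
      have hT' : mo (dg 0 1 0) (1 : K) ∈ Z := by
        have h1 := Z.mul_mem hi (hle hz)
        rw [mo_mul, one_mul, dg_add, add_zero, add_zero, neg_add_cancel] at h1
        exact h1
      have hz' : mo (dg 0 0 (-M)) (1 : K) ∈ Z := by
        have h1 := Z.mul_mem hi (hle hT)
        rw [mo_mul, one_mul, dg_add, add_zero, add_neg_cancel, add_zero] at h1
        exact h1
      conv_lhs => unfold R1
      rw [Algebra.adjoin_le_iff]
      rintro f (((hf | hf | hf) | ⟨b, i, rfl⟩) | (hf | hf))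
      · rw [hf]; exact hle hs
      · rw [hf]; exact hle hz
      · rw [Set.mem_singleton_iff.1 hf]; exact hz'
      · exact hle (Algebra.subset_adjoin (Or.inr ⟨b, i, rfl⟩))
      · rw [hf]; exact hT'
      · rw [Set.mem_singleton_iff.1 hf]; exact hle hT
  rw [← heq]
  exact smooth_lc hsm hx (IsUnit.of_mul_eq_one _ hinv)

end sm

section lev1

variable {k K : Type u} [Field k] [Field K] [Algebra k K]
  {γ h : K →ₐ[k] K} {p M : ℕ} {ω : k} {β : Type u} {m χ : β → ℕ} {y : β → ℕ → K}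
  (D : LD γ h p M ω m χ y) {r : ℕ} (hr : 0 < r)
  (hσ : ∀ x : K, dl (γ ^ r) x = (dl γ)^[r] x)

/-- The weights. -/
def wr (r : ℕ) : ℕ → ℤ := fun i => ((i / r : ℕ) : ℤ)

include D hr hσ in
lemma LD.Dn_yl (b : β) (i : ℕ) : Dn (dg 1 0 0) (γ ^ r) (yl (wr r) χ y b i) =
    yl (wr r) χ y b (i + r) := by
  unfold yl
  rw [Dn_mo, hσ, D.yit, dg_add, zero_add, zero_add]
  congr 2
  unfold wr
  rw [Nat.add_div_right _ hr]
  push_cast
  ring

include D hr hσ in
/-- Stability of the algebra of the first level under the difference operator. -/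
lemma LD.R1_Dn : ∀ f ∈ R1 k M (wr r) χ y, Dn (dg 1 0 0) (γ ^ r) f ∈ R1 k M (wr r) χ y := by
  have hmo : ∀ d : G3, Dn (dg 1 0 0) (γ ^ r) (mo d 1) = 0 := by
    intro d
    have h1 : dl (γ ^ r) (1 : K) = 0 := by unfold dl; rw [map_one, sub_self]
    rw [Dn_mo, h1, mo_zero]
  refine Dn_stable _ rfl _ _ (R1_s _) ?_
  rintro f (((hf | hf | hf) | ⟨b, i, rfl⟩) | (hf | hf))
  · rw [hf, hmo]; exact Subalgebra.zero_mem _
  · rw [hf, hmo]; exact Subalgebra.zero_mem _
  · rw [Set.mem_singleton_iff.1 hf, hmo]; exact Subalgebra.zero_mem _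
  · rw [D.Dn_yl hr hσ]; exact R1_y _ _ _
  · rw [hf, hmo]; exact Subalgebra.zero_mem _
  · rw [Set.mem_singleton_iff.1 hf, hmo]; exact Subalgebra.zero_mem _

include D hr in
lemma LD.R1_g : ∀ f ∈ R1 k M (wr r) χ y, gm G3 γ f ∈ R1 k M (wr r) χ y := by
  have h1 : R1 k M (wr r) χ y ≤ (R1 k M (wr r) χ y).comap (gm G3 γ) := by
    conv_lhs => unfold R1
    rw [Algebra.adjoin_le_iff]
    have hmo : ∀ d : G3, gm G3 γ (mo d 1) = mo d 1 := fun d => by rw [gm_mo, map_one]
    rintro f (((hf | hf | hf) | ⟨b, i, rfl⟩) | (hf | hf))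
    · rw [hf]; change gm G3 γ _ ∈ R1 k M (wr r) χ y; rw [hmo]; exact R1_s _
    · rw [hf]; change gm G3 γ _ ∈ R1 k M (wr r) χ y; rw [hmo]; exact R1_z _
    · rw [Set.mem_singleton_iff.1 hf]; change gm G3 γ _ ∈ R1 k M (wr r) χ y
      rw [hmo]; exact R1_z' _
    · change gm G3 γ (yl (wr r) χ y b i) ∈ R1 k M (wr r) χ y
      unfold yl
      rw [gm_mo, eq_add_dl, D.yd, mo_add]
      refine Subalgebra.add_mem _ (R1_y _ b i) ?_
      have h2 : i / r ≤ (i + 1) / r := Nat.div_le_div_right (by omega)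
      obtain ⟨e, he⟩ := Nat.exists_eq_add_of_le h2
      have h3 := (R1 k M (wr r) χ y).mul_mem (R1_pow_s (wr r) e) (R1_y (wr r) b (i + 1))
      unfold yl at h3
      rw [mo_mul, one_mul, dg_add, zero_add, zero_add] at h3
      have h4 : -(e : ℤ) + wr r (i + 1) = wr r i := by
        unfold wr
        rw [he]; push_cast; ring
      rwa [h4] at h3
    · rw [hf]; change gm G3 γ _ ∈ R1 k M (wr r) χ y; rw [hmo]; exact R1_T _
    · rw [Set.mem_singleton_iff.1 hf]; change gm G3 γ _ ∈ R1 k M (wr r) χ y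
      rw [hmo]; exact R1_T' _
  exact fun f hf => h1 hf

variable {A : Type u} [CommRing A] [IsDomain A] [Algebra k A] {g : A →ₐ[k] K} (I : IV g γ h y)

include D I hr hσ in
/-- The first level. -/
theorem LD.lev1 [Finite β] (hp : p.Prime) (hpk : (p : k) = 0)
    (hσp : ∀ x : K, (⇑(γ ^ r))^[p] x = x) (hne : ∃ b, r < m b) :
    ∃ (J : PUnit.{u + 1} → Type u) (_ : ∀ t, Finite (J t)) (μ : ∀ t, J t → G3)
      (x : ∀ t, J t → K) (φ : ∀ t, J t → G3) (f : ∀ t, J t → K)
      (hm : ∀ t j, IsMark (R1 k M (wr r) χ y) co1 γ (γ ^ r) (dg 1 0 0) p (μ t j) (x t j)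
        (φ t j) (f t j))
      (L N : ℕ) (u : (Σ t, J t) → K), (∀ t j, co1 (μ t j) = L) ∧
      (∀ p, u p ≠ 0 ∧ mo (M • μ p.1 p.2) (u p) ∈ C0 k M χ y ⊓ fx (gm G3 γ) ∧
        mo (-(M • μ p.1 p.2)) (u p)⁻¹ ∈ C0 k M χ y ⊓ fx (gm G3 γ)) ∧
      PA g (fx (gm G3 γ)) (M * L) (fun p : Σ t, J t => lc (R1 k M (wr r) χ y)
        (mo (μ p.1 p.2) (x p.1 p.2)) ((hm p.1 p.2).mem (D.R1_Dn hr hσ)))
        (fun p => 1 ^ N * (x p.1 p.2 ^ M / u p)) := by
  have hit : ∀ n (x : K), (γ ^ n) x = γ^[n] x := fun n x => pow_app γ n x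
  refine level_step (D.pa0 I) co1 (S := fun _ => R1 k M (wr r) χ y) (fun _ => R1_le_C0 _)
    (fun _ => gr_R1 _) (fun _ d a hd ha => R1_neg _ (fun i => Int.natCast_nonneg _) hd ha.1)
    (fun _ _ f hf => ⟨0, by rw [pow_zero, one_mul]; exact hf.1⟩) hp hpk ?_ ?_
    (fun _ => D.R1_g hr) (fun _ => D.R1_Dn hr hσ) (fun _ => R1_s _) ?_
    (N := p * p) (Nat.mul_pos hp.pos hp.pos) ?_ (fun _ => X1 k M (wr r) χ y)
    (fun _ => X1_hom _) (fun _ => rfl) (fun _ => D.fg_R1 _) ?_ ?_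
  · intro x
    rw [hit, hit, ← Function.iterate_succ_apply, Function.iterate_succ_apply']
  · intro x hx
    rw [hit, Function.iterate_fixed hx]
  · intro _ f _
    apply ml_ext
    intro d
    rw [gm_iter_coeff, hσp]
  · intro _ f _
    apply ml_ext
    intro d
    rw [gm_iter_coeff, D.gp]
  · intro _ Q hQ hQD d a hda hdX hd
    by_cases ha : a = 0
    · subst ha
      have h1 : (⟨mo d 0, hda⟩ : R1 k M (wr r) χ y) = 0 := Subtype.ext (mo_zero d)
      rw [h1]
      exact Q.zero_mem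
    · have hc : ∀ d' : G3, mo d a = mo d' 1 → co1 d' ≤ 0 → False := by
        intro d' h1 h2
        have h3 := (mo_dg_inj h1 ha).1
        rw [h3] at hd
        omega
      rcases hdX with (((hf | hf | hf) | ⟨b, i, hf⟩) | (hf | hf))
      · exact (hc _ hf (by rw [co1_dg]; omega)).elim
      · exact (hc _ hf (by rw [co1_dg])).elim
      · exact (hc _ (Set.mem_singleton_iff.1 hf) (by rw [co1_dg])).elim
      · have h1 := (mo_dg_inj hf ha).1
        rw [h1, co1_dg] at hd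
        unfold wr at hd
        have h2 : 0 < i / r := by exact_mod_cast hd
        have h3 : r ≤ i := by
          by_contra hcon
          rw [Nat.div_eq_of_lt (by omega)] at h2
          exact absurd h2 (lt_irrefl 0)
        have h4 := hQD ⟨yl (wr r) χ y b (i - r), R1_y _ _ _⟩
        have h5 : (⟨mo d a, hda⟩ : R1 k M (wr r) χ y) =
            ⟨Dn (dg 1 0 0) (γ ^ r) (yl (wr r) χ y b (i - r)),
              D.R1_Dn hr hσ _ (R1_y _ _ _)⟩ := by
          apply Subtype.ext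
          change mo d a = Dn (dg 1 0 0) (γ ^ r) (yl (wr r) χ y b (i - r))
          rw [D.Dn_yl hr hσ, Nat.sub_add_cancel h3]
          exact hf
        rw [h5]
        exact h4
      · exact (hc _ hf (by rw [co1_dg])).elim
      · exact (hc _ (Set.mem_singleton_iff.1 hf) (by rw [co1_dg])).elim
  · intro _
    obtain ⟨b, hb⟩ := hne
    refine ⟨dg (wr r r) 0 (χ b), y b r, D.ne hb, ?_, R1_y _ b r⟩
    rw [co1_dg]
    unfold wr
    rw [Nat.div_self hr]
    norm_num

/-- The atlas in the tame case. -/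
theorem LD.ma_tame [Finite β] (I : IV g γ h y) (D : LD γ h p M ω m χ y) (hγ : ∀ x : K, γ x = x) :
    ∃ (T : Type u) (_ : Finite T) (E : ℕ) (C : T → Subalgebra k (ML K G3)) (H : T → K),
      MA g E C H := by
  refine ⟨PUnit, inferInstance, M, _, _, ma_of_pa (D.pa0 I) ?_⟩
  intro _
  have h1 : C0 k M χ y ⊓ fx (gm G3 γ) = C0 k M χ y := by
    apply inf_eq_left.2
    intro f _
    rw [mem_fx]
    apply ml_ext
    intro d
    rw [gm_coeff, hγ]
  rw [h1]
  exact D.smooth_C0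

/-- The atlas in the case of one level. -/
theorem LD.ma_one [Finite β] (I : IV g γ h y) (D : LD γ h p M ω m χ y) (hp : p.Prime)
    (hpk : (p : k) = 0) (hγ : ∀ x : K, γ^[p] x = x) (hne : ∃ b, 1 < m b) :
    ∃ (T : Type u) (_ : Finite T) (E : ℕ) (C : T → Subalgebra k (ML K G3)) (H : T → K),
      MA g E C H := by
  have hσ : ∀ x : K, dl (γ ^ 1) x = (dl γ)^[1] x := fun x => by rw [pow_one]; rfl
  have hσp : ∀ x : K, (⇑(γ ^ 1))^[p] x = x := fun x => by rw [pow_one]; exact hγ x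
  obtain ⟨J, hJ, μ, x, φ, f, hm, L, N, u, hL, hu, hpa⟩ :=
    D.lev1 one_pos hσ I hp hpk hσp hne
  refine ⟨Σ t, J t, inferInstance, _, _, _, ma_of_pa hpa ?_⟩
  rintro ⟨t, j⟩
  have hm' : IsMark (R1 k M (wr 1) χ y) co1 γ γ (dg 1 0 0) p (μ t j) (x t j) (φ t j) (f t j) := by
    have h1 := hm t j
    rwa [pow_one] at h1
  have hDn : ∀ f ∈ R1 k M (wr 1) χ y, Dn (dg 1 0 0) γ f ∈ R1 k M (wr 1) χ y := by
    have h1 := D.R1_Dn one_pos hσ
    rwa [pow_one] at h1
  exact chart_smooth hp hpk hm' hDn (R1_s _) (fun f _ => by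
    apply ml_ext
    intro d
    rw [gm_iter_coeff, hγ]) (D.smooth_R1 _)

end lev1

end Pool.Agent.W559.Mg
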