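import Pool.Agent.W559.Mg.V4

set_option autoImplicit false
set_option linter.unusedSectionVars false

open Cardinal

universe u v w

namespace Pool.Agent.W559.Mg

section RR

variable {k K : Type u} [Field k] [Field K] [Algebra k K]

lemma chd_gm (δ : G3 →+ G3) (γ : K →ₐ[k] K) (f : ML K G3) :
    chd k δ (gm G3 γ f) = gm G3 γ (chd k δ f) := by
  conv_lhs => rw [eq_sum_mo f]
  conv_rhs => rw [eq_sum_mo f]
  simp only [map_sum, gm_mo, chd_mo]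

lemma T_pow (n : ℕ) : (mo (dg 0 1 0) (1 : K)) ^ n = mo (dg 0 n 0) 1 := by
  rw [mo_pow, one_pow, dg_nsmul, mul_zero, mul_one]

lemma T'_pow (n : ℕ) : (mo (dg 0 (-1) 0) (1 : K)) ^ n = mo (dg 0 (-n) 0) 1 := by
  rw [mo_pow, one_pow, dg_nsmul, mul_zero, mul_neg, mul_one]

lemma TT'_one : (mo (dg 0 1 0) (1 : K)) * mo (dg 0 (-1) 0) 1 = 1 := by
  rw [mo_mul, dg_add, one_mul]; rfl

lemma gm_mo_one (γ : K →ₐ[k] K) (d : G3) : gm G3 γ (mo d 1) = mo d 1 := by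
  rw [gm_mo, map_one]

lemma dl_iter_mo (γ : K →ₐ[k] K) (n : ℕ) (d : G3) (a : K) :
    (dl (gm G3 γ))^[n] (mo d a) = mo d ((dl γ)^[n] a) := by
  induction n with
  | zero => rfl
  | succ n ih => rw [Function.iterate_succ_apply', ih, dl_mo, Function.iterate_succ_apply']

variable {γ h : K →ₐ[k] K} {p M : ℕ} {ω : k} {β : Type u} {m χ : β → ℕ} {y : β → ℕ → K}
  (D : LD γ h p M ω m χ y)

/-- The base algebra of the second level. -/
noncomputable def RR (k : Type u) {K : Type u} [Field k] [Field K] [Algebra k K] (M p : ℕ)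
    {β : Type u} (χ : β → ℕ) (y : β → ℕ → K) : Subalgebra k (ML K G3) :=
  R0 (k := k) (mo (dg (-1) 0 0) (1 : K)) (mo (dg 0 0 M) 1) (mo (dg 0 0 (-M)) 1)
    (yl (wr p) χ y)

lemma RR_s : mo (dg (-1) 0 0) 1 ∈ RR k M p χ y := Algebra.subset_adjoin (Or.inl (Or.inl rfl))

lemma RR_z : mo (dg 0 0 M) 1 ∈ RR k M p χ y :=
  Algebra.subset_adjoin (Or.inl (Or.inr (Or.inl rfl)))

lemma RR_z' : mo (dg 0 0 (-M)) 1 ∈ RR k M p χ y :=
  Algebra.subset_adjoin (Or.inl (Or.inr (Or.inr rfl)))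

lemma RR_y (b : β) (i : ℕ) : yl (wr p) χ y b i ∈ RR k M p χ y :=
  Algebra.subset_adjoin (Or.inr ⟨b, i, rfl⟩)

lemma gr_RR : Gr (RR k M p χ y) := by
  refine gr_adjoin _ ?_
  rintro f ((hf | hf | hf) | ⟨b, i, rfl⟩)
  · exact ⟨_, _, hf⟩
  · exact ⟨_, _, hf⟩
  · exact ⟨_, _, hf⟩
  · exact ⟨_, _, rfl⟩

lemma RR_le : RR k M p χ y ≤ R1 k M (wr p) χ y := by
  unfold RR R0
  rw [Algebra.adjoin_le_iff]
  rintro f ((hf | hf | hf) | ⟨b, i, rfl⟩)
  · rw [hf]; exact R1_s _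
  · rw [hf]; exact R1_z _
  · rw [Set.mem_singleton_iff.1 hf]; exact R1_z' _
  · exact R1_y _ b i

lemma chd_R1 {f : ML K G3} (hf : f ∈ R1 k M (wr p) χ y) : chd k fo2 f ∈ RR k M p χ y := by
  have h1 : R1 k M (wr p) χ y ≤ (RR k M p χ y).comap (chd k fo2) := by
    unfold R1
    rw [Algebra.adjoin_le_iff]
    rintro f (((hf | hf | hf) | ⟨b, i, rfl⟩) | (hf | hf))
    · rw [hf]; change chd k fo2 _ ∈ RR k M p χ y; rw [chd_mo, fo2_dg]; exact RR_s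
    · rw [hf]; change chd k fo2 _ ∈ RR k M p χ y; rw [chd_mo, fo2_dg]; exact RR_z
    · rw [Set.mem_singleton_iff.1 hf]; change chd k fo2 _ ∈ RR k M p χ y
      rw [chd_mo, fo2_dg]; exact RR_z'
    · change chd k fo2 (yl (wr p) χ y b i) ∈ RR k M p χ y
      have h2 : chd k fo2 (yl (wr p) χ y b i) = yl (wr p) χ y b i := by
        unfold yl; rw [chd_mo, fo2_dg]
      rw [h2]; exact RR_y b i
    · rw [hf]; change chd k fo2 _ ∈ RR k M p χ y; rw [chd_mo, fo2_dg]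
      exact Subalgebra.one_mem _
    · rw [Set.mem_singleton_iff.1 hf]; change chd k fo2 _ ∈ RR k M p χ y
      rw [chd_mo, fo2_dg]; exact Subalgebra.one_mem _
  exact h1 hf

lemma chd_RR {f : ML K G3} (hf : f ∈ RR k M p χ y) : chd k fo2 f = f := by
  have h1 : RR k M p χ y ≤ AlgHom.equalizer (chd k fo2) (AlgHom.id k (ML K G3)) := by
    unfold RR R0
    rw [Algebra.adjoin_le_iff]
    rintro f ((hf | hf | hf) | ⟨b, i, rfl⟩)
    · rw [hf]; change chd k fo2 _ = _; rw [chd_mo, fo2_dg]; rfl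
    · rw [hf]; change chd k fo2 _ = _; rw [chd_mo, fo2_dg]; rfl
    · rw [Set.mem_singleton_iff.1 hf]; change chd k fo2 _ = _; rw [chd_mo, fo2_dg]; rfl
    · change chd k fo2 (yl (wr p) χ y b i) = yl (wr p) χ y b i
      unfold yl; rw [chd_mo, fo2_dg]
  exact h1 hf

include D in
/-- The data in the Laurent algebra. -/
lemma LD.jd : JD (gm G3 γ) p (mo (dg (-1) 0 0) (1 : K)) (mo (dg 0 1 0) 1)
    (mo (dg 0 (-1) 0) 1) (mo (dg 0 0 M) 1) (mo (dg 0 0 (-M)) 1) m (yl (wr p) χ y) where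
  gs := gm_mo_one γ _
  gT := gm_mo_one γ _
  gz := gm_mo_one γ _
  TT := TT'_one
  zz := by rw [mo_mul, dg_add, one_mul, add_neg_cancel]; rfl
  s0 := mo_ne_zero one_ne_zero
  y0 := fun b i hi => by unfold yl; rw [D.y0 b i hi, mo_zero]
  y1 := fun b i hi => by
    unfold yl
    rw [dl_mo, D.yd]
    congr 2
    unfold wr
    have h1 : (i + 1) / p = i / p := Nat.succ_div_of_not_dvd (fun h => hi (Nat.mod_eq_zero_of_dvd h))
    rw [h1]
  y2 := fun b i hi => by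
    unfold yl
    rw [dl_mo, D.yd, mo_mul, one_mul, dg_add, zero_add, zero_add]
    congr 2
    unfold wr
    have h1 : (i + 1) / p = i / p + 1 := Nat.succ_div_of_dvd (Nat.dvd_of_mod_eq_zero hi)
    rw [h1]
    push_cast
    ring
  mp := D.mp

/-- Data of a chart of the first level. -/
structure L2 {k K : Type u} [Field k] [Field K] [Algebra k K] (γ : K →ₐ[k] K) (p M : ℕ)
    {β : Type u} (χ : β → ℕ) (y : β → ℕ → K) (δ : G3) (x a : K) : Prop where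
  ne : x ≠ 0
  fi : γ x = x
  mem : mo δ x ∈ RR k M p χ y
  t : mo (dg (-1) 0 0) a ∈ lc (RR k M p χ y) (mo δ x) mem
  ga : γ^[p] a = a + 1

/-- Markers give charts. -/
lemma IsMark.toL2 (hp : p.Prime) {μ φ : G3} {x f : K}
    (hm : IsMark (R1 k M (wr p) χ y) co1 γ (γ ^ p) (dg 1 0 0) p μ x φ f)
    (hDS : ∀ f ∈ R1 k M (wr p) χ y, Dn (dg 1 0 0) (γ ^ p) f ∈ R1 k M (wr p) χ y) :
    L2 γ p M χ y (fo2 μ) x ((dl (γ ^ p))^[p - 2] f * x⁻¹) := by
  have hp1 : p - 1 = (p - 2) + 1 := by have := hp.two_le; omega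
  have heq := hm.eq
  rw [Dn_iter_mo] at heq
  obtain ⟨h1, h2⟩ := mo_dg_inj heq.symm hm.ne
  rw [hp1] at h1 h2
  set b := (dl (γ ^ p))^[p - 2] f with hb
  rw [Function.iterate_succ_apply', ← hb] at h2
  have hbS : mo ((p - 2) • dg 1 0 0 + φ) b ∈ R1 k M (wr p) χ y := by
    have h3 : ∀ n, (Dn (dg 1 0 0) (γ ^ p))^[n] (mo φ f) ∈ R1 k M (wr p) χ y := by
      intro n
      induction n with
      | zero => exact hm.me
      | succ n ih => rw [Function.iterate_succ_apply']; exact hDS _ ih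
    have h4 := h3 (p - 2)
    rwa [Dn_iter_mo] at h4
  have hbR := chd_R1 hbS
  rw [chd_mo] at hbR
  have hmem : mo (fo2 μ) x ∈ RR k M p χ y := by
    have h3 := chd_R1 (hm.mem hDS)
    rwa [chd_mo] at h3
  have hpx : (γ ^ p) x = x := by rw [pow_app, Function.iterate_fixed hm.fi]
  refine ⟨hm.ne, hm.fi, hmem, ⟨1, ?_⟩, ?_⟩
  · rw [pow_one, mo_mul]
    have h3 : x * (b * x⁻¹) = b := by
      field_simp [hm.ne]
    have h4 : fo2 μ + dg (-1) 0 0 = fo2 ((p - 2) • dg 1 0 0 + φ) := by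
      rw [h1, add_smul, one_smul, map_add, map_add, map_add]
      have h5 : fo2 (dg 1 0 0) = dg 1 0 0 := rfl
      have h6 : dg 1 0 0 + dg (-1) 0 0 = 0 := rfl
      rw [h5]
      calc fo2 ((p - 2) • dg 1 0 0) + dg 1 0 0 + fo2 φ + dg (-1) 0 0
          = fo2 ((p - 2) • dg 1 0 0) + fo2 φ + (dg 1 0 0 + dg (-1) 0 0) := by abel
        _ = _ := by rw [h6, add_zero]
    rw [h3, h4]
    exact hbR
  · rw [← pow_app, map_mul, map_inv₀, hpx, eq_add_dl (γ ^ p) b, ← h2, add_mul,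
      mul_inv_cancel₀ hm.ne]

end RR

section L2s

variable {k K : Type u} [Field k] [Field K] [Algebra k K]
  {γ h : K →ₐ[k] K} {p M : ℕ} {ω : k} {β : Type u} {m χ : β → ℕ} {y : β → ℕ → K}
  {δ : G3} {x a : K} (l : L2 γ p M χ y δ x a)

/-- The coefficients of the second level. -/
noncomputable def L2.WW (l : L2 γ p M χ y δ x a) : Subalgebra k (ML K G3) :=
  lc (RR k M p χ y) (mo δ x) l.mem ⊓ fx (gm G3 γ ^ p)

/-- The algebra of the second level. -/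
noncomputable def L2.SS (l : L2 γ p M χ y δ x a) : Subalgebra k (ML K G3) :=
  S2 (gm G3 γ) p (mo (dg 0 1 0) 1) (mo (dg 0 (-1) 0) 1) l.WW (mo (dg (-1) 0 0) a)

lemma L2.gt (l : L2 γ p M χ y δ x a) : (gm G3 γ ^ p) (mo (dg (-1) 0 0) a) =
    mo (dg (-1) 0 0) a + mo (dg (-1) 0 0) 1 := by
  rw [pow_app, gm_iter_mo, l.ga, mo_add]

lemma gmp_one (γ : K →ₐ[k] K) (p : ℕ) (d : G3) : (gm G3 γ ^ p) (mo d 1) = mo d 1 := by
  rw [pow_app, Function.iterate_fixed (gm_mo_one γ d)]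

lemma L2.dlt (l : L2 γ p M χ y δ x a) (hp : p.Prime) (hpk : (p : k) = 0) :
    (dl (gm G3 γ))^[p] (mo (dg (-1) 0 0) a) = mo (dg (-1) 0 0) 1 := by
  rw [dl_iter_p (gm G3 γ) hp (cast_p (k := k) hpk), gm_iter_mo, l.ga, mo_add, add_sub_cancel_left]

lemma dl_one (γ : K →ₐ[k] K) (d : G3) : dl (gm G3 γ) (mo d 1) = 0 := by
  unfold dl
  rw [gm_mo_one, sub_self]

lemma L2.dlt' (l : L2 γ p M χ y δ x a) (hp : p.Prime) (hpk : (p : k) = 0) :
    (dl (gm G3 γ))^[p + 1] (mo (dg (-1) 0 0) a) = 0 := by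
  rw [Function.iterate_succ_apply', l.dlt hp hpk, dl_one]

lemma L2.T'_mem (l : L2 γ p M χ y δ x a) : mo (dg 0 (-1) 0) 1 ∈ l.SS := S2_T' _ _ _ _ _ _

lemma L2.W_mem (l : L2 γ p M χ y δ x a) {w : ML K G3} (hw : w ∈ l.WW) : w ∈ l.SS :=
  S2_W _ _ _ _ _ _ hw

lemma L2.T'_pow_mem (l : L2 γ p M χ y δ x a) (n : ℕ) : mo (dg 0 (-n) 0) 1 ∈ l.SS := by
  rw [← T'_pow]
  exact Subalgebra.pow_mem _ l.T'_mem n

/-- Everything is fixed by `γ ^ p`. -/
lemma L2.fixed (l : L2 γ p M χ y δ x a) : l.SS ≤ fx (gm G3 γ ^ p) := by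
  refine S2_le _ _ _ _ _ _ ?_ ?_ ?_
  · rw [mem_fx]; exact gmp_one γ p _
  · intro w hw i
    rw [mem_fx, map_mul, dl_pow_comm, mem_fx.1 hw.2, map_pow, gmp_one]
  · intro i _
    rw [mem_fx, map_mul, dl_pow_comm, l.gt, map_pow, gmp_one, dl_iter_add,
      Function.iterate_succ_apply (dl (gm G3 γ)) i (mo (dg (-1) 0 0) 1), dl_one, dl_iter_zero,
      add_zero]

lemma L2.D_mem (l : L2 γ p M χ y δ x a) (hp : p.Prime) (hpk : (p : k) = 0) :
    ∀ f ∈ l.SS, Dn (dg 0 p 0) γ f ∈ l.SS := by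
  intro f hf
  have h1 := S2_stable (gm G3 γ) p (mo (dg 0 1 0) 1) (mo (dg 0 (-1) 0) 1) l.WW
    (mo (dg (-1) 0 0) a) TT'_one (gm_mo_one γ _) (l.dlt' hp hpk) hf
  rwa [T_pow] at h1

lemma L2.nu_mem (l : L2 γ p M χ y δ x a) : mo (-dg 0 p 0) 1 ∈ l.SS := by
  have h1 := l.T'_pow_mem p
  have h2 : -dg 0 (p : ℤ) 0 = dg 0 (-p) 0 := rfl
  rwa [h2]

lemma L2.g_mem (l : L2 γ p M χ y δ x a) (hp : p.Prime) (hpk : (p : k) = 0) :
    ∀ f ∈ l.SS, gm G3 γ f ∈ l.SS := by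
  intro f hf
  rw [gm_eq_Dn γ (dg 0 p 0)]
  exact Subalgebra.add_mem _ hf (Subalgebra.mul_mem _ l.nu_mem (l.D_mem hp hpk f hf))

lemma L2.gr_WW (l : L2 γ p M χ y δ x a) : Gr l.WW := by
  refine gr_inf (gr_lc gr_RR l.mem) ?_
  have h1 : fx (gm G3 γ ^ p) = fx (gm G3 (γ ^ p)) := by
    ext f
    rw [mem_fx, mem_fx, gm_pow]
  rw [h1]
  exact gr_fx _

/-- The homogeneous generators. -/
def L2.X2 (l : L2 γ p M χ y δ x a) : Set (ML K G3) :=
  {mo (dg 0 (-1) 0) 1} ∪ {f | ∃ d b, mo d b ∈ l.WW ∧ ∃ i : ℕ,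
    f = (dl (gm G3 γ))^[i] (mo d b) * (mo (dg 0 1 0) 1) ^ (i * p)} ∪
    {f | ∃ i : ℕ, i < p ∧ f = (dl (gm G3 γ))^[i + 1] (mo (dg (-1) 0 0) a) *
      (mo (dg 0 1 0) 1) ^ (i * p + 1)}

lemma L2.X2_hom (l : L2 γ p M χ y δ x a) : ∀ f ∈ l.X2, ∃ d b, f = mo d b := by
  rintro f ((hf | ⟨d, b, -, i, rfl⟩) | ⟨i, -, rfl⟩)
  · exact ⟨_, _, hf⟩
  · rw [dl_iter_mo, T_pow, mo_mul]; exact ⟨_, _, rfl⟩
  · rw [dl_iter_mo, T_pow, mo_mul]; exact ⟨_, _, rfl⟩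

lemma L2.X2_adj (l : L2 γ p M χ y δ x a) : Algebra.adjoin k l.X2 = l.SS := by
  classical
  apply le_antisymm
  · rw [Algebra.adjoin_le_iff]
    rintro f ((hf | ⟨d, b, hb, i, rfl⟩) | ⟨i, hi, rfl⟩)
    · rw [Set.mem_singleton_iff.1 hf]; exact l.T'_mem
    · exact S2_w _ _ _ _ _ _ hb i
    · exact S2_t _ _ _ _ _ _ hi
  · refine S2_le _ _ _ _ _ _ ?_ ?_ ?_
    · exact Algebra.subset_adjoin (Or.inl (Or.inl rfl))
    · intro w hw i
      have h1 : ∀ s : Finset G3, (dl (gm G3 γ))^[i] (∑ d ∈ s, mo d (w.coeff d)) *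
          (mo (dg 0 1 0) 1) ^ (i * p) ∈ Algebra.adjoin k l.X2 := by
        intro s
        induction s using Finset.induction_on with
        | empty => rw [Finset.sum_empty, dl_iter_zero, zero_mul]; exact Subalgebra.zero_mem _
        | insert d s hd ih =>
          rw [Finset.sum_insert hd, dl_iter_add, add_mul]
          exact Subalgebra.add_mem _
            (Algebra.subset_adjoin (Or.inl (Or.inr ⟨d, _, l.gr_WW w hw d, i, rfl⟩))) ih
      have h2 := h1 w.coeff.support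
      rwa [← eq_sum_mo w] at h2
    · intro i hi
      exact Algebra.subset_adjoin (Or.inr ⟨i, hi, rfl⟩)

lemma L2.gr_SS (l : L2 γ p M χ y δ x a) : Gr l.SS := by
  rw [← l.X2_adj]
  exact gr_adjoin _ l.X2_hom

/-- Smoothness of the algebra of the second level. -/
theorem L2.smooth (l : L2 γ p M χ y δ x a) (D : LD γ h p M ω m χ y) [Finite β] (hp : p.Prime)
    (hpk : (p : k) = 0) : Algebra.Smooth k l.SS := by
  refine D.jd.smooth_S2 hp hpk D.card ?_ (x' := mo (-δ) x⁻¹) l.mem ?_ (mo_inv l.ne) l.t l.gt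
  · intro Z hZ hs hT hz hy
    exact acl_top _ D Z hZ hs hT hz hy
  · rw [gm_mo, l.fi]

theorem L2.fg (l : L2 γ p M χ y δ x a) (D : LD γ h p M ω m χ y) [Finite β] (hp : p.Prime)
    (hpk : (p : k) = 0) : l.SS.FG := by
  have h1 := l.smooth D hp hpk
  have h2 : Algebra.FiniteType k l.SS := inferInstance
  exact l.SS.fg_iff_finiteType.2 h2

/-- The algebra of the second level is contained in the chart of the first level. -/
lemma L2.le {μ : G3} (l : L2 γ p M χ y (fo2 μ) x a) (D : LD γ h p M ω m χ y) (hp : p.Prime)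
    (hX : mo μ x ∈ R1 k M (wr p) χ y) : l.SS ≤ lc (R1 k M (wr p) χ y) (mo μ x) hX := by
  set Z := lc (R1 k M (wr p) χ y) (mo μ x) hX with hZ
  have hleZ := le_lc (R1 k M (wr p) χ y) (mo μ x) hX
  have h1 : lc (RR k M p χ y) (mo (fo2 μ) x) l.mem ≤ Z := by
    rintro f ⟨n, hn⟩
    refine ⟨n, ?_⟩
    have h2 : mo μ x = mo (dg 0 (co2 μ) 0) 1 * mo (fo2 μ) x := by
      rw [mo_mul, one_mul]
      congr 1
      change μ = dg 0 (co2 μ) 0 + dg μ.1 0 μ.2.2.1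
      rw [dg_add, zero_add, add_zero, zero_add]
      rfl
    rw [h2, mul_pow, mul_assoc]
    exact Subalgebra.mul_mem _ (Subalgebra.pow_mem _ (R1_pow_T _ _) n) (RR_le hn)
  have hg : ∀ f ∈ Z, gm G3 γ f ∈ Z := by
    rintro f ⟨n, hn⟩
    refine ⟨n, ?_⟩
    have h2 := D.R1_g hp.pos _ hn
    rwa [map_mul, map_pow, gm_mo, l.fi] at h2
  have hT : ∀ n : ℕ, (mo (dg 0 1 0) (1 : K)) ^ n ∈ Z := fun n =>
    Subalgebra.pow_mem _ (hleZ (R1_T _)) n
  refine S2_le _ _ _ _ _ _ (hleZ (R1_T' _)) ?_ ?_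
  · intro w hw i
    exact Z.mul_mem (dl_iter_mem (gm G3 γ) hg i (h1 hw.1)) (hT _)
  · intro i _
    exact Z.mul_mem (dl_iter_mem (gm G3 γ) hg _ (h1 l.t)) (hT _)

/-- The part of nonpositive degree. -/
lemma L2.neg {μ : G3} (l : L2 γ p M χ y (fo2 μ) x a)
    (hX : mo μ x ∈ R1 k M (wr p) χ y) {d : G3} {b : K} (hd : co2 d ≤ 0)
    (hb : mo d b ∈ lc (R1 k M (wr p) χ y) (mo μ x) hX ⊓ fx (gm G3 γ)) : mo d b ∈ l.SS := by
  obtain ⟨⟨n, hn⟩, hb2⟩ := hb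
  have h1 := chd_R1 hn
  rw [map_mul, map_pow, chd_mo, chd_mo] at h1
  rw [SetLike.mem_coe, mem_fx, gm_mo] at hb2
  have h2 : mo (fo2 d) b ∈ l.WW := by
    refine ⟨⟨n, h1⟩, ?_⟩
    rw [SetLike.mem_coe, mem_fx, pow_app, gm_iter_mo, Function.iterate_fixed (mo_inj hb2)]
  obtain ⟨e, he⟩ := Int.eq_ofNat_of_zero_le (a := -co2 d) (by omega)
  have h3 := Subalgebra.mul_mem _ (l.T'_pow_mem e) (l.W_mem h2)
  rw [mo_mul, one_mul] at h3
  have h4 : dg 0 (-e) 0 + fo2 d = d := by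
    change dg 0 (-e) 0 + dg d.1 0 d.2.2.1 = d
    rw [dg_add, zero_add, add_zero, zero_add]
    have h5 : -(e : ℤ) = co2 d := by
      have h6 : -co2 d = (e : ℤ) := he
      omega
    rw [h5]
    rfl
  rwa [h4] at h3

/-- The charts are compatible. -/
lemma L2.mark_mem {δ' : G3} {x' a' : K} (l : L2 γ p M χ y δ x a) (l' : L2 γ p M χ y δ' x' a') :
    mo δ' x' ∈ l.WW := by
  refine ⟨le_lc _ _ _ l'.mem, ?_⟩
  rw [SetLike.mem_coe, mem_fx, pow_app, gm_iter_mo, Function.iterate_fixed l'.fi]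

lemma L2.gl {δ' : G3} {x' a' : K} (l : L2 γ p M χ y δ x a) (l' : L2 γ p M χ y δ' x' a')
    (hp : p.Prime) : l'.SS ≤ lc l.SS (mo δ' x') (l.W_mem (l.mark_mem l')) := by
  have hfx : ∀ n : ℕ, (mo δ' x' ^ n : ML K G3) ∈ fx (gm G3 γ) := fun n => by
    rw [mem_fx, map_pow, gm_mo, l'.fi]
  have hfxp : ∀ n : ℕ, (gm G3 γ ^ p) (mo δ' x' ^ n : ML K G3) = mo δ' x' ^ n := fun n => by
    rw [pow_app, Function.iterate_fixed (mem_fx.1 (hfx n))]
  refine S2_le _ _ _ _ _ _ (le_lc _ _ _ l.T'_mem) ?_ ?_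
  · rintro w ⟨⟨n, hn⟩, hw⟩ i
    refine ⟨n, ?_⟩
    rw [← mul_assoc, ← dl_iter_fx_mul _ (hfx n)]
    have hw' : mo δ' x' ^ n * w ∈ l.WW := by
      refine ⟨le_lc _ _ _ hn, ?_⟩
      rw [SetLike.mem_coe, mem_fx, map_mul, hfxp, mem_fx.1 hw]
    exact S2_w _ _ _ _ _ _ hw' i
  · intro i hi
    obtain ⟨n, hn⟩ := l'.t
    refine ⟨n, ?_⟩
    set t := mo (dg (-1) 0 0) a with ht
    set t' := mo (dg (-1) 0 0) a' with ht'
    have h1 : mo δ' x' ^ n * (t' - t) ∈ l.WW := by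
      refine ⟨?_, ?_⟩
      · rw [mul_sub]
        exact Subalgebra.sub_mem _ (le_lc _ _ _ hn)
          (Subalgebra.mul_mem _ (Subalgebra.pow_mem _ (le_lc _ _ _ l'.mem) n) l.t)
      · rw [SetLike.mem_coe, mem_fx, map_mul, hfxp, map_sub, ht, ht', l.gt, l'.gt]
        ring
    have h2 := S2_w (gm G3 γ) p (mo (dg 0 1 0) 1) (mo (dg 0 (-1) 0) 1) l.WW t h1 (i + 1)
    have h3 := S2_t (gm G3 γ) p (mo (dg 0 1 0) 1) (mo (dg 0 (-1) 0) 1) l.WW t hi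
    have h4 : mo δ' x' ^ n * ((dl (gm G3 γ))^[i + 1] t' * (mo (dg 0 1 0) 1) ^ (i * p + 1)) =
        mo δ' x' ^ n * ((dl (gm G3 γ))^[i + 1] t * (mo (dg 0 1 0) 1) ^ (i * p + 1)) +
        ((dl (gm G3 γ))^[i + 1] (mo δ' x' ^ n * (t' - t)) *
          (mo (dg 0 1 0) 1) ^ ((i + 1) * p)) *
          (mo (dg 0 (-1) 0) 1) ^ ((i + 1) * p - (i * p + 1)) := by
      have h5 : i * p + 1 ≤ (i + 1) * p := by
        have := hp.pos
        rw [add_mul, one_mul]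
        omega
      have h6 := T_pow_sub (mo (dg 0 1 0) (1 : K)) (mo (dg 0 (-1) 0) 1) TT'_one h5
      rw [h6, dl_iter_fx_mul _ (hfx n), dl_iter_sub]
      ring
    rw [h4]
    exact Subalgebra.add_mem _ (Subalgebra.mul_mem _ (Subalgebra.pow_mem _
      (l.W_mem (l.mark_mem l')) n) h3)
      (Subalgebra.mul_mem _ h2 (Subalgebra.pow_mem _ l.T'_mem _))

/-- A homogeneous element of `WW` has degree zero. -/
lemma L2.WW_deg (l : L2 γ p M χ y δ x a) {d : G3} {b : K} (hb : mo d b ∈ l.WW) (hb0 : b ≠ 0) :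
    co2 d = 0 := by
  obtain ⟨⟨n, hn⟩, -⟩ := hb
  have h1 := chd_RR hn
  have h2 := chd_RR l.mem
  rw [map_mul, map_pow, h2, chd_mo] at h1
  have h3 := mul_left_cancel₀ (pow_ne_zero n (mo_ne_zero l.ne)) h1
  have h4 := (mo_dg_inj h3 hb0).1
  rw [← h4]
  rfl

end L2s

end Pool.Agent.W559.Mg
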