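import Pool.Agent.W559.Mg.V5

set_option autoImplicit false
set_option linter.unusedSectionVars false

open Cardinal

universe u v w

namespace Pool.Agent.W559.Mg

section HH

variable {k K : Type u} [Field k] [Field K] [Algebra k K]
  {γ h : K →ₐ[k] K} {p M : ℕ} {ω : k} {β : Type u} {m χ : β → ℕ} {y : β → ℕ → K}
  {δ : G3} {x a : K}

lemma Dn_T (γ : K →ₐ[k] K) (p : ℕ) (w : ML K G3) (i n : ℕ) :
    Dn (dg 0 p 0) γ ((dl (gm G3 γ))^[i] w * (mo (dg 0 1 0) 1) ^ n) =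
      (dl (gm G3 γ))^[i + 1] w * (mo (dg 0 1 0) 1) ^ (n + p) := by
  have h1 : (mo (dg 0 1 0) (1 : K)) ^ n ∈ fx (gm G3 γ) := by
    rw [mem_fx, map_pow, gm_mo_one]
  unfold Dn
  rw [← T_pow, mul_comm ((dl (gm G3 γ))^[i] w), dl_fx_mul _ h1, Function.iterate_succ_apply']
  ring

/-- The norm. -/
lemma L2.N_mem (l : L2 γ p M χ y δ x a) (hp : p.Prime) (hpk : (p : k) = 0) :
    mo (dg (-1) 0 0) a ^ p - mo (dg (-1) 0 0) 1 ^ (p - 1) * mo (dg (-1) 0 0) a ∈ l.WW := by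
  have hpD : ((p : ℕ) : ML K G3) = 0 := cast_p (k := k) hpk
  refine ⟨?_, ?_⟩
  · exact Subalgebra.sub_mem _ (Subalgebra.pow_mem _ l.t p)
      (Subalgebra.mul_mem _ (Subalgebra.pow_mem _ (le_lc _ _ _ RR_s) _) l.t)
  · rw [SetLike.mem_coe, mem_fx, map_sub, map_mul, map_pow, map_pow, l.gt, gmp_one]
    set t := mo (dg (-1) 0 0) a
    set s : ML K G3 := mo (dg (-1) 0 0) 1
    have h3 : (t + s) ^ p = t ^ p + s ^ p := by
      have : Fact p.Prime := ⟨hp⟩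
      have hchar : CharP (ML K G3) p := (CharP.charP_iff_prime_eq_zero hp).2 hpD
      rw [add_pow_char]
    have h4 : s ^ p = s ^ (p - 1) * s := by
      rw [← pow_succ, Nat.sub_add_cancel hp.one_lt.le]
    rw [h3, h4]
    ring

/-- Vanishing of the generators of positive degree. -/
theorem L2.HQ (l : L2 γ p M χ y δ x a) (hp : p.Prime) (hpk : (p : k) = 0) (Q : Ideal l.SS)
    (hQ : Q.IsPrime) (hQD : ∀ f : l.SS, (⟨Dn (dg 0 p 0) γ f, l.D_mem hp hpk f f.2⟩ : l.SS) ∈ Q)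
    (d : G3) (b : K) (hdb : mo d b ∈ l.SS) (hX : mo d b ∈ l.X2) (hd : 0 < co2 d) :
    (⟨mo d b, hdb⟩ : l.SS) ∈ Q := by
  by_cases hb : b = 0
  · subst hb
    have h1 : (⟨mo d 0, hdb⟩ : l.SS) = 0 := Subtype.ext (mo_zero d)
    rw [h1]
    exact Q.zero_mem
  have hstep : ∀ f, ∀ hf : f ∈ l.SS, ∀ g, ∀ hg : g ∈ l.SS, g = Dn (dg 0 p 0) γ f →
      (⟨g, hg⟩ : l.SS) ∈ Q := by
    intro f hf g hg hgf
    have h1 := hQD ⟨f, hf⟩
    have h2 : (⟨g, hg⟩ : l.SS) = ⟨Dn (dg 0 p 0) γ f, l.D_mem hp hpk f hf⟩ := Subtype.ext hgf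
    rw [h2]
    exact h1
  have htS : ∀ i, i < p → (dl (gm G3 γ))^[i + 1] (mo (dg (-1) 0 0) a) *
      (mo (dg 0 1 0) 1) ^ (i * p + 1) ∈ l.SS := fun i hi => S2_t _ _ _ _ _ _ hi
  have htQ : ∀ i, ∀ hi : i + 1 < p, (⟨_, htS (i + 1) hi⟩ : l.SS) ∈ Q := by
    intro i hi
    refine hstep _ (htS i (by omega)) _ _ ?_
    rw [Dn_T]
    congr 2
    ring
  rcases hX with (hX | ⟨d', b', hb', i, hi⟩) | ⟨i, hi, hX⟩
  · have h1 := (mo_dg_inj (Set.mem_singleton_iff.1 hX) hb).1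
    rw [h1, co2_dg] at hd
    omega
  · rcases i with _ | i
    · rw [zero_mul, pow_zero, mul_one] at hi
      change mo d b = mo d' b' at hi
      rw [← hi] at hb'
      have h1 := l.WW_deg hb' hb
      omega
    · refine hstep _ (S2_w _ _ _ _ _ _ hb' i) _ _ ?_
      rw [Dn_T, hi]
      congr 2
      ring
  · rcases i with _ | i
    · -- the first derivative
      rw [zero_mul, zero_add] at hX
      set t := mo (dg (-1) 0 0) a with ht
      set s : ML K G3 := mo (dg (-1) 0 0) 1 with hs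
      set T : ML K G3 := mo (dg 0 1 0) 1 with hT
      have hpD : ((p : ℕ) : ML K G3) = 0 := cast_p (k := k) hpk
      have hp2 := hp.two_le
      have hsT : s * T ∈ l.SS ∧ ∀ hsT : s * T ∈ l.SS, (⟨s * T, hsT⟩ : l.SS) ∈ Q := by
        obtain ⟨e, he⟩ : ∃ e, p = e + 2 := ⟨p - 2, by omega⟩
        have h1 := htQ e (by omega)
        have h2 := htS (e + 1) (by omega)
        have h3 : (dl (gm G3 γ))^[e + 1 + 1] t = s := by
          have h4 := l.dlt hp hpk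
          rw [he] at h4
          exact h4
        have h4 : s * T = mo (dg 0 (-1) 0) 1 ^ ((e + 1) * p) *
            ((dl (gm G3 γ))^[e + 1 + 1] t * T ^ ((e + 1) * p + 1)) := by
          rw [h3, pow_succ]
          have h5 : mo (dg 0 (-1) 0) 1 ^ ((e + 1) * p) * T ^ ((e + 1) * p) = 1 := by
            rw [← mul_pow, mul_comm, TT'_one, one_pow]
          linear_combination (-(s * T)) * h5
        have h5 := Subalgebra.pow_mem _ l.T'_mem ((e + 1) * p)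
        have h6 : s * T ∈ l.SS := by rw [h4]; exact Subalgebra.mul_mem _ h5 h2
        refine ⟨h6, fun h7 => ?_⟩
        have h8 : (⟨s * T, h7⟩ : l.SS) = ⟨_, h5⟩ * ⟨_, h2⟩ := Subtype.ext h4
        rw [h8]
        exact Q.mul_mem_left _ h1
      have ha1 : dl (gm G3 γ) t * T ∈ l.SS := by
        have h1 := htS 0 hp.pos
        rwa [zero_mul, zero_add, pow_one] at h1
      have hN := l.W_mem (l.N_mem hp hpk)
      have hDN := hQD ⟨_, hN⟩
      have hdN : Dn (dg 0 p 0) γ (t ^ p - s ^ (p - 1) * t) =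
          (dl (gm G3 γ) t * T) ^ p - (s * T) ^ (p - 1) * (dl (gm G3 γ) t * T) := by
        have hsf : s ^ (p - 1) ∈ fx (gm G3 γ) := by rw [mem_fx, map_pow, gm_mo_one]
        have h1 : dl (gm G3 γ) (t ^ p) = dl (gm G3 γ) t ^ p := by
          have : Fact p.Prime := ⟨hp⟩
          have hchar : CharP (ML K G3) p := (CharP.charP_iff_prime_eq_zero hp).2 hpD
          have h2 : gm G3 γ (t ^ p) = t ^ p + dl (gm G3 γ) t ^ p := by
            rw [map_pow, eq_add_dl, add_pow_char]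
          unfold dl at h2 ⊢
          rw [h2]
          ring
        have h2 : T ^ p = T ^ (p - 1) * T := by
          rw [← pow_succ, Nat.sub_add_cancel hp.one_lt.le]
        unfold Dn
        rw [← T_pow, dl_sub, dl_fx_mul _ hsf, h1, mul_pow, mul_pow, ← hT]
        linear_combination (-(s ^ (p - 1) * dl (gm G3 γ) t)) * h2
      have h9 : (⟨dl (gm G3 γ) t * T, ha1⟩ : l.SS) ^ p =
          ⟨Dn (dg 0 p 0) γ (t ^ p - s ^ (p - 1) * t), l.D_mem hp hpk _ hN⟩ +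
          (⟨s * T, hsT.1⟩ : l.SS) ^ (p - 1) * ⟨dl (gm G3 γ) t * T, ha1⟩ := by
        apply Subtype.ext
        change (dl (gm G3 γ) t * T) ^ p = Dn (dg 0 p 0) γ (t ^ p - s ^ (p - 1) * t) +
          (s * T) ^ (p - 1) * (dl (gm G3 γ) t * T)
        rw [hdN]
        ring
      have h10 : (⟨dl (gm G3 γ) t * T, ha1⟩ : l.SS) ^ p ∈ Q := by
        rw [h9]
        refine Q.add_mem hDN (Q.mul_mem_right _ ?_)
        obtain ⟨e, he⟩ : ∃ e, p - 1 = e + 1 := ⟨p - 2, by omega⟩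
        rw [he, pow_succ]
        exact Q.mul_mem_left _ (hsT.2 _)
      have h11 := hQ.mem_of_pow_mem _ h10
      have h12 : (⟨mo d b, hdb⟩ : l.SS) = ⟨dl (gm G3 γ) t * T, ha1⟩ := by
        apply Subtype.ext
        change mo d b = dl (gm G3 γ) t * T
        rw [hX, pow_one]
        rfl
      rw [h12]
      exact h11
    · have h1 := htQ i (by omega)
      have h2 : (⟨mo d b, hdb⟩ : l.SS) = ⟨_, htS (i + 1) (by omega)⟩ := Subtype.ext hX
      rw [h2]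
      exact h1

end HH

section two

variable {k K : Type u} [Field k] [Field K] [Algebra k K]
  {γ h : K →ₐ[k] K} {p M : ℕ} {ω : k} {β : Type u} {m χ : β → ℕ} {y : β → ℕ → K}

lemma L2.inv_mem {δ : G3} {x a : K} (l : L2 γ p M χ y δ x a) : mo (-δ) x⁻¹ ∈ l.WW := by
  refine ⟨inv_mem_lc _ _ _ _ (mo_inv l.ne), ?_⟩
  have h1 : γ x⁻¹ = x⁻¹ := by rw [map_inv₀, l.fi]
  rw [SetLike.mem_coe, mem_fx, pow_app, gm_iter_mo, Function.iterate_fixed h1]

/-- Compatibility of the charts. -/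
lemma L2.gl' {μ μ' : G3} {x x' a a' : K} (l : L2 γ p M χ y (fo2 μ) x a)
    (l' : L2 γ p M χ y (fo2 μ') x' a') (hp : p.Prime) (hM : 0 < M) {L : ℕ} (hμ : co1 μ = L)
    (hμ' : co1 μ' = L) {u u' : K} (hu : mo (M • μ) u ∈ C0 k M χ y ⊓ fx (gm G3 γ))
    (hu' : mo (-(M • μ')) u'⁻¹ ∈ C0 k M χ y ⊓ fx (gm G3 γ)) {f : ML K G3} (hf : f ∈ l'.SS)
    {r : K} (hr : r = x' ^ M * ((x ^ M)⁻¹ * (u * u'⁻¹))) :
    ∃ n : ℕ, mo 0 r ^ n * f ∈ l.SS := by
  obtain ⟨n, hn⟩ := l.gl l' hp hf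
  refine ⟨n, ?_⟩
  have hV : mo (fo2 (M • μ + -(M • μ'))) (u * u'⁻¹) ∈ l.SS := by
    have h1 : mo (M • μ + -(M • μ')) (u * u'⁻¹) ∈ C0 k M χ y ⊓ fx (gm G3 γ) := by
      rw [← mo_mul]
      exact Subalgebra.mul_mem _ hu hu'
    have h2 := R1_neg (wr p) (fun i => Int.natCast_nonneg _) (by
      rw [map_add, map_neg, map_nsmul, map_nsmul, hμ, hμ', add_neg_cancel]) h1.1
    have h3 := chd_R1 h2
    rw [chd_mo] at h3
    refine l.W_mem ⟨le_lc _ _ _ h3, ?_⟩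
    have h4 := h1.2
    rw [SetLike.mem_coe, mem_fx, gm_mo] at h4
    rw [SetLike.mem_coe, mem_fx, pow_app, gm_iter_mo, Function.iterate_fixed (mo_inj h4)]
  have hi := Subalgebra.pow_mem _ (l.W_mem l.inv_mem) M
  have hX := l.W_mem (l.mark_mem l')
  have h5 : mo 0 r = mo (fo2 μ') x' ^ M * (mo (-fo2 μ) x⁻¹ ^ M *
      mo (fo2 (M • μ + -(M • μ'))) (u * u'⁻¹)) := by
    rw [mo_pow, mo_pow, mo_mul, mo_mul, hr, inv_pow]
    congr 1
    rw [map_add, map_neg, map_nsmul, map_nsmul, smul_neg]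
    abel
  obtain ⟨e, he⟩ : ∃ e, M = e + 1 := ⟨M - 1, by omega⟩
  have h6 : mo 0 r ^ n * f = ((mo (fo2 μ') x' ^ e) ^ n * (mo (-fo2 μ) x⁻¹ ^ M *
      mo (fo2 (M • μ + -(M • μ'))) (u * u'⁻¹)) ^ n) * (mo (fo2 μ') x' ^ n * f) := by
    have h7 : mo (fo2 μ') x' ^ M = mo (fo2 μ') x' ^ e * mo (fo2 μ') x' := by
      rw [he, pow_succ]
    rw [h5, h7]
    ring
  rw [h6]
  exact Subalgebra.mul_mem _ (Subalgebra.mul_mem _ (Subalgebra.pow_mem _
    (Subalgebra.pow_mem _ hX e) n) (Subalgebra.pow_mem _ (Subalgebra.mul_mem _ hi hV) n)) hn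

variable {A : Type u} [CommRing A] [IsDomain A] [Algebra k A] {g : A →ₐ[k] K}

/-- The atlas in the case of two levels. -/
theorem LD.ma_two [Finite β] (I : IV g γ h y) (D : LD γ h p M ω m χ y) (hp : p.Prime)
    (hpk : (p : k) = 0) (hne : ∃ b, p < m b) :
    ∃ (T : Type u) (_ : Finite T) (E : ℕ) (C : T → Subalgebra k (ML K G3)) (H : T → K),
      MA g E C H := by
  have hpK : ((p : ℕ) : K) = 0 := cast_p (k := k) hpk
  have hσ : ∀ x : K, dl (γ ^ p) x = (dl γ)^[p] x := fun x => by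
    rw [dl_iter_p γ hp hpK, ← pow_app]; rfl
  have hσp : ∀ x : K, (⇑(γ ^ p))^[p] x = x := fun x => by
    rw [← pow_app, ← pow_mul, pow_app, D.gp]
  obtain ⟨J, hJ, μ, x, φ, f, hm, L, N, u, hL, hu, hpa⟩ :=
    D.lev1 hp.pos hσ I hp hpk hσp hne
  have l : ∀ q : Σ t, J t, L2 γ p M χ y (fo2 (μ q.1 q.2)) (x q.1 q.2)
      ((dl (γ ^ p))^[p - 2] (f q.1 q.2) * (x q.1 q.2)⁻¹) := fun q =>
    (hm q.1 q.2).toL2 hp (D.R1_Dn hp.pos hσ)
  have hfxp : ∀ q, ∀ f ∈ (l q).SS, (gm G3 γ)^[p] f = f := fun q f hf => by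
    rw [← pow_app]
    exact mem_fx.1 ((l q).fixed hf)
  obtain ⟨J', hJ', μ', x', φ', f', hm', L', N', u', hL', hu', hpa'⟩ := level_step hpa co2
    (S := fun q => (l q).SS) (fun q => (l q).le D hp _) (fun q => (l q).gr_SS)
    (fun q d b hd hb => (l q).neg _ hd hb)
    (fun q q' f hf => by
      have h1 := (l q).gl' (l q') hp D.M0 (hL _ _) (hL _ _) (hu q).2.1 (hu q').2.2 hf.1 rfl
      obtain ⟨n, hn⟩ := h1
      refine ⟨n, ?_⟩
      have h2 := (hu q).1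
      have h3 := (hu q').1
      have h4 := (l q).ne
      have h5 : 1 ^ N * (x q'.1 q'.2 ^ M / u q') / (1 ^ N * (x q.1 q.2 ^ M / u q)) =
          x q'.1 q'.2 ^ M * ((x q.1 q.2 ^ M)⁻¹ * (u q * (u q')⁻¹)) := by
        rw [one_pow, one_mul, one_mul]
        field_simp
      rw [h5]
      exact hn)
    hp hpk (σ := γ) (ν := dg 0 p 0) (fun _ => rfl) (fun _ hx => hx)
    (fun q => (l q).g_mem hp hpk) (fun q => (l q).D_mem hp hpk) (fun q => (l q).nu_mem) hfxp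
    hp.pos hfxp (fun q => (l q).X2) (fun q => (l q).X2_hom) (fun q => (l q).X2_adj)
    (fun q => (l q).fg D hp hpk)
    (fun q Q hQ hQD d b hdb hX hd => (l q).HQ hp hpk Q hQ hQD d b hdb hX hd)
    (fun q => by
      have h1 := S2_t (gm G3 γ) p (mo (dg 0 1 0) 1) (mo (dg 0 (-1) 0) 1) (l q).WW
        (mo (dg (-1) 0 0) ((dl (γ ^ p))^[p - 2] (f q.1 q.2) * (x q.1 q.2)⁻¹))
        (i := p - 1) (by have := hp.pos; omega)
      rw [Nat.sub_add_cancel hp.one_lt.le, (l q).dlt hp hpk, T_pow, mo_mul, one_mul] at h1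
      refine ⟨_, _, one_ne_zero, ?_, h1⟩
      rw [map_add, co2_dg, co2_dg, zero_add]
      positivity)
  refine ⟨Σ q, J' q, inferInstance, _, _, _, ma_of_pa hpa' ?_⟩
  rintro ⟨q, j⟩
  exact chart_smooth hp hpk (hm' q j) ((l q).D_mem hp hpk) (l q).nu_mem (hfxp q)
    ((l q).smooth D hp hpk)

end two

end Pool.Agent.W559.Mg
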